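import Pool.Agent.Lib.UdB.Cyl

/-!
# Energy bounds for products, compositions and linear functionals
-/

set_option autoImplicit false
set_option linter.unusedSectionVars false
set_option linter.style.haveILetI false

open MeasureTheory
open scoped ENNReal InnerProductSpace ContDiff

namespace Pool.Agent.Lib.UdB

section energy

variable {E E' E'' : Type} [NormedAddCommGroup E] [NormedAddCommGroup E'] [NormedAddCommGroup E'']
  {ι : Type}

@[simp] theorem energy_zero_left (g : List ι → E) : energy 0 g = ‖g []‖ₑ ^ 2 := rfl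

theorem energy_succ (r : ℕ) (g : List ι → E) :
    energy (r + 1) g = ∑' j, energy r (fun l => g (j :: l)) := rfl

theorem energy_fun_zero (r : ℕ) : energy r (fun _ : List ι => (0 : E)) = 0 := by
  induction r with
  | zero => simp
  | succ r ih => simp [energy_succ, ih]

theorem energy_neg (r : ℕ) : ∀ g : List ι → E, energy r (fun l => -g l) = energy r g := by
  induction r with
  | zero => intro g; simp
  | succ r ih => intro g; simp [energy_succ, ih]

theorem enorm_add_sq_le (x y : E) : ‖x + y‖ₑ ^ 2 ≤ 2 * ‖x‖ₑ ^ 2 + 2 * ‖y‖ₑ ^ 2 := by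
  have h1 : ‖x + y‖ₑ ^ 2 ≤ (‖x‖ₑ + ‖y‖ₑ) ^ 2 := by gcongr; exact enorm_add_le x y
  refine h1.trans ?_
  have h2 := ENNReal.rpow_add_le_mul_rpow_add_rpow ‖x‖ₑ ‖y‖ₑ (p := 2) (by norm_num)
  norm_num at h2
  rw [mul_add] at h2
  exact h2

theorem energy_add_le (r : ℕ) : ∀ g h : List ι → E,
    energy r (fun l => g l + h l) ≤ 2 * energy r g + 2 * energy r h := by
  induction r with
  | zero => intro g h; simpa using enorm_add_sq_le (g []) (h [])
  | succ r ih =>
    intro g h
    simp only [energy_succ]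
    rw [← ENNReal.tsum_mul_left, ← ENNReal.tsum_mul_left, ← ENNReal.tsum_add]
    exact ENNReal.tsum_le_tsum fun j => ih _ _

theorem energy_sub_le (r : ℕ) (g h : List ι → E) :
    energy r (fun l => g l - h l) ≤ 2 * energy r g + 2 * energy r h := by
  have := energy_add_le r g (fun l => -h l)
  rw [energy_neg] at this
  simpa [sub_eq_add_neg] using this

theorem energy_sum_le {κ : Type} (s : Finset κ) (r : ℕ) : ∀ (g : κ → List ι → E),
    energy r (fun l => ∑ i ∈ s, g i l) ≤ (s.card : ℝ≥0∞) * ∑ i ∈ s, energy r (g i) := by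
  induction r with
  | zero =>
    intro g
    simp only [energy_zero_left]
    calc ‖∑ i ∈ s, g i []‖ₑ ^ 2 ≤ (∑ i ∈ s, ‖g i []‖ₑ) ^ 2 := by gcongr; exact enorm_sum_le _ _
      _ ≤ (s.card : ℝ≥0∞) * ∑ i ∈ s, ‖g i []‖ₑ ^ 2 := by
        have h := ENNReal.inner_le_Lp_mul_Lq s (fun _ => (1 : ℝ≥0∞)) (fun i => ‖g i []‖ₑ)
          Real.HolderConjugate.two_two
        simp only [one_mul, ENNReal.one_rpow, Finset.sum_const, nsmul_eq_mul, mul_one] at h
        calc (∑ i ∈ s, ‖g i []‖ₑ) ^ 2 ≤ (((s.card : ℝ≥0∞)) ^ (1 / 2 : ℝ) *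
            (∑ i ∈ s, ‖g i []‖ₑ ^ (2 : ℝ)) ^ (1 / 2 : ℝ)) ^ 2 := by gcongr
          _ = _ := by
            rw [mul_pow, ← ENNReal.rpow_natCast, ← ENNReal.rpow_natCast, ← ENNReal.rpow_mul,
              ← ENNReal.rpow_mul]
            norm_num
  | succ r ih =>
    intro g
    simp only [energy_succ]
    have h1 : ∑ i ∈ s, ∑' j, energy r (fun l => g i (j :: l)) =
        ∑' j, ∑ i ∈ s, energy r (fun l => g i (j :: l)) :=
      (Summable.tsum_finsetSum fun i _ => ENNReal.summable).symm
    rw [h1, ← ENNReal.tsum_mul_left]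
    exact ENNReal.tsum_le_tsum fun j => ih _

theorem energy_clm_le [NormedSpace ℝ E] [NormedSpace ℝ E'] (L : E →L[ℝ] E') (r : ℕ) :
    ∀ g : List ι → E, energy r (fun l => L (g l)) ≤ ‖L‖ₑ ^ 2 * energy r g := by
  induction r with
  | zero =>
    intro g
    simp only [energy_zero_left]
    rw [← mul_pow]
    gcongr
    exact L.le_opENorm _
  | succ r ih =>
    intro g
    simp only [energy_succ]
    rw [← ENNReal.tsum_mul_left]
    exact ENNReal.tsum_le_tsum fun j => ih _

/-- Sum over all splits of a list. -/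
def spl (B : E → E' → E'') (F : List ι → E) (G : List ι → E') (l : List ι) : E'' :=
  ((splits l).map fun p => B (F p.1) (G p.2)).sum

theorem spl_nil (B : E → E' → E'') (F : List ι → E) (G : List ι → E') :
    spl B F G [] = B (F []) (G []) := by
  simp [spl, splits]

theorem spl_cons (B : E → E' → E'') (F : List ι → E) (G : List ι → E') (j : ι) (l : List ι) :
    spl B F G (j :: l) = spl B (fun l => F (j :: l)) G l + spl B F (fun l => G (j :: l)) l := by
  simp only [spl, splits, List.map_append, List.map_map, List.sum_append]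
  rfl

/-- The energy of a sum over splits. -/
theorem energy_spl_le {B : E → E' → E''} (hB : ∀ x y, ‖B x y‖ₑ ≤ ‖x‖ₑ * ‖y‖ₑ) (r : ℕ) :
    ∀ (F : List ι → E) (G : List ι → E'), energy r (spl B F G) ≤
      4 ^ r * ∑ p ∈ Finset.HasAntidiagonal.antidiagonal r, energy p.1 F * energy p.2 G := by
  induction r with
  | zero =>
    intro F G
    simp only [energy_zero_left, spl_nil, Finset.Nat.antidiagonal_zero, Finset.sum_singleton, pow_zero,
      one_mul]
    rw [← mul_pow]
    gcongr
    exact hB _ _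
  | succ r ih =>
    intro F G
    rw [energy_succ]
    have h1 : ∀ j, energy r (fun l => spl B F G (j :: l)) ≤
        2 * (4 ^ r * ∑ p ∈ Finset.HasAntidiagonal.antidiagonal r, energy p.1 (fun l => F (j :: l)) * energy p.2 G) +
        2 * (4 ^ r * ∑ p ∈ Finset.HasAntidiagonal.antidiagonal r, energy p.1 F * energy p.2 (fun l => G (j :: l))) := by
      intro j
      simp only [spl_cons]
      refine (energy_add_le r _ _).trans ?_
      gcongr
      · exact ih _ _
      · exact ih _ _
    refine (ENNReal.tsum_le_tsum h1).trans ?_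
    rw [ENNReal.tsum_add, ENNReal.tsum_mul_left, ENNReal.tsum_mul_left, ENNReal.tsum_mul_left,
      ENNReal.tsum_mul_left]
    have e1 : ∑' j, ∑ p ∈ Finset.HasAntidiagonal.antidiagonal r, energy p.1 (fun l => F (j :: l)) * energy p.2 G =
        ∑ p ∈ Finset.HasAntidiagonal.antidiagonal r, energy (p.1 + 1) F * energy p.2 G := by
      rw [Summable.tsum_finsetSum fun i _ => ENNReal.summable]
      refine Finset.sum_congr rfl fun p _ => ?_
      rw [ENNReal.tsum_mul_right, energy_succ]
    have e2 : ∑' j, ∑ p ∈ Finset.HasAntidiagonal.antidiagonal r, energy p.1 F * energy p.2 (fun l => G (j :: l)) =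
        ∑ p ∈ Finset.HasAntidiagonal.antidiagonal r, energy p.1 F * energy (p.2 + 1) G := by
      rw [Summable.tsum_finsetSum fun i _ => ENNReal.summable]
      refine Finset.sum_congr rfl fun p _ => ?_
      rw [ENNReal.tsum_mul_left, energy_succ]
    rw [e1, e2]
    have s1 : ∑ p ∈ Finset.HasAntidiagonal.antidiagonal r, energy (p.1 + 1) F * energy p.2 G ≤
        ∑ p ∈ Finset.HasAntidiagonal.antidiagonal (r + 1), energy p.1 F * energy p.2 G := by
      rw [Finset.Nat.sum_antidiagonal_succ]
      exact le_add_self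
    have s2 : ∑ p ∈ Finset.HasAntidiagonal.antidiagonal r, energy p.1 F * energy (p.2 + 1) G ≤
        ∑ p ∈ Finset.HasAntidiagonal.antidiagonal (r + 1), energy p.1 F * energy p.2 G := by
      rw [Finset.Nat.sum_antidiagonal_succ']
      exact self_le_add_left _ _
    calc _ ≤ 2 * (4 ^ r * ∑ p ∈ Finset.HasAntidiagonal.antidiagonal (r + 1), energy p.1 F * energy p.2 G) +
        2 * (4 ^ r * ∑ p ∈ Finset.HasAntidiagonal.antidiagonal (r + 1), energy p.1 F * energy p.2 G) := by
          gcongr
      _ = _ := by rw [pow_succ]; ring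

theorem energy_spl_le' {B : E → E' → E''} (hB : ∀ x y, ‖B x y‖ₑ ≤ ‖x‖ₑ * ‖y‖ₑ) (r : ℕ)
    (F : List ι → E) (G : List ι → E') : energy r (spl B F G) ≤
      4 ^ r * ((∑ k ∈ Finset.range (r + 1), energy k F) *
        ∑ k ∈ Finset.range (r + 1), energy k G) := by
  refine (energy_spl_le hB r F G).trans ?_
  gcongr
  rw [Finset.sum_mul_sum, ← Finset.sum_product']
  apply Finset.sum_le_sum_of_subset
  intro p hp
  rw [Finset.HasAntidiagonal.mem_antidiagonal] at hp
  rw [Finset.mem_product, Finset.mem_range, Finset.mem_range]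
  omega

theorem measurable_energy [Countable ι] {α : Type} [MeasurableSpace α] [MeasurableSpace E]
    [OpensMeasurableSpace E] (r : ℕ) : ∀ {g : List ι → α → E}, (∀ l, Measurable (g l)) →
    Measurable fun a => energy r (fun l => g l a) := by
  induction r with
  | zero => intro g hg; simpa using (hg []).enorm.pow_const 2
  | succ r ih =>
    intro g hg
    simp only [energy_succ]
    exact Measurable.tsum fun j => ih fun l => hg _

end energy

variable {V : Type} [NormedAddCommGroup V] [InnerProductSpace ℝ V] [FiniteDimensional ℝ V]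
  [MeasurableSpace V] [BorelSpace V]

variable {E E' E'' : Type} [NormedAddCommGroup E] [NormedSpace ℝ E] [NormedAddCommGroup E']
  [NormedSpace ℝ E'] [NormedAddCommGroup E''] [NormedSpace ℝ E'']

variable {ι : Type} (b : HilbertBasis ι ℝ (H V))

/-- Square of the norm of the `r`-th Malliavin derivative. -/
noncomputable def en (r : ℕ) (F : (unitInterval → V) → E) (x : unitInterval → V) : ℝ≥0∞ :=
  energy r (fun l => iterD b l F x)

/-- Square of the Sobolev norm. -/
noncomputable def NN (r : ℕ) (F : (unitInterval → V) → E) (x : unitInterval → V) : ℝ≥0∞ :=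
  ∑ k ∈ Finset.range (r + 1), en b k F x

/-- Square of the Sobolev norm, without the function itself. -/
noncomputable def N1 (r : ℕ) (F : (unitInterval → V) → E) (x : unitInterval → V) : ℝ≥0∞ :=
  ∑ k ∈ Finset.range r, en b (k + 1) F x

theorem en_zero (F : (unitInterval → V) → E) (x : unitInterval → V) :
    en b 0 F x = ‖F x‖ₑ ^ 2 := rfl

theorem en_succ (r : ℕ) (F : (unitInterval → V) → E) (x : unitInterval → V) :
    en b (r + 1) F x = ∑' j, en b r (dirD (primitive (b j)) F) x := rfl

theorem NN_eq (r : ℕ) (F : (unitInterval → V) → E) (x : unitInterval → V) :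
    NN b r F x = N1 b r F x + ‖F x‖ₑ ^ 2 := by
  unfold NN N1
  rw [Finset.sum_range_succ']
  rfl

theorem N1_mono {r r' : ℕ} (h : r ≤ r') (F : (unitInterval → V) → E) (x : unitInterval → V) :
    N1 b r F x ≤ N1 b r' F x :=
  Finset.sum_le_sum_of_subset (Finset.range_mono h)

theorem NN_mono {r r' : ℕ} (h : r ≤ r') (F : (unitInterval → V) → E) (x : unitInterval → V) :
    NN b r F x ≤ NN b r' F x :=
  Finset.sum_le_sum_of_subset (Finset.range_mono (by omega))

theorem en_le_NN {k r : ℕ} (h : k ≤ r) (F : (unitInterval → V) → E) (x : unitInterval → V) :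
    en b k F x ≤ NN b r F x :=
  Finset.single_le_sum (f := fun k => en b k F x) (fun _ _ => zero_le)
    (Finset.mem_range.2 (by omega))

theorem en_le_N1 {k r : ℕ} (h : k < r) (F : (unitInterval → V) → E) (x : unitInterval → V) :
    en b (k + 1) F x ≤ N1 b r F x :=
  Finset.single_le_sum (f := fun k => en b (k + 1) F x) (fun _ _ => zero_le)
    (Finset.mem_range.2 h)

theorem N1_le_NN (r : ℕ) (F : (unitInterval → V) → E) (x : unitInterval → V) :
    N1 b r F x ≤ NN b r F x := by
  rw [NN_eq]; exact le_self_add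

theorem measurable_en [Countable ι] [MeasurableSpace E] [BorelSpace E] (r : ℕ)
    {F : (unitInterval → V) → E} (hF : IsCyl F) : Measurable (en b r F) :=
  measurable_energy r fun l => (hF.iterD b l).measurable

theorem measurable_NN [Countable ι] [MeasurableSpace E] [BorelSpace E] (r : ℕ)
    {F : (unitInterval → V) → E} (hF : IsCyl F) : Measurable (NN b r F) :=
  Finset.measurable_fun_sum _ fun k _ => measurable_en b k hF

theorem measurable_N1 [Countable ι] [MeasurableSpace E] [BorelSpace E] (r : ℕ)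
    {F : (unitInterval → V) → E} (hF : IsCyl F) : Measurable (N1 b r F) :=
  Finset.measurable_fun_sum _ fun k _ => measurable_en b (k + 1) hF

theorem en_add_le (r : ℕ) {F G : (unitInterval → V) → E} (hF : IsCyl F) (hG : IsCyl G)
    (x : unitInterval → V) :
    en b r (fun x => F x + G x) x ≤ 2 * en b r F x + 2 * en b r G x := by
  unfold en
  have h : (fun l => iterD b l (fun x => F x + G x) x) =
      fun l => iterD b l F x + iterD b l G x := by
    ext l; rw [iterD_add b l hF hG]
  rw [h]
  exact energy_add_le r _ _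

theorem en_sub_le (r : ℕ) {F G : (unitInterval → V) → E} (hF : IsCyl F) (hG : IsCyl G)
    (x : unitInterval → V) :
    en b r (fun x => F x - G x) x ≤ 2 * en b r F x + 2 * en b r G x := by
  unfold en
  have h : (fun l => iterD b l (fun x => F x - G x) x) =
      fun l => iterD b l F x - iterD b l G x := by
    ext l; rw [iterD_sub b l hF hG]
  rw [h]
  exact energy_sub_le r _ _

theorem en_sum_le {κ : Type} (s : Finset κ) (r : ℕ) {F : κ → (unitInterval → V) → E}
    (hF : ∀ i ∈ s, IsCyl (F i)) (x : unitInterval → V) :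
    en b r (fun x => ∑ i ∈ s, F i x) x ≤ (s.card : ℝ≥0∞) * ∑ i ∈ s, en b r (F i) x := by
  unfold en
  have h : (fun l => iterD b l (fun x => ∑ i ∈ s, F i x) x) =
      fun l => ∑ i ∈ s, iterD b l (F i) x := by
    ext l; rw [iterD_sum b s l hF]
  rw [h]
  exact energy_sum_le s r _

theorem en_clm_le (L : E →L[ℝ] E') (r : ℕ) {F : (unitInterval → V) → E} (hF : IsCyl F)
    (x : unitInterval → V) : en b r (fun x => L (F x)) x ≤ ‖L‖ₑ ^ 2 * en b r F x := by
  unfold en
  have h : (fun l => iterD b l (fun x => L (F x)) x) = fun l => L (iterD b l F x) := by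
    ext l; rw [iterD_clm b L l hF]
  rw [h]
  exact energy_clm_le L r _

theorem en_const_succ (r : ℕ) (c : E) (x : unitInterval → V) :
    en b (r + 1) (fun _ : unitInterval → V => c) x = 0 := by
  rw [en_succ]
  simp only [dirD_const]
  have h : ∀ r, en b r (fun _ : unitInterval → V => (0 : E)) x = 0 := by
    intro r
    unfold en
    simp only [iterD_zero]
    exact energy_fun_zero r
  simp [h]

/-! ### products -/

theorem en_bilin_le (B : E →L[ℝ] E' →L[ℝ] E'') (hB : ∀ x y, ‖B x y‖ₑ ≤ ‖x‖ₑ * ‖y‖ₑ) (r : ℕ)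
    {F : (unitInterval → V) → E} {G : (unitInterval → V) → E'} (hF : IsCyl F) (hG : IsCyl G)
    (x : unitInterval → V) : en b r (fun x => B (F x) (G x)) x ≤
      4 ^ r * ∑ p ∈ Finset.HasAntidiagonal.antidiagonal r, en b p.1 F x * en b p.2 G x := by
  unfold en
  have h : (fun l => iterD b l (fun x => B (F x) (G x)) x) =
      spl (fun x y => B x y) (fun l => iterD b l F x) (fun l => iterD b l G x) := by
    ext l; exact iterD_bilin b B l hF hG x
  rw [h]
  exact energy_spl_le hB r _ _

theorem en_mul_le {R : Type} [NormedRing R] [NormedAlgebra ℝ R] (r : ℕ)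
    {F G : (unitInterval → V) → R} (hF : IsCyl F) (hG : IsCyl G)
    (x : unitInterval → V) : en b r (fun x => F x * G x) x ≤
      4 ^ r * ∑ p ∈ Finset.HasAntidiagonal.antidiagonal r, en b p.1 F x * en b p.2 G x :=
  en_bilin_le b (ContinuousLinearMap.mul ℝ R) (fun x y => by
    have := norm_mul_le x y
    simp only [ContinuousLinearMap.mul_apply']
    rw [← ofReal_norm, ← ofReal_norm, ← ofReal_norm, ← ENNReal.ofReal_mul (norm_nonneg _)]
    exact ENNReal.ofReal_le_ofReal this) r hF hG x

theorem en_smul_le (r : ℕ) {F : (unitInterval → V) → ℝ} {G : (unitInterval → V) → E}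
    (hF : IsCyl F) (hG : IsCyl G) (x : unitInterval → V) : en b r (fun x => F x • G x) x ≤
      4 ^ r * ∑ p ∈ Finset.HasAntidiagonal.antidiagonal r, en b p.1 F x * en b p.2 G x :=
  en_bilin_le b (ContinuousLinearMap.lsmul ℝ ℝ) (fun x y => by
    simp only [ContinuousLinearMap.lsmul_apply]
    rw [enorm_smul]) r hF hG x

theorem sum_antidiagonal_le {r k : ℕ} (h : k ≤ r) (f g : ℕ → ℝ≥0∞) :
    ∑ p ∈ Finset.HasAntidiagonal.antidiagonal k, f p.1 * g p.2 ≤
      (∑ i ∈ Finset.range (r + 1), f i) * ∑ i ∈ Finset.range (r + 1), g i := by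
  rw [Finset.sum_mul_sum, ← Finset.sum_product']
  apply Finset.sum_le_sum_of_subset
  intro p hp
  rw [Finset.HasAntidiagonal.mem_antidiagonal] at hp
  rw [Finset.mem_product, Finset.mem_range, Finset.mem_range]
  omega

theorem NN_bilin_le (B : E →L[ℝ] E' →L[ℝ] E'') (hB : ∀ x y, ‖B x y‖ₑ ≤ ‖x‖ₑ * ‖y‖ₑ) (r : ℕ)
    {F : (unitInterval → V) → E} {G : (unitInterval → V) → E'} (hF : IsCyl F) (hG : IsCyl G)
    (x : unitInterval → V) : NN b r (fun x => B (F x) (G x)) x ≤
      ((r + 1 : ℕ) * 4 ^ r) * (NN b r F x * NN b r G x) := by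
  have h1 : ∀ k ∈ Finset.range (r + 1), en b k (fun x => B (F x) (G x)) x ≤
      4 ^ r * (NN b r F x * NN b r G x) := by
    intro k hk
    rw [Finset.mem_range] at hk
    refine (en_bilin_le b B hB k hF hG x).trans ?_
    apply mul_le_mul' (pow_le_pow_right₀ (by norm_num) (by omega))
    exact sum_antidiagonal_le (by omega) (fun k => en b k F x) (fun k => en b k G x)
  refine (Finset.sum_le_sum h1).trans (le_of_eq ?_)
  rw [Finset.sum_const, Finset.card_range, nsmul_eq_mul]
  ring

theorem NN_mul_le {R : Type} [NormedRing R] [NormedAlgebra ℝ R] (r : ℕ)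
    {F G : (unitInterval → V) → R} (hF : IsCyl F) (hG : IsCyl G)
    (x : unitInterval → V) : NN b r (fun x => F x * G x) x ≤
      ((r + 1 : ℕ) * 4 ^ r) * (NN b r F x * NN b r G x) :=
  NN_bilin_le b (ContinuousLinearMap.mul ℝ R) (fun x y => by
    have := norm_mul_le x y
    simp only [ContinuousLinearMap.mul_apply']
    rw [← ofReal_norm, ← ofReal_norm, ← ofReal_norm, ← ENNReal.ofReal_mul (norm_nonneg _)]
    exact ENNReal.ofReal_le_ofReal this) r hF hG x

theorem NN_smul_le (r : ℕ) {F : (unitInterval → V) → ℝ} {G : (unitInterval → V) → E}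
    (hF : IsCyl F) (hG : IsCyl G) (x : unitInterval → V) : NN b r (fun x => F x • G x) x ≤
      ((r + 1 : ℕ) * 4 ^ r) * (NN b r F x * NN b r G x) :=
  NN_bilin_le b (ContinuousLinearMap.lsmul ℝ ℝ) (fun x y => by
    simp only [ContinuousLinearMap.lsmul_apply]
    rw [enorm_smul]) r hF hG x

/-! ### compositions -/

/-- `∑_{k ≤ r} ‖f^{(k)}(y)‖²` -/
noncomputable def DD (r : ℕ) (f : ℝ → E) (y : ℝ) : ℝ≥0∞ :=
  ∑ k ∈ Finset.range (r + 1), ‖iteratedDeriv k f y‖ₑ ^ 2

theorem DD_deriv_le (r : ℕ) (f : ℝ → E) (y : ℝ) : DD r (deriv f) y ≤ DD (r + 1) f y := by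
  unfold DD
  rw [Finset.sum_range_succ' (n := r + 1)]
  refine le_trans (le_of_eq ?_) le_self_add
  refine Finset.sum_congr rfl fun k _ => ?_
  rw [iteratedDeriv_succ']

theorem DD_mono {r r' : ℕ} (h : r ≤ r') (f : ℝ → E) (y : ℝ) : DD r f y ≤ DD r' f y :=
  Finset.sum_le_sum_of_subset (Finset.range_mono (by omega))

theorem en_comp_step (r : ℕ) {F : (unitInterval → V) → ℝ} (hF : IsCyl F) {f : ℝ → E}
    (hf : f.HasTemperateGrowth) (x : unitInterval → V) :
    en b (r + 1) (fun x => f (F x)) x ≤
      4 ^ r * ∑ p ∈ Finset.HasAntidiagonal.antidiagonal r, en b (p.1 + 1) F x *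
        en b p.2 (fun x => deriv f (F x)) x := by
  rw [en_succ]
  have hd : Differentiable ℝ f := hf.1.differentiable (by simp)
  have hdc : IsCyl (fun x : unitInterval → V => deriv f (F x)) := hF.comp (tg_deriv hf)
  have h1 : ∀ j, en b r (dirD (primitive (b j)) (fun x => f (F x))) x ≤
      4 ^ r * ∑ p ∈ Finset.HasAntidiagonal.antidiagonal r, en b p.1 (dirD (primitive (b j)) F) x *
        en b p.2 (fun x => deriv f (F x)) x := by
    intro j
    rw [dirD_comp hF hd]
    exact en_smul_le b r (hF.dirD _) hdc x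
  refine (ENNReal.tsum_le_tsum h1).trans (le_of_eq ?_)
  rw [ENNReal.tsum_mul_left, Summable.tsum_finsetSum fun i _ => ENNReal.summable]
  congr 1
  refine Finset.sum_congr rfl fun p _ => ?_
  rw [ENNReal.tsum_mul_right, en_succ]

theorem comp_aux {m r : ℕ} (h : m ≤ r) {F : (unitInterval → V) → ℝ} {x : unitInterval → V}
    {f : ℝ → E} : 4 ^ (m * m) * (DD m (deriv f) (F x) * (1 + N1 b m F x) ^ m) ≤
      4 ^ (r * r) * (DD (r + 1) f (F x) * (1 + N1 b (r + 1) F x) ^ r) := by
  refine mul_le_mul' ?_ (mul_le_mul' ?_ ?_)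
  · exact pow_le_pow_right₀ (by norm_num) (Nat.mul_le_mul h h)
  · exact (DD_deriv_le _ _ _).trans (DD_mono (by omega) _ _)
  · calc (1 + N1 b m F x) ^ m ≤ (1 + N1 b (r + 1) F x) ^ m := by
          gcongr; exact N1_mono b (by omega) F x
      _ ≤ (1 + N1 b (r + 1) F x) ^ r := pow_le_pow_right₀ le_self_add h

theorem en_comp_le_aux (r : ℕ) {F : (unitInterval → V) → ℝ} (hF : IsCyl F) (x : unitInterval → V) :
    ∀ {f : ℝ → E}, f.HasTemperateGrowth →
    en b r (fun x => f (F x)) x ≤ 4 ^ (r * r) * (DD r f (F x) * (1 + N1 b r F x) ^ r) := by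
  induction r using Nat.strong_induction_on with
  | _ r ih =>
    intro f hf
    rcases r with _ | r
    · simp [en_zero, DD]
    · refine (en_comp_step b r hF hf x).trans ?_
      have h1 : ∀ p ∈ Finset.HasAntidiagonal.antidiagonal r, en b (p.1 + 1) F x *
          en b p.2 (fun x => deriv f (F x)) x ≤ en b (p.1 + 1) F x *
          (4 ^ (r * r) * (DD (r + 1) f (F x) * (1 + N1 b (r + 1) F x) ^ r)) := by
        intro p hp
        rw [Finset.HasAntidiagonal.mem_antidiagonal] at hp
        refine mul_le_mul' le_rfl ?_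
        refine (ih p.2 (by omega) (tg_deriv hf)).trans ?_
        exact comp_aux b (by omega)
      have h2 : ∑ p ∈ Finset.HasAntidiagonal.antidiagonal r, en b (p.1 + 1) F x = N1 b (r + 1) F x := by
        rw [Finset.Nat.sum_antidiagonal_eq_sum_range_succ_mk]
        rfl
      calc 4 ^ r * ∑ p ∈ Finset.HasAntidiagonal.antidiagonal r, en b (p.1 + 1) F x *
            en b p.2 (fun x => deriv f (F x)) x
          ≤ 4 ^ r * ∑ p ∈ Finset.HasAntidiagonal.antidiagonal r, en b (p.1 + 1) F x *
          (4 ^ (r * r) * (DD (r + 1) f (F x) * (1 + N1 b (r + 1) F x) ^ r)) := by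
            exact mul_le_mul' le_rfl (Finset.sum_le_sum h1)
        _ = 4 ^ (r + r * r) * (DD (r + 1) f (F x) * (N1 b (r + 1) F x *
            (1 + N1 b (r + 1) F x) ^ r)) := by
            rw [← Finset.sum_mul, h2, pow_add]; ring
        _ ≤ 4 ^ ((r + 1) * (r + 1)) * (DD (r + 1) f (F x) * (1 + N1 b (r + 1) F x) ^ (r + 1)) := by
            rw [pow_succ (1 + N1 b (r + 1) F x) r, mul_comm (N1 b (r + 1) F x)]
            gcongr
            · norm_num
            · nlinarith
            · exact le_add_self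

/-- Composition with a function of temperate growth. -/
theorem en_comp_le (r : ℕ) {F : (unitInterval → V) → ℝ} (hF : IsCyl F) {f : ℝ → E}
    (hf : f.HasTemperateGrowth) (x : unitInterval → V) :
    en b (r + 1) (fun x => f (F x)) x ≤ 4 ^ ((r + 1) * (r + 1)) * (DD (r + 1) f (F x) *
      (N1 b (r + 1) F x * (1 + N1 b (r + 1) F x) ^ r)) := by
  refine (en_comp_step b r hF hf x).trans ?_
  have h1 : ∀ p ∈ Finset.HasAntidiagonal.antidiagonal r, en b (p.1 + 1) F x *
      en b p.2 (fun x => deriv f (F x)) x ≤ en b (p.1 + 1) F x *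
      (4 ^ (r * r) * (DD (r + 1) f (F x) * (1 + N1 b (r + 1) F x) ^ r)) := by
    intro p hp
    rw [Finset.HasAntidiagonal.mem_antidiagonal] at hp
    refine mul_le_mul' le_rfl ?_
    refine (en_comp_le_aux b p.2 hF x (tg_deriv hf)).trans ?_
    exact comp_aux b (by omega)
  have h2 : ∑ p ∈ Finset.HasAntidiagonal.antidiagonal r, en b (p.1 + 1) F x = N1 b (r + 1) F x := by
    rw [Finset.Nat.sum_antidiagonal_eq_sum_range_succ_mk]
    rfl
  calc 4 ^ r * ∑ p ∈ Finset.HasAntidiagonal.antidiagonal r, en b (p.1 + 1) F x *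
        en b p.2 (fun x => deriv f (F x)) x
      ≤ 4 ^ r * ∑ p ∈ Finset.HasAntidiagonal.antidiagonal r, en b (p.1 + 1) F x *
      (4 ^ (r * r) * (DD (r + 1) f (F x) * (1 + N1 b (r + 1) F x) ^ r)) := by
        exact mul_le_mul' le_rfl (Finset.sum_le_sum h1)
    _ = 4 ^ (r + r * r) * (DD (r + 1) f (F x) * (N1 b (r + 1) F x *
        (1 + N1 b (r + 1) F x) ^ r)) := by
        rw [← Finset.sum_mul, h2, pow_add]; ring
    _ ≤ _ := by
        gcongr
        · norm_num
        · nlinarith

/-- Composition, all orders. -/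
theorem N1_comp_le (r : ℕ) {F : (unitInterval → V) → ℝ} (hF : IsCyl F) {f : ℝ → E}
    (hf : f.HasTemperateGrowth) (x : unitInterval → V) :
    N1 b r (fun x => f (F x)) x ≤ (r * 4 ^ (r * r)) * (DD r f (F x) *
      (N1 b r F x * (1 + N1 b r F x) ^ r)) := by
  have h : ∀ k ∈ Finset.range r, en b (k + 1) (fun x => f (F x)) x ≤
      4 ^ (r * r) * (DD r f (F x) * (N1 b r F x * (1 + N1 b r F x) ^ r)) := by
    intro k hk
    rw [Finset.mem_range] at hk
    refine (en_comp_le b k hF hf x).trans ?_
    have h3 : (1 + N1 b (k + 1) F x) ^ k ≤ (1 + N1 b r F x) ^ r :=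
      calc (1 + N1 b (k + 1) F x) ^ k ≤ (1 + N1 b r F x) ^ k := by
            gcongr; exact N1_mono b (by omega) F x
        _ ≤ (1 + N1 b r F x) ^ r := pow_le_pow_right₀ le_self_add (by omega)
    refine mul_le_mul' ?_ (mul_le_mul' ?_ (mul_le_mul' ?_ h3))
    · exact pow_le_pow_right₀ (by norm_num) (Nat.mul_le_mul (by omega) (by omega))
    · exact DD_mono (by omega) _ _
    · exact N1_mono b (by omega) F x
  refine (Finset.sum_le_sum h).trans (le_of_eq ?_)
  rw [Finset.sum_const, Finset.card_range, nsmul_eq_mul]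
  ring

/-! ### linear functionals -/

/-- `theta c` as an element of `L²`. -/
noncomputable def thetaL (c : unitInterval →₀ V) : H V := (memLp_theta c 2).toLp (theta c)

theorem inner_indicator_primitive (f : H V) (t : unitInterval) (v : V) :
    ⟪v, primitive f t⟫_ℝ = ∫ s, ⟪(if s ≤ t then v else 0 : V), f s⟫_ℝ := by
  have hf : Integrable f (volume : Measure unitInterval) :=
    (Lp.memLp f).integrable (by norm_num)
  unfold primitive
  rw [← integral_inner hf.integrableOn v, ← integral_indicator measurableSet_Iic]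
  congr 1
  ext s
  by_cases h : s ≤ t
  · rw [Set.indicator_of_mem (show s ∈ Set.Iic t from h), if_pos h]
  · rw [Set.indicator_of_notMem (show s ∉ Set.Iic t from h), if_neg h, inner_zero_left]

theorem integrable_inner_ite (f : H V) (t : unitInterval) (v : V) :
    Integrable (fun s => ⟪(if s ≤ t then v else 0 : V), f s⟫_ℝ) := by
  have hf : Integrable f (volume : Measure unitInterval) :=
    (Lp.memLp f).integrable (by norm_num)
  have h1 : (fun s => ⟪(if s ≤ t then v else 0 : V), f s⟫_ℝ) =
      (Set.Iic t).indicator (fun s => ⟪v, f s⟫_ℝ) := by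
    ext s
    by_cases h : s ≤ t
    · rw [Set.indicator_of_mem (show s ∈ Set.Iic t from h), if_pos h]
    · rw [Set.indicator_of_notMem (show s ∉ Set.Iic t from h), if_neg h, inner_zero_left]
  rw [h1]
  exact (hf.const_inner v).indicator measurableSet_Iic

theorem pair_primitive (c : unitInterval →₀ V) (f : H V) :
    pair c (primitive f) = ⟪thetaL c, f⟫_ℝ := by
  rw [L2.inner_def]
  have h1 : ∫ s, ⟪(thetaL c : unitInterval → V) s, f s⟫_ℝ = ∫ s, ⟪theta c s, f s⟫_ℝ := by
    apply integral_congr_ae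
    filter_upwards [(memLp_theta c 2).coeFn_toLp] with s hs
    rw [thetaL, hs]
  rw [h1]
  unfold pair theta Finsupp.sum
  simp only [inner_indicator_primitive, sum_inner]
  rw [integral_finsetSum]
  intro t _
  exact integrable_inner_ite f t (c t)

theorem norm_thetaL_sq (c : unitInterval →₀ V) : ‖thetaL c‖ ^ 2 = Qf c := by
  rw [← real_inner_self_eq_norm_sq, L2.inner_def]
  unfold Qf Bf
  apply integral_congr_ae
  filter_upwards [(memLp_theta c 2).coeFn_toLp] with s hs
  rw [thetaL, hs]

theorem tsum_inner_sq (f : H V) : ∑' j, ‖⟪f, b j⟫_ℝ‖ₑ ^ 2 = ENNReal.ofReal (‖f‖ ^ 2) := by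
  have h := b.hasSum_inner_mul_inner f f
  have h2 : ∀ j, ⟪f, b j⟫_ℝ * ⟪b j, f⟫_ℝ = ⟪f, b j⟫_ℝ ^ 2 := by
    intro j; rw [real_inner_comm f (b j), pow_two]
  simp only [h2] at h
  rw [real_inner_self_eq_norm_sq] at h
  rw [← h.tsum_eq, ENNReal.ofReal_tsum_of_nonneg (fun j => sq_nonneg _) h.summable]
  congr 1
  ext j
  rw [← ofReal_norm, ← ENNReal.ofReal_pow (norm_nonneg _), Real.norm_eq_abs, sq_abs]

theorem en_one_pair (c : unitInterval →₀ V) (x : unitInterval → V) :
    en b 1 (pair c) x = ENNReal.ofReal (Qf c) := by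
  rw [en_succ]
  simp only [dirD_pair, en_zero, pair_primitive]
  rw [tsum_inner_sq, norm_thetaL_sq]

theorem en_one_pair_le (c : unitInterval →₀ V) (x : unitInterval → V) :
    en b 1 (pair c) x ≤ ENNReal.ofReal (Qf c) := (en_one_pair b c x).le

theorem en_pair_add_two (r : ℕ) (c : unitInterval →₀ V) (x : unitInterval → V) :
    en b (r + 2) (pair c) x = 0 := by
  rw [en_succ]
  simp only [dirD_pair, en_const_succ]
  simp

theorem N1_pair_le (r : ℕ) (c : unitInterval →₀ V) (x : unitInterval → V) :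
    N1 b r (pair c) x ≤ ENNReal.ofReal (Qf c) := by
  unfold N1
  rcases r with _ | r
  · simp
  · rw [Finset.sum_range_succ']
    simp only [en_pair_add_two, zero_add]
    simp [en_one_pair]

end Pool.Agent.Lib.UdB
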