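import Pool.Agent.Lib.UdB.Step
import Pool.Agent.Lib.UdB.Energy

/-!
# Functionals of the past and of the future increments
-/

set_option autoImplicit false
set_option linter.unusedSectionVars false

open MeasureTheory
open scoped ENNReal NNReal InnerProductSpace

namespace Pool.Agent.Lib.UdB

variable {V : Type} [NormedAddCommGroup V] [InnerProductSpace ℝ V] [FiniteDimensional ℝ V]
  [MeasurableSpace V] [BorelSpace V]
variable {E : Type} [NormedAddCommGroup E] [NormedSpace ℝ E]
variable {ι : Type} (b : HilbertBasis ι ℝ (H V))

/-- Functionals which depend only on the increments after `u`. -/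
def PostTo {V E : Type} [NormedAddCommGroup V] (u : unitInterval) (f : (unitInterval → V) → E) :
    Prop := ∀ x y : unitInterval → V, f (conc u (x, y)) = f y

theorem conc_add (u : unitInterval) (x y x' y' : unitInterval → V) :
    conc u (x + x', y + y') = conc u (x, y) + conc u (x', y') := by
  funext t
  simp only [conc, Pi.add_apply]
  abel

theorem conc_smul (u : unitInterval) (a : ℝ) (x y : unitInterval → V) :
    conc u (a • x, a • y) = a • conc u (x, y) := by
  funext t
  simp only [conc, Pi.smul_apply, smul_add, smul_sub]

theorem conc_self (u : unitInterval) (x : unitInterval → V) : conc u (x, x) = x := by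
  funext t
  simp [conc]

theorem DepTo.dirD {u : unitInterval} {F : (unitInterval → V) → E} (hF : DepTo u F)
    (v : unitInterval → V) : DepTo u (dirD v F) := by
  intro x y hxy
  unfold UdB.dirD
  have : (fun ε : ℝ => F (x + ε • v)) = fun ε : ℝ => F (y + ε • v) := by
    funext ε
    refine hF _ _ fun s hs => ?_
    simp only [Pi.add_apply, hxy s hs]
  rw [this]

theorem DepTo.iterD {u : unitInterval} (l : List ι) : ∀ {F : (unitInterval → V) → E},
    DepTo u F → DepTo u (iterD b l F) := by
  induction l with
  | nil => intro F hF; exact hF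
  | cons j l ih => intro F hF; exact ih (hF.dirD _)

theorem PostTo.dirD {u : unitInterval} {F : (unitInterval → V) → E} (hF : PostTo u F)
    (v : unitInterval → V) : PostTo u (dirD v F) := by
  intro x y
  unfold UdB.dirD
  have : (fun ε : ℝ => F (conc u (x, y) + ε • v)) = fun ε : ℝ => F (y + ε • v) := by
    funext ε
    have h1 : conc u (x, y) + ε • v = conc u (x + ε • v, y + ε • v) := by
      rw [conc_add, conc_smul, conc_self]
    rw [h1, hF]
  rw [this]

theorem PostTo.iterD {u : unitInterval} (l : List ι) : ∀ {F : (unitInterval → V) → E},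
    PostTo u F → PostTo u (iterD b l F) := by
  induction l with
  | nil => intro F hF; exact hF
  | cons j l ih => intro F hF; exact ih (hF.dirD _)

theorem DepTo.en {u : unitInterval} (r : ℕ) {F : (unitInterval → V) → E} (hF : DepTo u F) :
    DepTo u (en b r F) := by
  intro x y hxy
  unfold UdB.en
  have : (fun l => UdB.iterD b l F x) = fun l => UdB.iterD b l F y := by
    funext l; exact hF.iterD b l x y hxy
  rw [this]

theorem PostTo.en {u : unitInterval} (r : ℕ) {F : (unitInterval → V) → E} (hF : PostTo u F) :
    PostTo u (en b r F) := by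
  intro x y
  unfold UdB.en
  have : (fun l => UdB.iterD b l F (UdB.conc u (x, y))) = fun l => UdB.iterD b l F y := by
    funext l; exact hF.iterD b l x y
  rw [this]

theorem DepTo.NN {u : unitInterval} (r : ℕ) {F : (unitInterval → V) → E} (hF : DepTo u F) :
    DepTo u (NN b r F) := by
  intro x y hxy
  unfold UdB.NN
  exact Finset.sum_congr rfl fun k _ => hF.en b k x y hxy

theorem PostTo.NN {u : unitInterval} (r : ℕ) {F : (unitInterval → V) → E} (hF : PostTo u F) :
    PostTo u (NN b r F) := by
  intro x y
  unfold UdB.NN
  exact Finset.sum_congr rfl fun k _ => hF.en b k x y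

theorem PostTo.comp {α β : Type} {V : Type} [NormedAddCommGroup V] {u : unitInterval}
    {F : (unitInterval → V) → α} (hF : PostTo u F) (f : α → β) : PostTo u (fun x => f (F x)) :=
  fun x y => congrArg f (hF x y)

theorem DepTo.comp {α β : Type} {V : Type} {u : unitInterval}
    {F : (unitInterval → V) → α} (hF : DepTo u F) (f : α → β) : DepTo u (fun x => f (F x)) :=
  fun x y h => congrArg f (hF x y h)

theorem DepTo.comp₂ {α β γ : Type} {V : Type} {u : unitInterval}
    {F : (unitInterval → V) → α} {G : (unitInterval → V) → β} (hF : DepTo u F) (hG : DepTo u G)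
    (f : α → β → γ) : DepTo u (fun x => f (F x) (G x)) :=
  fun x y h => congrArg₂ f (hF x y h) (hG x y h)

theorem PostTo.comp₂ {α β γ : Type} {V : Type} [NormedAddCommGroup V] {u : unitInterval}
    {F : (unitInterval → V) → α} {G : (unitInterval → V) → β} (hF : PostTo u F) (hG : PostTo u G)
    (f : α → β → γ) : PostTo u (fun x => f (F x) (G x)) :=
  fun x y => congrArg₂ f (hF x y) (hG x y)

theorem DepTo.pair {u : unitInterval} {c : unitInterval →₀ V} (hc : ∀ t ∈ c.support, t ≤ u) :
    DepTo u (pair c) := by
  intro x y hxy
  unfold UdB.pair Finsupp.sum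
  refine Finset.sum_congr rfl fun t ht => ?_
  simp only
  rw [hxy t (hc t ht)]

/-- Independence of the past and of the future increments. -/
theorem IsWR.lintegral_mul {ν : Measure (unitInterval → V)} (hν : IsWR ν) {u : unitInterval}
    {f h : (unitInterval → V) → ℝ≥0∞} (hf : Measurable f) (hh : Measurable h)
    (df : DepTo u f) (dh : PostTo u h) :
    ∫⁻ x, f x * h x ∂ν = (∫⁻ x, f x ∂ν) * ∫⁻ x, h x ∂ν := by
  have := hν.prob
  have h0 := (hν.conc u).lintegral_comp (f := fun x => f x * h x) (hf.mul hh)
  rw [← h0]
  have h1 : ∀ z : (unitInterval → V) × (unitInterval → V),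
      f (UdB.conc u z) * h (UdB.conc u z) = f z.1 * h z.2 := by
    rintro ⟨x, y⟩
    rw [df.conc x y, dh x y]
  simp only [h1]
  exact lintegral_prod_mul hf.aemeasurable hh.aemeasurable

end Pool.Agent.Lib.UdB
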