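import Mathlib

/-!
# The smooth transition function
-/

set_option autoImplicit false

open Set Filter
open scoped Topology ContDiff

namespace Pool.Agent.Lib.UdB

/-- The smooth transition function. -/
noncomputable abbrev sg : ℝ → ℝ := Real.smoothTransition

theorem sg_contDiff : ContDiff ℝ ∞ sg := Real.smoothTransition.contDiff

theorem sg_zero {x : ℝ} (hx : x ≤ 0) : sg x = 0 := Real.smoothTransition.zero_of_nonpos hx

theorem sg_one {x : ℝ} (hx : 1 ≤ x) : sg x = 1 := Real.smoothTransition.one_of_one_le hx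

theorem sg_nonneg (x : ℝ) : 0 ≤ sg x := Real.smoothTransition.nonneg x

theorem sg_le_one (x : ℝ) : sg x ≤ 1 := Real.smoothTransition.le_one x

theorem sg_symm (x : ℝ) : sg (1 - x) = 1 - sg x := by
  unfold sg Real.smoothTransition
  have h1 := (Real.smoothTransition.pos_denom x).ne'
  have h2 : 1 - (1 - x) = x := by ring
  rw [h2]
  have h3 : expNegInvGlue (1 - x) + expNegInvGlue x ≠ 0 := by rwa [add_comm]
  field_simp
  ring

theorem iteratedDeriv_sg_neg (k : ℕ) {x : ℝ} (hx : x ≤ 0) : iteratedDeriv k sg x = 0 := by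
  have h1 : ∀ y < 0, iteratedDeriv k sg y = 0 := by
    intro y hy
    have h2 : sg =ᶠ[𝓝 y] fun _ => (0 : ℝ) := by
      filter_upwards [Iio_mem_nhds hy] with z hz
      exact sg_zero (le_of_lt hz)
    rw [h2.iteratedDeriv_eq]
    simp
  have h3 : Continuous (iteratedDeriv k sg) :=
    sg_contDiff.continuous_iteratedDeriv k (by exact_mod_cast le_top)
  have h4 : Set.EqOn (iteratedDeriv k sg) (fun _ => 0) (closure (Iio 0)) :=
    Set.EqOn.closure (fun y hy => h1 y hy) h3 continuous_const
  exact h4 (by rw [closure_Iio]; exact hx)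

theorem iteratedDeriv_sg_one {k : ℕ} (hk : k ≠ 0) {x : ℝ} (hx : 1 ≤ x) :
    iteratedDeriv k sg x = 0 := by
  have h1 : ∀ y, 1 < y → iteratedDeriv k sg y = 0 := by
    intro y hy
    have h2 : sg =ᶠ[𝓝 y] fun _ => (1 : ℝ) := by
      filter_upwards [Ioi_mem_nhds hy] with z hz
      exact sg_one (le_of_lt hz)
    rw [h2.iteratedDeriv_eq, iteratedDeriv_const]
    simp [hk]
  have h3 : Continuous (iteratedDeriv k sg) :=
    sg_contDiff.continuous_iteratedDeriv k (by exact_mod_cast le_top)
  have h4 : Set.EqOn (iteratedDeriv k sg) (fun _ => 0) (closure (Ioi 1)) :=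
    Set.EqOn.closure (fun y hy => h1 y hy) h3 continuous_const
  exact h4 (by rw [closure_Ioi]; exact hx)

theorem exists_bound_sg (k : ℕ) : ∃ C : ℝ, 0 ≤ C ∧ ∀ x, ‖iteratedDeriv k sg x‖ ≤ C := by
  have h3 : Continuous (iteratedDeriv k sg) :=
    sg_contDiff.continuous_iteratedDeriv k (by exact_mod_cast le_top)
  obtain ⟨C, hC⟩ := (isCompact_Icc (a := (0 : ℝ)) (b := 1)).exists_bound_of_continuousOn
    h3.continuousOn
  refine ⟨max C 1, le_trans zero_le_one (le_max_right _ _), fun x => ?_⟩
  rcases le_or_gt x 0 with h | h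
  · rw [iteratedDeriv_sg_neg k h, norm_zero]
    exact le_trans zero_le_one (le_max_right _ _)
  · rcases le_or_gt x 1 with h' | h'
    · exact (hC x ⟨h.le, h'⟩).trans (le_max_left _ _)
    · rcases eq_or_ne k 0 with rfl | hk
      · rw [iteratedDeriv_zero, sg_one h'.le]
        simp
      · rw [iteratedDeriv_sg_one hk h'.le, norm_zero]
        exact le_trans zero_le_one (le_max_right _ _)

/-- A bound for the derivatives of the transition function. -/
noncomputable def sgB (k : ℕ) : ℝ := (exists_bound_sg k).choose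

theorem sgB_nonneg (k : ℕ) : 0 ≤ sgB k := (exists_bound_sg k).choose_spec.1

theorem norm_iteratedDeriv_sg_le (k : ℕ) (x : ℝ) : ‖iteratedDeriv k sg x‖ ≤ sgB k :=
  (exists_bound_sg k).choose_spec.2 x

theorem sg_temperate : Function.HasTemperateGrowth sg := by
  refine ⟨sg_contDiff, fun n => ⟨0, sgB n, fun x => ?_⟩⟩
  rw [norm_iteratedFDeriv_eq_norm_iteratedDeriv, pow_zero, mul_one]
  exact norm_iteratedDeriv_sg_le n x

theorem norm_deriv_sg_le (x : ℝ) : ‖deriv sg x‖ ≤ sgB 1 := by
  have := norm_iteratedDeriv_sg_le 1 x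
  rwa [iteratedDeriv_one] at this

theorem continuous_deriv_sg : Continuous (deriv sg) := by
  have := sg_contDiff.continuous_iteratedDeriv 1 (by exact_mod_cast le_top)
  rwa [iteratedDeriv_one] at this

theorem deriv_sg_neg {x : ℝ} (hx : x ≤ 0) : deriv sg x = 0 := by
  have := iteratedDeriv_sg_neg 1 hx
  rwa [iteratedDeriv_one] at this

theorem deriv_sg_one {x : ℝ} (hx : 1 ≤ x) : deriv sg x = 0 := by
  have := iteratedDeriv_sg_one one_ne_zero hx
  rwa [iteratedDeriv_one] at this

theorem hasDerivAt_sg (x : ℝ) : HasDerivAt sg (deriv sg x) x :=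
  (sg_contDiff.differentiable (by simp) x).hasDerivAt

/-- The tent function: `0` outside `[a+q, a+4q]`, `1` on `[a+2q, a+3q]`. -/
noncomputable def tent (a q r : ℝ) : ℝ := sg ((r - a - q) / q) * sg ((a + 4 * q - r) / q)

/-- The derivative of the tent function. -/
noncomputable def tent' (a q r : ℝ) : ℝ :=
  deriv sg ((r - a - q) / q) / q * sg ((a + 4 * q - r) / q) -
    sg ((r - a - q) / q) * (deriv sg ((a + 4 * q - r) / q) / q)

theorem hasDerivAt_tent (a q r : ℝ) : HasDerivAt (tent a q) (tent' a q r) r := by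
  have h1 : HasDerivAt (fun r => (r - a - q) / q) (1 / q) r := by
    have := ((((hasDerivAt_id r).sub_const a).sub_const q).div_const q)
    exact this
  have h2 : HasDerivAt (fun r => (a + 4 * q - r) / q) (-1 / q) r := by
    have := (((hasDerivAt_id r).const_sub (a + 4 * q)).div_const q)
    exact this
  have h3 := (hasDerivAt_sg ((r - a - q) / q)).comp r h1
  have h4 := (hasDerivAt_sg ((a + 4 * q - r) / q)).comp r h2
  have h5 := h3.mul h4
  unfold tent tent'
  refine h5.congr_deriv ?_
  simp only [Function.comp_apply]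
  ring

theorem tent_nonneg (a q r : ℝ) : 0 ≤ tent a q r := mul_nonneg (sg_nonneg _) (sg_nonneg _)

theorem tent_le_one (a q r : ℝ) : tent a q r ≤ 1 :=
  mul_le_one₀ (sg_le_one _) (sg_nonneg _) (sg_le_one _)

theorem tent_left {a q r : ℝ} (hq : 0 < q) (h : r ≤ a + q) : tent a q r = 0 := by
  unfold tent
  rw [sg_zero (div_nonpos_of_nonpos_of_nonneg (by linarith) hq.le), zero_mul]

theorem tent_right {a q r : ℝ} (hq : 0 < q) (h : a + 4 * q ≤ r) : tent a q r = 0 := by
  unfold tent
  rw [sg_zero (x := (a + 4 * q - r) / q) (div_nonpos_of_nonpos_of_nonneg (by linarith) hq.le),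
    mul_zero]

theorem tent_mid {a q r : ℝ} (hq : 0 < q) (h1 : a + 2 * q ≤ r) (h2 : r ≤ a + 3 * q) :
    tent a q r = 1 := by
  unfold tent
  rw [sg_one (x := (r - a - q) / q) (by rw [le_div_iff₀ hq]; linarith),
    sg_one (x := (a + 4 * q - r) / q) (by rw [le_div_iff₀ hq]; linarith), mul_one]

theorem tent'_left {a q r : ℝ} (hq : 0 < q) (h : r ≤ a + q) : tent' a q r = 0 := by
  unfold tent'
  rw [sg_zero (x := (r - a - q) / q) (div_nonpos_of_nonpos_of_nonneg (by linarith) hq.le),
    deriv_sg_neg (x := (r - a - q) / q) (div_nonpos_of_nonpos_of_nonneg (by linarith) hq.le)]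
  simp

theorem tent'_right {a q r : ℝ} (hq : 0 < q) (h : a + 4 * q ≤ r) : tent' a q r = 0 := by
  unfold tent'
  rw [sg_zero (x := (a + 4 * q - r) / q) (div_nonpos_of_nonpos_of_nonneg (by linarith) hq.le),
    deriv_sg_neg (x := (a + 4 * q - r) / q) (div_nonpos_of_nonpos_of_nonneg (by linarith) hq.le)]
  simp

theorem abs_tent'_le {a q : ℝ} (hq : 0 < q) (r : ℝ) : |tent' a q r| ≤ 2 * sgB 1 / q := by
  unfold tent'
  have h1 := norm_deriv_sg_le ((r - a - q) / q)
  have h2 := norm_deriv_sg_le ((a + 4 * q - r) / q)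
  rw [Real.norm_eq_abs] at h1 h2
  have e1 : |deriv sg ((r - a - q) / q) / q * sg ((a + 4 * q - r) / q)| ≤ sgB 1 / q := by
    rw [abs_mul, abs_div, abs_of_pos hq, abs_of_nonneg (sg_nonneg _)]
    calc |deriv sg ((r - a - q) / q)| / q * sg ((a + 4 * q - r) / q)
        ≤ sgB 1 / q * 1 := mul_le_mul (by gcongr) (sg_le_one _) (sg_nonneg _)
          (div_nonneg (sgB_nonneg 1) hq.le)
      _ = _ := mul_one _
  have e2 : |sg ((r - a - q) / q) * (deriv sg ((a + 4 * q - r) / q) / q)| ≤ sgB 1 / q := by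
    rw [abs_mul, abs_div, abs_of_pos hq, abs_of_nonneg (sg_nonneg _)]
    calc sg ((r - a - q) / q) * (|deriv sg ((a + 4 * q - r) / q)| / q)
        ≤ 1 * (sgB 1 / q) := mul_le_mul (sg_le_one _) (by gcongr)
          (div_nonneg (abs_nonneg _) hq.le) zero_le_one
      _ = _ := one_mul _
  calc |deriv sg ((r - a - q) / q) / q * sg ((a + 4 * q - r) / q) -
        sg ((r - a - q) / q) * (deriv sg ((a + 4 * q - r) / q) / q)|
      ≤ _ := abs_sub _ _
    _ ≤ sgB 1 / q + sgB 1 / q := add_le_add e1 e2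
    _ = _ := by ring

theorem continuous_tent (a q : ℝ) : Continuous (tent a q) :=
  continuous_iff_continuousAt.2 fun r => (hasDerivAt_tent a q r).continuousAt

theorem continuous_tent' (a q : ℝ) : Continuous (tent' a q) := by
  unfold tent'
  have h1 := continuous_deriv_sg
  have h2 : Continuous sg := sg_contDiff.continuous
  fun_prop

end Pool.Agent.Lib.UdB
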