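import Pool.Agent.Lib.UdB.Energy
import Pool.Agent.Lib.UdB.Sigma

/-!
# Sequences of polynomial growth in `K_i = 2^((i+1)^2)`
-/

set_option autoImplicit false
set_option linter.unusedSectionVars false

open MeasureTheory
open scoped ENNReal NNReal InnerProductSpace

namespace Pool.Agent.Lib.UdB

/-- `K_i`. -/
noncomputable def KK (i : ℕ) : ℝ := 2 ^ ((i + 1) ^ 2)

/-- `K_i`, as an extended nonnegative real. -/
noncomputable def kk (i : ℕ) : ℝ≥0∞ := 2 ^ ((i + 1) ^ 2)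

theorem KK_ge_two (i : ℕ) : 2 ≤ KK i := by
  unfold KK
  calc (2 : ℝ) = 2 ^ 1 := by norm_num
    _ ≤ 2 ^ ((i + 1) ^ 2) := pow_le_pow_right₀ (by norm_num) (Nat.one_le_pow _ _ (Nat.succ_pos i))

theorem KK_pos (i : ℕ) : 0 < KK i := lt_of_lt_of_le (by norm_num) (KK_ge_two i)

theorem one_le_KK (i : ℕ) : 1 ≤ KK i := le_trans (by norm_num) (KK_ge_two i)

theorem kk_eq (i : ℕ) : kk i = ENNReal.ofReal (KK i) := by
  unfold kk KK
  rw [ENNReal.ofReal_pow (by norm_num)]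
  simp

theorem one_le_kk (i : ℕ) : 1 ≤ kk i := one_le_pow₀ (by norm_num)

theorem kk_ne_top (i : ℕ) : kk i ≠ ∞ := by unfold kk; simp

/-- Polynomial growth in `K_i`. -/
def PolyK (a : ℕ → ℝ≥0∞) : Prop := ∃ (C : ℝ≥0) (k : ℕ), ∀ i, a i ≤ C * kk i ^ k

namespace PolyK

variable {a c : ℕ → ℝ≥0∞}

theorem mono (hc : PolyK c) (h : ∀ i, a i ≤ c i) : PolyK a := by
  obtain ⟨C, k, h1⟩ := hc
  exact ⟨C, k, fun i => (h i).trans (h1 i)⟩

theorem const {c : ℝ≥0∞} (hc : c ≠ ∞) : PolyK fun _ => c := by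
  lift c to ℝ≥0 using hc
  exact ⟨c, 0, fun i => by simp⟩

theorem add (ha : PolyK a) (hc : PolyK c) : PolyK fun i => a i + c i := by
  obtain ⟨C, k, h1⟩ := ha
  obtain ⟨C', k', h2⟩ := hc
  refine ⟨C + C', k + k', fun i => ?_⟩
  have h3 := one_le_kk i
  calc a i + c i ≤ C * kk i ^ k + C' * kk i ^ k' := add_le_add (h1 i) (h2 i)
    _ ≤ C * kk i ^ (k + k') + C' * kk i ^ (k + k') := by
      gcongr <;> first | exact h3 | omega
    _ = _ := by push_cast; ring

theorem mul (ha : PolyK a) (hc : PolyK c) : PolyK fun i => a i * c i := by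
  obtain ⟨C, k, h1⟩ := ha
  obtain ⟨C', k', h2⟩ := hc
  refine ⟨C * C', k + k', fun i => ?_⟩
  calc a i * c i ≤ (C * kk i ^ k) * (C' * kk i ^ k') := mul_le_mul' (h1 i) (h2 i)
    _ = _ := by push_cast; ring

theorem pow (ha : PolyK a) (n : ℕ) : PolyK fun i => a i ^ n := by
  induction n with
  | zero => simpa using const (c := 1) (by simp)
  | succ n ih => simpa [pow_succ] using ih.mul ha

theorem kk : PolyK kk := ⟨1, 1, fun i => by simp⟩

theorem geom {c : ℝ≥0∞} (hc : c ≠ ∞) : PolyK fun i => c ^ (i + 1) := by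
  obtain ⟨n, hn⟩ : ∃ n : ℕ, c ≤ 2 ^ n := by
    lift c to ℝ≥0 using hc
    obtain ⟨n, hn⟩ := pow_unbounded_of_one_lt c (show (1 : ℝ≥0) < 2 by norm_num)
    exact ⟨n, by exact_mod_cast hn.le⟩
  refine ⟨1, n, fun i => ?_⟩
  rw [ENNReal.coe_one, one_mul]
  unfold UdB.kk
  calc c ^ (i + 1) ≤ (2 ^ n) ^ (i + 1) := by gcongr
    _ = 2 ^ (n * (i + 1)) := by rw [← pow_mul]
    _ ≤ 2 ^ ((i + 1) ^ 2 * n) := by
      refine pow_le_pow_right₀ (by norm_num) ?_
      nlinarith [Nat.zero_le (n * ((i + 1) * i))]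
    _ = _ := by rw [pow_mul]

theorem factorial_le (n : ℕ) : n.factorial ≤ 2 ^ (n ^ 2) := by
  calc n.factorial ≤ n ^ n := Nat.factorial_le_pow n
    _ ≤ (2 ^ n) ^ n := Nat.pow_le_pow_left Nat.lt_two_pow_self.le n
    _ = 2 ^ (n ^ 2) := by rw [← pow_mul, pow_two]

theorem fact (p : ℕ) : PolyK fun i => ((p * (i + 1)).factorial : ℝ≥0∞) := by
  refine ⟨1, p ^ 2, fun i => ?_⟩
  rw [ENNReal.coe_one, one_mul]
  unfold UdB.kk
  rw [← pow_mul]
  have h := factorial_le (p * (i + 1))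
  have h2 : (p * (i + 1)) ^ 2 = (i + 1) ^ 2 * p ^ 2 := by ring
  rw [h2] at h
  simp only
  exact_mod_cast h

theorem shift (ha : PolyK a) : PolyK fun i => a (i + 1) := by
  obtain ⟨C, k, h1⟩ := ha
  refine ⟨C, 4 * k, fun i => (h1 (i + 1)).trans (mul_le_mul' le_rfl ?_)⟩
  unfold UdB.kk
  rw [← pow_mul, ← pow_mul]
  refine pow_le_pow_right₀ (by norm_num) ?_
  have : (i + 1 + 1) ^ 2 ≤ 4 * (i + 1) ^ 2 := by
    calc (i + 1 + 1) ^ 2 ≤ (2 * (i + 1)) ^ 2 := Nat.pow_le_pow_left (by omega) 2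
      _ = _ := by ring
  calc (i + 1 + 1) ^ 2 * k ≤ 4 * (i + 1) ^ 2 * k := by gcongr
    _ = _ := by ring

theorem KK_pow (n : ℕ) : PolyK fun i => ENNReal.ofReal (KK i ^ n) := by
  have : (fun i => ENNReal.ofReal (KK i ^ n)) = fun i => UdB.kk i ^ n := by
    funext i
    rw [ENNReal.ofReal_pow (KK_pos i).le, kk_eq]
  rw [this]
  exact kk.pow n

end PolyK

/-- Sum of the squares of the bounds of the derivatives of the transition function. -/
noncomputable def SB (r : ℕ) : ℝ≥0∞ := ∑ k ∈ Finset.range (r + 1), ENNReal.ofReal (sgB k) ^ 2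

theorem SB_ne_top (r : ℕ) : SB r ≠ ∞ := by
  unfold SB
  simp

theorem DD_sg_le (r : ℕ) (y : ℝ) : DD r sg y ≤ SB r := by
  unfold DD SB
  refine Finset.sum_le_sum fun k _ => ?_
  gcongr
  rw [← ofReal_norm]
  exact ENNReal.ofReal_le_ofReal (norm_iteratedDeriv_sg_le k y)

theorem iteratedDeriv_sg_affine (a c : ℝ) (k : ℕ) (y : ℝ) :
    iteratedDeriv k (fun y => sg (a * (y - c))) y = a ^ k * iteratedDeriv k sg (a * (y - c)) := by
  have h1 : ContDiff ℝ k sg := sg_contDiff.of_le (by exact_mod_cast le_top)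
  have h2 := iteratedDeriv_comp_sub_const (𝕜 := ℝ) k (fun z => sg (a * z)) c
  have h3 := iteratedDeriv_comp_const_mul (n := k) h1 a
  rw [h2, h3]

theorem DD_sg_affine (a c : ℝ) (ha : 1 ≤ a) (r : ℕ) (y : ℝ) :
    DD r (fun y => sg (a * (y - c))) y ≤ ENNReal.ofReal (a ^ (2 * r)) * SB r := by
  unfold DD SB
  rw [Finset.mul_sum]
  refine Finset.sum_le_sum fun k hk => ?_
  rw [iteratedDeriv_sg_affine, enorm_mul, mul_pow]
  gcongr
  · rw [← ofReal_norm, Real.norm_of_nonneg (by positivity), ← ENNReal.ofReal_pow (by positivity),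
      ← pow_mul]
    apply ENNReal.ofReal_le_ofReal
    exact pow_le_pow_right₀ ha (by have := Finset.mem_range.1 hk; omega)
  · rw [← ofReal_norm]
    exact ENNReal.ofReal_le_ofReal (norm_iteratedDeriv_sg_le k _)

theorem DD_sg_affine_zero (a c : ℝ) (r : ℕ) {y : ℝ} (hy : a * (y - c) ≤ 0) :
    DD r (fun y => sg (a * (y - c))) y = 0 := by
  unfold DD
  refine Finset.sum_eq_zero fun k _ => ?_
  rw [iteratedDeriv_sg_affine, iteratedDeriv_sg_neg k hy]
  simp

theorem tg_affine (a c : ℝ) : (fun y : ℝ => a * (y - c)).HasTemperateGrowth := by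
  have h1 : (fun y : ℝ => a * (y - c)) = fun y : ℝ => (fun _ : ℝ => a) y * ((fun y => y) y - (fun _ => c) y) := rfl
  rw [h1]
  have h2 : (fun y : ℝ => y).HasTemperateGrowth := (ContinuousLinearMap.id ℝ ℝ).hasTemperateGrowth
  exact (Function.HasTemperateGrowth.const a).mul (h2.sub (Function.HasTemperateGrowth.const c))

theorem tg_sg_affine (a c : ℝ) : (fun y : ℝ => sg (a * (y - c))).HasTemperateGrowth :=
  sg_temperate.comp (tg_affine a c)

end Pool.Agent.Lib.UdB
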