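import Pool.Agent.Lib.UdB.Times
import Pool.Agent.Lib.UdB.Indep
import Pool.Agent.Lib.UdB.PolyK

/-!
# The message bits
-/

set_option autoImplicit false
set_option linter.unusedSectionVars false

open MeasureTheory Set
open scoped ENNReal NNReal InnerProductSpace

namespace Pool.Agent.Lib.UdB

theorem Qf_smul {V : Type} [NormedAddCommGroup V] [InnerProductSpace ℝ V] [FiniteDimensional ℝ V]
    [MeasurableSpace V] [BorelSpace V] (a : ℝ) (c : unitInterval →₀ V) :
    Qf (a • c) = a ^ 2 * Qf c := by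
  unfold Qf
  rw [Bf_smul_left, Bf_smul_right]
  ring

/-- Smooth cutoff of the activation variable. -/
noncomputable def chif (i : ℕ) (y : ℝ) : ℝ := sg (KK i ^ 8 * (y - KK i))

theorem chif_nonneg (i : ℕ) (y : ℝ) : 0 ≤ chif i y := sg_nonneg _

theorem chif_le_one (i : ℕ) (y : ℝ) : chif i y ≤ 1 := sg_le_one _

theorem chif_zero {i : ℕ} {y : ℝ} (h : y ≤ KK i) : chif i y = 0 :=
  sg_zero (mul_nonpos_of_nonneg_of_nonpos (pow_nonneg (KK_pos i).le _) (by linarith))

theorem chif_one {i : ℕ} {y : ℝ} (h : KK i + (KK i ^ 8)⁻¹ ≤ y) : chif i y = 1 := by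
  apply sg_one
  have h1 : 0 < KK i ^ 8 := pow_pos (KK_pos i) 8
  have h2 : (KK i ^ 8)⁻¹ ≤ y - KK i := by linarith
  calc (1 : ℝ) = KK i ^ 8 * (KK i ^ 8)⁻¹ := (mul_inv_cancel₀ h1.ne').symm
    _ ≤ _ := mul_le_mul_of_nonneg_left h2 h1.le

theorem chif_temperate (i : ℕ) : (chif i).HasTemperateGrowth := tg_sg_affine _ _

/-- The gate function, as a function of the `(i+1)`-st power of the increment. -/
noncomputable def gatef (i : ℕ) (z : ℂ) : ℝ := sg (1 / 2 + KK i ^ 4 / 2 * z.re)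

theorem gatef_neg (i : ℕ) (z : ℂ) : gatef i (-z) = 1 - gatef i z := by
  unfold gatef
  rw [← sg_symm]
  congr 1
  simp only [Complex.neg_re]
  ring

theorem gatef_mem {i : ℕ} {z : ℂ} (h : (KK i ^ 4)⁻¹ ≤ |z.re|) : gatef i z = 0 ∨ gatef i z = 1 := by
  have h1 : 0 < KK i ^ 4 := pow_pos (KK_pos i) 4
  unfold gatef
  rcases le_total 0 z.re with h2 | h2
  · right
    apply sg_one
    rw [abs_of_nonneg h2] at h
    have h3 : (1 : ℝ) ≤ KK i ^ 4 * z.re := by
      calc (1 : ℝ) = KK i ^ 4 * (KK i ^ 4)⁻¹ := (mul_inv_cancel₀ h1.ne').symm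
        _ ≤ _ := mul_le_mul_of_nonneg_left h h1.le
    linarith
  · left
    apply sg_zero
    rw [abs_of_nonpos h2] at h
    have h3 : (1 : ℝ) ≤ KK i ^ 4 * (-z.re) := by
      calc (1 : ℝ) = KK i ^ 4 * (KK i ^ 4)⁻¹ := (mul_inv_cancel₀ h1.ne').symm
        _ ≤ _ := mul_le_mul_of_nonneg_left h h1.le
    linarith

namespace TimeData

variable (D : TimeData)

/-- The normalized increment functional on the `j`-th quarter of cell `m` in block `i`. -/
noncomputable def inc (i m j : ℕ) (e : ℂ) : unitInterval →₀ ℂ :=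
  (√(D.q i))⁻¹ • (Finsupp.single (D.tm i m (j + 1)) e - Finsupp.single (D.tm i m j) e)

theorem pair_inc (i m j : ℕ) (e : ℂ) (x : unitInterval → ℂ) :
    pair (D.inc i m j e) x =
      (√(D.q i))⁻¹ * ⟪e, x (D.tm i m (j + 1)) - x (D.tm i m j)⟫_ℝ := by
  unfold inc
  rw [pair_smul, pair_sub, pair_single, pair_single, inner_sub_right]

theorem Qf_inc {i m j : ℕ} (hm : m < D.M i) (hj : j ≤ 3) {e : ℂ} (he : ‖e‖ = 1) :
    Qf (D.inc i m j e) = 1 := by
  unfold inc
  rw [Qf_smul, Qf_single_sub he, D.tm_coe hm (by omega), D.tm_coe hm (by omega)]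
  have hq := D.q_pos i
  push_cast
  have h1 : D.a i m + (j + 1) * D.q i - (D.a i m + j * D.q i) = D.q i := by ring
  rw [h1, abs_of_pos hq, inv_pow, Real.sq_sqrt hq.le, inv_mul_cancel₀ hq.ne']

theorem tm_mono {i m j m' j' : ℕ} (h : 4 * m + j ≤ 4 * m' + j') : D.tm i m j ≤ D.tm i m' j' := by
  unfold tm
  apply Set.monotone_projIcc
  unfold a
  have hq := D.q_pos i
  have h' : (4 * (m : ℝ) + j) ≤ 4 * m' + j' := by exact_mod_cast h
  nlinarith

/-- The increment on the third quarter. -/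
noncomputable def eta (i m : ℕ) (x : unitInterval → ℂ) : ℂ :=
  (√(D.q i))⁻¹ * (x (D.tm i m 3) - x (D.tm i m 2))

theorem eta_eq (i m : ℕ) (x : unitInterval → ℂ) :
    D.eta i m x = (pair (D.inc i m 2 1) x : ℂ) + (pair (D.inc i m 2 Complex.I) x : ℂ) * Complex.I := by
  rw [pair_inc, pair_inc]
  unfold eta
  have h1 : ∀ z : ℂ, ⟪(1 : ℂ), z⟫_ℝ = z.re := fun z => by simp [Complex.inner]
  have h2 : ∀ z : ℂ, ⟪Complex.I, z⟫_ℝ = z.im := fun z => by simp [Complex.inner]
  rw [h1, h2]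
  apply Complex.ext
  · simp
  · simp

/-- The activation of a cell. -/
noncomputable def chi (i m : ℕ) (x : unitInterval → ℂ) : ℝ := chif i (pair (D.inc i m 0 1) x)

/-- The fresh bit of a cell. -/
noncomputable def gate (i m : ℕ) (x : unitInterval → ℂ) : ℝ := gatef i (D.eta i m x ^ (i + 1))

/-- The message of block `i` after `m` cells. -/
noncomputable def msg (i : ℕ) : ℕ → (unitInterval → ℂ) → ℝ
  | 0, _ => 0
  | m + 1, x => (1 - D.chi i m x) * msg i m x + D.chi i m x * D.gate i m x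

/-- The message of block `i`. -/
noncomputable def A (i : ℕ) (x : unitInterval → ℂ) : ℝ := D.msg i (D.M i) x

/-- The angles of the multiplicator. -/
noncomputable def cc (i m : ℕ) (x : unitInterval → ℂ) : ℝ :=
  Real.pi / (i + 1) * (D.chi i m x * D.A (i + 1) x)

theorem chi_nonneg (i m : ℕ) (x : unitInterval → ℂ) : 0 ≤ D.chi i m x := chif_nonneg _ _

theorem chi_le_one (i m : ℕ) (x : unitInterval → ℂ) : D.chi i m x ≤ 1 := chif_le_one _ _

theorem gate_nonneg (i m : ℕ) (x : unitInterval → ℂ) : 0 ≤ D.gate i m x := sg_nonneg _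

theorem gate_le_one (i m : ℕ) (x : unitInterval → ℂ) : D.gate i m x ≤ 1 := sg_le_one _

theorem msg_mem (i m : ℕ) (x : unitInterval → ℂ) : 0 ≤ D.msg i m x ∧ D.msg i m x ≤ 1 := by
  induction m with
  | zero => exact ⟨le_rfl, zero_le_one⟩
  | succ m ih =>
    have h1 := D.chi_nonneg i m x
    have h2 := D.chi_le_one i m x
    have h3 := D.gate_nonneg i m x
    have h4 := D.gate_le_one i m x
    change 0 ≤ (1 - D.chi i m x) * D.msg i m x + D.chi i m x * D.gate i m x ∧
      (1 - D.chi i m x) * D.msg i m x + D.chi i m x * D.gate i m x ≤ 1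
    constructor
    · have := mul_nonneg (sub_nonneg.2 h2) ih.1
      have := mul_nonneg h1 h3
      linarith
    · have := mul_le_mul_of_nonneg_left ih.2 (sub_nonneg.2 h2)
      have := mul_le_mul_of_nonneg_left h4 h1
      linarith

theorem isCyl_chi (i m : ℕ) : IsCyl (D.chi i m) := (IsCyl.pair _).comp (chif_temperate i)

theorem isCyl_one_sub_chi (i m : ℕ) : IsCyl (fun x => 1 - D.chi i m x) :=
  (IsCyl.const 1).sub (D.isCyl_chi i m)

theorem isCyl_eta (i m : ℕ) : IsCyl (D.eta i m) := by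
  have : D.eta i m = fun x => (√(D.q i))⁻¹ • (x (D.tm i m 3) - x (D.tm i m 2)) := by
    funext x
    unfold eta
    rw [Complex.real_smul]
  rw [this]
  exact ((IsCyl.eval _).sub (IsCyl.eval _)).const_smul _

/-- The argument of the gate. -/
noncomputable def garg (i m : ℕ) (x : unitInterval → ℂ) : ℝ :=
  1 / 2 + KK i ^ 4 / 2 * (D.eta i m x ^ (i + 1)).re

/-- The linear part of the argument of the gate. -/
noncomputable def gL (i : ℕ) : ℂ →L[ℝ] ℝ := (KK i ^ 4 / 2 : ℝ) • Complex.reCLM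

theorem garg_eq (i m : ℕ) : D.garg i m = fun x => 1 / 2 + gL i (D.eta i m x ^ (i + 1)) := by
  funext x
  simp [garg, gL]

theorem isCyl_garg (i m : ℕ) : IsCyl (D.garg i m) := by
  rw [garg_eq]
  exact (IsCyl.const _).add (((D.isCyl_eta i m).pow (i + 1)).clm (gL i))

theorem gate_eq (i m : ℕ) : D.gate i m = fun x => sg (D.garg i m x) := rfl

theorem isCyl_gate (i m : ℕ) : IsCyl (D.gate i m) := by
  rw [gate_eq]
  exact (D.isCyl_garg i m).comp sg_temperate

theorem isCyl_msg (i m : ℕ) : IsCyl (D.msg i m) := by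
  induction m with
  | zero => exact IsCyl.const 0
  | succ m ih =>
    exact ((D.isCyl_one_sub_chi i m).mul ih).add ((D.isCyl_chi i m).mul (D.isCyl_gate i m))

theorem isCyl_A (i : ℕ) : IsCyl (D.A i) := D.isCyl_msg i _

theorem isCyl_cc (i m : ℕ) : IsCyl (D.cc i m) := by
  have := ((D.isCyl_chi i m).mul (D.isCyl_A (i + 1))).const_smul (Real.pi / (i + 1))
  exact this

theorem depTo_pair_inc (i m j : ℕ) (e : ℂ) : DepTo (D.tm i m (j + 1)) (pair (D.inc i m j e)) := by
  intro x y hxy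
  rw [pair_inc, pair_inc, hxy _ le_rfl, hxy _ (D.tm_mono (by omega))]

theorem postTo_pair_inc {i m j : ℕ} {u : unitInterval} (hu : u ≤ D.tm i m j) (e : ℂ) :
    PostTo u (pair (D.inc i m j e)) := by
  intro x y
  rw [pair_inc, pair_inc]
  have h1 : min (D.tm i m j) u = u := min_eq_right hu
  have h2 : min (D.tm i m (j + 1)) u = u := min_eq_right (hu.trans (D.tm_mono (by omega)))
  simp only [conc, h1, h2]
  congr 2
  ring

theorem depTo_chi (i m : ℕ) : DepTo (D.tm i m 1) (D.chi i m) :=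
  (D.depTo_pair_inc i m 0 1).comp (chif i)

theorem postTo_chi {i m : ℕ} {u : unitInterval} (hu : u ≤ D.tm i m 0) : PostTo u (D.chi i m) :=
  (D.postTo_pair_inc hu 1).comp (chif i)

theorem depTo_eta (i m : ℕ) : DepTo (D.tm i m 3) (D.eta i m) := by
  intro x y hxy
  unfold eta
  rw [hxy _ le_rfl, hxy _ (D.tm_mono (by omega))]

theorem postTo_eta {i m : ℕ} {u : unitInterval} (hu : u ≤ D.tm i m 2) : PostTo u (D.eta i m) := by
  intro x y
  rw [eta_eq, eta_eq, D.postTo_pair_inc hu 1 x y, D.postTo_pair_inc hu Complex.I x y]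

theorem depTo_gate (i m : ℕ) : DepTo (D.tm i m 3) (D.gate i m) :=
  (D.depTo_eta i m).comp (fun z => gatef i (z ^ (i + 1)))

theorem postTo_gate {i m : ℕ} {u : unitInterval} (hu : u ≤ D.tm i m 2) : PostTo u (D.gate i m) :=
  (D.postTo_eta hu).comp (fun z => gatef i (z ^ (i + 1)))

theorem depTo_msg (i m : ℕ) : DepTo (D.tm i m 0) (D.msg i m) := by
  induction m with
  | zero => intro x y _; rfl
  | succ m ih =>
    intro x y hxy
    change (1 - D.chi i m x) * D.msg i m x + D.chi i m x * D.gate i m x =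
      (1 - D.chi i m y) * D.msg i m y + D.chi i m y * D.gate i m y
    rw [(D.depTo_chi i m).mono (D.tm_mono (by omega)) x y hxy,
      ih.mono (D.tm_mono (by omega)) x y hxy,
      (D.depTo_gate i m).mono (D.tm_mono (by omega)) x y hxy]

theorem tm_last (i : ℕ) : D.tm (i + 1) (D.M (i + 1)) 0 = D.tm i 0 0 := by
  unfold tm
  rw [a_last, a_zero]
  simp

theorem depTo_A (i m j : ℕ) : DepTo (D.tm i m j) (D.A (i + 1)) := by
  have := D.depTo_msg (i + 1) (D.M (i + 1))
  rw [tm_last] at this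
  exact this.mono (D.tm_mono (by omega))

theorem depTo_cc (i m : ℕ) : DepTo (D.tm i m 1) (D.cc i m) :=
  (D.depTo_chi i m).comp₂ (D.depTo_A i m 1) (fun u v => Real.pi / (i + 1) * (u * v))

theorem cc_mem (i m : ℕ) (x : unitInterval → ℂ) : 0 ≤ D.cc i m x ∧ D.cc i m x ≤ 4 / (i + 1) := by
  have h1 := D.chi_nonneg i m x
  have h2 := D.chi_le_one i m x
  have h3 := D.msg_mem (i + 1) (D.M (i + 1)) x
  have h4 : 0 ≤ D.chi i m x * D.A (i + 1) x := mul_nonneg h1 h3.1
  have h5 : D.chi i m x * D.A (i + 1) x ≤ 1 := mul_le_one₀ h2 h3.1 h3.2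
  have h6 := Real.pi_pos
  have h7 := Real.pi_le_four
  unfold cc
  constructor
  · positivity
  · calc Real.pi / (i + 1) * (D.chi i m x * D.A (i + 1) x) ≤ Real.pi / (i + 1) * 1 := by gcongr
      _ ≤ _ := by rw [mul_one]; gcongr

theorem abs_cc_le (i m : ℕ) (x : unitInterval → ℂ) : |D.cc i m x| ≤ 4 / (i + 1) := by
  rw [abs_of_nonneg (D.cc_mem i m x).1]; exact (D.cc_mem i m x).2

theorem abs_cc_le_four (i m : ℕ) (x : unitInterval → ℂ) : |D.cc i m x| ≤ 4 := by
  refine (D.abs_cc_le i m x).trans ?_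
  rw [div_le_iff₀ (by positivity)]
  nlinarith [Nat.cast_nonneg (α := ℝ) i]

end TimeData

end Pool.Agent.Lib.UdB
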