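import Pool.Agent.Lib.UdB.Energy

/-!
# Sharper energy inequalities
-/

set_option autoImplicit false
set_option linter.unusedSectionVars false

open MeasureTheory
open scoped ENNReal NNReal InnerProductSpace

namespace Pool.Agent.Lib.UdB

variable {V : Type} [NormedAddCommGroup V] [InnerProductSpace ℝ V] [FiniteDimensional ℝ V]
  [MeasurableSpace V] [BorelSpace V]
variable {E : Type} [NormedAddCommGroup E]
variable {ι : Type}

theorem enorm_add_sq_eps (ε : ℝ≥0) (hε : 0 < ε) (x y : E) :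
    ‖x + y‖ₑ ^ 2 ≤ (1 + ε) * ‖x‖ₑ ^ 2 + (1 + ε⁻¹ : ℝ≥0) * ‖y‖ₑ ^ 2 := by
  have h1 : ‖x + y‖ₑ ^ 2 ≤ (‖x‖ₑ + ‖y‖ₑ) ^ 2 := by gcongr; exact enorm_add_le x y
  refine h1.trans ?_
  have key : ∀ a c : ℝ≥0, (a + c) ^ 2 ≤ (1 + ε) * a ^ 2 + (1 + ε⁻¹) * c ^ 2 := by
    intro a c
    have hε' : (0 : ℝ) < ε := by exact_mod_cast hε
    rw [← NNReal.coe_le_coe]
    push_cast
    have h2 : 0 ≤ (ε : ℝ) * ((a : ℝ) - (ε : ℝ)⁻¹ * c) ^ 2 := by positivity
    have h3 : (ε : ℝ) * ((a : ℝ) - (ε : ℝ)⁻¹ * c) ^ 2 =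
        ε * a ^ 2 - 2 * a * c + (ε : ℝ)⁻¹ * c ^ 2 := by
      field_simp
      ring
    nlinarith
  have h4 := key ‖x‖₊ ‖y‖₊
  rw [enorm_eq_nnnorm, enorm_eq_nnnorm]
  exact_mod_cast h4

theorem energy_add_eps (ε : ℝ≥0) (hε : 0 < ε) (r : ℕ) : ∀ g h : List ι → E,
    energy r (fun l => g l + h l) ≤ (1 + ε) * energy r g + (1 + ε⁻¹ : ℝ≥0) * energy r h := by
  induction r with
  | zero => intro g h; simpa using enorm_add_sq_eps ε hε (g []) (h [])
  | succ r ih =>
    intro g h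
    simp only [energy_succ]
    rw [← ENNReal.tsum_mul_left, ← ENNReal.tsum_mul_left, ← ENNReal.tsum_add]
    exact ENNReal.tsum_le_tsum fun j => ih _ _

theorem energy_add_zero (r : ℕ) (g h : List ι → E) (h0 : energy r h = 0) :
    energy r (fun l => g l + h l) ≤ energy r g := by
  rcases eq_or_ne (energy r g) ∞ with htop | htop
  · rw [htop]; exact le_top
  refine ENNReal.le_of_forall_pos_le_add fun δ hδ _ => ?_
  set G := (energy r g).toNNReal with hG
  have hG' : energy r g = G := (ENNReal.coe_toNNReal htop).symm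
  have h1 := energy_add_eps (δ / (G + 1)) (by positivity) r g h
  rw [h0, mul_zero, add_zero] at h1
  refine h1.trans ?_
  rw [hG', add_mul, one_mul]
  gcongr
  have : δ / (G + 1) * G ≤ δ := by
    rw [div_mul_eq_mul_div]
    rw [div_le_iff₀ (by positivity)]
    gcongr
    exact le_self_add
  exact_mod_cast this

theorem exists_pow_le (p : ℕ) : ∃ ε : ℝ≥0, 0 < ε ∧ (1 + ε + ε) ^ p ≤ 2 := by
  have h1 : Filter.Tendsto (fun x : ℝ => (1 + x + x) ^ p) (nhdsWithin 0 (Set.Ioi 0)) (nhds 1) := by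
    have : Filter.Tendsto (fun x : ℝ => (1 + x + x) ^ p) (nhds 0) (nhds ((1 + 0 + 0) ^ p)) := by
      apply Continuous.tendsto; fun_prop
    simp only [add_zero, one_pow] at this
    exact this.mono_left nhdsWithin_le_nhds
  have h2 := h1.eventually_le_const (show (1 : ℝ) < 2 by norm_num)
  obtain ⟨x, hx1, hx2⟩ := (h2.and self_mem_nhdsWithin).exists
  refine ⟨⟨x, le_of_lt hx2⟩, hx2, ?_⟩
  rw [← NNReal.coe_le_coe]
  exact hx1

theorem pow_add_le_two (p : ℕ) : ∃ (ε : ℝ≥0) (C : ℝ≥0), 0 < ε ∧ ∀ x y : ℝ≥0∞,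
    ((1 + ε) * x + (1 + ε⁻¹ : ℝ≥0) * y) ^ p ≤ 2 * x ^ p + C * y ^ p := by
  obtain ⟨ε, hε, h1⟩ := exists_pow_le p
  refine ⟨ε, ((1 + ε) * (ε⁻¹ * (1 + ε⁻¹)) + (1 + ε⁻¹)) ^ p, hε, fun x y => ?_⟩
  have h1' : ((1 + ε + ε : ℝ≥0) : ℝ≥0∞) ^ p ≤ 2 := by exact_mod_cast h1
  rcases le_total ((1 + ε⁻¹ : ℝ≥0) * y) (ε * x) with h | h
  · calc ((1 + ε) * x + (1 + ε⁻¹ : ℝ≥0) * y) ^ p ≤ ((1 + ε) * x + ε * x) ^ p := by gcongr
      _ = ((1 + ε + ε : ℝ≥0) : ℝ≥0∞) ^ p * x ^ p := by
        rw [← mul_pow]; congr 1; push_cast; ring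
      _ ≤ 2 * x ^ p := by gcongr
      _ ≤ _ := le_self_add
  · have h2 : x ≤ (ε⁻¹ * (1 + ε⁻¹) : ℝ≥0) * y := by
      have h3 : (ε : ℝ≥0∞)⁻¹ * (ε * x) ≤ (ε : ℝ≥0∞)⁻¹ * ((1 + ε⁻¹ : ℝ≥0) * y) := by gcongr
      rw [← mul_assoc, ENNReal.inv_mul_cancel (by simpa using hε.ne') (by simp), one_mul,
        ← ENNReal.coe_inv hε.ne', ← mul_assoc] at h3
      exact_mod_cast h3
    calc ((1 + ε) * x + (1 + ε⁻¹ : ℝ≥0) * y) ^ p
        ≤ ((1 + ε) * ((ε⁻¹ * (1 + ε⁻¹) : ℝ≥0) * y) + (1 + ε⁻¹ : ℝ≥0) * y) ^ p := by gcongr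
      _ = (((1 + ε) * (ε⁻¹ * (1 + ε⁻¹)) + (1 + ε⁻¹)) ^ p : ℝ≥0) * y ^ p := by
        push_cast
        rw [← mul_pow]; congr 1; ring
      _ ≤ _ := le_add_self

theorem energy_add_pow (p : ℕ) : ∃ C : ℝ≥0, ∀ (r : ℕ) (g h : List ι → E),
    energy r (fun l => g l + h l) ^ p ≤ 2 * energy r g ^ p + C * energy r h ^ p := by
  obtain ⟨ε, C, hε, h1⟩ := pow_add_le_two p
  refine ⟨C, fun r g h => le_trans ?_ (h1 _ _)⟩
  exact pow_le_pow_left' (energy_add_eps ε hε r g h) p

section product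

/-- A tensor without its component of order zero. -/
def tl {E : Type} [Zero E] (F : List ι → E) : List ι → E
  | [] => 0
  | j :: l => F (j :: l)

theorem energy_tl_zero (F : List ι → E) : energy 0 (tl F) = 0 := by
  simp [energy, tl]

theorem energy_tl_succ (r : ℕ) (F : List ι → E) : energy (r + 1) (tl F) = energy (r + 1) F := rfl

theorem spl_zero_left (G : List ι → ℝ) (l : List ι) :
    spl (fun x y : ℝ => x * y) (fun _ => 0) G l = 0 := by
  induction l generalizing G with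
  | nil => simp [spl_nil]
  | cons j l ih => rw [spl_cons, ih, ih, add_zero]

theorem spl_tl (F G : List ι → ℝ) (l : List ι) :
    spl (fun x y : ℝ => x * y) F G l = F [] * G l + spl (fun x y : ℝ => x * y) (tl F) G l := by
  induction l generalizing G with
  | nil => simp [spl_nil, tl]
  | cons j l ih =>
    rw [spl_cons, spl_cons, ih (fun l => G (j :: l))]
    have : (fun l => tl F (j :: l)) = fun l => F (j :: l) := rfl
    rw [this]
    ring

theorem energy_mul_left (a : ℝ) (r : ℕ) : ∀ g : List ι → ℝ,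
    energy r (fun l => a * g l) = ‖a‖ₑ ^ 2 * energy r g := by
  induction r with
  | zero => intro g; simp [energy, enorm_mul, mul_pow]
  | succ r ih =>
    intro g
    simp only [energy_succ]
    rw [← ENNReal.tsum_mul_left]
    exact tsum_congr fun j => ih _

variable (b : HilbertBasis ι ℝ (H V))

/-- The remainder in the Leibniz rule for `F G + H`. -/
noncomputable def rem (F G H : (unitInterval → V) → ℝ) (x : unitInterval → V) (l : List ι) : ℝ :=
  spl (fun x y : ℝ => x * y) (tl fun l => iterD b l F x) (fun l => iterD b l G x) l + iterD b l H x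

theorem en_mul_add {F G H : (unitInterval → V) → ℝ} (hF : IsCyl F) (hG : IsCyl G) (hH : IsCyl H)
    (r : ℕ) (x : unitInterval → V) : en b r (fun x => F x * G x + H x) x =
      energy r (fun l => F x * iterD b l G x + rem b F G H x l) := by
  unfold en
  have h : (fun l => iterD b l (fun x => F x * G x + H x) x) =
      fun l => F x * iterD b l G x + rem b F G H x l := by
    ext l
    rw [iterD_add b l (hF.mul hG) hH]
    simp only
    rw [iterD_mul b l hF hG]
    have h1 := spl_tl (fun l => iterD b l F x) (fun l => iterD b l G x) l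
    unfold spl at h1
    rw [h1]
    unfold rem spl
    rw [add_assoc]
    rfl
  rw [h]

theorem energy_rem_le {F G H : (unitInterval → V) → ℝ} (r : ℕ) (x : unitInterval → V) :
    energy (r + 1) (rem b F G H x) ≤
      2 * (4 ^ (r + 1) * (N1 b (r + 1) F x * NN b r G x)) + 2 * en b (r + 1) H x := by
  unfold rem
  refine (energy_add_le (r + 1) _ _).trans ?_
  have hB : ∀ x y : ℝ, ‖x * y‖ₑ ≤ ‖x‖ₑ * ‖y‖ₑ := fun x y => by rw [enorm_mul]
  have h1 := energy_spl_le (B := fun x y : ℝ => x * y) hB (r + 1)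
    (tl fun l => iterD b l F x) (fun l => iterD b l G x)
  have h2 : ∑ p ∈ Finset.HasAntidiagonal.antidiagonal (r + 1),
      energy p.1 (tl fun l => iterD b l F x) * energy p.2 (fun l => iterD b l G x) ≤
      N1 b (r + 1) F x * NN b r G x := by
    rw [Finset.Nat.antidiagonal_succ, Finset.sum_cons, energy_tl_zero, zero_mul, zero_add,
      Finset.sum_map]
    have h3 := sum_antidiagonal_le (le_refl r) (fun k => energy (k + 1) (fun l => iterD b l F x))
      (fun k => energy k (fun l => iterD b l G x))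
    refine le_trans (le_of_eq ?_) h3
    rfl
  have h3 := h1.trans (mul_le_mul' le_rfl h2)
  exact add_le_add (mul_le_mul' le_rfl h3) le_rfl

/-- Power of the energy of `F G + H`. -/
theorem en_mul_add_pow (p : ℕ) : ∃ C : ℝ≥0, ∀ {F G H : (unitInterval → V) → ℝ}, IsCyl F →
    IsCyl G → IsCyl H → ∀ (r : ℕ) (x : unitInterval → V),
    en b (r + 1) (fun x => F x * G x + H x) x ^ p ≤
      2 * (‖F x‖ₑ ^ 2 * en b (r + 1) G x) ^ p +
        C * (2 * (4 ^ (r + 1) * (N1 b (r + 1) F x * NN b r G x)) + 2 * en b (r + 1) H x) ^ p := by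
  obtain ⟨C, hC⟩ := energy_add_pow (ι := ι) (E := ℝ) p
  refine ⟨C, fun {F G H} hF hG hH r x => ?_⟩
  rw [en_mul_add b hF hG hH]
  refine (hC _ _ _).trans ?_
  rw [energy_mul_left]
  gcongr
  · exact le_rfl
  · exact energy_rem_le b r x

theorem en_mul_add_zero {F G H : (unitInterval → V) → ℝ} (hF : IsCyl F) (hG : IsCyl G)
    (hH : IsCyl H) (r : ℕ) (x : unitInterval → V) (h1 : N1 b (r + 1) F x = 0)
    (h2 : en b (r + 1) H x = 0) :
    en b (r + 1) (fun x => F x * G x + H x) x ≤ ‖F x‖ₑ ^ 2 * en b (r + 1) G x := by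
  rw [en_mul_add b hF hG hH]
  have h3 : energy (r + 1) (rem b F G H x) = 0 := by
    have := energy_rem_le b (F := F) (G := G) (H := H) r x
    rw [h1, h2] at this
    simpa using this
  refine (energy_add_zero _ _ _ h3).trans (le_of_eq ?_)
  rw [energy_mul_left]
  rfl

/-- `1 - F` and `F` have the same derivatives, up to sign. -/
theorem en_one_sub (r : ℕ) {F : (unitInterval → V) → ℝ} (hF : IsCyl F) (x : unitInterval → V) :
    en b (r + 1) (fun x => 1 - F x) x = en b (r + 1) F x := by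
  unfold en
  rw [energy_succ, energy_succ]
  refine tsum_congr fun j => ?_
  rw [← energy_neg r (fun l => iterD b (j :: l) F x)]
  have h : (fun l => iterD b (j :: l) (fun x => 1 - F x) x) =
      fun l => -iterD b (j :: l) F x := by
    ext l
    rw [iterD_sub b (j :: l) (IsCyl.const 1) hF, iterD_const_cons]
    simp
  rw [h]

theorem N1_one_sub (r : ℕ) {F : (unitInterval → V) → ℝ} (hF : IsCyl F) (x : unitInterval → V) :
    N1 b r (fun x => 1 - F x) x = N1 b r F x := by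
  unfold N1
  exact Finset.sum_congr rfl fun k _ => en_one_sub b k hF x

end product

end Pool.Agent.Lib.UdB
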