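import Pool.Agent.Lib.UdB.Bits
import Pool.Agent.Lib.UdB.EnergyPow

/-!
# Sobolev norms of the activations and of the gates
-/

set_option autoImplicit false
set_option linter.unusedSectionVars false

open MeasureTheory Set
open scoped ENNReal NNReal InnerProductSpace

namespace Pool.Agent.Lib.UdB

section gauss

theorem one_add_pow_le (t : ℝ≥0∞) (n : ℕ) : (1 + t) ^ n ≤ 2 ^ n * (1 + t ^ n) := by
  rcases le_total t 1 with h | h
  · calc (1 + t) ^ n ≤ (1 + 1) ^ n := by gcongr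
      _ = 2 ^ n * 1 := by norm_num
      _ ≤ _ := by gcongr; exact le_self_add
  · calc (1 + t) ^ n ≤ (t + t) ^ n := by gcongr
      _ = 2 ^ n * t ^ n := by rw [← two_mul, mul_pow]
      _ ≤ _ := by gcongr; exact le_add_self

theorem add_pow_le_two_pow (s t : ℝ≥0∞) (n : ℕ) : (s + t) ^ n ≤ 2 ^ n * (s ^ n + t ^ n) := by
  rcases le_total t s with h | h
  · calc (s + t) ^ n ≤ (s + s) ^ n := by gcongr
      _ = 2 ^ n * s ^ n := by rw [← two_mul, mul_pow]
      _ ≤ _ := by gcongr; exact le_self_add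
  · calc (s + t) ^ n ≤ (t + t) ^ n := by gcongr
      _ = 2 ^ n * t ^ n := by rw [← two_mul, mul_pow]
      _ ≤ _ := by gcongr; exact le_add_self

theorem abs_pow_le_exp (y : ℝ) (n : ℕ) :
    |y| ^ n ≤ n.factorial * (Real.exp y + Real.exp (-y)) := by
  have h1 := Real.pow_div_factorial_le_exp |y| (abs_nonneg y) n
  rw [div_le_iff₀ (by positivity)] at h1
  have h2 : Real.exp |y| ≤ Real.exp y + Real.exp (-y) := by
    rcases abs_choice y with h | h
    · rw [h]; linarith [Real.exp_pos (-y)]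
    · rw [h]; linarith [Real.exp_pos y]
  calc |y| ^ n ≤ Real.exp |y| * n.factorial := h1
    _ ≤ (Real.exp y + Real.exp (-y)) * n.factorial := by gcongr
    _ = _ := mul_comm _ _

/-- An exponential moment of the standard Gaussian. -/
noncomputable def gexp : ℝ≥0∞ :=
  ∫⁻ y, ENNReal.ofReal (Real.exp y + Real.exp (-y)) ∂(ProbabilityTheory.gaussianReal 0 1)

theorem gexp_ne_top : gexp ≠ ∞ := by
  unfold gexp
  have h1 : Integrable (fun y => Real.exp (1 * y)) (ProbabilityTheory.gaussianReal 0 1) :=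
    ProbabilityTheory.integrable_exp_mul_gaussianReal 1
  have h2 : Integrable (fun y => Real.exp (-1 * y)) (ProbabilityTheory.gaussianReal 0 1) :=
    ProbabilityTheory.integrable_exp_mul_gaussianReal (-1)
  have h3 : Integrable (fun y => Real.exp y + Real.exp (-y)) (ProbabilityTheory.gaussianReal 0 1) := by
    simp only [one_mul, neg_one_mul] at h1 h2
    exact h1.add h2
  have := h3.lintegral_lt_top
  exact this.ne

variable {V : Type} [NormedAddCommGroup V] [InnerProductSpace ℝ V] [FiniteDimensional ℝ V]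
  [MeasurableSpace V] [BorelSpace V]

theorem IsWR.lintegral_pair {ν : Measure (unitInterval → V)} (hν : IsWR ν)
    {c : unitInterval →₀ V} (hc : Qf c = 1) {f : ℝ → ℝ≥0∞} (hf : Measurable f) :
    ∫⁻ x, f (pair c x) ∂ν = ∫⁻ y, f y ∂(ProbabilityTheory.gaussianReal 0 1) := by
  rw [← lintegral_map hf (measurable_pair c), hν.map_pair, hc]
  simp

theorem IsWR.moment_pair {ν : Measure (unitInterval → V)} (hν : IsWR ν)
    {c : unitInterval →₀ V} (hc : Qf c = 1) (n : ℕ) :
    ∫⁻ x, (1 + ‖pair c x‖ₑ ^ 2) ^ n ∂ν ≤ 2 ^ n * (1 + (2 * n).factorial * gexp) := by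
  have hm : Measurable fun y : ℝ => (1 + ‖y‖ₑ ^ 2) ^ n := by fun_prop
  rw [hν.lintegral_pair hc hm]
  calc ∫⁻ y : ℝ, (1 + ‖y‖ₑ ^ 2) ^ n ∂(ProbabilityTheory.gaussianReal 0 1)
      ≤ ∫⁻ y : ℝ, 2 ^ n * (1 + (2 * n).factorial *
          ENNReal.ofReal (Real.exp y + Real.exp (-y))) ∂(ProbabilityTheory.gaussianReal 0 1) := by
        refine lintegral_mono fun y => ?_
        refine (one_add_pow_le _ _).trans ?_
        gcongr
        rw [← pow_mul, ← ofReal_norm, ← ENNReal.ofReal_pow (norm_nonneg _), Real.norm_eq_abs]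
        rw [← ENNReal.ofReal_natCast, ← ENNReal.ofReal_mul (by positivity)]
        exact ENNReal.ofReal_le_ofReal (abs_pow_le_exp y (2 * n))
    _ = _ := by
        rw [lintegral_const_mul _ (by fun_prop), lintegral_add_left (by fun_prop),
          lintegral_const_mul _ (by fun_prop)]
        simp [gexp]

end gauss

namespace TimeData

variable (D : TimeData)
variable {ι : Type} (b : HilbertBasis ι ℝ (H ℂ))

/-- The bound for the derivatives of the activation. -/
noncomputable def chiC (r i : ℕ) : ℝ≥0∞ :=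
  (r * 4 ^ (r * r)) * (ENNReal.ofReal ((KK i ^ 8) ^ (2 * r)) * SB r * (1 * (1 + 1) ^ r))

theorem polyK_chiC (r : ℕ) : PolyK (chiC r) := by
  unfold chiC
  have h1 : PolyK fun i => ENNReal.ofReal ((KK i ^ 8) ^ (2 * r)) := by
    simp only [← pow_mul]
    exact PolyK.KK_pow _
  refine (PolyK.const ?_).mul ((h1.mul (PolyK.const (SB_ne_top r))).mul (PolyK.const ?_))
  · exact ENNReal.mul_ne_top (by simp) (by simp)
  · simp

theorem N1_pair_inc_le {i m j : ℕ} (hm : m < D.M i) (hj : j ≤ 3) {e : ℂ} (he : ‖e‖ = 1) (r : ℕ)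
    (x : unitInterval → ℂ) : N1 b r (pair (D.inc i m j e)) x ≤ 1 := by
  have := N1_pair_le b r (D.inc i m j e) x
  rw [D.Qf_inc hm hj he] at this
  simpa using this

theorem N1_comp_pair_le {i m j : ℕ} (hm : m < D.M i) (hj : j ≤ 3) {e : ℂ} (he : ‖e‖ = 1) (r : ℕ)
    {f : ℝ → ℝ} (hf : f.HasTemperateGrowth) (x : unitInterval → ℂ) :
    N1 b r (fun x => f (pair (D.inc i m j e) x)) x ≤
      (r * 4 ^ (r * r)) * (DD r f (pair (D.inc i m j e) x) * (1 * (1 + 1) ^ r)) := by
  refine (N1_comp_le b r (IsCyl.pair _) hf x).trans ?_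
  have h := D.N1_pair_inc_le b hm hj he r x
  gcongr

theorem N1_chi_le {i m : ℕ} (hm : m < D.M i) (r : ℕ) (x : unitInterval → ℂ) :
    N1 b r (D.chi i m) x ≤ chiC r i := by
  have h1 := D.N1_comp_pair_le b hm (j := 0) (by norm_num) (e := 1) (by simp) r (chif_temperate i) x
  refine h1.trans ?_
  unfold chiC
  gcongr
  exact DD_sg_affine _ _ (one_le_pow₀ (one_le_KK i)) r _

theorem N1_chi_left {i m : ℕ} (hm : m < D.M i) (r : ℕ) (x : unitInterval → ℂ)
    (h : pair (D.inc i m 0 1) x ≤ KK i) : N1 b r (D.chi i m) x = 0 := by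
  have h1 := D.N1_comp_pair_le b hm (j := 0) (by norm_num) (e := 1) (by simp) r (chif_temperate i) x
  have h2 : DD r (chif i) (pair (D.inc i m 0 1) x) = 0 :=
    DD_sg_affine_zero _ _ r (mul_nonpos_of_nonneg_of_nonpos (pow_nonneg (KK_pos i).le _)
      (by linarith))
  rw [h2, zero_mul, mul_zero] at h1
  exact le_antisymm h1 zero_le

theorem one_sub_chif (i : ℕ) (y : ℝ) :
    1 - chif i y = sg (-KK i ^ 8 * (y - (KK i + (KK i ^ 8)⁻¹))) := by
  unfold chif
  rw [← sg_symm]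
  congr 1
  have h : KK i ^ 8 * (KK i ^ 8)⁻¹ = 1 := mul_inv_cancel₀ (pow_pos (KK_pos i) 8).ne'
  linear_combination -h

theorem N1_chi_right {i m : ℕ} (hm : m < D.M i) (r : ℕ) (x : unitInterval → ℂ)
    (h : KK i + (KK i ^ 8)⁻¹ ≤ pair (D.inc i m 0 1) x) : N1 b r (D.chi i m) x = 0 := by
  rw [← N1_one_sub b r (D.isCyl_chi i m)]
  have h0 : (fun x => 1 - D.chi i m x) =
      fun x => (fun y => sg (-KK i ^ 8 * (y - (KK i + (KK i ^ 8)⁻¹)))) (pair (D.inc i m 0 1) x) := by
    funext x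
    exact one_sub_chif i _
  rw [h0]
  have h1 := D.N1_comp_pair_le b hm (j := 0) (by norm_num) (e := 1) (by simp) r
    (tg_sg_affine (-KK i ^ 8) (KK i + (KK i ^ 8)⁻¹)) x
  have h2 : DD r (fun y => sg (-KK i ^ 8 * (y - (KK i + (KK i ^ 8)⁻¹))))
      (pair (D.inc i m 0 1) x) = 0 := by
    refine DD_sg_affine_zero _ _ r (mul_nonpos_of_nonpos_of_nonneg ?_ (by linarith))
    have := pow_pos (KK_pos i) 8
    linarith
  rw [h2, zero_mul, mul_zero] at h1
  exact le_antisymm h1 zero_le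

theorem enorm_sq_le_one {a : ℝ} (h0 : 0 ≤ a) (h1 : a ≤ 1) : ‖a‖ₑ ^ 2 ≤ 1 := by
  rw [← ofReal_norm, Real.norm_of_nonneg h0]
  refine pow_le_one' ?_ 2
  simpa using h1

theorem NN_chi_le {i m : ℕ} (hm : m < D.M i) (r : ℕ) (x : unitInterval → ℂ) :
    NN b r (D.chi i m) x ≤ chiC r i + 1 := by
  rw [NN_eq]
  exact add_le_add (D.N1_chi_le b hm r x) (enorm_sq_le_one (D.chi_nonneg i m x) (D.chi_le_one i m x))

theorem NN_chi_left {i m : ℕ} (hm : m < D.M i) (r : ℕ) (x : unitInterval → ℂ)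
    (h : pair (D.inc i m 0 1) x ≤ KK i) : NN b r (D.chi i m) x = 0 := by
  rw [NN_eq, D.N1_chi_left b hm r x h]
  have : D.chi i m x = 0 := chif_zero h
  simp [this]

/-! ### the gate -/

theorem NN_pair_inc_le {i m j : ℕ} (hm : m < D.M i) (hj : j ≤ 3) {e : ℂ} (he : ‖e‖ = 1) (r : ℕ)
    (x : unitInterval → ℂ) :
    NN b r (pair (D.inc i m j e)) x ≤ 1 + ‖pair (D.inc i m j e) x‖ₑ ^ 2 := by
  rw [NN_eq]
  exact add_le_add (D.N1_pair_inc_le b hm hj he r x) le_rfl

/-- `x ↦ I x` as a linear map. -/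
noncomputable def iL : ℝ →L[ℝ] ℂ := (ContinuousLinearMap.id ℝ ℝ).smulRight Complex.I

theorem iL_apply (a : ℝ) : iL a = a * Complex.I := by
  simp [iL, Complex.real_smul]

theorem norm_iL_le : ‖iL‖ ≤ 1 := by
  refine ContinuousLinearMap.opNorm_le_bound _ zero_le_one fun a => ?_
  rw [iL_apply, norm_mul, Complex.norm_I, mul_one, one_mul]
  simp

theorem NN_eta_le {i m : ℕ} (hm : m < D.M i) (r : ℕ) (x : unitInterval → ℂ) :
    NN b r (D.eta i m) x ≤ 4 * ((1 + ‖pair (D.inc i m 2 1) x‖ₑ ^ 2) *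
      (1 + ‖pair (D.inc i m 2 Complex.I) x‖ₑ ^ 2)) := by
  have h0 : D.eta i m = fun x => (fun x => Complex.ofRealCLM (pair (D.inc i m 2 1) x)) x +
      (fun x => iL (pair (D.inc i m 2 Complex.I) x)) x := by
    funext x
    rw [eta_eq]
    simp [iL_apply]
  have h1 : ∀ k, en b k (D.eta i m) x ≤ 2 * en b k (pair (D.inc i m 2 1)) x +
      2 * en b k (pair (D.inc i m 2 Complex.I)) x := by
    intro k
    rw [h0]
    refine (en_add_le b k ((IsCyl.pair _).clm _) ((IsCyl.pair _).clm _) x).trans ?_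
    gcongr
    · refine (en_clm_le b _ k (IsCyl.pair _) x).trans ?_
      calc _ ≤ 1 * en b k (pair (D.inc i m 2 1)) x := by
            gcongr
            rw [← ofReal_norm, Complex.ofRealCLM_norm]; simp
        _ = _ := one_mul _
    · refine (en_clm_le b _ k (IsCyl.pair _) x).trans ?_
      calc _ ≤ 1 * en b k (pair (D.inc i m 2 Complex.I)) x := by
            gcongr
            refine pow_le_one' ?_ 2
            rw [← ofReal_norm]
            exact ENNReal.ofReal_le_one.2 norm_iL_le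
        _ = _ := one_mul _
  have h2 : NN b r (D.eta i m) x ≤ 2 * NN b r (pair (D.inc i m 2 1)) x +
      2 * NN b r (pair (D.inc i m 2 Complex.I)) x := by
    unfold NN
    rw [Finset.mul_sum, Finset.mul_sum, ← Finset.sum_add_distrib]
    exact Finset.sum_le_sum fun k _ => h1 k
  refine h2.trans ?_
  have h3 := D.NN_pair_inc_le b hm (j := 2) (by norm_num) (e := 1) (by simp) r x
  have h4 := D.NN_pair_inc_le b hm (j := 2) (by norm_num) (e := Complex.I) (by simp) r x
  set u := ‖pair (D.inc i m 2 1) x‖ₑ ^ 2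
  set v := ‖pair (D.inc i m 2 Complex.I) x‖ₑ ^ 2
  calc 2 * NN b r (pair (D.inc i m 2 1)) x + 2 * NN b r (pair (D.inc i m 2 Complex.I)) x
      ≤ 2 * (1 + u) + 2 * (1 + v) := by gcongr
    _ = 4 + 2 * u + 2 * v := by ring
    _ ≤ 4 + 4 * u + 4 * v + 4 * (u * v) := by
        have : (2 : ℝ≥0∞) ≤ 4 := by norm_num
        calc 4 + 2 * u + 2 * v ≤ 4 + 4 * u + 4 * v := by gcongr
          _ ≤ _ := le_self_add
    _ = _ := by ring

theorem NN_one (r : ℕ) (x : unitInterval → ℂ) :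
    NN b r (fun _ : unitInterval → ℂ => (1 : ℂ)) x = 1 := by
  rw [NN_eq]
  have : N1 b r (fun _ : unitInterval → ℂ => (1 : ℂ)) x = 0 := by
    unfold N1
    exact Finset.sum_eq_zero fun k _ => en_const_succ b k _ x
  rw [this]
  simp

theorem NN_pow_le (r : ℕ) {F : (unitInterval → ℂ) → ℂ} (hF : IsCyl F) (x : unitInterval → ℂ)
    (n : ℕ) : NN b r (fun x => F x ^ n) x ≤ (((r + 1 : ℕ) * 4 ^ r) * NN b r F x) ^ n := by
  induction n with
  | zero =>
    simp only [pow_zero]
    rw [NN_one]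
  | succ n ih =>
    have h0 : (fun x => F x ^ (n + 1)) = fun x => F x ^ n * F x := by
      funext x; rw [pow_succ]
    rw [h0]
    refine (NN_mul_le b r (hF.pow n) hF x).trans ?_
    calc ((r + 1 : ℕ) * 4 ^ r) * (NN b r (fun x => F x ^ n) x * NN b r F x)
        ≤ ((r + 1 : ℕ) * 4 ^ r) * ((((r + 1 : ℕ) * 4 ^ r) * NN b r F x) ^ n * NN b r F x) := by
          gcongr
      _ = _ := by ring

end TimeData

end Pool.Agent.Lib.UdB
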