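import Pool.Agent.Lib.UdB.Gauss

/-!
# Calculus of cylindrical functionals
-/

set_option autoImplicit false
set_option linter.unusedSectionVars false
set_option linter.style.haveILetI false

open MeasureTheory
open scoped ENNReal InnerProductSpace ContDiff

namespace Pool.Agent.Lib.UdB

variable {V : Type} [NormedAddCommGroup V] [InnerProductSpace ℝ V] [FiniteDimensional ℝ V]
  [MeasurableSpace V] [BorelSpace V]

section temperate

variable {D E F : Type} [NormedAddCommGroup D] [NormedSpace ℝ D] [NormedAddCommGroup E]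
  [NormedSpace ℝ E] [NormedAddCommGroup F] [NormedSpace ℝ F]

theorem tg_fderiv {f : E → F} (hf : f.HasTemperateGrowth) : (fderiv ℝ f).HasTemperateGrowth := by
  refine ⟨hf.1.fderiv_right (by simp), fun n => ?_⟩
  obtain ⟨k, C, h⟩ := hf.2 (n + 1)
  refine ⟨k, C, fun x => ?_⟩
  rw [norm_iteratedFDeriv_fderiv]
  exact h x

theorem tg_fderiv_apply {f : E → F} (hf : f.HasTemperateGrowth) (v : E) :
    (fun x => fderiv ℝ f x v).HasTemperateGrowth := by
  have h := (ContinuousLinearMap.apply ℝ F v).hasTemperateGrowth.comp (tg_fderiv hf)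
  exact h

theorem tg_deriv {f : ℝ → F} (hf : f.HasTemperateGrowth) : (deriv f).HasTemperateGrowth := by
  have := tg_fderiv_apply hf (1 : ℝ)
  simpa using this

theorem tg_iteratedDeriv {f : ℝ → F} (hf : f.HasTemperateGrowth) (k : ℕ) :
    (iteratedDeriv k f).HasTemperateGrowth := by
  induction k with
  | zero => simpa using hf
  | succ k ih => rw [iteratedDeriv_succ]; exact tg_deriv ih

end temperate

variable {E E' E'' : Type} [NormedAddCommGroup E] [NormedSpace ℝ E] [NormedAddCommGroup E']
  [NormedSpace ℝ E'] [NormedAddCommGroup E''] [NormedSpace ℝ E'']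

/-- restriction of functions to a finite set of times -/
def rs (T : Finset unitInterval) (x : unitInterval → V) : T → V := fun t => x t

theorem rs_add (T : Finset unitInterval) (x y : unitInterval → V) :
    rs T (x + y) = rs T x + rs T y := rfl

theorem rs_smul (T : Finset unitInterval) (a : ℝ) (x : unitInterval → V) :
    rs T (a • x) = a • rs T x := rfl

/-- restriction as a continuous linear map -/
noncomputable def rsub {T T' : Finset unitInterval} (h : T ⊆ T') : (T' → V) →L[ℝ] (T → V) :=
  ContinuousLinearMap.pi fun t : T => ContinuousLinearMap.proj (⟨t.1, h t.2⟩ : T')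

theorem rsub_rs {T T' : Finset unitInterval} (h : T ⊆ T') (x : unitInterval → V) :
    rsub h (rs T' x) = rs T x := by
  ext t; rfl

theorem isCyl_iff {F : (unitInterval → V) → E} : IsCyl F ↔
    ∃ (T : Finset unitInterval) (Φ : (T → V) → E), Φ.HasTemperateGrowth ∧ ∀ x, F x = Φ (rs T x) :=
  Iff.rfl

theorem IsCyl.two {F : (unitInterval → V) → E} {G : (unitInterval → V) → E'} (hF : IsCyl F)
    (hG : IsCyl G) : ∃ (T : Finset unitInterval) (Φ : (T → V) → E) (Ψ : (T → V) → E'),
      Φ.HasTemperateGrowth ∧ Ψ.HasTemperateGrowth ∧ (∀ x, F x = Φ (rs T x)) ∧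
      (∀ x, G x = Ψ (rs T x)) := by
  classical
  obtain ⟨T₁, Φ, h1, h2⟩ := hF
  obtain ⟨T₂, Ψ, h3, h4⟩ := hG
  refine ⟨T₁ ∪ T₂, fun y => Φ (rsub Finset.subset_union_left y),
    fun y => Ψ (rsub Finset.subset_union_right y), ?_, ?_, ?_, ?_⟩
  · exact h1.comp (rsub (V := V) (Finset.subset_union_left (s₁ := T₁) (s₂ := T₂))).hasTemperateGrowth
  · exact h3.comp (rsub (V := V) (Finset.subset_union_right (s₁ := T₁) (s₂ := T₂))).hasTemperateGrowth
  · intro x; exact h2 x
  · intro x; exact h4 x

theorem IsCyl.const (c : E) : IsCyl (fun _ : unitInterval → V => c) :=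
  ⟨∅, fun _ => c, Function.HasTemperateGrowth.const c, fun _ => rfl⟩

/-- composition with a function of temperate growth -/
theorem IsCyl.comp {F : (unitInterval → V) → E} (hF : IsCyl F) {f : E → E'}
    (hf : f.HasTemperateGrowth) : IsCyl (fun x => f (F x)) := by
  obtain ⟨T, Φ, h1, h2⟩ := hF
  exact ⟨T, fun y => f (Φ y), hf.comp h1, fun x => congrArg f (h2 x)⟩

theorem IsCyl.add {F G : (unitInterval → V) → E} (hF : IsCyl F) (hG : IsCyl G) :
    IsCyl (fun x => F x + G x) := by
  obtain ⟨T, Φ, Ψ, h1, h2, h3, h4⟩ := hF.two hG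
  exact ⟨T, fun y => Φ y + Ψ y, h1.fun_add h2, fun x => congrArg₂ (· + ·) (h3 x) (h4 x)⟩

theorem IsCyl.neg {F : (unitInterval → V) → E} (hF : IsCyl F) : IsCyl (fun x => -F x) := by
  obtain ⟨T, Φ, h1, h2⟩ := hF
  exact ⟨T, fun y => -Φ y, h1.fun_neg, fun x => congrArg (- ·) (h2 x)⟩

theorem IsCyl.sub {F G : (unitInterval → V) → E} (hF : IsCyl F) (hG : IsCyl G) :
    IsCyl (fun x => F x - G x) := by
  have := hF.add hG.neg
  simpa [sub_eq_add_neg] using this

theorem IsCyl.sum {κ : Type} (s : Finset κ) {F : κ → (unitInterval → V) → E}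
    (hF : ∀ i ∈ s, IsCyl (F i)) : IsCyl (fun x => ∑ i ∈ s, F i x) := by
  classical
  induction s using Finset.induction_on with
  | empty => simpa using IsCyl.const (V := V) (0 : E)
  | insert a s ha ih =>
    simp only [Finset.sum_insert ha]
    exact (hF a (Finset.mem_insert_self a s)).add
      (ih fun i hi => hF i (Finset.mem_insert_of_mem hi))

/-- bilinear products -/
theorem IsCyl.bilin (B : E →L[ℝ] E' →L[ℝ] E'') {F : (unitInterval → V) → E}
    {G : (unitInterval → V) → E'} (hF : IsCyl F) (hG : IsCyl G) :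
    IsCyl (fun x => B (F x) (G x)) := by
  obtain ⟨T, Φ, Ψ, h1, h2, h3, h4⟩ := hF.two hG
  exact ⟨T, fun y => B (Φ y) (Ψ y), B.bilinear_hasTemperateGrowth h1 h2,
    fun x => congrArg₂ (fun a c => B a c) (h3 x) (h4 x)⟩

theorem IsCyl.smul {F : (unitInterval → V) → ℝ} {G : (unitInterval → V) → E} (hF : IsCyl F)
    (hG : IsCyl G) : IsCyl (fun x => F x • G x) :=
  IsCyl.bilin (ContinuousLinearMap.lsmul ℝ ℝ) hF hG

theorem IsCyl.const_smul {F : (unitInterval → V) → E} (hF : IsCyl F) (a : ℝ) :
    IsCyl (fun x => a • F x) :=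
  (IsCyl.const (V := V) a).smul hF

theorem IsCyl.mul {R : Type} [NormedRing R] [NormedAlgebra ℝ R] {F G : (unitInterval → V) → R}
    (hF : IsCyl F) (hG : IsCyl G) : IsCyl (fun x => F x * G x) :=
  IsCyl.bilin (ContinuousLinearMap.mul ℝ R) hF hG

theorem IsCyl.pow {R : Type} [NormedRing R] [NormedAlgebra ℝ R] {F : (unitInterval → V) → R}
    (hF : IsCyl F) (n : ℕ) : IsCyl (fun x => F x ^ n) := by
  induction n with
  | zero => simpa using IsCyl.const (V := V) (1 : R)
  | succ n ih => simpa [pow_succ] using ih.mul hF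

theorem IsCyl.eval (t : unitInterval) : IsCyl (fun x : unitInterval → V => x t) :=
  ⟨{t}, fun y => y ⟨t, Finset.mem_singleton_self t⟩,
    (ContinuousLinearMap.proj (R := ℝ) (φ := fun _ : ({t} : Finset unitInterval) => V)
      ⟨t, Finset.mem_singleton_self t⟩).hasTemperateGrowth, fun _ => rfl⟩

theorem IsCyl.clm {F : (unitInterval → V) → E} (hF : IsCyl F) (L : E →L[ℝ] E') :
    IsCyl (fun x => L (F x)) := hF.comp L.hasTemperateGrowth

theorem IsCyl.pair (c : unitInterval →₀ V) : IsCyl (pair c) := by
  have h : UdB.pair c = fun x : unitInterval → V => ∑ t ∈ c.support, ⟪c t, x t⟫_ℝ := by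
    ext x; rfl
  rw [h]
  exact IsCyl.sum _ fun t _ => (IsCyl.eval t).clm (innerSL ℝ (c t))

theorem IsCyl.measurable [MeasurableSpace E] [BorelSpace E] {F : (unitInterval → V) → E}
    (hF : IsCyl F) : Measurable F := by
  obtain ⟨T, Φ, h1, h2⟩ := hF
  haveI : ProperSpace V := FiniteDimensional.proper ℝ V
  haveI : SecondCountableTopology V := inferInstance
  have h3 : F = fun x => Φ (rs T x) := funext h2
  rw [h3]
  refine (h1.1.continuous.measurable).comp ?_
  unfold rs
  exact measurable_pi_lambda _ fun t => measurable_pi_apply _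

/-! ### directional derivatives -/

theorem hasDerivAt_cyl {T : Finset unitInterval} {Φ : (T → V) → E} (hΦ : Φ.HasTemperateGrowth)
    (v x : unitInterval → V) :
    HasDerivAt (fun ε : ℝ => Φ (rs T (x + ε • v))) (fderiv ℝ Φ (rs T x) (rs T v)) 0 := by
  have h1 : HasFDerivAt Φ (fderiv ℝ Φ (rs T x)) (rs T x + (0 : ℝ) • rs T v) := by
    rw [zero_smul, add_zero]
    exact (hΦ.1.differentiable (by simp)).differentiableAt.hasFDerivAt
  have h2 : HasDerivAt (fun ε : ℝ => rs T x + ε • rs T v) (rs T v) 0 := by
    have := ((hasDerivAt_id (0 : ℝ)).smul_const (rs T v)).const_add (rs T x)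
    simpa using this
  have h3 := h1.comp_hasDerivAt (0 : ℝ) h2
  exact h3

theorem dirD_eq {T : Finset unitInterval} {Φ : (T → V) → E} (hΦ : Φ.HasTemperateGrowth)
    {F : (unitInterval → V) → E} (hF : ∀ x, F x = Φ (rs T x)) (v x : unitInterval → V) :
    dirD v F x = fderiv ℝ Φ (rs T x) (rs T v) := by
  unfold dirD
  have h1 : (fun ε : ℝ => F (x + ε • v)) = fun ε : ℝ => Φ (rs T (x + ε • v)) := by
    ext ε; rw [hF]
  rw [h1]
  exact (hasDerivAt_cyl hΦ v x).deriv

theorem IsCyl.hasDerivAt {F : (unitInterval → V) → E} (hF : IsCyl F) (v x : unitInterval → V) :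
    HasDerivAt (fun ε : ℝ => F (x + ε • v)) (dirD v F x) 0 := by
  obtain ⟨T, Φ, h1, h2⟩ := hF
  rw [dirD_eq h1 h2]
  have h3 : (fun ε : ℝ => F (x + ε • v)) = fun ε : ℝ => Φ (rs T (x + ε • v)) := by
    ext ε; rw [h2]; rfl
  rw [h3]
  exact hasDerivAt_cyl h1 v x

theorem IsCyl.dirD {F : (unitInterval → V) → E} (hF : IsCyl F) (v : unitInterval → V) :
    IsCyl (dirD v F) := by
  obtain ⟨T, Φ, h1, h2⟩ := hF
  exact ⟨T, fun y => fderiv ℝ Φ y (rs T v), tg_fderiv_apply h1 _, fun x => dirD_eq h1 h2 v x⟩

theorem dirD_const (v : unitInterval → V) (c : E) :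
    dirD v (fun _ : unitInterval → V => c) = fun _ => 0 := by
  ext x; simp [UdB.dirD]

theorem dirD_zero (v : unitInterval → V) :
    dirD v (fun _ : unitInterval → V => (0 : E)) = fun _ => 0 := dirD_const v 0

theorem dirD_add {F G : (unitInterval → V) → E} (hF : IsCyl F) (hG : IsCyl G)
    (v : unitInterval → V) :
    dirD v (fun x => F x + G x) = fun x => dirD v F x + dirD v G x := by
  ext x
  exact ((hF.hasDerivAt v x).add (hG.hasDerivAt v x)).deriv

theorem dirD_clm {F : (unitInterval → V) → E} (hF : IsCyl F) (L : E →L[ℝ] E')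
    (v : unitInterval → V) : dirD v (fun x => L (F x)) = fun x => L (dirD v F x) := by
  ext x
  exact (L.hasFDerivAt.comp_hasDerivAt (0 : ℝ) (hF.hasDerivAt v x)).deriv

theorem dirD_neg {F : (unitInterval → V) → E} (v : unitInterval → V) :
    dirD v (fun x => -F x) = fun x => -dirD v F x := by
  ext x
  exact deriv.fun_neg

theorem dirD_sub {F G : (unitInterval → V) → E} (hF : IsCyl F) (hG : IsCyl G)
    (v : unitInterval → V) :
    dirD v (fun x => F x - G x) = fun x => dirD v F x - dirD v G x := by
  ext x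
  exact ((hF.hasDerivAt v x).sub (hG.hasDerivAt v x)).deriv

theorem dirD_const_smul (a : ℝ) {F : (unitInterval → V) → E} (hF : IsCyl F)
    (v : unitInterval → V) : dirD v (fun x => a • F x) = fun x => a • dirD v F x := by
  ext x
  exact ((hF.hasDerivAt v x).const_smul a).deriv

theorem dirD_bilin (B : E →L[ℝ] E' →L[ℝ] E'') {F : (unitInterval → V) → E}
    {G : (unitInterval → V) → E'} (hF : IsCyl F) (hG : IsCyl G) (v : unitInterval → V) :
    dirD v (fun x => B (F x) (G x)) = fun x => B (dirD v F x) (G x) + B (F x) (dirD v G x) := by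
  ext x
  have h := B.hasFDerivAt_of_bilinear (hF.hasDerivAt v x).hasFDerivAt (hG.hasDerivAt v x).hasFDerivAt
  have h2 := h.hasDerivAt.deriv
  unfold UdB.dirD
  unfold UdB.dirD at h2
  rw [h2]
  simp [ContinuousLinearMap.precompR_apply, ContinuousLinearMap.precompL_apply, add_comm]

/-- product rule -/
theorem dirD_mul {R : Type} [NormedRing R] [NormedAlgebra ℝ R] {F G : (unitInterval → V) → R}
    (hF : IsCyl F) (hG : IsCyl G) (v : unitInterval → V) :
    dirD v (fun x => F x * G x) = fun x => dirD v F x * G x + F x * dirD v G x :=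
  dirD_bilin (ContinuousLinearMap.mul ℝ R) hF hG v

theorem dirD_smul {F : (unitInterval → V) → ℝ} {G : (unitInterval → V) → E}
    (hF : IsCyl F) (hG : IsCyl G) (v : unitInterval → V) :
    dirD v (fun x => F x • G x) = fun x => dirD v F x • G x + F x • dirD v G x :=
  dirD_bilin (ContinuousLinearMap.lsmul ℝ ℝ) hF hG v

/-- chain rule -/
theorem dirD_comp {F : (unitInterval → V) → ℝ} (hF : IsCyl F) {f : ℝ → E}
    (hf : Differentiable ℝ f) (v : unitInterval → V) :
    dirD v (fun x => f (F x)) = fun x => dirD v F x • deriv f (F x) := by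
  ext x
  have h1 : HasDerivAt f (deriv f (F x)) (F (x + (0 : ℝ) • v)) := by
    rw [zero_smul, add_zero]; exact hf.differentiableAt.hasDerivAt
  exact (h1.scomp (0 : ℝ) (hF.hasDerivAt v x)).deriv

theorem dirD_pair (c : unitInterval →₀ V) (v : unitInterval → V) :
    dirD v (pair c) = fun _ => pair c v := by
  ext x
  have h1 : (fun ε : ℝ => pair c (x + ε • v)) = fun ε : ℝ => pair c x + ε * pair c v := by
    ext ε; rw [pair_apply_add, pair_apply_smul]
  unfold UdB.dirD
  rw [h1]
  have h2 : HasDerivAt (fun ε : ℝ => pair c x + ε * pair c v) (1 * pair c v) 0 :=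
    ((hasDerivAt_id (0 : ℝ)).mul_const (pair c v)).const_add (pair c x)
  rw [h2.deriv, one_mul]

/-! ### iterated derivatives -/

variable {ι : Type} (b : HilbertBasis ι ℝ (H V))

theorem IsCyl.iterD (l : List ι) : ∀ {F : (unitInterval → V) → E}, IsCyl F → IsCyl (iterD b l F) := by
  induction l with
  | nil => intro F hF; exact hF
  | cons j l ih => intro F hF; exact ih (hF.dirD _)

theorem iterD_nil (F : (unitInterval → V) → E) : iterD b [] F = F := rfl

theorem iterD_cons (j : ι) (l : List ι) (F : (unitInterval → V) → E) :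
    iterD b (j :: l) F = iterD b l (dirD (primitive (b j)) F) := rfl

theorem iterD_append (l l' : List ι) : ∀ (F : (unitInterval → V) → E),
    iterD b (l ++ l') F = iterD b l' (iterD b l F) := by
  induction l with
  | nil => intro F; rfl
  | cons j l ih => intro F; exact ih _

theorem iterD_zero (l : List ι) :
    iterD b l (fun _ : unitInterval → V => (0 : E)) = fun _ => 0 := by
  induction l with
  | nil => rfl
  | cons j l ih => rw [iterD_cons, dirD_zero, ih]

theorem iterD_const_cons (j : ι) (l : List ι) (c : E) :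
    iterD b (j :: l) (fun _ : unitInterval → V => c) = fun _ => 0 := by
  rw [iterD_cons, dirD_const, iterD_zero]

theorem iterD_add (l : List ι) : ∀ {F G : (unitInterval → V) → E}, IsCyl F → IsCyl G →
    iterD b l (fun x => F x + G x) = fun x => iterD b l F x + iterD b l G x := by
  induction l with
  | nil => intro F G _ _; rfl
  | cons j l ih =>
    intro F G hF hG
    rw [iterD_cons, dirD_add hF hG, ih (hF.dirD _) (hG.dirD _)]
    rfl

theorem iterD_clm (L : E →L[ℝ] E') (l : List ι) : ∀ {F : (unitInterval → V) → E}, IsCyl F →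
    iterD b l (fun x => L (F x)) = fun x => L (iterD b l F x) := by
  induction l with
  | nil => intro F _; rfl
  | cons j l ih =>
    intro F hF
    rw [iterD_cons, dirD_clm hF, ih (hF.dirD _)]
    rfl

theorem iterD_neg (l : List ι) : ∀ {F : (unitInterval → V) → E},
    iterD b l (fun x => -F x) = fun x => -iterD b l F x := by
  induction l with
  | nil => intro F; rfl
  | cons j l ih =>
    intro F
    rw [iterD_cons, dirD_neg, ih]
    rfl

theorem iterD_sub (l : List ι) {F G : (unitInterval → V) → E} (hF : IsCyl F) (hG : IsCyl G) :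
    iterD b l (fun x => F x - G x) = fun x => iterD b l F x - iterD b l G x := by
  have h := iterD_add b l hF hG.neg
  simp only [← sub_eq_add_neg] at h
  rw [h]
  ext x
  rw [iterD_neg]
  rw [sub_eq_add_neg]

theorem iterD_const_smul (a : ℝ) (l : List ι) {F : (unitInterval → V) → E} (hF : IsCyl F) :
    iterD b l (fun x => a • F x) = fun x => a • iterD b l F x :=
  iterD_clm b (a • ContinuousLinearMap.id ℝ E) l hF

theorem iterD_sum {κ : Type} (s : Finset κ) (l : List ι) {F : κ → (unitInterval → V) → E}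
    (hF : ∀ i ∈ s, IsCyl (F i)) :
    iterD b l (fun x => ∑ i ∈ s, F i x) = fun x => ∑ i ∈ s, iterD b l (F i) x := by
  classical
  induction s using Finset.induction_on with
  | empty => simpa using iterD_zero (E := E) b l
  | insert a s ha ih =>
    simp only [Finset.sum_insert ha]
    rw [iterD_add b l (hF a (Finset.mem_insert_self a s))
      (IsCyl.sum s fun i hi => hF i (Finset.mem_insert_of_mem hi)),
      ih fun i hi => hF i (Finset.mem_insert_of_mem hi)]

/-- All ways to split a list in two sublists. -/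
def splits {ι : Type} : List ι → List (List ι × List ι)
  | [] => [([], [])]
  | j :: l => (splits l).map (fun p => (j :: p.1, p.2)) ++ (splits l).map (fun p => (p.1, j :: p.2))

theorem length_splits {ι : Type} (l : List ι) : (splits l).length = 2 ^ l.length := by
  induction l with
  | nil => rfl
  | cons j l ih => simp [splits, ih, pow_succ]; ring

/-- Leibniz rule -/
theorem iterD_bilin (B : E →L[ℝ] E' →L[ℝ] E'') (l : List ι) :
    ∀ {F : (unitInterval → V) → E} {G : (unitInterval → V) → E'}, IsCyl F → IsCyl G →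
    ∀ x, iterD b l (fun x => B (F x) (G x)) x =
      ((splits l).map fun p => B (iterD b p.1 F x) (iterD b p.2 G x)).sum := by
  induction l with
  | nil => intro F G _ _ x; simp [splits, iterD_nil]
  | cons j l ih =>
    intro F G hF hG x
    rw [iterD_cons, dirD_bilin B hF hG, iterD_add b l (IsCyl.bilin B (hF.dirD _) hG)
      (IsCyl.bilin B hF (hG.dirD _))]
    change iterD b l (fun x => B (dirD (primitive (b j)) F x) (G x)) x +
      iterD b l (fun x => B (F x) (dirD (primitive (b j)) G x)) x = _
    rw [ih (hF.dirD _) hG, ih hF (hG.dirD _)]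
    simp only [splits, List.map_append, List.map_map, List.sum_append]
    rfl

theorem iterD_mul {R : Type} [NormedRing R] [NormedAlgebra ℝ R] (l : List ι)
    {F G : (unitInterval → V) → R} (hF : IsCyl F) (hG : IsCyl G) (x : unitInterval → V) :
    iterD b l (fun x => F x * G x) x =
      ((splits l).map fun p => iterD b p.1 F x * iterD b p.2 G x).sum :=
  iterD_bilin b (ContinuousLinearMap.mul ℝ R) l hF hG x

theorem iterD_smul (l : List ι) {F : (unitInterval → V) → ℝ} {G : (unitInterval → V) → E}
    (hF : IsCyl F) (hG : IsCyl G) (x : unitInterval → V) :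
    iterD b l (fun x => F x • G x) x =
      ((splits l).map fun p => iterD b p.1 F x • iterD b p.2 G x).sum :=
  iterD_bilin b (ContinuousLinearMap.lsmul ℝ ℝ) l hF hG x

end Pool.Agent.Lib.UdB
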