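import Mathlib

/-!
# The Wiener space, Sobolev-Watanabe spaces, adapted multiplicators and the map `θ`

`V` is a Euclidean space `ℝⁿ` (a finite dimensional real inner product space).
-/

set_option autoImplicit false

open MeasureTheory
open scoped ENNReal InnerProductSpace

namespace Pool.Agent.Lib.UdB

/-! ### The classical Wiener space -/

/-- The path space `Ω = C([0,1], V)`. -/
structure Path (V : Type) [TopologicalSpace V] where
  /-- the path -/
  toFun : unitInterval → V
  /-- it is continuous -/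
  cont : Continuous toFun

instance (V : Type) [TopologicalSpace V] : CoeFun (Path V) (fun _ => unitInterval → V) :=
  ⟨Path.toFun⟩

/-- The sigma-algebra of `Ω`: it is generated by the evaluations `ω ↦ ω t`. -/
instance (V : Type) [TopologicalSpace V] [MeasurableSpace V] : MeasurableSpace (Path V) :=
  MeasurableSpace.comap Path.toFun MeasurableSpace.pi

variable {V : Type} [NormedAddCommGroup V] [InnerProductSpace ℝ V] [FiniteDimensional ℝ V]
  [MeasurableSpace V] [BorelSpace V]

/-- `P` is the Wiener measure on `C([0,1], V)`: the coordinate process is a centred Gaussian process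
with covariance `E ⟪v, ω s⟫ ⟪w, ω t⟫ = min s t ⟪v, w⟫`, i.e. a standard Brownian motion of `V`
(condition on the characteristic functions of the finite dimensional distributions). -/
def IsWiener (P : Measure (Path V)) : Prop :=
  IsProbabilityMeasure P ∧ ∀ (T : Finset unitInterval) (c : unitInterval → V),
    ∫ ω, Complex.exp ((∑ t ∈ T, ⟪c t, ω t⟫_ℝ : ℝ) * Complex.I) ∂P =
      Complex.exp (-(∑ s ∈ T, ∑ t ∈ T, min (s : ℝ) (t : ℝ) * ⟪c s, c t⟫_ℝ : ℝ) / 2)

/-- The sigma-algebra `ℱ_t` of the past: it is generated by the `ω s`, `s ≤ t`. -/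
abbrev past (V : Type) [TopologicalSpace V] [MeasurableSpace V] (t : unitInterval) :
    MeasurableSpace (Path V) :=
  ⨆ s : Set.Iic t, MeasurableSpace.comap (fun ω : Path V => ω s) inferInstance

/-! ### Sobolev-Watanabe spaces -/

/-- The Hilbert space `L²([0,1], V)`; it is identified with the Cameron-Martin space through
`h ↦ ḣ`. -/
noncomputable abbrev H (V : Type) [NormedAddCommGroup V] := Lp V 2 (volume : Measure unitInterval)

/-- The element `t ↦ ∫₀ᵗ f(s) ds` of the Cameron-Martin space. -/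
noncomputable def primitive (f : H V) : unitInterval → V := fun t => ∫ s in Set.Iic t, f s

/-- The derivative of the functional `F` of paths in the direction of the path `v`. -/
noncomputable def dirD {E : Type} [NormedAddCommGroup E] [NormedSpace ℝ E]
    (v : unitInterval → V) (F : (unitInterval → V) → E) : (unitInterval → V) → E :=
  fun x => deriv (fun ε : ℝ => F (x + ε • v)) 0

/-- Iterated derivatives of a functional in the directions of the members of an orthonormal basis:
`iterD b [j₁, …, jᵣ] F` is the coordinate `⟪Dʳ F, b_{j₁} ⊗ ⋯ ⊗ b_{jᵣ}⟫` of the `r`-th Malliavin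
derivative of `F`. -/
noncomputable def iterD {E : Type} [NormedAddCommGroup E] [NormedSpace ℝ E] {ι : Type}
    (b : HilbertBasis ι ℝ (H V)) :
    List ι → ((unitInterval → V) → E) → ((unitInterval → V) → E)
  | [], F => F
  | j :: l, F => iterD b l (dirD (primitive (b j)) F)

/-- Smooth cylindrical functionals: `F(ω) = Φ(ω(t₁), …, ω(t_k))` with `Φ` smooth, all derivatives of
`Φ` being of at most polynomial growth. -/
def IsCyl {E : Type} [NormedAddCommGroup E] [NormedSpace ℝ E]
    (F : (unitInterval → V) → E) : Prop :=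
  ∃ (T : Finset unitInterval) (Φ : (T → V) → E), Φ.HasTemperateGrowth ∧ ∀ x, F x = Φ fun t => x t

/-- Smooth `H`-valued functionals: `X(t, ω) = ∑ₖ Fₖ(ω) hₖ(t)` with smooth cylindrical functionals
`Fₖ` and `hₖ ∈ L²([0,1], V)`. -/
def IsSmoothProc (X : unitInterval → (unitInterval → V) → V) : Prop :=
  ∃ (m : ℕ) (F : Fin m → (unitInterval → V) → ℝ) (h : Fin m → unitInterval → V),
    (∀ k, IsCyl (F k)) ∧ (∀ k, Measurable (h k) ∧ MemLp (h k) 2 volume) ∧
    ∀ t x, X t x = ∑ k, F k x • h k t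

/-- `∑_{j₁, …, jᵣ} ‖g [j₁, …, jᵣ]‖²`, the square of the Hilbert-Schmidt norm of the tensor of order
`r` with coordinates `g`. -/
noncomputable def energy {E : Type} [NormedAddCommGroup E] {ι : Type} :
    ℕ → (List ι → E) → ℝ≥0∞
  | 0, g => ‖g []‖ₑ ^ 2
  | r + 1, g => ∑' j, energy r (fun l => g (j :: l))

/-- For an `H`-valued random tensor `G` of order `r`, given by the coordinates
`G l t ω` (`l` a list of `r` indices), the norm
`(E (∑_{|l| = r} ∫₀¹ ‖G l t‖² dt)^{p/2})^{1/p}`. -/
noncomputable def sobNorm {ι : Type} (P : Measure (Path V)) (p : ℝ) (r : ℕ)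
    (G : List ι → unitInterval → Path V → V) : ℝ≥0∞ :=
  (∫⁻ ω, (∫⁻ t, energy r (fun l => G l t ω)) ^ (p / 2) ∂P) ^ (1 / p)

/-- The elements of the space `𝔻^∞(Ω, H) = ⋂_{p, r} 𝔻^p_r(Ω, H)`, together with their Malliavin
derivatives of all orders: `fld []` is the process `Ẋ(t, ω)` and `fld l` is the coordinate `l` of its
Malliavin derivative of order `|l|`.  For all `p` and `R` they are limits, in the norm of
`𝔻^p_R(Ω, H)`, of smooth functionals. -/
structure DInf {ι : Type} (P : Measure (Path V)) (b : HilbertBasis ι ℝ (H V)) where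
  /-- the process and its derivatives -/
  fld : List ι → unitInterval → Path V → V
  /-- measurability -/
  meas : ∀ l, Measurable fun p : unitInterval × Path V => fld l p.1 p.2
  /-- approximation -/
  approx : ∀ (p : ℝ), 1 ≤ p → ∀ (R : ℕ) (ε : ℝ≥0∞), 0 < ε →
    ∃ X : unitInterval → (unitInterval → V) → V, IsSmoothProc X ∧
      ∀ r ≤ R, sobNorm P p r (fun l t ω => iterD b l (X t) ω.toFun - fld l t ω) ≤ ε

/-- The operator `X ↦ ∫₀ U(s) Ẋ(s) ds` maps `𝔻^∞(Ω, H)` continuously into itself. -/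
def IsMultiplicator {ι : Type} (P : Measure (Path V)) (b : HilbertBasis ι ℝ (H V))
    (U : unitInterval → Path V → (V ≃ₗᵢ[ℝ] V)) : Prop :=
  ∃ M : DInf P b → DInf P b, (∀ Z t ω, (M Z).fld [] t ω = U t ω (Z.fld [] t ω)) ∧
    ∀ (p : ℝ), 1 ≤ p → ∀ r : ℕ, ∃ (p' : ℝ) (r' : ℕ) (C : NNReal), 1 ≤ p' ∧
      ∀ Z, sobNorm P p r (M Z).fld ≤ C * ∑ k ∈ Finset.range (r' + 1), sobNorm P p' k Z.fld

/-- Adapted multiplicators: adapted processes whose values are orthogonal maps of `V` and for which
the operator `X ↦ ∫₀ U(s) Ẋ(s) ds` maps `𝔻^∞(Ω, H)` continuously into itself (the space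
`𝔻^∞(Ω, H)` being computed in any countable orthonormal basis of `L²([0,1], V)`). -/
structure IsAdaptedMultiplicator (P : Measure (Path V))
    (U : unitInterval → Path V → (V ≃ₗᵢ[ℝ] V)) : Prop where
  /-- adapted -/
  adapted : ∀ (t : unitInterval) (v : V), Measurable[past V t] fun ω => U t ω v
  /-- continuous on `𝔻^∞(Ω, H)` -/
  mult : ∀ (ι : Type) [Countable ι] (b : HilbertBasis ι ℝ (H V)), IsMultiplicator P b U

/-! ### Stochastic integrals and the map `θ` -/

/-- Simple adapted processes `∑ₖ ξₖ 1_{(τₖ, τₖ₊₁]}`, with values in the endomorphisms of `V`; `ξₖ` is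
bounded and measurable with respect to the past of `τₖ`. -/
structure Simple (V : Type) [NormedAddCommGroup V] [InnerProductSpace ℝ V]
    [MeasurableSpace V] where
  /-- number of intervals -/
  n : ℕ
  /-- subdivision -/
  τ : ℕ → unitInterval
  mono : Monotone τ
  /-- values -/
  ξ : ℕ → Path V → (V →L[ℝ] V)
  meas : ∀ (k : ℕ) (v : V), Measurable[past V (τ k)] fun ω => ξ k ω v
  bdd : ∃ C : ℝ, ∀ (k : ℕ) (ω : Path V), ‖ξ k ω‖ ≤ C

/-- The value at time `s` of a simple process. -/
noncomputable def Simple.val (Φ : Simple V) (s : unitInterval) (ω : Path V) : V →L[ℝ] V :=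
  ∑ k ∈ Finset.range Φ.n, (Set.Ioc (Φ.τ k) (Φ.τ (k + 1))).indicator (fun _ => Φ.ξ k ω) s

/-- The stochastic integral `∫₀ᵗ Φ dB = ∑ₖ ξₖ (B(τₖ₊₁ ∧ t) - B(τₖ ∧ t))` of a simple process. -/
noncomputable def Simple.integral (Φ : Simple V) (t : unitInterval) (ω : Path V) : V :=
  ∑ k ∈ Finset.range Φ.n, Φ.ξ k ω (ω (min (Φ.τ (k + 1)) t) - ω (min (Φ.τ k) t))

/-- `Z` is the Ito integral `∫₀ᵗ A(s) dB(s)` (with respect to the coordinate process `B`, a Brownian
motion under `P`): there are simple adapted processes converging to `A` in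
`L²([0,t] × Ω)` whose stochastic integrals converge to `Z` in `L²(Ω)`. -/
def IsIto (P : Measure (Path V)) (A : unitInterval → Path V → (V →L[ℝ] V)) (t : unitInterval)
    (Z : Path V → V) : Prop :=
  ∃ Φ : ℕ → Simple V,
    Filter.Tendsto (fun m => ∫⁻ ω, (∫⁻ s in Set.Iic t, ‖(Φ m).val s ω - A s ω‖ₑ ^ 2) ∂P)
      Filter.atTop (nhds 0) ∧
    Filter.Tendsto (fun m => ∫⁻ ω, ‖(Φ m).integral t ω - Z ω‖ₑ ^ 2 ∂P)
      Filter.atTop (nhds 0)

/-- `β : Ω → Ω` is a version of the process `β_t = ∫₀ᵗ U(s)⁻¹ dB(s)`. -/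
def IsBeta (P : Measure (Path V)) (U : unitInterval → Path V → (V ≃ₗᵢ[ℝ] V))
    (β : Path V → Path V) : Prop :=
  Measurable β ∧ ∀ t : unitInterval,
    IsIto P (fun s ω => ((U s ω).symm : V →L[ℝ] V)) t (fun ω => β ω t)

/-- The space `L^{∞-0} = ⋂_{p < ∞} L^p(Ω)`. -/
def MemLInfMinus (P : Measure (Path V)) (F : Path V → ℝ) : Prop :=
  ∀ p : ℝ≥0∞, p ≠ ∞ → MemLp F p P

/-- The map `θ : F ↦ F ∘ β` of `L^{∞-0}` is invertible (functions are identified when they are almost
surely equal): there is a map `ψ` of `L^{∞-0}` into itself with `θ ∘ ψ = id` and `ψ ∘ θ = id`. -/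
def ThetaInvertible (P : Measure (Path V)) (β : Path V → Path V) : Prop :=
  ∃ ψ : (Path V → ℝ) → (Path V → ℝ), (∀ F, MemLInfMinus P F → MemLInfMinus P (ψ F)) ∧
    ∀ F, MemLInfMinus P F → (ψ F) ∘ β =ᵐ[P] F ∧ ψ (F ∘ β) =ᵐ[P] F

end Pool.Agent.Lib.UdB
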