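import Pool.Agent.Lib.UdB.Defs

/-!
# Gaussian measures on raw path space
-/

set_option autoImplicit false
set_option linter.unusedSectionVars false

open MeasureTheory
open scoped ENNReal InnerProductSpace

namespace Pool.Agent.Lib.UdB

variable {V : Type} [NormedAddCommGroup V] [InnerProductSpace ℝ V] [FiniteDimensional ℝ V]
  [MeasurableSpace V] [BorelSpace V]

/-- The linear functional `x ↦ ∑ ⟪c t, x t⟫`. -/
noncomputable def pair (c : unitInterval →₀ V) (x : unitInterval → V) : ℝ :=
  c.sum fun t v => ⟪v, x t⟫_ℝ

/-- The function `s ↦ ∑ 1_{s ≤ t} c t`. -/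
noncomputable def theta (c : unitInterval →₀ V) (s : unitInterval) : V :=
  c.sum fun t v => if s ≤ t then v else 0

/-- The covariance form. -/
noncomputable def Bf (c d : unitInterval →₀ V) : ℝ := ∫ s, ⟪theta c s, theta d s⟫_ℝ

/-- The variance. -/
noncomputable def Qf (c : unitInterval →₀ V) : ℝ := Bf c c

theorem pair_add (c d : unitInterval →₀ V) (x : unitInterval → V) :
    pair (c + d) x = pair c x + pair d x := by
  unfold pair
  rw [Finsupp.sum_add_index']
  · intro t; simp
  · intro t v w; exact inner_add_left _ _ _

theorem pair_smul (a : ℝ) (c : unitInterval →₀ V) (x : unitInterval → V) :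
    pair (a • c) x = a * pair c x := by
  unfold pair
  rw [Finsupp.sum_smul_index' (by intro t; simp), Finsupp.sum, Finsupp.sum, Finset.mul_sum]
  refine Finset.sum_congr rfl fun t _ => ?_
  rw [inner_smul_left]; rfl

theorem pair_neg (c : unitInterval →₀ V) (x : unitInterval → V) : pair (-c) x = -pair c x := by
  have := pair_smul (-1) c x
  simpa using this

theorem pair_sub (c d : unitInterval →₀ V) (x : unitInterval → V) :
    pair (c - d) x = pair c x - pair d x := by
  rw [sub_eq_add_neg, pair_add, pair_neg, sub_eq_add_neg]

@[simp]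
theorem pair_single (t : unitInterval) (v : V) (x : unitInterval → V) :
    pair (Finsupp.single t v) x = ⟪v, x t⟫_ℝ := by
  unfold pair
  rw [Finsupp.sum_single_index]
  simp

@[simp]
theorem pair_zero (x : unitInterval → V) : pair (0 : unitInterval →₀ V) x = 0 := by
  unfold pair; simp

theorem pair_apply_add (c : unitInterval →₀ V) (x y : unitInterval → V) :
    pair c (x + y) = pair c x + pair c y := by
  unfold pair
  rw [← Finsupp.sum_add]
  refine Finsupp.sum_congr fun t _ => ?_
  rw [Pi.add_apply, inner_add_right]

theorem pair_apply_smul (c : unitInterval →₀ V) (a : ℝ) (x : unitInterval → V) :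
    pair c (a • x) = a * pair c x := by
  unfold pair Finsupp.sum
  rw [Finset.mul_sum]
  refine Finset.sum_congr rfl fun t _ => ?_
  simp only [Pi.smul_apply, inner_smul_right]

theorem pair_apply_sub (c : unitInterval →₀ V) (x y : unitInterval → V) :
    pair c (x - y) = pair c x - pair c y := by
  have := pair_apply_add c (x - y) y
  rw [sub_add_cancel] at this
  linarith

theorem theta_add (c d : unitInterval →₀ V) (s : unitInterval) :
    theta (c + d) s = theta c s + theta d s := by
  unfold theta
  rw [Finsupp.sum_add_index']
  · intro t; simp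
  · intro t v w; split_ifs <;> simp

theorem theta_smul (a : ℝ) (c : unitInterval →₀ V) (s : unitInterval) :
    theta (a • c) s = a • theta c s := by
  unfold theta
  rw [Finsupp.sum_smul_index' (by intro t; simp), Finsupp.smul_sum]
  refine Finsupp.sum_congr fun t _ => ?_
  split_ifs <;> simp

theorem theta_neg (c : unitInterval →₀ V) (s : unitInterval) : theta (-c) s = -theta c s := by
  have := theta_smul (-1) c s
  simpa using this

theorem theta_sub (c d : unitInterval →₀ V) (s : unitInterval) :
    theta (c - d) s = theta c s - theta d s := by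
  rw [sub_eq_add_neg, theta_add, theta_neg, sub_eq_add_neg]

@[simp]
theorem theta_single (t : unitInterval) (v : V) (s : unitInterval) :
    theta (Finsupp.single t v) s = if s ≤ t then v else 0 := by
  unfold theta
  rw [Finsupp.sum_single_index]
  simp

theorem measurable_theta (c : unitInterval →₀ V) : Measurable (theta c) := by
  unfold theta Finsupp.sum
  refine Finset.measurable_fun_sum _ fun t _ => ?_
  exact Measurable.ite measurableSet_Iic measurable_const measurable_const

theorem norm_theta_le (c : unitInterval →₀ V) (s : unitInterval) :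
    ‖theta c s‖ ≤ c.sum fun _ v => ‖v‖ := by
  unfold theta Finsupp.sum
  refine (norm_sum_le _ _).trans (Finset.sum_le_sum fun t _ => ?_)
  simp only
  split_ifs <;> simp

theorem memLp_theta (c : unitInterval →₀ V) (p : ℝ≥0∞) :
    MemLp (theta c) p (volume : Measure unitInterval) :=
  MemLp.of_bound (measurable_theta c).aestronglyMeasurable _
    (Filter.Eventually.of_forall (norm_theta_le c))

theorem integrable_inner_theta (c d : unitInterval →₀ V) :
    Integrable (fun s => ⟪theta c s, theta d s⟫_ℝ) (volume : Measure unitInterval) := by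
  refine Integrable.of_bound ((measurable_theta c).inner (measurable_theta d)).aestronglyMeasurable
    ((c.sum fun _ v => ‖v‖) * (d.sum fun _ v => ‖v‖)) (Filter.Eventually.of_forall fun s => ?_)
  refine (norm_inner_le_norm _ _).trans ?_
  have h1 := norm_theta_le c s
  have h2 := norm_theta_le d s
  exact mul_le_mul h1 h2 (norm_nonneg _) ((norm_nonneg _).trans h1)

theorem Bf_comm (c d : unitInterval →₀ V) : Bf c d = Bf d c := by
  unfold Bf
  refine integral_congr_ae (Filter.Eventually.of_forall fun s => ?_)
  exact real_inner_comm _ _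

theorem Bf_add_left (c c' d : unitInterval →₀ V) : Bf (c + c') d = Bf c d + Bf c' d := by
  unfold Bf
  rw [← integral_add (integrable_inner_theta _ _) (integrable_inner_theta _ _)]
  refine integral_congr_ae (Filter.Eventually.of_forall fun s => ?_)
  simp only [theta_add, inner_add_left]

theorem Bf_smul_left (a : ℝ) (c d : unitInterval →₀ V) : Bf (a • c) d = a * Bf c d := by
  unfold Bf
  rw [← integral_const_mul]
  refine integral_congr_ae (Filter.Eventually.of_forall fun s => ?_)
  simp only [theta_smul, inner_smul_left]; rfl

theorem Bf_add_right (c d d' : unitInterval →₀ V) : Bf c (d + d') = Bf c d + Bf c d' := by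
  rw [Bf_comm, Bf_add_left, Bf_comm d, Bf_comm d']

theorem Bf_smul_right (a : ℝ) (c d : unitInterval →₀ V) : Bf c (a • d) = a * Bf c d := by
  rw [Bf_comm, Bf_smul_left, Bf_comm]

theorem Bf_sub_left (c c' d : unitInterval →₀ V) : Bf (c - c') d = Bf c d - Bf c' d := by
  have := Bf_add_left (c - c') c' d
  rw [sub_add_cancel] at this
  linarith

theorem Bf_sub_right (c d d' : unitInterval →₀ V) : Bf c (d - d') = Bf c d - Bf c d' := by
  rw [Bf_comm, Bf_sub_left, Bf_comm d, Bf_comm d']

theorem Qf_nonneg (c : unitInterval →₀ V) : 0 ≤ Qf c := by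
  unfold Qf Bf
  refine integral_nonneg fun s => ?_
  exact real_inner_self_nonneg

theorem Qf_sub_smul (c d : unitInterval →₀ V) (a : ℝ) :
    Qf (c - a • d) = Qf c - 2 * a * Bf c d + a ^ 2 * Qf d := by
  unfold Qf
  rw [Bf_sub_left, Bf_sub_right, Bf_sub_right, Bf_smul_left, Bf_smul_left, Bf_smul_right,
    Bf_smul_right, Bf_comm d c]
  ring

theorem Bf_single_single (s t : unitInterval) (v w : V) :
    Bf (Finsupp.single s v) (Finsupp.single t w) = min (s : ℝ) (t : ℝ) * ⟪v, w⟫_ℝ := by
  unfold Bf
  have h : (fun r => ⟪theta (Finsupp.single s v) r, theta (Finsupp.single t w) r⟫_ℝ) =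
      (Set.Iic (min s t)).indicator (fun _ => ⟪v, w⟫_ℝ) := by
    funext r
    simp only [theta_single, Set.indicator, Set.mem_Iic, le_min_iff]
    by_cases h1 : r ≤ s <;> by_cases h2 : r ≤ t <;> simp [h1, h2]
  rw [h, integral_indicator measurableSet_Iic, setIntegral_const, smul_eq_mul, Measure.real,
    unitInterval.volume_Iic]
  congr 1
  rw [ENNReal.toReal_ofReal (min s t).2.1]
  exact Monotone.map_min (fun _ _ h => h)

theorem Bf_eq_sum (c d : unitInterval →₀ V) :
    Bf c d = c.sum fun s v => d.sum fun t w => min (s : ℝ) (t : ℝ) * ⟪v, w⟫_ℝ := by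
  induction c using Finsupp.induction_linear with
  | zero => simp [Bf, theta]
  | add c c' hc hc' =>
    rw [Bf_add_left, hc, hc', Finsupp.sum_add_index']
    · intro t; simp
    · intro t v w
      rw [← Finsupp.sum_add]
      refine Finsupp.sum_congr fun s _ => ?_
      rw [inner_add_left]; ring
  | single s v =>
    rw [Finsupp.sum_single_index (by simp)]
    induction d using Finsupp.induction_linear with
    | zero => simp [Bf, theta]
    | add d d' hd hd' =>
      rw [Bf_add_right, hd, hd', Finsupp.sum_add_index']
      · intro t; simp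
      · intro t v w
        rw [inner_add_right]; ring
    | single t w =>
      rw [Bf_single_single, Finsupp.sum_single_index (by simp)]

/-- Wiener measure on raw paths. -/
structure IsWR (ν : Measure (unitInterval → V)) : Prop where
  prob : IsProbabilityMeasure ν
  char : ∀ c : unitInterval →₀ V,
    ∫ x, Complex.exp ((pair c x : ℝ) * Complex.I) ∂ν = Complex.exp (-(Qf c : ℝ) / 2)

theorem measurable_pair (c : unitInterval →₀ V) : Measurable (pair c) := by
  unfold pair Finsupp.sum
  refine Finset.measurable_fun_sum _ fun t _ => ?_
  exact measurable_const.inner (measurable_pi_apply t)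

theorem measurable_toFun : Measurable (Path.toFun : Path V → unitInterval → V) :=
  comap_measurable _

theorem IsWiener.isWR {P : Measure (Path V)} (hP : IsWiener P) : IsWR (P.map Path.toFun) := by
  have := hP.1
  refine ⟨Measure.isProbabilityMeasure_map measurable_toFun.aemeasurable, fun c => ?_⟩
  rw [integral_map measurable_toFun.aemeasurable]
  · have h := hP.2 c.support c
    have h1 : ∀ ω : Path V, (∑ t ∈ c.support, ⟪c t, ω t⟫_ℝ) = pair c ω.toFun := fun ω => rfl
    simp only [h1] at h
    rw [h]
    congr 4
    rw [Qf, Bf_eq_sum]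
    rfl
  · have : Measurable fun x => Complex.exp ((pair c x : ℝ) * Complex.I) := by
      have := measurable_pair c
      fun_prop
    exact this.aestronglyMeasurable

end Pool.Agent.Lib.UdB
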