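import Pool.Agent.Lib.QIP.BMReal
import Pool.Agent.Lib.UdB.Gauss

/-!
# Existence of the Wiener measure on `C([0,1], V)`
-/

set_option autoImplicit false
set_option linter.unusedSectionVars false

open MeasureTheory
open scoped ENNReal InnerProductSpace

namespace Pool.Agent.Lib.UdB

variable {V : Type} [NormedAddCommGroup V] [InnerProductSpace ℝ V] [FiniteDimensional ℝ V]
  [MeasurableSpace V] [BorelSpace V]

/-- The Brownian path with independent coordinates. -/
noncomputable def bmPath (V : Type) [NormedAddCommGroup V] [InnerProductSpace ℝ V]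
    [FiniteDimensional ℝ V] (z : Fin (Module.finrank ℝ V) → QIP.BMC.Om) : Path V where
  toFun t := ∑ i, QIP.BMC.B (t : ℝ) (z i) • stdOrthonormalBasis ℝ V i
  cont := continuous_finsetSum _ fun i _ =>
    ((QIP.BMC.continuous_B (z i)).comp continuous_subtype_val).smul continuous_const

theorem measurable_bmPath : Measurable (bmPath V) := by
  refine measurable_comap_iff.2 (measurable_pi_lambda _ fun t => ?_)
  change Measurable fun z : Fin (Module.finrank ℝ V) → QIP.BMC.Om =>
    ∑ i, QIP.BMC.B (t : ℝ) (z i) • stdOrthonormalBasis ℝ V i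
  exact Finset.measurable_fun_sum _ fun i _ =>
    ((QIP.BMC.measurable_B (t : ℝ)).comp (measurable_pi_apply i)).smul_const _

/-- **The Wiener measure exists.** -/
theorem exists_isWiener (V : Type) [NormedAddCommGroup V] [InnerProductSpace ℝ V]
    [FiniteDimensional ℝ V] [MeasurableSpace V] [BorelSpace V] :
    ∃ P : Measure (Path V), IsWiener P := by
  refine ⟨(Measure.pi fun _ => QIP.BMC.PP).map (bmPath V), ?_, fun T c => ?_⟩
  · exact Measure.isProbabilityMeasure_map measurable_bmPath.aemeasurable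
  · have hm : Measurable fun w : Path V => Complex.exp ((∑ t ∈ T, ⟪c t, w t⟫_ℝ : ℝ) * Complex.I) := by
      have h0 : ∀ t, Measurable fun w : Path V => w t := fun t =>
        (measurable_pi_apply t).comp measurable_toFun
      have h1 : Measurable fun w : Path V => (∑ t ∈ T, ⟪c t, w t⟫_ℝ : ℝ) :=
        Finset.measurable_fun_sum _ fun t _ => measurable_const.inner (h0 t)
      fun_prop
    rw [integral_map measurable_bmPath.aemeasurable hm.aestronglyMeasurable]
    have h1 : ∀ z : Fin (Module.finrank ℝ V) → QIP.BMC.Om,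
        Complex.exp ((∑ t ∈ T, ⟪c t, bmPath V z t⟫_ℝ : ℝ) * Complex.I) =
        ∏ i, Complex.exp (Complex.I * ((∑ t : T, ⟪c t, stdOrthonormalBasis ℝ V i⟫_ℝ *
          QIP.BMC.B ((t : unitInterval) : ℝ) (z i) : ℝ) : ℂ)) := by
      intro z
      rw [← Complex.exp_sum, ← Finset.mul_sum, ← Complex.ofReal_sum, mul_comm]
      congr 3
      rw [← Finset.sum_coe_sort T, Finset.sum_comm]
      refine Finset.sum_congr rfl fun t _ => ?_
      change ⟪c t, ∑ i, QIP.BMC.B ((t : unitInterval) : ℝ) (z i) • stdOrthonormalBasis ℝ V i⟫_ℝ = _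
      rw [inner_sum]
      refine Finset.sum_congr rfl fun i _ => ?_
      rw [inner_smul_right, mul_comm]
    simp_rw [h1]
    rw [integral_fintype_prod_eq_prod (fun (i : Fin (Module.finrank ℝ V)) (x : QIP.BMC.Om) =>
      Complex.exp (Complex.I * ((∑ t : T, ⟪c t, stdOrthonormalBasis ℝ V i⟫_ℝ *
          QIP.BMC.B ((t : unitInterval) : ℝ) x : ℝ) : ℂ)))]
    have h2 : ∀ i : Fin (Module.finrank ℝ V), ∫ x : QIP.BMC.Om, Complex.exp (Complex.I *
        ((∑ t : T, ⟪c t, stdOrthonormalBasis ℝ V i⟫_ℝ *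
          QIP.BMC.B ((t : unitInterval) : ℝ) x : ℝ) : ℂ)) ∂QIP.BMC.PP =
        Complex.exp (-((∑ s : T, ∑ t : T, min ((s : unitInterval) : ℝ) ((t : unitInterval) : ℝ) *
          (⟪c s, stdOrthonormalBasis ℝ V i⟫_ℝ * ⟪c t, stdOrthonormalBasis ℝ V i⟫_ℝ) : ℝ) : ℂ) /
            2) := by
      intro i
      exact QIP.BMC.charB (fun t : T => ((t : unitInterval) : ℝ)) (fun t => t.1.2.1)
        (fun t : T => ⟪c t, stdOrthonormalBasis ℝ V i⟫_ℝ)
    simp_rw [h2]
    rw [← Complex.exp_sum, ← Finset.sum_div, Finset.sum_neg_distrib, ← Complex.ofReal_sum]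
    congr 4
    rw [Finset.sum_comm, ← Finset.sum_coe_sort T]
    refine Finset.sum_congr rfl fun s _ => ?_
    rw [Finset.sum_comm, ← Finset.sum_coe_sort T]
    refine Finset.sum_congr rfl fun t _ => ?_
    rw [← Finset.mul_sum, ← (stdOrthonormalBasis ℝ V).sum_inner_mul_inner (c s) (c t)]
    congr 1
    refine Finset.sum_congr rfl fun i _ => ?_
    rw [real_inner_comm (c t)]

end Pool.Agent.Lib.UdB
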