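import Pool.Agent.Lib.UdB.Good

/-!
# The flip map
-/

set_option autoImplicit false
set_option linter.unusedSectionVars false

open MeasureTheory Set
open scoped ENNReal NNReal Topology

namespace Pool.Agent.Lib.UdB

namespace AProc

variable (A : AProc)

/-- If the integrand is constant on `[u,t]`, so is the ratio of the increments. -/
theorem flowFun_sub_const (ω : Path ℂ) (hω : A.good ω) {u t : ℝ} (hu : 0 < u) (hut : u ≤ t)
    (ht : t ≤ 1) {ζ : ℂ} (hF : ∀ r ∈ Icc u t, A.F r ω.toFun = ζ) :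
    A.flowFun ω t - A.flowFun ω u = ζ * (ext ω t - ext ω u) := by
  rw [A.flowFun_sub ω hω hu hut ht, hF t ⟨hut, le_rfl⟩, hF u ⟨le_rfl, hut⟩]
  have h1 : ∫ r in u..t, ext ω r * A.F' r ω.toFun = 0 := by
    rw [intervalIntegral.integral_of_le hut, integral_Ioc_eq_integral_Ioo]
    refine setIntegral_eq_zero_of_forall_eq_zero fun r hr => ?_
    have h2 : HasDerivAt (fun r => A.F r ω.toFun) (A.F' r ω.toFun) r :=
      A.hasDeriv ω.toFun r (hu.trans hr.1)
    have h3 : HasDerivAt (fun r => A.F r ω.toFun) 0 r := by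
      refine (hasDerivAt_const r ζ).congr_of_eventuallyEq ?_
      filter_upwards [Ioo_mem_nhds hr.1 hr.2] with s hs
      exact hF s ⟨hs.1.le, hs.2.le⟩
    rw [h2.unique h3, mul_zero]
  rw [h1, sub_zero]
  ring

theorem flow_sub_const (ω : Path ℂ) (hω : A.good ω) {u t : unitInterval} (hu : 0 < (u : ℝ))
    (hut : (u : ℝ) ≤ t) {ζ : ℂ} (hF : ∀ r ∈ Icc (u : ℝ) t, A.F r ω.toFun = ζ) :
    A.flow ω t - A.flow ω u = ζ * (ω t - ω u) := by
  rw [A.flow_apply hω, A.flow_apply hω, A.flowFun_sub_const ω hω hu hut t.2.2 hF, ext_coe, ext_coe]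

end AProc

namespace TimeData

variable (D : TimeData)
variable {c : ℕ → ℕ → (unitInterval → ℂ) → ℝ}

theorem tot_first {i m : ℕ} (hm : m < D.M i) {r : ℝ} (h1 : D.a i m ≤ r)
    (h2 : r ≤ D.a i m + D.q i) (x : unitInterval → ℂ) : D.tot c r x = 0 := by
  have hq := D.q_pos i
  rcases h1.eq_or_lt with h | h
  · rw [← h]
    rcases m with _ | m
    · rw [a_zero, tot_t]
    · rw [(D.tot_cell (c := c) (m := m) (by omega) (by rw [a_succ]; linarith) le_rfl x).1,
        tent_right hq (by rw [a_succ]), zero_mul]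
  · rw [(D.tot_cell (c := c) hm h (by rw [a_succ]; linarith) x).1, tent_left hq h2, zero_mul]

theorem tot_mid {i m : ℕ} (hm : m < D.M i) {r : ℝ} (h1 : D.a i m + 2 * D.q i ≤ r)
    (h2 : r ≤ D.a i m + 3 * D.q i) (x : unitInterval → ℂ) : D.tot c r x = c i m x := by
  have hq := D.q_pos i
  rw [(D.tot_cell (c := c) hm (by linarith) (by rw [a_succ]; linarith) x).1,
    tent_mid hq h1 h2, one_mul]

theorem tm_pos {i m j : ℕ} (hm : m < D.M i) (hj : j ≤ 4) : (0 : ℝ) < D.tm i m j := by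
  rw [D.tm_coe hm hj]
  have h1 := D.a_pos i m
  have h2 := D.q_pos i
  positivity

section flow

variable (hc : ∀ i m, Measurable (c i m)) (hb : ∀ i m x, |c i m x| ≤ 4)
  (hd : ∀ i m, m < D.M i → DepTo (D.tm i m 1) (c i m))

theorem mk_F (r : ℝ) (x : unitInterval → ℂ) :
    (D.mkAProc c hc hb hd).F r x = Complex.exp ((D.tot c r x : ℝ) * Complex.I) := rfl

theorem flow_first {ω : Path ℂ} (hω : (D.mkAProc c hc hb hd).good ω) {i m : ℕ} (hm : m < D.M i) :
    (D.mkAProc c hc hb hd).flow ω (D.tm i m 1) - (D.mkAProc c hc hb hd).flow ω (D.tm i m 0) =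
      ω (D.tm i m 1) - ω (D.tm i m 0) := by
  have hq := D.q_pos i
  rw [(D.mkAProc c hc hb hd).flow_sub_const ω hω (D.tm_pos hm (by norm_num))
    (ζ := 1) (D.tm_mono (by omega)) ?_, one_mul]
  intro r hr
  rw [D.tm_coe hm (by norm_num), D.tm_coe hm (by norm_num)] at hr
  push_cast at hr
  rw [mk_F, D.tot_first hm (by linarith [hr.1]) (by linarith [hr.2])]
  simp

theorem flow_third {ω : Path ℂ} (hω : (D.mkAProc c hc hb hd).good ω) {i m : ℕ} (hm : m < D.M i) :
    (D.mkAProc c hc hb hd).flow ω (D.tm i m 3) - (D.mkAProc c hc hb hd).flow ω (D.tm i m 2) =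
      Complex.exp ((c i m ω.toFun : ℝ) * Complex.I) * (ω (D.tm i m 3) - ω (D.tm i m 2)) := by
  have hq := D.q_pos i
  rw [(D.mkAProc c hc hb hd).flow_sub_const ω hω (D.tm_pos hm (by norm_num))
    (ζ := Complex.exp ((c i m ω.toFun : ℝ) * Complex.I)) (D.tm_mono (by omega)) ?_]
  intro r hr
  rw [D.tm_coe hm (by norm_num), D.tm_coe hm (by norm_num)] at hr
  push_cast at hr
  rw [mk_F, D.tot_mid hm (by linarith [hr.1]) (by linarith [hr.2])]

theorem tau_flow {ω : Path ℂ} (hω : (D.mkAProc c hc hb hd).good ω) {i m : ℕ} (hm : m < D.M i) :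
    D.tau i m ((D.mkAProc c hc hb hd).flow ω).toFun = D.tau i m ω.toFun := by
  unfold tau
  rw [pair_inc, pair_inc]
  have := D.flow_first hc hb hd hω hm
  rw [zero_add, this]

theorem eta_flow {ω : Path ℂ} (hω : (D.mkAProc c hc hb hd).good ω) {i m : ℕ} (hm : m < D.M i) :
    D.eta i m ((D.mkAProc c hc hb hd).flow ω).toFun =
      Complex.exp ((c i m ω.toFun : ℝ) * Complex.I) * D.eta i m ω.toFun := by
  unfold eta
  have := D.flow_third hc hb hd hω hm
  rw [this]
  ring

end flow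

/-! ### The two processes -/

/-- The angles of the flip map. -/
noncomputable def fl (i m : ℕ) (x : unitInterval → ℂ) : ℝ :=
  Real.pi / (i + 1) * (D.chi i m x * (1 - 2 * D.A (i + 1) x))

/-- The angles of the inverse of the multiplicator. -/
noncomputable def nc (i m : ℕ) (x : unitInterval → ℂ) : ℝ := -D.cc i m x

theorem measurable_fl (i m : ℕ) : Measurable (D.fl i m) := by
  have h1 := (D.isCyl_chi i m).measurable
  have h2 := (D.isCyl_A (i + 1)).measurable
  unfold fl
  fun_prop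

theorem measurable_nc (i m : ℕ) : Measurable (D.nc i m) := (D.isCyl_cc i m).measurable.neg

theorem abs_fl_le (i m : ℕ) (x : unitInterval → ℂ) : |D.fl i m x| ≤ 4 := by
  have h1 := D.chi_nonneg i m x
  have h2 := D.chi_le_one i m x
  have h3 := D.msg_mem (i + 1) (D.M (i + 1)) x
  have h4 : |1 - 2 * D.A (i + 1) x| ≤ 1 := by
    rw [abs_le]
    constructor
    · have := h3.2; unfold A; linarith
    · have := h3.1; unfold A; linarith
  unfold fl
  rw [abs_mul, abs_mul, abs_of_nonneg h1, abs_of_nonneg (by positivity)]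
  have h5 : Real.pi / (i + 1) ≤ 4 := by
    rw [div_le_iff₀ (by positivity)]
    have := Real.pi_le_four
    nlinarith [Nat.cast_nonneg (α := ℝ) i]
  calc Real.pi / (i + 1) * (D.chi i m x * |1 - 2 * D.A (i + 1) x|) ≤ 4 * (1 * 1) := by gcongr
    _ = 4 := by norm_num

theorem abs_nc_le (i m : ℕ) (x : unitInterval → ℂ) : |D.nc i m x| ≤ 4 := by
  unfold nc; rw [abs_neg]; exact D.abs_cc_le_four i m x

theorem depTo_fl (i m : ℕ) : DepTo (D.tm i m 1) (D.fl i m) :=
  (D.depTo_chi i m).comp₂ (D.depTo_A i m 1) (fun u v => Real.pi / (i + 1) * (u * (1 - 2 * v)))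

theorem depTo_nc (i m : ℕ) : DepTo (D.tm i m 1) (D.nc i m) := (D.depTo_cc i m).comp (fun u => -u)

/-- The flip process. -/
noncomputable def flipP : AProc :=
  D.mkAProc D.fl D.measurable_fl D.abs_fl_le fun i m _ => D.depTo_fl i m

/-- The process `U⁻¹`. -/
noncomputable def invP : AProc :=
  D.mkAProc D.nc D.measurable_nc D.abs_nc_le fun i m _ => D.depTo_nc i m

theorem Gd_mem (i m : ℕ) (x : unitInterval → ℂ) (h : D.Gd i m x) :
    D.msg i m x = 0 ∨ D.msg i m x = 1 := by
  induction m with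
  | zero => exact absurd h id
  | succ m ih =>
    rw [msg_succ]
    rcases h with ⟨h1, h2⟩ | ⟨h1, h2⟩
    · have h3 : D.chi i m x = 1 := chif_one h1
      simp only [h3, sub_self, zero_mul, one_mul, zero_add]
      exact gatef_mem (not_lt.1 h2)
    · have h3 : D.chi i m x = 0 := chif_zero h1
      simp only [h3, sub_zero, zero_mul, one_mul, add_zero]
      exact ih h2

theorem exp_pi_pow (i : ℕ) {e : ℝ} (he : e = 1 ∨ e = -1) :
    Complex.exp (((Real.pi / (i + 1) * (1 * e) : ℝ) : ℂ) * Complex.I) ^ (i + 1) = -1 := by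
  rw [← Complex.exp_nat_mul]
  have h0 : ((i : ℂ) + 1) ≠ 0 := by exact_mod_cast Nat.succ_ne_zero i
  rcases he with rfl | rfl
  · have : ((i + 1 : ℕ) : ℂ) * (((Real.pi / (i + 1) * (1 * 1) : ℝ) : ℂ) * Complex.I) =
        Real.pi * Complex.I := by
      push_cast
      field_simp
    rw [this, Complex.exp_pi_mul_I]
  · have : ((i + 1 : ℕ) : ℂ) * (((Real.pi / (i + 1) * (1 * -1) : ℝ) : ℂ) * Complex.I) =
        -(Real.pi * Complex.I) := by
      push_cast
      field_simp
    rw [this, Complex.exp_neg, Complex.exp_pi_mul_I]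
    norm_num

theorem Gd_flip {ω : Path ℂ} (hω : D.flipP.good ω) (i m : ℕ) (hm : m ≤ D.M i)
    (hA : D.A (i + 1) ω.toFun = 0 ∨ D.A (i + 1) ω.toFun = 1) (h : D.Gd i m ω.toFun) :
    D.msg i m (D.flipP.flow ω).toFun = 1 - D.msg i m ω.toFun := by
  induction m with
  | zero => exact absurd h id
  | succ m ih =>
    have hm' : m < D.M i := by omega
    have ht : D.tau i m (D.flipP.flow ω).toFun = D.tau i m ω.toFun := D.tau_flow _ _ _ hω hm'
    have he : D.eta i m (D.flipP.flow ω).toFun =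
      Complex.exp ((D.fl i m ω.toFun : ℝ) * Complex.I) * D.eta i m ω.toFun :=
      D.eta_flow _ _ _ hω hm'
    have hchi : D.chi i m (D.flipP.flow ω).toFun = D.chi i m ω.toFun := by
      unfold chi; exact congrArg (chif i) ht
    rw [msg_succ]
    simp only [hchi]
    rcases h with ⟨h1, h2⟩ | ⟨h1, h2⟩
    · have h3 : D.chi i m ω.toFun = 1 := chif_one h1
      simp only [h3, sub_self, zero_mul, one_mul, zero_add]
      unfold gate
      rw [← gatef_neg, he, mul_pow]
      congr 1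
      have h4 : D.fl i m ω.toFun = Real.pi / (i + 1) * (1 * (1 - 2 * D.A (i + 1) ω.toFun)) := by
        unfold fl; rw [h3]
      rw [h4, exp_pi_pow i, neg_one_mul]
      rcases hA with hA | hA
      · left; rw [hA]; norm_num
      · right; rw [hA]; norm_num
    · have h3 : D.chi i m ω.toFun = 0 := chif_zero h1
      simp only [h3, sub_zero, zero_mul, one_mul, add_zero]
      exact ih hm'.le h2

theorem A_flip {ω : Path ℂ} (hω : D.flipP.good ω) (hg : ∀ i, D.Gd i (D.M i) ω.toFun) (i : ℕ) :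
    D.A i (D.flipP.flow ω).toFun = 1 - D.A i ω.toFun :=
  D.Gd_flip hω i (D.M i) le_rfl (D.Gd_mem (i + 1) _ _ (hg (i + 1))) (hg i)

theorem flow_flip {ω : Path ℂ} (h1 : D.flipP.good ω) (h2 : D.invP.good (D.flipP.flow ω))
    (h3 : D.invP.good ω) (hg : ∀ i, D.Gd i (D.M i) ω.toFun) :
    D.invP.flow (D.flipP.flow ω) = D.invP.flow ω := by
  refine AProc.flow_comp D.flipP D.invP D.invP h1 h2 h3 fun r hr => ?_
  change Complex.exp ((D.tot D.nc r (D.flipP.flow ω).toFun : ℝ) * Complex.I) *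
    Complex.exp ((D.tot D.fl r ω.toFun : ℝ) * Complex.I) =
    Complex.exp ((D.tot D.nc r ω.toFun : ℝ) * Complex.I)
  rw [← Complex.exp_add, ← add_mul, ← Complex.ofReal_add]
  congr 3
  rcases le_or_gt r 1 with h | h
  · obtain ⟨i, m, hm, h4, h5⟩ := D.exists_cell hr h
    rw [(D.tot_cell (c := D.nc) hm h4 h5 _).1, (D.tot_cell (c := D.fl) hm h4 h5 _).1,
      (D.tot_cell (c := D.nc) hm h4 h5 _).1]
    have ht : D.tau i m (D.flipP.flow ω).toFun = D.tau i m ω.toFun := D.tau_flow _ _ _ h1 hm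
    have hchi : D.chi i m (D.flipP.flow ω).toFun = D.chi i m ω.toFun := by
      unfold chi; exact congrArg (chif i) ht
    unfold nc cc fl
    rw [hchi, D.A_flip h1 hg (i + 1)]
    ring
  · rw [(D.tot_ge_one (c := D.nc) h.le _).1, (D.tot_ge_one (c := D.fl) h.le _).1,
      (D.tot_ge_one (c := D.nc) h.le _).1, add_zero]

end TimeData

/-- The bit which is not measurable with respect to `β`. -/
noncomputable def bit (ω : Path ℂ) : ℝ := D₀.A 0 ω.toFun

theorem measurable_bit : Measurable bit := (D₀.isCyl_A 0).measurable.comp measurable_toFun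

theorem bit_mem (ω : Path ℂ) : 0 ≤ bit ω ∧ bit ω ≤ 1 := D₀.msg_mem 0 _ _

/-- The map `β`. -/
noncomputable def beta₀ : Path ℂ → Path ℂ := D₀.invP.flow

/-- The flip map. -/
noncomputable def flip₀ : Path ℂ → Path ℂ := D₀.flipP.flow

theorem allGood_pos {P : Measure (Path ℂ)} (hP : IsWiener P) :
    0 < P {ω | AllGood ω.toFun} := by
  have := hP.1
  have hν := hP.isWR
  have h1 := measure_not_allGood hν
  have hms : MeasurableSet {x | AllGood x} := by
    have : {x | AllGood x} = ⋂ i, {x | D₀.Gd i (D₀.M i) x} := by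
      ext x; simp [AllGood]
    rw [this]
    exact MeasurableSet.iInter fun i => D₀.measurableSet_Gd i _
  have hms' : MeasurableSet {x | ¬ AllGood x} := hms.compl
  rw [Measure.map_apply measurable_toFun hms'] at h1
  by_contra hcon
  have h2 : P {ω | AllGood ω.toFun} = 0 := le_antisymm (not_lt.1 hcon) zero_le
  have h3 : MeasurableSet {ω : Path ℂ | AllGood ω.toFun} := measurable_toFun hms
  have h4 : P {ω | AllGood ω.toFun}ᶜ = 1 := by
    rw [prob_compl_eq_one_sub h3, h2, tsub_zero]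
  have h5 : (Path.toFun ⁻¹' {x | ¬ AllGood x} : Set (Path ℂ)) = {ω : Path ℂ | AllGood ω.toFun}ᶜ := rfl
  rw [h5, h4] at h1
  have h6 : ENNReal.ofReal (3 / 4) < 1 := ENNReal.ofReal_lt_one.2 (by norm_num)
  exact absurd h1 (not_le.2 h6)

/-- `θ` is not invertible. -/
theorem not_thetaInvertible {P : Measure (Path ℂ)} (hP : IsWiener P) {β : Path ℂ → Path ℂ}
    (hβ : β =ᵐ[P] beta₀) : ¬ ThetaInvertible P β := by
  have := hP.1
  rintro ⟨ψ, _, hψ⟩
  have hF : MemLInfMinus P bit := fun p _ =>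
    MemLp.of_bound measurable_bit.aestronglyMeasurable 1 (Filter.Eventually.of_forall fun ω => by
      rw [Real.norm_of_nonneg (bit_mem ω).1]; exact (bit_mem ω).2)
  have h1 := (hψ bit hF).1
  have h2 : ∀ᵐ ω ∂P, ψ bit (beta₀ ω) = bit ω := by
    filter_upwards [h1, hβ] with ω h h'
    rw [← h, Function.comp_apply, h']
  have hmp : MeasurePreserving flip₀ P P := D₀.flipP.measurePreserving hP
  have h3 : ∀ᵐ ω ∂P, ψ bit (beta₀ (flip₀ ω)) = bit (flip₀ ω) :=
    hmp.quasiMeasurePreserving.ae h2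
  have g1 := D₀.flipP.ae_good hP
  have g2 := D₀.invP.ae_good hP
  have g3 : ∀ᵐ ω ∂P, D₀.invP.good (flip₀ ω) := hmp.quasiMeasurePreserving.ae g2
  have h4 : ∀ᵐ ω ∂P, ¬ AllGood ω.toFun := by
    filter_upwards [h2, h3, g1, g2, g3] with ω h2 h3 g1 g2 g3 hg
    have e1 : beta₀ (flip₀ ω) = beta₀ ω := D₀.flow_flip g1 g3 g2 hg
    have e2 : bit (flip₀ ω) = 1 - bit ω := D₀.A_flip g1 hg 0
    rw [e1, h2, e2] at h3
    have e3 : bit ω = 0 ∨ bit ω = 1 := D₀.Gd_mem 0 _ _ (hg 0)
    rcases e3 with e | e <;> rw [e] at h3 <;> norm_num at h3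
  have h5 := allGood_pos hP
  have h6 : P {ω | AllGood ω.toFun} = 0 := by
    rw [ae_iff] at h4
    simpa using h4
  rw [h6] at h5
  exact lt_irrefl _ h5

end Pool.Agent.Lib.UdB
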