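import Pool.Agent.Lib.UdB.Step

/-!
# Pathwise stochastic integrals of adapted unimodular processes
-/

set_option autoImplicit false
set_option linter.unusedSectionVars false

open MeasureTheory Set Filter
open scoped ENNReal Topology

namespace Pool.Agent.Lib.UdB

/-- Extension of a path to the real line. -/
noncomputable def ext (ω : Path ℂ) (r : ℝ) : ℂ := ω (Set.projIcc 0 1 zero_le_one r)

theorem continuous_ext (ω : Path ℂ) : Continuous (ext ω) := ω.cont.comp continuous_projIcc

@[simp]
theorem ext_coe (ω : Path ℂ) (t : unitInterval) : ext ω t = ω t := by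
  rw [ext, projIcc_val]

theorem measurable_eval (t : unitInterval) : Measurable fun ω : Path ℂ => ω t :=
  (measurable_pi_apply t).comp measurable_toFun

theorem measurable_ext : Measurable fun p : ℝ × Path ℂ => ext p.2 p.1 :=
  measurable_uncurry_of_continuous_of_measurable (u := fun (r : ℝ) (ω : Path ℂ) => ext ω r)
    (fun ω => continuous_ext ω) (fun _ => measurable_eval _)

theorem measurable_to_path {V α : Type} [TopologicalSpace V] [MeasurableSpace V]
    [MeasurableSpace α] {f : α → Path V} (h : ∀ t, Measurable fun a => f a t) : Measurable f := by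
  have h1 : Measurable fun a => (f a).toFun := measurable_pi_lambda _ h
  have h2 := measurable_iff_comap_le.1 h1
  apply measurable_iff_comap_le.2
  change MeasurableSpace.comap f (MeasurableSpace.comap Path.toFun MeasurableSpace.pi) ≤ _
  rw [MeasurableSpace.comap_comp]
  exact h2

/-- Adapted unimodular processes which are differentiable in time for positive times. -/
structure AProc where
  /-- the process -/
  F : ℝ → (unitInterval → ℂ) → ℂ
  /-- its time derivative -/
  F' : ℝ → (unitInterval → ℂ) → ℂ
  /-- a bound for the time derivative -/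
  h : ℝ → ℝ
  norm_F : ∀ r x, ‖F r x‖ = 1
  hasDeriv : ∀ x r, 0 < r → HasDerivAt (fun r => F r x) (F' r x) r
  cont : ∀ x, ContinuousOn (fun r => F' r x) (Set.Ioi 0)
  bound : ∀ x r, 0 < r → ‖F' r x‖ ≤ h r
  hmeas : Measurable h
  hloc : ∀ u, 0 < u → ∃ C, ∀ r, u ≤ r → h r ≤ C
  hint : ∫⁻ r in Set.Ioc (0 : ℝ) 1, ENNReal.ofReal (√r * h r) ≠ ∞
  measF : Measurable fun p : ℝ × (unitInterval → ℂ) => F p.1 p.2
  measF' : Measurable fun p : ℝ × (unitInterval → ℂ) => F' p.1 p.2
  dep : ∀ r : unitInterval, DepTo r (F r)
  one : ∃ u : ℕ → ℝ, (∀ n, 0 < u n ∧ u n ≤ 1) ∧ Tendsto u atTop (𝓝 0) ∧ ∀ n x, F (u n) x = 1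

namespace AProc

variable (A : AProc)

/-- The set of paths on which the pathwise integral is defined. -/
def good (ω : Path ℂ) : Prop :=
  ω 0 = 0 ∧ ∫⁻ r in Set.Ioc (0 : ℝ) 1, ‖ext ω r‖ₑ * ENNReal.ofReal (A.h r) ≠ ∞

/-- The pathwise integral `∫₀ᵗ F dω`, by integration by parts. -/
noncomputable def flowFun (ω : Path ℂ) (t : ℝ) : ℂ :=
  A.F t ω.toFun * ext ω t - ∫ r in (0 : ℝ)..t, ext ω r * A.F' r ω.toFun

theorem measF'_path : Measurable fun p : ℝ × Path ℂ => A.F' p.1 p.2.toFun :=
  A.measF'.comp (measurable_fst.prodMk (measurable_toFun.comp measurable_snd))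

theorem measF_path : Measurable fun p : ℝ × Path ℂ => A.F p.1 p.2.toFun :=
  A.measF.comp (measurable_fst.prodMk (measurable_toFun.comp measurable_snd))

theorem integrableOn (ω : Path ℂ) (hω : A.good ω) :
    IntegrableOn (fun r => ext ω r * A.F' r ω.toFun) (Set.Ioc (0 : ℝ) 1) := by
  refine ⟨?_, ?_⟩
  · have h1 : Measurable fun r : ℝ => A.F' r ω.toFun :=
      A.measF'.comp (measurable_id.prodMk measurable_const)
    exact ((continuous_ext ω).measurable.mul h1).aestronglyMeasurable
  · rw [hasFiniteIntegral_iff_enorm]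
    refine lt_of_le_of_lt (setLIntegral_mono' measurableSet_Ioc fun r hr => ?_) (lt_top_iff_ne_top.2 hω.2)
    rw [enorm_mul]
    gcongr
    rw [← ofReal_norm]
    exact ENNReal.ofReal_le_ofReal (A.bound _ r hr.1)

theorem continuousOn_flowFun (ω : Path ℂ) (hω : A.good ω) :
    ContinuousOn (A.flowFun ω) (Set.Icc 0 1) := by
  have h1 : ContinuousOn (fun t => ∫ r in (0 : ℝ)..t, ext ω r * A.F' r ω.toFun)
      (Set.Icc 0 1) := by
    have h2 : IntegrableOn (fun r => ext ω r * A.F' r ω.toFun) (Set.uIcc (0 : ℝ) 1) := by
      rw [Set.uIcc_of_le zero_le_one, integrableOn_Icc_iff_integrableOn_Ioc]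
      exact A.integrableOn ω hω
    have h3 := intervalIntegral.continuousOn_primitive_interval h2
    rwa [Set.uIcc_of_le zero_le_one] at h3
  refine ContinuousOn.sub ?_ h1
  intro r hr
  rcases hr.1.eq_or_lt with h0 | h0
  · subst h0
    have h4 : ext ω 0 = 0 := by
      have := ext_coe ω 0
      rw [← hω.1, ← this]; rfl
    have h5 : Tendsto (fun r => A.F r ω.toFun * ext ω r) (𝓝 0) (𝓝 0) := by
      rw [tendsto_zero_iff_norm_tendsto_zero]
      have h6 : ∀ r, ‖A.F r ω.toFun * ext ω r‖ = ‖ext ω r‖ := by
        intro r; rw [norm_mul, A.norm_F, one_mul]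
      simp only [h6]
      have := ((continuous_ext ω).norm).tendsto 0
      rwa [h4, norm_zero] at this
    have h7 : (fun t => A.F t ω.toFun * ext ω t) 0 = 0 := by
      simp only [h4, mul_zero]
    unfold ContinuousWithinAt
    rw [h7]
    exact h5.mono_left nhdsWithin_le_nhds
  · exact ((A.hasDeriv _ r h0).continuousAt.mul
      (continuous_ext ω).continuousAt).continuousWithinAt

/-- The pathwise stochastic integral `ω ↦ ∫ F dω`, as a map of the path space. -/
noncomputable def flow (ω : Path ℂ) : Path ℂ :=
  open Classical in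
  if h : A.good ω then
    ⟨fun t => A.flowFun ω t, by
      have h1 := (A.continuousOn_flowFun ω h)
      exact h1.comp_continuous continuous_subtype_val fun t => t.2⟩
  else ω

theorem flow_apply {ω : Path ℂ} (h : A.good ω) (t : unitInterval) :
    A.flow ω t = A.flowFun ω t := by
  unfold flow; rw [dif_pos h]

theorem measurableSet_good : MeasurableSet {ω : Path ℂ | A.good ω} := by
  unfold good
  refine MeasurableSet.inter ?_ ?_
  · exact measurableSet_eq_fun (measurable_eval 0) measurable_const
  · have h1 : Measurable fun ω : Path ℂ =>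
        ∫⁻ r in Set.Ioc (0 : ℝ) 1, ‖ext ω r‖ₑ * ENNReal.ofReal (A.h r) := by
      refine Measurable.lintegral_prod_right' (f := fun p : Path ℂ × ℝ =>
        ‖ext p.1 p.2‖ₑ * ENNReal.ofReal (A.h p.2)) ?_
      have h2 : Measurable fun p : Path ℂ × ℝ => ext p.1 p.2 :=
        measurable_ext.comp measurable_swap
      have h3 := A.hmeas
      fun_prop
    exact (measurableSet_eq_fun h1 measurable_const).compl

theorem measurable_flow : Measurable A.flow := by
  refine measurable_to_path fun t => ?_
  · have h1 : (fun ω : Path ℂ => (A.flow ω).toFun t) = fun ω =>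
        open Classical in if A.good ω then A.flowFun ω t else ω t := by
      funext ω
      unfold flow
      split_ifs <;> rfl
    rw [h1]
    refine Measurable.ite A.measurableSet_good ?_ (measurable_eval t)
    unfold flowFun
    refine Measurable.sub ?_ ?_
    · have h2 : Measurable fun ω : Path ℂ => A.F t ω.toFun :=
        A.measF_path.comp (measurable_const.prodMk measurable_id)
      have h3 : Measurable fun ω : Path ℂ => ext ω t :=
        measurable_ext.comp (measurable_const.prodMk measurable_id)
      exact h2.mul h3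
    · simp only [intervalIntegral.integral_of_le t.2.1]
      have h4 : Measurable fun p : Path ℂ × ℝ => ext p.1 p.2 * A.F' p.2 p.1.toFun :=
        (measurable_ext.mul A.measF'_path).comp measurable_swap
      exact (h4.stronglyMeasurable.integral_prod_right' (ν := volume.restrict (Set.Ioc 0 (t : ℝ)))).measurable

end AProc

end Pool.Agent.Lib.UdB
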