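import Pool.Agent.Lib.UdB.BitsMom

/-!
# Moments of the Sobolev norms of the gates
-/

set_option autoImplicit false
set_option linter.unusedSectionVars false

open MeasureTheory Set
open scoped ENNReal NNReal InnerProductSpace

namespace Pool.Agent.Lib.UdB

namespace TimeData

variable (D : TimeData)
variable {ι : Type} (b : HilbertBasis ι ℝ (H ℂ))

/-- Square of the norm of the linear part. -/
noncomputable def gN (i : ℕ) : ℝ≥0∞ := ‖gL i‖ₑ ^ 2

theorem polyK_gN : PolyK gN := by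
  refine ((PolyK.KK_pow 4).pow 2).mono fun i => ?_
  unfold gN
  gcongr
  rw [← ofReal_norm]
  apply ENNReal.ofReal_le_ofReal
  unfold gL
  rw [norm_smul]
  have h0 := pow_pos (KK_pos i) 4
  rw [Real.norm_of_nonneg (by positivity), Complex.reCLM_norm, mul_one]
  linarith

theorem N1_garg_le (i m r : ℕ) (x : unitInterval → ℂ) :
    N1 b r (D.garg i m) x ≤ 2 * (gN i * NN b r (fun x => D.eta i m x ^ (i + 1)) x) := by
  have h1 : ∀ k, en b (k + 1) (D.garg i m) x ≤
      2 * (gN i * en b (k + 1) (fun x => D.eta i m x ^ (i + 1)) x) := by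
    intro k
    rw [garg_eq]
    refine (en_add_le b (k + 1) (IsCyl.const _) (((D.isCyl_eta i m).pow _).clm _) x).trans ?_
    rw [en_const_succ, mul_zero, zero_add]
    gcongr
    exact en_clm_le b _ (k + 1) ((D.isCyl_eta i m).pow _) x
  calc N1 b r (D.garg i m) x ≤ ∑ k ∈ Finset.range r,
      2 * (gN i * en b (k + 1) (fun x => D.eta i m x ^ (i + 1)) x) :=
        Finset.sum_le_sum fun k _ => h1 k
    _ = 2 * (gN i * N1 b r (fun x => D.eta i m x ^ (i + 1)) x) := by
        unfold N1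
        rw [Finset.mul_sum, Finset.mul_sum]
    _ ≤ _ := by gcongr; exact N1_le_NN b r _ x

/-- The constant in the product rule. -/
noncomputable def cR (r : ℕ) : ℝ≥0∞ := (r + 1 : ℕ) * 4 ^ r

theorem one_le_cR (r : ℕ) : 1 ≤ cR r := by
  unfold cR
  have h1 : (1 : ℝ≥0∞) ≤ (r + 1 : ℕ) := by exact_mod_cast Nat.succ_pos r
  have h2 : (1 : ℝ≥0∞) ≤ 4 ^ r := one_le_pow₀ (by norm_num)
  exact one_le_mul h1 h2

theorem cR_ne_top (r : ℕ) : cR r ≠ ∞ := by
  unfold cR
  exact ENNReal.mul_ne_top (by simp) (by simp)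

/-- The constant in the composition with the transition function. -/
noncomputable def cS (r : ℕ) : ℝ≥0∞ := (r * 4 ^ (r * r)) * SB r

theorem cS_ne_top (r : ℕ) : cS r ≠ ∞ :=
  ENNReal.mul_ne_top (ENNReal.mul_ne_top (by simp) (by simp)) (SB_ne_top r)

theorem NN_gate_le {i m : ℕ} (hm : m < D.M i) (r : ℕ) (x : unitInterval → ℂ) :
    NN b r (D.gate i m) x ≤ (1 + cS r) * ((1 + 2 * gN i) * (cR r * (4 *
      ((1 + ‖pair (D.inc i m 2 1) x‖ₑ ^ 2) * (1 + ‖pair (D.inc i m 2 Complex.I) x‖ₑ ^ 2)))) ^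
        (i + 1)) ^ (r + 1) := by
  set U : ℝ≥0∞ := (cR r * (4 * ((1 + ‖pair (D.inc i m 2 1) x‖ₑ ^ 2) *
    (1 + ‖pair (D.inc i m 2 Complex.I) x‖ₑ ^ 2)))) ^ (i + 1) with hU
  have hU1 : 1 ≤ U := by
    rw [hU]
    refine one_le_pow₀ (one_le_mul (one_le_cR r) (one_le_mul (by norm_num) (one_le_mul ?_ ?_)))
    · exact le_self_add
    · exact le_self_add
  have h1 : NN b r (fun x => D.eta i m x ^ (i + 1)) x ≤ U := by
    refine (NN_pow_le b r (D.isCyl_eta i m) x (i + 1)).trans ?_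
    rw [hU]
    refine pow_le_pow_left' ?_ _
    change cR r * NN b r (D.eta i m) x ≤ _
    gcongr
    exact D.NN_eta_le b hm r x
  have h2 : N1 b r (D.garg i m) x ≤ 2 * (gN i * U) := by
    refine (D.N1_garg_le b i m r x).trans ?_
    gcongr
  have h3 : 1 + N1 b r (D.garg i m) x ≤ (1 + 2 * gN i) * U := by
    calc 1 + N1 b r (D.garg i m) x ≤ U + 2 * (gN i * U) := add_le_add hU1 h2
      _ = _ := by ring
  have h4 : 1 ≤ (1 + 2 * gN i) * U := le_trans le_self_add h3
  rw [NN_eq]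
  calc N1 b r (D.gate i m) x + ‖D.gate i m x‖ₑ ^ 2
      ≤ (r * 4 ^ (r * r)) * (DD r sg (D.garg i m x) *
          (N1 b r (D.garg i m) x * (1 + N1 b r (D.garg i m) x) ^ r)) + 1 := by
        refine add_le_add ?_ (enorm_sq_le_one (D.gate_nonneg i m x) (D.gate_le_one i m x))
        rw [gate_eq]
        exact N1_comp_le b r (D.isCyl_garg i m) sg_temperate x
    _ ≤ (r * 4 ^ (r * r)) * (SB r * ((1 + 2 * gN i) * U * ((1 + 2 * gN i) * U) ^ r)) +
          ((1 + 2 * gN i) * U) ^ (r + 1) := by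
        refine add_le_add ?_ (one_le_pow₀ h4)
        gcongr
        · exact DD_sg_le r _
        · exact le_trans le_add_self h3
    _ = _ := by unfold cS; ring

theorem gate_moment {ν : Measure (unitInterval → ℂ)} (hν : IsWR ν) (r p : ℕ) :
    ∃ s : ℕ → ℝ≥0∞, PolyK s ∧ ∀ i m, m < D.M i → ∫⁻ x, NN b r (D.gate i m) x ^ p ∂ν ≤ s i := by
  set q := (r + 1) * p with hq
  refine ⟨fun i => (1 + cS r) ^ p * ((1 + 2 * gN i) ^ q * (((cR r * 4) ^ (i + 1)) ^ q *
    (2 * (((2 ^ (2 * q)) ^ (i + 1)) * (1 + ((4 * q) * (i + 1)).factorial * gexp))))), ?_, ?_⟩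
  · have h1 : PolyK fun i => (1 + 2 * gN i) ^ q := by
      have := ((PolyK.const (c := 1) (by simp)).add
        ((PolyK.const (c := 2) (by simp)).mul polyK_gN)).pow q
      exact this
    have h2 : PolyK fun i => ((cR r * 4) ^ (i + 1)) ^ q :=
      (PolyK.geom (ENNReal.mul_ne_top (cR_ne_top r) (by simp))).pow q
    have h3 : PolyK fun i => ((2 : ℝ≥0∞) ^ (2 * q)) ^ (i + 1) := PolyK.geom (by simp)
    have h4 : PolyK fun i => 1 + (((4 * q) * (i + 1)).factorial : ℝ≥0∞) * gexp :=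
      (PolyK.const (c := 1) (by simp)).add ((PolyK.fact (4 * q)).mul (PolyK.const gexp_ne_top))
    have h5 : (1 + cS r) ^ p ≠ ∞ := ENNReal.pow_ne_top (ENNReal.add_ne_top.2 ⟨by simp, cS_ne_top r⟩)
    exact (PolyK.const h5).mul (h1.mul (h2.mul ((PolyK.const (c := 2) (by simp)).mul (h3.mul h4))))
  · intro i m hm
    set P1 : (unitInterval → ℂ) → ℝ≥0∞ := fun x => 1 + ‖pair (D.inc i m 2 1) x‖ₑ ^ 2 with hP1
    set P2 : (unitInterval → ℂ) → ℝ≥0∞ := fun x => 1 + ‖pair (D.inc i m 2 Complex.I) x‖ₑ ^ 2 with hP2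
    have hm1 : Measurable P1 := by
      have := measurable_pair (D.inc i m 2 1)
      rw [hP1]; fun_prop
    have hm2 : Measurable P2 := by
      have := measurable_pair (D.inc i m 2 Complex.I)
      rw [hP2]; fun_prop
    have key : ∀ x, NN b r (D.gate i m) x ^ p ≤ (1 + cS r) ^ p * ((1 + 2 * gN i) ^ q *
        (((cR r * 4) ^ (i + 1)) ^ q * (P1 x ^ (2 * (q * (i + 1))) + P2 x ^ (2 * (q * (i + 1)))))) := by
      intro x
      have h1 := pow_le_pow_left' (D.NN_gate_le b hm r x) p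
      refine h1.trans ?_
      have h2 : ((1 + cS r) * ((1 + 2 * gN i) * (cR r * (4 * (P1 x * P2 x))) ^
          (i + 1)) ^ (r + 1)) ^ p = (1 + cS r) ^ p * ((1 + 2 * gN i) ^ q *
        (((cR r * 4) ^ (i + 1)) ^ q * (P1 x * P2 x) ^ (q * (i + 1)))) := by
        rw [← mul_assoc (cR r) 4, mul_pow (cR r * 4), mul_pow (1 + cS r), ← pow_mul, ← hq,
          mul_pow (1 + 2 * gN i), mul_pow ((cR r * 4) ^ (i + 1)), ← pow_mul (P1 x * P2 x),
          mul_comm (i + 1) q]
      refine (le_of_eq h2).trans ?_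
      gcongr
      have h3 : ∀ u v : ℝ≥0∞, ∀ n : ℕ, (u * v) ^ n ≤ u ^ (2 * n) + v ^ (2 * n) := by
        intro u v n
        rcases le_total u v with h | h
        · calc (u * v) ^ n ≤ (v * v) ^ n := by gcongr
            _ = v ^ (2 * n) := by rw [← pow_two, ← pow_mul]
            _ ≤ _ := le_add_self
        · calc (u * v) ^ n ≤ (u * u) ^ n := by gcongr
            _ = u ^ (2 * n) := by rw [← pow_two, ← pow_mul]
            _ ≤ _ := le_self_add
      exact h3 _ _ _
    refine (lintegral_mono key).trans ?_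
    rw [lintegral_const_mul _ (by fun_prop), lintegral_const_mul _ (by fun_prop),
      lintegral_const_mul _ (by fun_prop), lintegral_add_left (by fun_prop)]
    refine mul_le_mul' le_rfl (mul_le_mul' le_rfl (mul_le_mul' le_rfl ?_))
    have e1 := hν.moment_pair (D.Qf_inc hm (j := 2) (by norm_num) (e := 1) (by simp))
      (2 * (q * (i + 1)))
    have e2 := hν.moment_pair (D.Qf_inc hm (j := 2) (by norm_num) (e := Complex.I) (by simp))
      (2 * (q * (i + 1)))
    refine (add_le_add e1 e2).trans (le_of_eq ?_)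
    rw [← two_mul, ← pow_mul]
    have h5 : 2 * (2 * (q * (i + 1))) = 4 * q * (i + 1) := by ring
    have h6 : 2 * q * (i + 1) = 2 * (q * (i + 1)) := by ring
    rw [h5, h6]

end TimeData

end Pool.Agent.Lib.UdB
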