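import Pool.Agent.Lib.UdB.MsgMom

/-!
# The gates are ambiguous with small probability
-/

set_option autoImplicit false
set_option linter.unusedSectionVars false

open MeasureTheory Set
open scoped ENNReal NNReal InnerProductSpace

namespace Pool.Agent.Lib.UdB

open Polynomial in
/-- The polynomial `Re((X + i s)^N)`. -/
noncomputable def rePoly (s : ℝ) (N : ℕ) : Polynomial ℂ :=
  C (1 / 2 : ℂ) * ((X + C (s * Complex.I)) ^ N + (X + C (-(s * Complex.I))) ^ N)

theorem rePoly_eval (s : ℝ) (N : ℕ) (y : ℝ) :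
    (rePoly s N).eval (y : ℂ) = ((((y : ℂ) + s * Complex.I) ^ N).re : ℂ) := by
  unfold rePoly
  rw [Polynomial.eval_mul, Polynomial.eval_add, Polynomial.eval_pow, Polynomial.eval_pow,
    Polynomial.eval_add, Polynomial.eval_add, Polynomial.eval_X, Polynomial.eval_C,
    Polynomial.eval_C, Polynomial.eval_C]
  have h1 : (y : ℂ) + -(s * Complex.I) = starRingEnd ℂ ((y : ℂ) + s * Complex.I) := by
    simp
  rw [h1, ← map_pow, Complex.add_conj]
  push_cast
  ring

theorem rePoly_natDegree (s : ℝ) (N : ℕ) : (rePoly s N).natDegree ≤ N := by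
  unfold rePoly
  refine (Polynomial.natDegree_C_mul_le _ _).trans ?_
  refine (Polynomial.natDegree_add_le _ _).trans ?_
  refine max_le ?_ ?_
  all_goals
    refine (Polynomial.natDegree_pow_le).trans ?_
    rw [Polynomial.natDegree_X_add_C, mul_one]

theorem coeff_X_add_C_pow_top (a : ℂ) (N : ℕ) :
    ((Polynomial.X + Polynomial.C a) ^ N).coeff N = 1 := by
  have h1 := (Polynomial.monic_X_add_C a).pow N
  have h2 : ((Polynomial.X + Polynomial.C a) ^ N).natDegree = N := by
    rw [Polynomial.natDegree_pow, Polynomial.natDegree_X_add_C, mul_one]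
  have h3 := h1.coeff_natDegree
  rwa [h2] at h3

theorem rePoly_monic (s : ℝ) (N : ℕ) : (rePoly s N).Monic := by
  refine Polynomial.monic_of_natDegree_le_of_coeff_eq_one N (rePoly_natDegree s N) ?_
  unfold rePoly
  rw [Polynomial.coeff_C_mul, Polynomial.coeff_add, coeff_X_add_C_pow_top, coeff_X_add_C_pow_top]
  norm_num

theorem pow_card_le_prod_map {α : Type} (s : Multiset α) (f : α → ℝ) {ρ : ℝ} (hρ : 0 ≤ ρ)
    (h : ∀ z ∈ s, ρ ≤ f z) : ρ ^ s.card ≤ (s.map f).prod := by
  induction s using Multiset.induction_on with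
  | empty => simp
  | cons a s ih =>
    rw [Multiset.card_cons, Multiset.map_cons, Multiset.prod_cons, pow_succ, mul_comm]
    have h1 := h a (Multiset.mem_cons_self a s)
    have h2 := ih fun z hz => h z (Multiset.mem_cons_of_mem hz)
    exact mul_le_mul h1 h2 (pow_nonneg hρ _) (hρ.trans h1)

/-- A monic complex polynomial is small only near its roots. -/
theorem exists_root_near {P : Polynomial ℂ} (hP : P.Monic) {N : ℕ} (hN : P.natDegree ≤ N)
    {ρ : ℝ} (hρ : 0 ≤ ρ) (hρ1 : ρ ≤ 1) {y : ℂ} (h : ‖P.eval y‖ < ρ ^ N) :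
    ∃ z ∈ P.roots, ‖y - z‖ < ρ := by
  by_contra hcon
  push Not at hcon
  have hs := IsAlgClosed.splits P
  have h1 := hs.eval_eq_prod_roots_of_monic hP y
  have h2 := pow_card_le_prod_map P.roots (fun z => ‖y - z‖) hρ hcon
  rw [h1] at h
  have h3 : ‖(P.roots.map (fun a => y - a)).prod‖ = (P.roots.map fun z => ‖y - z‖).prod := by
    have := map_multiset_prod (normHom : ℂ →*₀ ℝ) (P.roots.map (fun a => y - a))
    rw [Multiset.map_map] at this
    exact this
  rw [h3] at h
  have h4 : ρ ^ N ≤ ρ ^ P.natDegree := pow_le_pow_of_le_one hρ hρ1 hN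
  have h5 := hs.natDegree_eq_card_roots
  rw [← h5] at h2
  linarith

theorem gc_le_half : gc ≤ 1 / 2 := by
  unfold gc
  rw [one_div]
  apply inv_anti₀ (by norm_num)
  have h1 : (2 : ℝ) = √4 := by
    rw [show (4 : ℝ) = 2 ^ 2 by norm_num, Real.sqrt_sq (by norm_num)]
  rw [h1]
  apply Real.sqrt_le_sqrt
  have := Real.pi_gt_three
  push_cast
  rw [← h1]
  linarith

theorem measure_small (s : ℝ) (i : ℕ) :
    γ {y : ℝ | |(((y : ℂ) + s * Complex.I) ^ (i + 1)).re| < (KK i ^ 4)⁻¹} ≤
      ENNReal.ofReal (kap i) := by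
  classical
  set ρ : ℝ := (1 / 2) ^ (4 * (i + 1)) with hρ
  have hρ0 : 0 < ρ := by rw [hρ]; positivity
  have hρ1 : ρ ≤ 1 := pow_le_one₀ (by norm_num) (by norm_num)
  have hδ : (KK i ^ 4)⁻¹ = ρ ^ (i + 1) := by
    rw [hρ, ← pow_mul]
    unfold KK
    rw [← pow_mul, one_div, inv_pow]
    congr 2
    ring
  set R := (rePoly s (i + 1)).roots.toFinset with hR
  have hsub : {y : ℝ | |(((y : ℂ) + s * Complex.I) ^ (i + 1)).re| < (KK i ^ 4)⁻¹} ⊆
      ⋃ z ∈ R, Ioo (z.re - ρ) (z.re + ρ) := by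
    intro y hy
    have h1 : ‖(rePoly s (i + 1)).eval (y : ℂ)‖ < ρ ^ (i + 1) := by
      rw [rePoly_eval, Complex.norm_real, Real.norm_eq_abs, ← hδ]
      exact hy
    obtain ⟨z, hz, h2⟩ := exists_root_near (rePoly_monic s (i + 1))
      (rePoly_natDegree s (i + 1)) hρ0.le hρ1 h1
    have h3 := (Complex.abs_re_le_norm ((y : ℂ) - z)).trans_lt h2
    rw [Complex.sub_re, Complex.ofReal_re, abs_lt] at h3
    refine mem_iUnion₂.2 ⟨z, by rw [hR, Multiset.mem_toFinset]; exact hz, ?_, ?_⟩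
    · linarith [h3.1]
    · linarith [h3.2]
  refine (measure_mono hsub).trans ((measure_biUnion_finset_le _ _).trans ?_)
  have hI : ∀ z ∈ R, γ (Ioo (z.re - ρ) (z.re + ρ)) ≤ ENNReal.ofReal ρ := by
    intro z _
    have h1 := measure_le_of_bound (a := z.re - ρ) (b := z.re + ρ) (B := 1 / 2) ?_ (by norm_num)
    · refine h1.trans (ENNReal.ofReal_le_ofReal (le_of_eq ?_))
      ring
    · intro x _
      have h2 : Real.exp (-x ^ 2 / 2) ≤ 1 := Real.exp_le_one_iff.2 (by nlinarith [sq_nonneg x])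
      calc gc * Real.exp (-x ^ 2 / 2) ≤ 1 / 2 * 1 :=
            mul_le_mul gc_le_half h2 (Real.exp_pos _).le (by norm_num)
        _ = 1 / 2 := mul_one _
  refine (Finset.sum_le_sum hI).trans ?_
  rw [Finset.sum_const, nsmul_eq_mul]
  have hcard : R.card ≤ i + 1 := by
    rw [hR]
    exact (Multiset.toFinset_card_le _).trans ((Polynomial.card_roots' _).trans
      (rePoly_natDegree s (i + 1)))
  calc (R.card : ℝ≥0∞) * ENNReal.ofReal ρ ≤ ((i + 1 : ℕ) : ℝ≥0∞) * ENNReal.ofReal ρ := by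
        gcongr
    _ = ENNReal.ofReal ((i + 1 : ℕ) * ρ) := by
        rw [ENNReal.ofReal_mul (by positivity), ENNReal.ofReal_natCast]
    _ ≤ ENNReal.ofReal (kap i) := by
        apply ENNReal.ofReal_le_ofReal
        have h1 : ((i + 1 : ℕ) : ℝ) ≤ 2 ^ (i + 1) := by
          exact_mod_cast (Nat.lt_two_pow_self (n := i + 1)).le
        unfold kap
        calc ((i + 1 : ℕ) : ℝ) * ρ ≤ 2 ^ (i + 1) * ρ := by gcongr
          _ = (1 / 2) ^ (3 * (i + 1)) := by
            rw [hρ, show 4 * (i + 1) = (i + 1) + 3 * (i + 1) by ring]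
            generalize i + 1 = n
            rw [pow_add (1 / 2 : ℝ) n (3 * n), ← mul_assoc, ← mul_pow]
            norm_num
          _ ≤ (1 / 2) ^ (i + 3) :=
            pow_le_pow_of_le_one (by norm_num) (by norm_num) (by omega)

end Pool.Agent.Lib.UdB
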