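import Pool.Agent.Lib.UdB.GateProb

/-!
# The good events and the choice of the numbers of cells
-/

set_option autoImplicit false
set_option linter.unusedSectionVars false

open MeasureTheory Set
open scoped ENNReal NNReal InnerProductSpace

namespace Pool.Agent.Lib.UdB

namespace TimeData

variable (D : TimeData)

theorem Bf_inc_orth (i m j : ℕ) : Bf (D.inc i m j Complex.I) (D.inc i m j 1) = 0 := by
  unfold inc
  rw [Bf_smul_left, Bf_smul_right, Bf_sub_left, Bf_sub_right, Bf_sub_right, Bf_single_single,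
    Bf_single_single, Bf_single_single, Bf_single_single]
  have : ⟪Complex.I, (1 : ℂ)⟫_ℝ = 0 := by simp [Complex.inner]
  rw [this]
  ring

/-- The gate is ambiguous. -/
def amb (i m : ℕ) (x : unitInterval → ℂ) : Prop := |(D.eta i m x ^ (i + 1)).re| < (KK i ^ 4)⁻¹

theorem measurable_eta (i m : ℕ) : Measurable (D.eta i m) := (D.isCyl_eta i m).measurable

theorem measurableSet_amb (i m : ℕ) : MeasurableSet {x | D.amb i m x} := by
  unfold amb
  have := D.measurable_eta i m
  refine measurableSet_lt ?_ measurable_const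
  have h1 : Measurable fun x => (D.eta i m x ^ (i + 1)).re :=
    Complex.measurable_re.comp (this.pow_const _)
  exact h1.norm

theorem measure_amb {ν : Measure (unitInterval → ℂ)} (hν : IsWR ν) {i m : ℕ} (hm : m < D.M i) :
    ν {x | D.amb i m x} ≤ ENNReal.ofReal (kap i) := by
  have := hν.prob
  set d := D.inc i m 2 1 with hd
  have hQ : Qf d = 1 := D.Qf_inc hm (by norm_num) (by simp)
  have hr := hν.resample hQ
  rw [← hr.measure_preimage (D.measurableSet_amb i m).nullMeasurableSet]
  have h1 : ∀ (x : unitInterval → ℂ) (y : ℝ), D.eta i m (resample d (x, y)) =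
      (y : ℂ) + (pair (D.inc i m 2 Complex.I) x : ℝ) * Complex.I := by
    intro x y
    rw [eta_eq, ← hd]
    unfold resample
    simp only
    rw [pair_apply_add, pair_apply_smul, pair_kpath, pair_apply_add, pair_apply_smul, pair_kpath,
      D.Bf_inc_orth i m 2]
    have h2 : Bf d d = 1 := hQ
    rw [h2, mul_one, mul_zero, add_zero]
    congr 2
    ring
  have hms := hr.measurable (D.measurableSet_amb i m)
  rw [Measure.prod_apply hms]
  calc ∫⁻ x, γ (Prod.mk x ⁻¹' (resample d ⁻¹' {x | D.amb i m x})) ∂ν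
      ≤ ∫⁻ _, ENNReal.ofReal (kap i) ∂ν := by
        refine lintegral_mono fun x => ?_
        refine le_trans (le_of_eq ?_) (measure_small (pair (D.inc i m 2 Complex.I) x) i)
        congr 1
        ext y
        simp only [mem_preimage, Set.mem_ofPred_eq, amb, h1]
    _ = _ := by simp

/-- The message of block `i` is good after `m` cells. -/
def Gd (i : ℕ) : ℕ → (unitInterval → ℂ) → Prop
  | 0, _ => False
  | m + 1, x => (D.tau i m x ∈ setF i ∧ ¬ D.amb i m x) ∨ (D.tau i m x ≤ KK i ∧ Gd i m x)

theorem measurableSet_Gd (i m : ℕ) : MeasurableSet {x | D.Gd i m x} := by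
  induction m with
  | zero => simp [Gd]
  | succ m ih =>
    have hτ : Measurable (D.tau i m) := measurable_pair _
    have h1 : MeasurableSet {x | D.tau i m x ∈ setF i} := hτ (measurableSet_setF i)
    have h2 : MeasurableSet {x | D.tau i m x ≤ KK i} := hτ measurableSet_Iic
    exact (h1.inter (D.measurableSet_amb i m).compl).union (h2.inter ih)

theorem depTo_Gd (i m : ℕ) : DepTo (D.tm i m 0) (D.Gd i m) := by
  induction m with
  | zero => intro x y _; rfl
  | succ m ih =>
    intro x y hxy
    have e1 : D.tau i m x = D.tau i m y :=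
      (D.depTo_pair_inc i m 0 1).mono (D.tm_mono (by omega)) x y hxy
    have e2 : D.eta i m x = D.eta i m y := (D.depTo_eta i m).mono (D.tm_mono (by omega)) x y hxy
    have e3 : D.Gd i m x = D.Gd i m y := ih.mono (D.tm_mono (by omega)) x y hxy
    simp only [Gd, amb, e1, e2, e3]

open Classical in
/-- Badness, as an extended nonnegative function. -/
noncomputable def bd (i m : ℕ) (x : unitInterval → ℂ) : ℝ≥0∞ := if D.Gd i m x then 0 else 1

open Classical in
/-- Ambiguity, as an extended nonnegative function. -/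
noncomputable def am (i m : ℕ) (x : unitInterval → ℂ) : ℝ≥0∞ := if D.amb i m x then 1 else 0

theorem measurable_bd (i m : ℕ) : Measurable (D.bd i m) := by
  classical
  exact Measurable.ite (D.measurableSet_Gd i m) measurable_const measurable_const

theorem measurable_am (i m : ℕ) : Measurable (D.am i m) := by
  classical
  exact Measurable.ite (D.measurableSet_amb i m) measurable_const measurable_const

theorem lintegral_bd {ν : Measure (unitInterval → ℂ)} (i m : ℕ) :
    ∫⁻ x, D.bd i m x ∂ν = ν {x | ¬ D.Gd i m x} := by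
  classical
  have h1 : D.bd i m = {x | ¬ D.Gd i m x}.indicator fun _ => 1 := by
    funext x
    unfold bd
    by_cases h : D.Gd i m x <;> simp [h]
  have hms : MeasurableSet {x | ¬ D.Gd i m x} := (D.measurableSet_Gd i m).compl
  rw [h1, lintegral_indicator hms, setLIntegral_const, one_mul]

theorem lintegral_am {ν : Measure (unitInterval → ℂ)} (i m : ℕ) :
    ∫⁻ x, D.am i m x ∂ν = ν {x | D.amb i m x} := by
  classical
  have h1 : D.am i m = {x | D.amb i m x}.indicator fun _ => 1 := by
    funext x
    unfold am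
    by_cases h : D.amb i m x <;> simp [h]
  rw [h1, lintegral_indicator (D.measurableSet_amb i m), setLIntegral_const, one_mul]

theorem bd_succ_le (i m : ℕ) (x : unitInterval → ℂ) : D.bd i (m + 1) x ≤
    ind (setF i) (D.tau i m x) * D.am i m x + ind (setT i) (D.tau i m x) +
      D.bd i m x * ind (Iic (KK i)) (D.tau i m x) := by
  classical
  rcases trichotomy i (D.tau i m x) with ⟨h, hZ, hT, hF⟩ | ⟨hT, hZ, hF⟩ | ⟨h, hZ, hT, hF⟩
  · rw [ind_mem hZ, ind_notMem hT, ind_notMem hF]
    unfold bd
    by_cases hg : D.Gd i m x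
    · have : D.Gd i (m + 1) x := Or.inr ⟨h, hg⟩
      simp [hg, this]
    · simp only [hg, if_false]
      split_ifs <;> simp
  · rw [ind_mem hT]
    have h1 : D.bd i (m + 1) x ≤ 1 := by unfold bd; split_ifs <;> simp
    exact h1.trans (le_add_right le_add_self)
  · rw [ind_mem hF]
    unfold bd am
    by_cases hg : D.amb i m x
    · simp only [hg, if_true]
      rw [one_mul]
      have h1 : (if D.Gd i (m + 1) x then (0 : ℝ≥0∞) else 1) ≤ 1 := by split_ifs <;> simp
      exact h1.trans (le_add_right le_self_add)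
    · have : D.Gd i (m + 1) x := Or.inl ⟨hF, hg⟩
      simp [this]

theorem measure_bad {ν : Measure (unitInterval → ℂ)} (hν : IsWR ν) (i m : ℕ) (hm : m ≤ D.M i) :
    ν {x | ¬ D.Gd i m x} ≤ 2 * ENNReal.ofReal (kap i) + (1 - γ (setF i)) ^ m := by
  have := hν.prob
  rw [← D.lintegral_bd]
  induction m with
  | zero =>
    simp only [pow_zero]
    have : ∫⁻ x, D.bd i 0 x ∂ν ≤ 1 := by
      calc ∫⁻ x, D.bd i 0 x ∂ν ≤ ∫⁻ _, 1 ∂ν := by
            refine lintegral_mono fun x => ?_
            unfold bd; split_ifs <;> simp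
        _ = 1 := by simp
    exact this.trans le_add_self
  | succ m ih =>
    have hm' : m < D.M i := by omega
    have hQ : Qf (D.inc i m 0 1) = 1 := D.Qf_inc hm' (by norm_num) (by simp)
    have hτ : Measurable (D.tau i m) := measurable_pair _
    have mZ : Measurable fun x => ind (Iic (KK i)) (D.tau i m x) :=
      (measurable_ind measurableSet_Iic).comp hτ
    have mT : Measurable fun x => ind (setT i) (D.tau i m x) :=
      (measurable_ind (measurableSet_setT i)).comp hτ
    have mF : Measurable fun x => ind (setF i) (D.tau i m x) :=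
      (measurable_ind (measurableSet_setF i)).comp hτ
    have mb := D.measurable_bd i m
    have ma := D.measurable_am i m
    have pa : PostTo (D.tm i m 1) (D.am i m) := by
      classical
      intro x y
      have h1 : D.eta i m (conc (D.tm i m 1) (x, y)) = D.eta i m y :=
        D.postTo_eta (D.tm_mono (by omega)) x y
      have h2 : D.amb i m (conc (D.tm i m 1) (x, y)) = D.amb i m y := by simp only [amb, h1]
      simp only [am, h2]
    have db : DepTo (D.tm i m 0) (D.bd i m) := by
      classical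
      intro x y hxy
      simp only [bd, D.depTo_Gd i m x y hxy]
    have pt : PostTo (D.tm i m 0) (D.tau i m) := D.postTo_pair_inc le_rfl 1
    have dt : DepTo (D.tm i m 1) (D.tau i m) := D.depTo_pair_inc i m 0 1
    have e1 : ∫⁻ x, ind (setF i) (D.tau i m x) * D.am i m x ∂ν =
        γ (setF i) * ν {x | D.amb i m x} := by
      rw [hν.lintegral_mul mF ma (dt.comp (ind (setF i))) pa,
        hν.lintegral_ind hQ (measurableSet_setF i), D.lintegral_am]
    have e2 : ∫⁻ x, ind (setT i) (D.tau i m x) ∂ν = γ (setT i) :=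
      hν.lintegral_ind hQ (measurableSet_setT i)
    have e3 : ∫⁻ x, D.bd i m x * ind (Iic (KK i)) (D.tau i m x) ∂ν =
        (∫⁻ x, D.bd i m x ∂ν) * γ (Iic (KK i)) := by
      rw [hν.lintegral_mul mb mZ db (pt.comp (ind (Iic (KK i)))),
        hν.lintegral_ind hQ measurableSet_Iic]
    have hF1 : γ (setF i) ≤ 1 := prob_le_one
    have hZ : γ (Iic (KK i)) ≤ 1 - γ (setF i) := by
      have hdisj : Iic (KK i) ⊆ (setF i)ᶜ := by
        intro y hy hy'
        rcases trichotomy i y with h | h | h
        · exact h.2.2.2 hy'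
        · exact h.2.1 hy
        · exact h.2.1 hy
      calc γ (Iic (KK i)) ≤ γ (setF i)ᶜ := measure_mono hdisj
        _ = 1 - γ (setF i) := prob_compl_eq_one_sub (measurableSet_setF i)
    set κ := ENNReal.ofReal (kap i) with hκ
    set F := γ (setF i) with hFdef
    calc ∫⁻ x, D.bd i (m + 1) x ∂ν
        ≤ ∫⁻ x, (ind (setF i) (D.tau i m x) * D.am i m x + ind (setT i) (D.tau i m x) +
          D.bd i m x * ind (Iic (KK i)) (D.tau i m x)) ∂ν := lintegral_mono (D.bd_succ_le i m)
      _ = F * ν {x | D.amb i m x} + γ (setT i) + (∫⁻ x, D.bd i m x ∂ν) * γ (Iic (KK i)) := by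
          rw [lintegral_add_left (by fun_prop), lintegral_add_left (by fun_prop), e1, e2, e3]
      _ ≤ F * κ + κ * F + (2 * κ + (1 - F) ^ m) * (1 - F) := by
          have h1 := D.measure_amb hν hm'
          have h2 := measure_T_le i
          have h3 := ih hm'.le
          gcongr
      _ = 2 * κ * (F + (1 - F)) + (1 - F) ^ (m + 1) := by ring
      _ = _ := by rw [add_tsub_cancel_of_le hF1, mul_one]

end TimeData

theorem exists_M (i : ℕ) : ∃ n : ℕ, 0 < n ∧ (1 - γ (setF i)) ^ n ≤ ENNReal.ofReal (kap i) := by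
  have h1 : 1 - γ (setF i) < 1 := by
    refine ENNReal.sub_lt_self (by simp) (by simp) (measure_F_pos i).ne'
  have h2 := ENNReal.tendsto_pow_atTop_nhds_zero_of_lt_one h1
  have h3 : ∀ᶠ n in Filter.atTop, (1 - γ (setF i)) ^ n ≤ ENNReal.ofReal (kap i) :=
    h2.eventually_le_const (ENNReal.ofReal_pos.2 (kap_pos i))
  obtain ⟨n, hn, hn'⟩ := (h3.and (Filter.eventually_gt_atTop 0)).exists
  exact ⟨n, hn', hn⟩

/-- The numbers of cells. -/
noncomputable def cellsM (i : ℕ) : ℕ := (exists_M i).choose

theorem cellsM_pos (i : ℕ) : 0 < cellsM i := (exists_M i).choose_spec.1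

theorem cellsM_spec (i : ℕ) : (1 - γ (setF i)) ^ cellsM i ≤ ENNReal.ofReal (kap i) :=
  (exists_M i).choose_spec.2

/-- The block times. -/
noncomputable def blockT : ℕ → ℝ
  | 0 => 1
  | i + 1 => blockT i / (4 * (cellsM (i + 1) : ℝ) ^ 2)

theorem blockT_pos (i : ℕ) : 0 < blockT i := by
  induction i with
  | zero => exact one_pos
  | succ i ih =>
    have : (0 : ℝ) < cellsM (i + 1) := by exact_mod_cast cellsM_pos (i + 1)
    change 0 < blockT i / (4 * (cellsM (i + 1) : ℝ) ^ 2)
    positivity

theorem blockT_sqrt_le (i : ℕ) : √(blockT i) ≤ (1 / 2) ^ i := by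
  induction i with
  | zero => simp [blockT]
  | succ i ih =>
    have h1 : (1 : ℝ) ≤ cellsM (i + 1) := by exact_mod_cast cellsM_pos (i + 1)
    have h2 : blockT (i + 1) ≤ blockT i / 4 := by
      change blockT i / (4 * (cellsM (i + 1) : ℝ) ^ 2) ≤ _
      have h3 := blockT_pos i
      have h4 : (1 : ℝ) ≤ (cellsM (i + 1) : ℝ) ^ 2 := one_le_pow₀ h1
      gcongr
      linarith
    calc √(blockT (i + 1)) ≤ √(blockT i / 4) := Real.sqrt_le_sqrt h2
      _ = √(blockT i) / 2 := by
        rw [Real.sqrt_div (blockT_pos i).le, show (4 : ℝ) = 2 ^ 2 by norm_num,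
          Real.sqrt_sq (by norm_num)]
      _ ≤ (1 / 2) ^ i / 2 := by gcongr
      _ = _ := by rw [pow_succ]; ring

theorem blockT_mul (i : ℕ) : √(blockT (i + 1)) * cellsM (i + 1) = √(blockT i) / 2 := by
  have h1 : (0 : ℝ) < cellsM (i + 1) := by exact_mod_cast cellsM_pos (i + 1)
  change √(blockT i / (4 * (cellsM (i + 1) : ℝ) ^ 2)) * _ = _
  rw [Real.sqrt_div (blockT_pos i).le, Real.sqrt_mul (by norm_num), Real.sqrt_sq h1.le,
    show (4 : ℝ) = 2 ^ 2 by norm_num, Real.sqrt_sq (by norm_num)]
  field_simp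

/-- The time data of the construction. -/
noncomputable def D₀ : TimeData where
  t := blockT
  M := cellsM
  M_pos := cellsM_pos
  t_zero := rfl
  t_pos := blockT_pos
  t_lt i := by
    have h1 : (1 : ℝ) ≤ cellsM (i + 1) := by exact_mod_cast cellsM_pos (i + 1)
    have h4 : (1 : ℝ) ≤ (cellsM (i + 1) : ℝ) ^ 2 := one_le_pow₀ h1
    have h3 := blockT_pos i
    change blockT i / (4 * (cellsM (i + 1) : ℝ) ^ 2) < blockT i
    rw [div_lt_iff₀ (by positivity)]
    nlinarith
  summ := by
    rw [← summable_nat_add_iff 1]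
    simp only [blockT_mul]
    refine Summable.of_nonneg_of_le (fun i => by positivity) (fun i => ?_)
      (summable_geometric_two)
    have := blockT_sqrt_le i
    have h2 := Real.sqrt_nonneg (blockT i)
    linarith

theorem measure_bad₀ {ν : Measure (unitInterval → ℂ)} (hν : IsWR ν) (i : ℕ) :
    ν {x | ¬ D₀.Gd i (D₀.M i) x} ≤ ENNReal.ofReal (3 * kap i) := by
  refine (D₀.measure_bad hν i (D₀.M i) le_rfl).trans ?_
  calc 2 * ENNReal.ofReal (kap i) + (1 - γ (setF i)) ^ D₀.M i
      ≤ 2 * ENNReal.ofReal (kap i) + ENNReal.ofReal (kap i) := by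
        gcongr
        exact cellsM_spec i
    _ = 3 * ENNReal.ofReal (kap i) := by ring
    _ = _ := by rw [ENNReal.ofReal_mul (by norm_num)]; simp

/-- All messages are good. -/
def AllGood (x : unitInterval → ℂ) : Prop := ∀ i, D₀.Gd i (D₀.M i) x

theorem measure_not_allGood {ν : Measure (unitInterval → ℂ)} (hν : IsWR ν) :
    ν {x | ¬ AllGood x} ≤ ENNReal.ofReal (3 / 4) := by
  have h1 : {x | ¬ AllGood x} = ⋃ i, {x | ¬ D₀.Gd i (D₀.M i) x} := by
    ext x
    simp [AllGood]
  rw [h1]
  refine (measure_iUnion_le _).trans ?_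
  refine (ENNReal.tsum_le_tsum fun i => measure_bad₀ hν i).trans ?_
  have h2 : HasSum (fun i => 3 * kap i) (3 / 4) := by
    have h := hasSum_geometric_two.mul_left (3 / 8 : ℝ)
    have h3 : (fun i : ℕ => 3 / 8 * (1 / 2 : ℝ) ^ i) = fun i => 3 * kap i := by
      funext i
      unfold kap
      rw [pow_add]
      ring
    rw [h3] at h
    have h4 : (3 / 8 * 2 : ℝ) = 3 / 4 := by norm_num
    rwa [h4] at h
  rw [← ENNReal.ofReal_tsum_of_nonneg (fun i => by have := kap_pos i; positivity) h2.summable,
    h2.tsum_eq]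

end Pool.Agent.Lib.UdB
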