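import Pool.Agent.Lib.UdB.Rot

/-!
# Simple adapted rotations preserve the Wiener measure
-/

set_option autoImplicit false
set_option linter.unusedSectionVars false

open MeasureTheory
open scoped ENNReal InnerProductSpace

namespace Pool.Agent.Lib.UdB

/-- `f x` depends only on the restriction of `x` to `[0, u]`. -/
def DepTo {V E : Type} (u : unitInterval) (f : (unitInterval → V) → E) : Prop :=
  ∀ x y : unitInterval → V, (∀ s ≤ u, x s = y s) → f x = f y

theorem conc_of_le {V : Type} [NormedAddCommGroup V] {u s : unitInterval} (h : s ≤ u)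
    (x y : unitInterval → V) : conc u (x, y) s = x s := by
  simp [conc, min_eq_left h]

theorem DepTo.conc {V E : Type} [NormedAddCommGroup V] {u : unitInterval}
    {f : (unitInterval → V) → E} (hf : DepTo u f) (x y : unitInterval → V) :
    f (UdB.conc u (x, y)) = f x :=
  hf _ _ fun _ hs => conc_of_le hs x y

theorem DepTo.mono {V E : Type} {u v : unitInterval} {f : (unitInterval → V) → E}
    (hf : DepTo u f) (huv : u ≤ v) : DepTo v f :=
  fun x y h => hf x y fun s hs => h s (hs.trans huv)

theorem rot_of_le {u v s : unitInterval} (huv : u ≤ v) (h : s ≤ u) (a : ℂ)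
    (x : unitInterval → ℂ) : rot u v a x s = x s := by
  have h1 : min s u = s := min_eq_left h
  have h2 : max s u = u := max_eq_right h
  have h3 : max s v = v := max_eq_right (h.trans huv)
  simp [rot, h1, h2, h3, min_eq_left huv]

/-- The increments on `[τ k, τ (k+1)]` are multiplied by `f k x`, for all `k < n`. -/
def stepRot (τ : ℕ → unitInterval) (f : ℕ → (unitInterval → ℂ) → ℂ) (n : ℕ)
    (x : unitInterval → ℂ) : unitInterval → ℂ := fun t =>
  x (min t (τ 0)) + (∑ k ∈ Finset.range n, f k x * (x (min (max t (τ k)) (τ (k + 1))) - x (τ k)))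
    + (x (max t (τ n)) - x (τ n))

theorem stepRot_succ {τ : ℕ → unitInterval} (hτ : Monotone τ) {f : ℕ → (unitInterval → ℂ) → ℂ}
    (hf : ∀ k, DepTo (τ k) (f k)) (n : ℕ) (x : unitInterval → ℂ) :
    stepRot τ f (n + 1) x = stepRot τ f n (rotF (τ n) (τ (n + 1)) (f n) x) := by
  have hn : τ n ≤ τ (n + 1) := hτ (Nat.le_succ n)
  have key : ∀ s ≤ τ n, rotF (τ n) (τ (n + 1)) (f n) x s = x s := fun s hs => rot_of_le hn hs _ _
  funext t
  unfold stepRot
  rw [key _ ((min_le_right _ _).trans (hτ (Nat.zero_le n))), Finset.sum_range_succ]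
  have h1 : ∑ k ∈ Finset.range n, f k x * (x (min (max t (τ k)) (τ (k + 1))) - x (τ k)) =
      ∑ k ∈ Finset.range n, f k (rotF (τ n) (τ (n + 1)) (f n) x) *
        (rotF (τ n) (τ (n + 1)) (f n) x (min (max t (τ k)) (τ (k + 1))) -
          rotF (τ n) (τ (n + 1)) (f n) x (τ k)) := by
    refine Finset.sum_congr rfl fun k hk => ?_
    have hk' : k + 1 ≤ n := Finset.mem_range.1 hk
    rw [key _ ((min_le_right _ _).trans (hτ hk')), key _ (hτ (Nat.le_of_succ_le hk')),
      hf k x (rotF (τ n) (τ (n + 1)) (f n) x) fun s hs =>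
        (key s (hs.trans (hτ (Nat.le_of_succ_le hk')))).symm]
  rw [← h1, key _ le_rfl]
  have h2 : rotF (τ n) (τ (n + 1)) (f n) x (max t (τ n)) =
      x (τ n) + f n x * (x (min (max t (τ n)) (τ (n + 1))) - x (τ n)) +
        (x (max t (τ (n + 1))) - x (τ (n + 1))) := by
    unfold rotF rot
    have e1 : min (max t (τ n)) (τ n) = τ n := min_eq_right (le_max_right _ _)
    have e2 : max (max t (τ n)) (τ n) = max t (τ n) := max_eq_left (le_max_right _ _)
    have e3 : max (max t (τ n)) (τ (n + 1)) = max t (τ (n + 1)) := by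
      rw [max_assoc, max_eq_right hn]
    rw [e1, e2, e3]
  rw [h2]
  ring

theorem IsWR.stepRot {ν : Measure (unitInterval → ℂ)} (hν : IsWR ν) {τ : ℕ → unitInterval}
    (hτ : Monotone τ) {f : ℕ → (unitInterval → ℂ) → ℂ} (hf : ∀ k, DepTo (τ k) (f k))
    (hm : ∀ k, Measurable (f k)) (h1 : ∀ k x, ‖f k x‖ = 1) (n : ℕ) :
    MeasurePreserving (stepRot τ f n) ν ν := by
  induction n with
  | zero =>
    have : MeasurePreserving (UdB.rot (τ 0) (τ 0) 1) ν ν := hν.rot le_rfl (by simp)
    have h2 : UdB.stepRot τ f 0 = UdB.rot (τ 0) (τ 0) 1 := by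
      funext x t
      simp only [UdB.stepRot, UdB.rot, Finset.range_zero, Finset.sum_empty]
      have : min (max t (τ 0)) (τ 0) = τ 0 := min_eq_right (le_max_right _ _)
      rw [this]
      ring
    rw [h2]
    exact this
  | succ n ih =>
    have h2 : UdB.stepRot τ f (n + 1) =
        UdB.stepRot τ f n ∘ UdB.rotF (τ n) (τ (n + 1)) (f n) := by
      funext x
      exact stepRot_succ hτ hf n x
    rw [h2]
    exact ih.comp (hν.rotF (hτ (Nat.le_succ n)) (hm n) (h1 n) fun x y => (hf n).conc x y)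

/-- The law of a linear functional. -/
theorem IsWR.map_pair {V : Type} [NormedAddCommGroup V] [InnerProductSpace ℝ V]
    [FiniteDimensional ℝ V] [MeasurableSpace V] [BorelSpace V]
    {ν : Measure (unitInterval → V)} (hν : IsWR ν) (c : unitInterval →₀ V) :
    ν.map (pair c) = ProbabilityTheory.gaussianReal 0 (Real.toNNReal (Qf c)) := by
  have := hν.prob
  have hm := measurable_pair c
  have := Measure.isProbabilityMeasure_map (μ := ν) hm.aemeasurable
  apply Measure.ext_of_charFun
  ext t
  rw [ProbabilityTheory.charFun_gaussianReal, charFun_apply_real, integral_map hm.aemeasurable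
    (by fun_prop)]
  have h1 := hν.char (t • c)
  have h2 : ∀ x, Complex.exp ((pair (t • c) x : ℝ) * Complex.I) =
      Complex.exp (t * (pair c x : ℝ) * Complex.I) := by
    intro x
    rw [pair_smul]
    push_cast
    rfl
  simp only [h2] at h1
  rw [h1]
  congr 1
  have h3 : Qf (t • c) = t ^ 2 * Qf c := by
    unfold Qf; rw [Bf_smul_left, Bf_smul_right]; ring
  rw [h3, Real.coe_toNNReal _ (Qf_nonneg c)]
  push_cast
  ring

/-- The second moment of a linear functional. -/
theorem IsWR.lintegral_pair_sq {V : Type} [NormedAddCommGroup V] [InnerProductSpace ℝ V]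
    [FiniteDimensional ℝ V] [MeasurableSpace V] [BorelSpace V]
    {ν : Measure (unitInterval → V)} (hν : IsWR ν) (c : unitInterval →₀ V) :
    ∫⁻ x, ‖pair c x‖ₑ ^ 2 ∂ν = ENNReal.ofReal (Qf c) := by
  have hm := measurable_pair c
  have h1 : ∫⁻ x, ‖pair c x‖ₑ ^ 2 ∂ν = ∫⁻ y, ‖y‖ₑ ^ 2 ∂(ν.map (pair c)) := by
    rw [lintegral_map (by fun_prop) hm]
  rw [h1, hν.map_pair]
  have h2 := ProbabilityTheory.variance_id_gaussianReal (μ := 0) (v := Real.toNNReal (Qf c))
  have h3 : ∀ y : ℝ, ‖y‖ₑ ^ 2 = ENNReal.ofReal (y ^ 2) := by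
    intro y
    rw [← sq_abs, ENNReal.ofReal_pow (abs_nonneg _), Real.enorm_eq_ofReal_abs]
  have h4 : MemLp (id : ℝ → ℝ) 2 (ProbabilityTheory.gaussianReal 0 (Real.toNNReal (Qf c))) :=
    ProbabilityTheory.memLp_id_gaussianReal 2
  have h5 : Integrable (fun y : ℝ => y ^ 2)
      (ProbabilityTheory.gaussianReal 0 (Real.toNNReal (Qf c))) := h4.integrable_sq
  simp only [h3]
  rw [← ofReal_integral_eq_lintegral_ofReal h5 (Filter.Eventually.of_forall fun y => sq_nonneg y)]
  rw [ProbabilityTheory.variance_eq_integral aemeasurable_id] at h2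
  simp only [id_eq, ProbabilityTheory.integral_id_gaussianReal, sub_zero] at h2
  rw [h2, Real.coe_toNNReal _ (Qf_nonneg c)]

end Pool.Agent.Lib.UdB
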