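import Pool.Agent.Lib.UdB.Cyl
import Pool.Agent.Lib.UdB.Step

/-!
# Moments of cylindrical functionals, Gaussian integration by parts
-/

set_option autoImplicit false
set_option linter.unusedSectionVars false

open MeasureTheory
open scoped ENNReal InnerProductSpace ContDiff NNReal

namespace Pool.Agent.Lib.UdB

variable {V : Type} [NormedAddCommGroup V] [InnerProductSpace ℝ V] [FiniteDimensional ℝ V]
  [MeasurableSpace V] [BorelSpace V]

/-! ### moments -/

theorem IsWR.memLp_pair {ν : Measure (unitInterval → V)} (hν : IsWR ν) (c : unitInterval →₀ V)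
    (p : ℝ≥0) : MemLp (pair c) p ν := by
  have h := ProbabilityTheory.memLp_id_gaussianReal (μ := 0) (v := Real.toNNReal (Qf c)) p
  rw [← hν.map_pair c] at h
  have h2 := (memLp_map_measure_iff (by fun_prop) (measurable_pair c).aemeasurable).1 h
  exact h2

theorem IsWR.memLp_eval {ν : Measure (unitInterval → V)} (hν : IsWR ν) (t : unitInterval)
    (p : ℝ≥0) : MemLp (fun x : unitInterval → V => x t) p ν := by
  have h1 : (fun x : unitInterval → V => x t) = fun x =>
      ∑ i, pair (Finsupp.single t (stdOrthonormalBasis ℝ V i)) x • stdOrthonormalBasis ℝ V i := by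
    funext x
    simp only [pair_single]
    exact ((stdOrthonormalBasis ℝ V).sum_repr' (x t)).symm
  rw [h1]
  refine memLp_finsetSum _ fun i _ => ?_
  have := hν.memLp_pair (Finsupp.single t (stdOrthonormalBasis ℝ V i)) p
  exact (ContinuousLinearMap.toSpanSingleton ℝ (stdOrthonormalBasis ℝ V i)).comp_memLp' this

theorem measurable_rs (T : Finset unitInterval) :
    Measurable (rs T : (unitInterval → V) → (T → V)) := by
  unfold rs
  exact measurable_pi_lambda _ fun t => measurable_pi_apply _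

theorem IsWR.memLp_rs {ν : Measure (unitInterval → V)} (hν : IsWR ν) (T : Finset unitInterval)
    (p : ℝ≥0) : MemLp (rs T : (unitInterval → V) → (T → V)) p ν :=
  memLp_pi_iff.2 fun t => hν.memLp_eval t p

/-- A function of polynomial growth of a variable with finite moments has finite moments. -/
theorem memLp_growth {Ω : Type} [MeasurableSpace Ω] {μ : Measure Ω} [IsProbabilityMeasure μ]
    {E E' : Type} [NormedAddCommGroup E] [NormedAddCommGroup E'] {X : Ω → E} {Y : Ω → E'}
    (hX : ∀ p : ℝ≥0, MemLp X p μ) (hY : AEStronglyMeasurable Y μ) (k : ℕ) (C : ℝ)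
    (h : ∀ z, ‖Y z‖ ≤ C * (1 + ‖X z‖) ^ k) (p : ℝ≥0) : MemLp Y p μ := by
  have h0 : MemLp (fun z => ‖X z‖) ((p * (k + 1) : ℝ≥0) : ℝ≥0∞) μ := (hX (p * (k + 1))).norm
  have h00 : MemLp (fun _ : Ω => (1 : ℝ)) ((p * (k + 1) : ℝ≥0) : ℝ≥0∞) μ := memLp_const 1
  have h1 : MemLp (fun z => 1 + ‖X z‖) ((p * (k + 1) : ℝ≥0) : ℝ≥0∞) μ := h00.add h0
  have h2 := h1.norm_rpow_div ((k + 1 : ℕ) : ℝ≥0∞)
  have h3 : (((p * (k + 1) : ℝ≥0) : ℝ≥0∞) / ((k + 1 : ℕ) : ℝ≥0∞)) = p := by
    push_cast
    rw [ENNReal.mul_div_cancel_right (by positivity) (by finiteness)]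
  rw [h3] at h2
  have hC : 0 ≤ C ∨ ∀ z, ‖Y z‖ ≤ 0 := by
    by_cases hC : 0 ≤ C
    · exact Or.inl hC
    · right
      intro z
      refine (h z).trans (mul_nonpos_of_nonpos_of_nonneg (le_of_not_ge hC) (by positivity))
  refine h2.of_le_mul (c := C) hY (Filter.Eventually.of_forall fun z => ?_)
  have h4 : ‖‖1 + ‖X z‖‖ ^ ((k + 1 : ℕ) : ℝ≥0∞).toReal‖ = (1 + ‖X z‖) ^ (k + 1) := by
    rw [ENNReal.toReal_natCast, Real.rpow_natCast, norm_pow, norm_norm, Real.norm_of_nonneg
      (by positivity)]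
  rw [h4]
  rcases hC with hC | hC
  · refine (h z).trans (mul_le_mul_of_nonneg_left ?_ hC)
    exact pow_le_pow_right₀ (by linarith [norm_nonneg (X z)]) (Nat.le_succ k)
  · by_cases hC' : 0 ≤ C
    · refine (h z).trans (mul_le_mul_of_nonneg_left ?_ hC')
      exact pow_le_pow_right₀ (by linarith [norm_nonneg (X z)]) (Nat.le_succ k)
    · exfalso
      have h5 := h z
      have h6 : C * (1 + ‖X z‖) ^ k < 0 :=
        mul_neg_of_neg_of_pos (lt_of_not_ge hC') (by positivity)
      linarith [norm_nonneg (Y z)]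

variable {E : Type} [NormedAddCommGroup E] [NormedSpace ℝ E]

theorem IsCyl.aestronglyMeasurable {F : (unitInterval → V) → E} (hF : IsCyl F)
    (ν : Measure (unitInterval → V)) : AEStronglyMeasurable F ν := by
  obtain ⟨T, Φ, h1, h2⟩ := hF
  have h3 : F = fun x => Φ (rs T x) := funext h2
  rw [h3]
  exact h1.1.continuous.comp_aestronglyMeasurable (measurable_rs T).aestronglyMeasurable

/-- Cylindrical functionals have moments of all orders. -/
theorem IsWR.memLp_cyl {ν : Measure (unitInterval → V)} (hν : IsWR ν)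
    {F : (unitInterval → V) → E} (hF : IsCyl F) (p : ℝ≥0) : MemLp F p ν := by
  have := hν.prob
  have h0 := hF.aestronglyMeasurable ν
  obtain ⟨T, Φ, h1, h2⟩ := hF
  obtain ⟨k, C, h3⟩ := h1.2 0
  refine memLp_growth (hν.memLp_rs T) h0 k C (fun x => ?_) p
  have := h3 (rs T x)
  rw [norm_iteratedFDeriv_zero] at this
  rw [h2]
  exact this

theorem IsWR.integrable_cyl {ν : Measure (unitInterval → V)} (hν : IsWR ν)
    {F : (unitInterval → V) → E} (hF : IsCyl F) : Integrable F ν := by
  have := hν.memLp_cyl hF 1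
  exact memLp_one_iff_integrable.1 (by simpa using this)

/-! ### one dimensional integration by parts -/

theorem tg_integrable_gaussian {g : ℝ → E} (hg : g.HasTemperateGrowth) :
    Integrable g (ProbabilityTheory.gaussianReal 0 1) := by
  obtain ⟨k, C, h3⟩ := hg.2 0
  have h := memLp_growth (μ := ProbabilityTheory.gaussianReal 0 1) (X := id) (Y := g)
    (fun p => ProbabilityTheory.memLp_id_gaussianReal p)
    hg.1.continuous.aestronglyMeasurable k C (fun x => by
      have := h3 x
      rwa [norm_iteratedFDeriv_zero] at this) 1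
  exact memLp_one_iff_integrable.1 (by simpa using h)

theorem tg_integrable_pdf {g : ℝ → ℝ} (hg : g.HasTemperateGrowth) :
    Integrable (fun x => g x * ProbabilityTheory.gaussianPDFReal 0 1 x) := by
  have h := tg_integrable_gaussian hg
  rw [ProbabilityTheory.gaussianReal_of_var_ne_zero 0 one_ne_zero] at h
  rw [integrable_withDensity_iff (ProbabilityTheory.measurable_gaussianPDF 0 1)
    (Filter.Eventually.of_forall fun x => by simp [ProbabilityTheory.gaussianPDF])] at h
  refine h.congr (Filter.Eventually.of_forall fun x => ?_)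
  simp only [ProbabilityTheory.gaussianPDF]
  rw [ENNReal.toReal_ofReal (ProbabilityTheory.gaussianPDFReal_nonneg 0 1 x)]

theorem hasDerivAt_pdf (x : ℝ) : HasDerivAt (ProbabilityTheory.gaussianPDFReal 0 1)
    (-x * ProbabilityTheory.gaussianPDFReal 0 1 x) x := by
  have h1 : HasDerivAt (fun x : ℝ => -(x - 0) ^ 2 / (2 * (1 : ℝ≥0))) (-x) x := by
    have := (((hasDerivAt_id x).sub_const 0).pow 2).neg.div_const (2 * ((1 : ℝ≥0) : ℝ))
    refine this.congr_deriv ?_
    simp
    ring
  have h2 := (h1.exp).const_mul (√(2 * Real.pi * (1 : ℝ≥0)))⁻¹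
  refine h2.congr_deriv ?_
  simp only [ProbabilityTheory.gaussianPDFReal]
  ring

theorem gaussian_ibp {g : ℝ → ℝ} (hg : g.HasTemperateGrowth) :
    ∫ y, y * g y ∂(ProbabilityTheory.gaussianReal 0 1) =
      ∫ y, deriv g y ∂(ProbabilityTheory.gaussianReal 0 1) := by
  rw [ProbabilityTheory.integral_gaussianReal_eq_integral_smul one_ne_zero,
    ProbabilityTheory.integral_gaussianReal_eq_integral_smul one_ne_zero]
  have hid : (fun y : ℝ => y).HasTemperateGrowth :=
    (ContinuousLinearMap.id ℝ ℝ).hasTemperateGrowth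
  have h1 := integral_mul_deriv_eq_deriv_mul_of_integrable (u := g) (u' := deriv g)
    (v := ProbabilityTheory.gaussianPDFReal 0 1)
    (v' := fun x => -x * ProbabilityTheory.gaussianPDFReal 0 1 x)
    (fun x _ => (hg.1.differentiable (by simp)).differentiableAt.hasDerivAt)
    (fun x _ => hasDerivAt_pdf x) ?_ ?_ ?_
  · have h2 : ∀ y, ProbabilityTheory.gaussianPDFReal 0 1 y • (y * g y) =
        -(g y * (-y * ProbabilityTheory.gaussianPDFReal 0 1 y)) := by
      intro y; simp only [smul_eq_mul]; ring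
    simp only [h2]
    rw [integral_neg, h1, neg_neg]
    refine integral_congr_ae (Filter.Eventually.of_forall fun y => ?_)
    simp only [smul_eq_mul]; ring
  · have := tg_integrable_pdf ((hid.fun_neg).fun_mul hg)
    refine this.congr (Filter.Eventually.of_forall fun y => ?_)
    simp only [Pi.mul_apply]; ring
  · exact tg_integrable_pdf (tg_deriv hg)
  · exact tg_integrable_pdf hg

/-! ### integration by parts on the path space -/

theorem pair_resample {c : unitInterval →₀ V} (hc : Qf c = 1) (x : unitInterval → V) (y : ℝ) :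
    pair c (UdB.resample c (x, y)) = y := by
  simp only [UdB.resample]
  rw [pair_apply_add, pair_apply_smul, pair_kpath]
  change pair c x + (y - pair c x) * Qf c = y
  rw [hc]
  ring

theorem IsWR.integral_resample {ν : Measure (unitInterval → V)} (hν : IsWR ν)
    {c : unitInterval →₀ V} (hc : Qf c = 1) {F : (unitInterval → V) → E} (hF : IsCyl F) :
    ∫ x, F x ∂ν = ∫ x, ∫ y, F (UdB.resample c (x, y)) ∂(ProbabilityTheory.gaussianReal 0 1) ∂ν := by
  have := hν.prob
  have hmp := hν.resample hc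
  have h0 := hF.aestronglyMeasurable ν
  have h1 : ∫ x, F x ∂ν =
      ∫ z, F (UdB.resample c z) ∂(ν.prod (ProbabilityTheory.gaussianReal 0 1)) := by
    conv_lhs => rw [← hmp.map_eq]
    rw [integral_map hmp.measurable.aemeasurable (by rw [hmp.map_eq]; exact h0)]
  have h2 : Integrable (fun z => F (UdB.resample c z))
      (ν.prod (ProbabilityTheory.gaussianReal 0 1)) :=
    hmp.integrable_comp_of_integrable (hν.integrable_cyl hF)
  rw [h1, integral_prod _ h2]

/-- The functional along the line `y ↦ resample c (x, y)`. -/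
theorem resample_line {F : (unitInterval → V) → E} (hF : IsCyl F) (c : unitInterval →₀ V)
    (x : unitInterval → V) :
    (fun y : ℝ => F (UdB.resample c (x, y))).HasTemperateGrowth ∧
      ∀ y, HasDerivAt (fun y : ℝ => F (UdB.resample c (x, y)))
        (dirD (kpath c) F (UdB.resample c (x, y))) y := by
  obtain ⟨T, Φ, h1, h2⟩ := hF
  have hA : ∀ y : ℝ, rs T (UdB.resample c (x, y)) =
      (rs T x - pair c x • rs T (kpath c)) + y • rs T (kpath c) := by
    intro y
    simp only [UdB.resample]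
    rw [rs_add, rs_smul, sub_smul]
    abel
  have hg : (fun y : ℝ => F (UdB.resample c (x, y))) = fun y : ℝ =>
      Φ ((rs T x - pair c x • rs T (kpath c)) + y • rs T (kpath c)) := by
    funext y
    rw [← hA]
    exact h2 _
  constructor
  · rw [hg]
    have h3 : (fun y : ℝ => (rs T x - pair c x • rs T (kpath c)) +
        y • rs T (kpath c)).HasTemperateGrowth :=
      (Function.HasTemperateGrowth.const _).fun_add
        (ContinuousLinearMap.toSpanSingleton ℝ (rs T (kpath c))).hasTemperateGrowth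
    exact h1.comp h3
  · intro y
    rw [hg, dirD_eq h1 h2, hA]
    have h3 : HasDerivAt (fun y : ℝ => (rs T x - pair c x • rs T (kpath c)) +
        y • rs T (kpath c)) (rs T (kpath c)) y := by
      have := ((hasDerivAt_id y).smul_const (rs T (kpath c))).const_add
        (rs T x - pair c x • rs T (kpath c))
      simpa using this
    have h4 : HasFDerivAt Φ (fderiv ℝ Φ ((rs T x - pair c x • rs T (kpath c)) +
        y • rs T (kpath c))) ((rs T x - pair c x • rs T (kpath c)) + y • rs T (kpath c)) :=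
      (h1.1.differentiable (by simp)).differentiableAt.hasFDerivAt
    exact h4.comp_hasDerivAt y h3

/-- Gaussian integration by parts. -/
theorem IsWR.ibp {ν : Measure (unitInterval → V)} (hν : IsWR ν) {c : unitInterval →₀ V}
    (hc : Qf c = 1) {F : (unitInterval → V) → ℝ} (hF : IsCyl F) :
    ∫ x, pair c x * F x ∂ν = ∫ x, dirD (kpath c) F x ∂ν := by
  rw [hν.integral_resample hc ((IsCyl.pair c).mul hF), hν.integral_resample hc (hF.dirD (kpath c))]
  refine integral_congr_ae (Filter.Eventually.of_forall fun x => ?_)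
  simp only [pair_resample hc]
  obtain ⟨h1, h2⟩ := resample_line hF c x
  rw [gaussian_ibp h1]
  exact integral_congr_ae (Filter.Eventually.of_forall fun y => (h2 y).deriv)

section inner

variable {E : Type} [NormedAddCommGroup E] [InnerProductSpace ℝ E]

theorem IsCyl.normSq {F : (unitInterval → V) → E} (hF : IsCyl F) : IsCyl (fun x => ‖F x‖ ^ 2) :=
  hF.comp (Function.hasTemperateGrowth_norm_sq E)

theorem dirD_weight {c : unitInterval →₀ V} (hc : Qf c = 1) {F : (unitInterval → V) → E}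
    (hF : IsCyl F) (s : ℕ) (x : unitInterval → V) :
    dirD (kpath c) (fun x => pair c x ^ (2 * s + 1) * ‖F x‖ ^ 2) x =
      (2 * s + 1) * pair c x ^ (2 * s) * ‖F x‖ ^ 2 +
        pair c x ^ (2 * s + 1) * (2 * ⟪F x, dirD (kpath c) F x⟫_ℝ) := by
  have h1 : HasDerivAt (fun ε : ℝ => pair c (x + ε • kpath c)) 1 0 := by
    have h := (IsCyl.pair c).hasDerivAt (kpath c) x
    rw [dirD_pair, pair_kpath] at h
    exact h.congr_deriv hc
  have h2 := h1.pow (2 * s + 1)
  have h3 := (hF.hasDerivAt (kpath c) x).norm_sq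
  have h4 := (h2.mul h3).deriv
  have h5 : x + (0 : ℝ) • kpath c = x := by rw [zero_smul, add_zero]
  unfold UdB.dirD at h4 ⊢
  refine Eq.trans ?_ (h4.trans ?_)
  · rfl
  · simp only [h5, Pi.pow_apply, Nat.add_sub_cancel, mul_one]
    push_cast
    ring

theorem IsWR.weight_step {ν : Measure (unitInterval → V)} (hν : IsWR ν) {c : unitInterval →₀ V}
    (hc : Qf c = 1) {F : (unitInterval → V) → E} (hF : IsCyl F) (s : ℕ) :
    ∫ x, pair c x ^ (2 * (s + 1)) * ‖F x‖ ^ 2 ∂ν ≤
      2 * (2 * s + 1) * ∫ x, pair c x ^ (2 * s) * ‖F x‖ ^ 2 ∂ν +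
        4 * ∫ x, pair c x ^ (2 * s) * ‖dirD (kpath c) F x‖ ^ 2 ∂ν := by
  have hG : IsCyl (fun x => pair c x ^ (2 * s + 1) * ‖F x‖ ^ 2) :=
    ((IsCyl.pair c).pow _).mul hF.normSq
  have i1 := hν.integrable_cyl (((IsCyl.pair c).pow (2 * (s + 1))).mul hF.normSq)
  have i2 := hν.integrable_cyl (((IsCyl.pair c).pow (2 * s)).mul hF.normSq)
  have i3 := hν.integrable_cyl (((IsCyl.pair c).pow (2 * s)).mul (hF.dirD (kpath c)).normSq)
  have i13 : Integrable (fun x => (1 / 2) * (pair c x ^ (2 * (s + 1)) * ‖F x‖ ^ 2) +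
      2 * (pair c x ^ (2 * s) * ‖dirD (kpath c) F x‖ ^ 2)) ν :=
    (i1.const_mul _).add (i3.const_mul _)
  have h1 := hν.ibp hc hG
  have h2 : ∀ x, pair c x * (pair c x ^ (2 * s + 1) * ‖F x‖ ^ 2) =
      pair c x ^ (2 * (s + 1)) * ‖F x‖ ^ 2 := by
    intro x; ring
  simp only [h2] at h1
  have h3 : ∫ x, dirD (kpath c) (fun x => pair c x ^ (2 * s + 1) * ‖F x‖ ^ 2) x ∂ν ≤
      ∫ x, ((2 * s + 1) * (pair c x ^ (2 * s) * ‖F x‖ ^ 2) +
        ((1 / 2) * (pair c x ^ (2 * (s + 1)) * ‖F x‖ ^ 2) +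
          2 * (pair c x ^ (2 * s) * ‖dirD (kpath c) F x‖ ^ 2))) ∂ν := by
    refine integral_mono (hν.integrable_cyl (hG.dirD _))
      ((i2.const_mul _).add i13) fun x => ?_
    simp only
    rw [dirD_weight hc hF]
    have h4 : pair c x ^ (2 * s + 1) * ⟪F x, dirD (kpath c) F x⟫_ℝ ≤
        (|pair c x| ^ (s + 1) * ‖F x‖) * (|pair c x| ^ s * ‖dirD (kpath c) F x‖) := by
      calc pair c x ^ (2 * s + 1) * ⟪F x, dirD (kpath c) F x⟫_ℝ
          ≤ |pair c x ^ (2 * s + 1) * ⟪F x, dirD (kpath c) F x⟫_ℝ| := le_abs_self _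
        _ = |pair c x| ^ (2 * s + 1) * |⟪F x, dirD (kpath c) F x⟫_ℝ| := by
            rw [abs_mul, abs_pow]
        _ ≤ |pair c x| ^ (2 * s + 1) * (‖F x‖ * ‖dirD (kpath c) F x‖) :=
            mul_le_mul_of_nonneg_left (abs_real_inner_le_norm _ _) (by positivity)
        _ = _ := by ring
    have h5 : |pair c x| ^ (2 * (s + 1)) = pair c x ^ (2 * (s + 1)) :=
      (even_two_mul _).pow_abs _
    have h6 : |pair c x| ^ (2 * s) = pair c x ^ (2 * s) := (even_two_mul _).pow_abs _
    have h7 : 2 * ((|pair c x| ^ (s + 1) * ‖F x‖) * (|pair c x| ^ s * ‖dirD (kpath c) F x‖)) ≤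
        (1 / 2) * (pair c x ^ (2 * (s + 1)) * ‖F x‖ ^ 2) +
          2 * (pair c x ^ (2 * s) * ‖dirD (kpath c) F x‖ ^ 2) := by
      rw [← h5, ← h6]
      have e1 : |pair c x| ^ (2 * (s + 1)) * ‖F x‖ ^ 2 = (|pair c x| ^ (s + 1) * ‖F x‖) ^ 2 := by
        ring
      have e2 : |pair c x| ^ (2 * s) * ‖dirD (kpath c) F x‖ ^ 2 =
          (|pair c x| ^ s * ‖dirD (kpath c) F x‖) ^ 2 := by ring
      rw [e1, e2]
      nlinarith [sq_nonneg (|pair c x| ^ (s + 1) * ‖F x‖ -
        2 * (|pair c x| ^ s * ‖dirD (kpath c) F x‖))]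
    nlinarith [h4, h7]
  rw [integral_add (i2.const_mul _) i13,
    integral_add (i1.const_mul _) (i3.const_mul _), integral_const_mul, integral_const_mul,
    integral_const_mul] at h3
  linarith

/-- The weights `(pair c)^(2s)` can be traded against derivatives in the direction `kpath c`. -/
theorem IsWR.weight_le (s : ℕ) : ∃ C : ℝ≥0, ∀ (V : Type) [NormedAddCommGroup V]
    [InnerProductSpace ℝ V] [FiniteDimensional ℝ V] [MeasurableSpace V] [BorelSpace V]
    (E : Type) [NormedAddCommGroup E] [InnerProductSpace ℝ E]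
    {ν : Measure (unitInterval → V)}, IsWR ν → ∀ {c : unitInterval →₀ V}, Qf c = 1 →
    ∀ {F : (unitInterval → V) → E}, IsCyl F →
    ∫ x, pair c x ^ (2 * s) * ‖F x‖ ^ 2 ∂ν ≤
      C * ∑ k ∈ Finset.range (s + 1), ∫ x, ‖(dirD (kpath c))^[k] F x‖ ^ 2 ∂ν := by
  induction s with
  | zero =>
    refine ⟨1, fun V _ _ _ _ _ E _ _ ν hν c hc F hF => ?_⟩
    simp
  | succ s ih =>
    obtain ⟨C, hC⟩ := ih
    refine ⟨2 * (2 * s + 1) * C + 4 * C, fun V _ _ _ _ _ E _ _ ν hν c hc F hF => ?_⟩
    have h1 := hν.weight_step hc hF s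
    have h2 := hC V E hν hc hF
    have h3 := hC V E hν hc (hF.dirD (kpath c))
    set a : ℕ → ℝ := fun k => ∫ x, ‖(dirD (kpath c))^[k] F x‖ ^ 2 ∂ν with ha
    have ha0 : ∀ k, 0 ≤ a k := fun k => integral_nonneg fun x => by positivity
    have h4 : ∑ k ∈ Finset.range (s + 1), a k ≤ ∑ k ∈ Finset.range (s + 1 + 1), a k := by
      rw [Finset.sum_range_succ _ (s + 1)]
      linarith [ha0 (s + 1)]
    have h5 : ∑ k ∈ Finset.range (s + 1), a (k + 1) ≤ ∑ k ∈ Finset.range (s + 1 + 1), a k := by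
      rw [Finset.sum_range_succ' _ (s + 1)]
      linarith [ha0 0]
    have h6 : ∀ k, ∫ x, ‖(dirD (kpath c))^[k] (dirD (kpath c) F) x‖ ^ 2 ∂ν = a (k + 1) := by
      intro k
      simp only [ha, Function.iterate_succ_apply]
    simp only [h6] at h3
    refine h1.trans ?_
    have h7 : (C : ℝ) * ∑ k ∈ Finset.range (s + 1), a k ≤
        C * ∑ k ∈ Finset.range (s + 1 + 1), a k := mul_le_mul_of_nonneg_left h4 C.2
    have h8 : (C : ℝ) * ∑ k ∈ Finset.range (s + 1), a (k + 1) ≤
        C * ∑ k ∈ Finset.range (s + 1 + 1), a k := mul_le_mul_of_nonneg_left h5 C.2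
    have h9 : (0 : ℝ) ≤ 2 * (2 * s + 1) := by positivity
    push_cast
    nlinarith [mul_le_mul_of_nonneg_left (h2.trans h7) h9, h3.trans h8]

end inner

/-! ### comparison with the energy -/

theorem enorm_sq_eq {E : Type} [NormedAddCommGroup E] (y : E) :
    ‖y‖ₑ ^ 2 = ENNReal.ofReal (‖y‖ ^ 2) := by
  rw [ENNReal.ofReal_pow (norm_nonneg _), ofReal_norm]

/-- The operator norm is at most the Hilbert-Schmidt norm. -/
theorem op_sq_le {ι : Type} {K : Type} [NormedAddCommGroup K] [InnerProductSpace ℝ K]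
    (b : HilbertBasis ι ℝ K) (A : K →L[ℝ] E) (f : K) :
    ‖A f‖ₑ ^ 2 ≤ ‖f‖ₑ ^ 2 * ∑' j, ‖A (b j)‖ₑ ^ 2 := by
  have h1 : HasSum (fun i => b.repr f i • A (b i)) (A f) := by
    have := (b.hasSum_repr f).mapL A
    simpa only [map_smul] using this
  have h2 : Filter.Tendsto (fun J : Finset ι => ‖∑ i ∈ J, b.repr f i • A (b i)‖ₑ ^ 2) Filter.atTop
      (nhds (‖A f‖ₑ ^ 2)) := by
    have h3 : Filter.Tendsto (fun J : Finset ι => ∑ i ∈ J, b.repr f i • A (b i)) Filter.atTop
      (nhds (A f)) := h1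
    exact ENNReal.Tendsto.pow (h3.enorm)
  refine le_of_tendsto' h2 fun J => ?_
  have h4 : ‖∑ i ∈ J, b.repr f i • A (b i)‖ ^ 2 ≤ ‖f‖ ^ 2 * ∑ i ∈ J, ‖A (b i)‖ ^ 2 := by
    calc ‖∑ i ∈ J, b.repr f i • A (b i)‖ ^ 2 ≤ (∑ i ∈ J, |b.repr f i| * ‖A (b i)‖) ^ 2 := by
          refine pow_le_pow_left₀ (norm_nonneg _) ((norm_sum_le _ _).trans (le_of_eq ?_)) 2
          refine Finset.sum_congr rfl fun i _ => ?_
          rw [norm_smul, Real.norm_eq_abs]
      _ ≤ (∑ i ∈ J, |b.repr f i| ^ 2) * ∑ i ∈ J, ‖A (b i)‖ ^ 2 :=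
          Finset.sum_mul_sq_le_sq_mul_sq _ _ _
      _ ≤ _ := by
          refine mul_le_mul_of_nonneg_right ?_ (Finset.sum_nonneg fun i _ => by positivity)
          have h5 := b.orthonormal.sum_inner_products_le (x := f) (s := J)
          refine (Finset.sum_congr rfl fun i _ => ?_).trans_le h5
          rw [b.repr_apply_apply, Real.norm_eq_abs]
  rw [enorm_sq_eq, enorm_sq_eq]
  refine (ENNReal.ofReal_le_ofReal h4).trans ?_
  rw [ENNReal.ofReal_mul (by positivity)]
  refine mul_le_mul_right ?_ _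
  rw [ENNReal.ofReal_sum_of_nonneg fun i _ => by positivity]
  refine le_trans (Finset.sum_le_sum fun i _ => (enorm_sq_eq (A (b i))).ge) ?_
  exact ENNReal.sum_le_tsum J

theorem primitive_add (f g : H V) (t : unitInterval) :
    primitive (f + g) t = primitive f t + primitive g t := by
  unfold primitive
  have hf : Integrable f (volume.restrict (Set.Iic t)) :=
    ((Lp.memLp f).integrable (by norm_num)).integrableOn
  have hg : Integrable g (volume.restrict (Set.Iic t)) :=
    ((Lp.memLp g).integrable (by norm_num)).integrableOn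
  rw [← integral_add hf hg]
  exact integral_congr_ae (ae_restrict_of_ae (Lp.coeFn_add f g))

theorem primitive_smul (a : ℝ) (f : H V) (t : unitInterval) :
    primitive (a • f) t = a • primitive f t := by
  unfold primitive
  rw [← integral_smul]
  exact integral_congr_ae (ae_restrict_of_ae (Lp.coeFn_smul a f))

theorem norm_primitive_le (f : H V) (t : unitInterval) : ‖primitive f t‖ ≤ ‖f‖ := by
  unfold primitive
  have hf := (Lp.memLp f)
  have h1 : Integrable f volume := hf.integrable (by norm_num)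
  calc ‖∫ s in Set.Iic t, f s‖ ≤ ∫ s in Set.Iic t, ‖f s‖ := norm_integral_le_integral_norm _
    _ ≤ ∫ s, ‖f s‖ := setIntegral_le_integral h1.norm
        (Filter.Eventually.of_forall fun _ => norm_nonneg _)
    _ = (eLpNorm f 1 volume).toReal := by
        rw [integral_norm_eq_lintegral_enorm h1.aestronglyMeasurable, eLpNorm_one_eq_lintegral_enorm]
    _ ≤ (eLpNorm f 2 volume).toReal :=
        ENNReal.toReal_mono (Lp.eLpNorm_ne_top f)
          (eLpNorm_le_eLpNorm_of_exponent_le (by norm_num) h1.aestronglyMeasurable)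
    _ = ‖f‖ := (Lp.norm_def f).symm

/-- `f ↦ (∫₀ᵗ f)_{t ∈ T}` as a continuous linear map. -/
noncomputable def primT (T : Finset unitInterval) : H V →L[ℝ] (T → V) :=
  LinearMap.mkContinuous
    { toFun := fun f => rs T (primitive f)
      map_add' := fun f g => by ext t; exact primitive_add f g t
      map_smul' := fun a f => by ext t; exact primitive_smul a f t } 1 fun f => by
    rw [one_mul]
    exact (pi_norm_le_iff_of_nonneg (norm_nonneg _)).2 fun t => norm_primitive_le f t

theorem primT_apply (T : Finset unitInterval) (f : H V) : primT T f = rs T (primitive f) := rfl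

theorem dirD_sq_le {ι : Type} (b : HilbertBasis ι ℝ (H V)) (f : H V)
    {F : (unitInterval → V) → E} (hF : IsCyl F) (x : unitInterval → V) :
    ‖dirD (primitive f) F x‖ₑ ^ 2 ≤ ‖f‖ₑ ^ 2 * ∑' j, ‖dirD (primitive (b j)) F x‖ₑ ^ 2 := by
  obtain ⟨T, Φ, h1, h2⟩ := hF
  have h3 : ∀ g : H V, dirD (primitive g) F x = ((fderiv ℝ Φ (rs T x)).comp (primT T)) g := by
    intro g
    rw [dirD_eq h1 h2]
    rfl
  simp only [h3]
  exact op_sq_le b _ f

theorem dirD_comm {F : (unitInterval → V) → E} (hF : IsCyl F) (v w : unitInterval → V) :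
    dirD v (dirD w F) = dirD w (dirD v F) := by
  obtain ⟨T, Φ, h1, h2⟩ := hF
  ext x
  have h3 : ∀ u : unitInterval → V, ∀ x, dirD u F x = (fun y => fderiv ℝ Φ y (rs T u)) (rs T x) :=
    fun u x => dirD_eq h1 h2 u x
  rw [dirD_eq (tg_fderiv_apply h1 _) (h3 w), dirD_eq (tg_fderiv_apply h1 _) (h3 v)]
  have h4 : DifferentiableAt ℝ (fderiv ℝ Φ) (rs T x) :=
    ((tg_fderiv h1).1.differentiable (by simp)).differentiableAt
  have h5 : ∀ u : T → V, fderiv ℝ (fun y => fderiv ℝ Φ y u) (rs T x) =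
      (fderiv ℝ (fderiv ℝ Φ) (rs T x)).flip u := by
    intro u
    rw [fderiv_clm_apply h4 (differentiableAt_const u)]
    simp
  rw [h5, h5]
  simp only [ContinuousLinearMap.flip_apply]
  exact (h1.1.contDiffAt.isSymmSndFDerivAt (by
    simpa using ENat.LEInfty.out)).eq _ _

theorem IsCyl.iterate {F : (unitInterval → V) → E} (hF : IsCyl F) (v : unitInterval → V) (k : ℕ) :
    IsCyl ((UdB.dirD v)^[k] F) := by
  induction k with
  | zero => exact hF
  | succ k ih => rw [Function.iterate_succ_apply']; exact ih.dirD v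

theorem dirD_iterate_comm {F : (unitInterval → V) → E} (hF : IsCyl F) (v w : unitInterval → V)
    (k : ℕ) : dirD w ((dirD v)^[k] F) = (dirD v)^[k] (dirD w F) := by
  induction k with
  | zero => rfl
  | succ k ih =>
    rw [Function.iterate_succ_apply', Function.iterate_succ_apply', dirD_comm (hF.iterate v k), ih]

/-- Iterated derivatives in one direction are bounded by the energy. -/
theorem norm_iterate_le_energy {ι : Type} (b : HilbertBasis ι ℝ (H V)) (f : H V) (k : ℕ) :
    ∀ {F : (unitInterval → V) → E}, IsCyl F → ∀ x,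
    ‖(dirD (primitive f))^[k] F x‖ₑ ^ 2 ≤
      ‖f‖ₑ ^ (2 * k) * energy k (fun l => iterD b l F x) := by
  induction k with
  | zero =>
    intro F hF x
    simp [energy, iterD_nil]
  | succ k ih =>
    intro F hF x
    rw [Function.iterate_succ_apply']
    refine (dirD_sq_le b f (hF.iterate _ k) x).trans ?_
    have h1 : ∀ j, ‖dirD (primitive (b j)) ((dirD (primitive f))^[k] F) x‖ₑ ^ 2 ≤
        ‖f‖ₑ ^ (2 * k) * energy k (fun l => iterD b (j :: l) F x) := by
      intro j
      rw [dirD_iterate_comm hF]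
      exact ih (hF.dirD _) x
    refine (mul_le_mul_right (ENNReal.tsum_le_tsum h1) _).trans ?_
    rw [ENNReal.tsum_mul_left]
    simp only [energy]
    rw [← mul_assoc, ← pow_add]
    refine le_of_eq ?_
    congr 2
    ring

theorem kpath_eq_primitive (c : unitInterval →₀ V) :
    kpath c = primitive ((memLp_theta c 2).toLp (theta c)) := by
  funext t
  unfold kpath primitive
  exact integral_congr_ae (ae_restrict_of_ae (MemLp.coeFn_toLp (memLp_theta c 2)).symm)

theorem norm_toLp_theta (c : unitInterval →₀ V) :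
    ‖(memLp_theta c 2).toLp (theta c)‖ ^ 2 = Qf c := by
  rw [← real_inner_self_eq_norm_sq, L2.inner_def]
  unfold Qf Bf
  refine integral_congr_ae ?_
  filter_upwards [MemLp.coeFn_toLp (memLp_theta c 2)] with s hs
  rw [hs]

/-- **Integration by parts, in terms of energies.** -/
theorem IsWR.ibp_energy (s : ℕ) : ∃ C : ℝ≥0, ∀ (V : Type) [NormedAddCommGroup V]
    [InnerProductSpace ℝ V] [FiniteDimensional ℝ V] [MeasurableSpace V] [BorelSpace V]
    (E : Type) [NormedAddCommGroup E] [InnerProductSpace ℝ E] (ι : Type)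
    (b : HilbertBasis ι ℝ (H V)) {ν : Measure (unitInterval → V)}, IsWR ν →
    ∀ {c : unitInterval →₀ V}, Qf c = 1 → ∀ {F : (unitInterval → V) → E}, IsCyl F →
    ∫⁻ x, ‖pair c x‖ₑ ^ (2 * s) * ‖F x‖ₑ ^ 2 ∂ν ≤
      C * ∑ k ∈ Finset.range (s + 1), ∫⁻ x, energy k (fun l => iterD b l F x) ∂ν := by
  obtain ⟨C, hC⟩ := IsWR.weight_le s
  refine ⟨C, fun V _ _ _ _ _ E _ _ ι b ν hν c hc F hF => ?_⟩
  have h1 := hC V E hν hc hF
  have i1 := hν.integrable_cyl (((IsCyl.pair c).pow (2 * s)).mul hF.normSq)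
  have h2 : ∀ x, ‖pair c x‖ₑ ^ (2 * s) * ‖F x‖ₑ ^ 2 =
      ENNReal.ofReal (pair c x ^ (2 * s) * ‖F x‖ ^ 2) := by
    intro x
    rw [ENNReal.ofReal_mul ((even_two_mul _).pow_nonneg _), ← enorm_sq_eq,
      ← (even_two_mul s).pow_abs, ENNReal.ofReal_pow (abs_nonneg _), Real.enorm_eq_ofReal_abs]
  simp only [h2]
  rw [← ofReal_integral_eq_lintegral_ofReal i1 (Filter.Eventually.of_forall fun x =>
    mul_nonneg ((even_two_mul _).pow_nonneg _) (by positivity))]
  refine (ENNReal.ofReal_le_ofReal h1).trans ?_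
  rw [ENNReal.ofReal_mul (NNReal.coe_nonneg C), ENNReal.ofReal_coe_nnreal]
  refine mul_le_mul_right ?_ _
  rw [ENNReal.ofReal_sum_of_nonneg fun k _ => integral_nonneg fun x => by positivity]
  refine Finset.sum_le_sum fun k _ => ?_
  have i2 := hν.integrable_cyl (hF.iterate (kpath c) k).normSq
  rw [ofReal_integral_eq_lintegral_ofReal i2 (Filter.Eventually.of_forall fun x => by positivity)]
  refine lintegral_mono fun x => ?_
  rw [← enorm_sq_eq]
  have h3 : ‖(memLp_theta c 2).toLp (theta c)‖ₑ = 1 := by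
    have h4 := norm_toLp_theta c
    rw [hc] at h4
    have h5 : ‖(memLp_theta c 2).toLp (theta c)‖ = 1 := by
      nlinarith [norm_nonneg ((memLp_theta c 2).toLp (theta c))]
    rw [← ofReal_norm, h5, ENNReal.ofReal_one]
  have h6 := norm_iterate_le_energy b ((memLp_theta c 2).toLp (theta c)) k hF x
  rw [h3, one_pow, one_mul, ← kpath_eq_primitive] at h6
  exact h6

end Pool.Agent.Lib.UdB
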