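import Pool.Agent.Lib.UdB.Moments

/-!
# The pathwise integral is the Ito integral
-/

set_option autoImplicit false
set_option linter.unusedSectionVars false

open MeasureTheory Set Filter
open scoped ENNReal Topology InnerProductSpace

namespace Pool.Agent.Lib.UdB

/-- The subdivision `0, u, u + (1-u)/(m+1), …, 1, 1, …`. -/
noncomputable def gridR (u : ℝ) (m : ℕ) : ℕ → ℝ
  | 0 => 0
  | k + 1 => u + (min k (m + 1) : ℕ) * ((1 - u) / (m + 1 : ℕ))

theorem gridR_one (u : ℝ) (m : ℕ) : gridR u m 1 = u := by simp [gridR]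

theorem gridR_last (u : ℝ) (m : ℕ) : gridR u m (m + 2) = 1 := by
  have h : ((m + 1 : ℕ) : ℝ) ≠ 0 := by positivity
  simp only [gridR, min_self]
  field_simp
  ring

theorem gridR_mono {u : ℝ} (hu : 0 < u ∧ u ≤ 1) (m : ℕ) : Monotone (gridR u m) := by
  refine monotone_nat_of_le_succ fun k => ?_
  have h2 : 0 ≤ (1 - u) / (m + 1 : ℕ) := div_nonneg (by linarith [hu.2]) (by positivity)
  rcases k with _ | k
  · simp only [gridR]
    have : (0 : ℝ) ≤ (min 0 (m + 1) : ℕ) := by positivity
    nlinarith [hu.1]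
  · simp only [gridR]
    have h3 : ((min k (m + 1) : ℕ) : ℝ) ≤ (min (k + 1) (m + 1) : ℕ) := by
      exact_mod_cast min_le_min_right _ (Nat.le_succ k)
    nlinarith

theorem gridR_mem {u : ℝ} (hu : 0 < u ∧ u ≤ 1) (m k : ℕ) : gridR u m k ∈ Set.Icc (0 : ℝ) 1 := by
  have h1 := gridR_mono hu m (Nat.zero_le k)
  refine ⟨h1, ?_⟩
  rcases le_total k (m + 2) with h | h
  · exact (gridR_mono hu m h).trans (gridR_last u m).le
  · have h2 : 1 ≤ k := by omega
    obtain ⟨j, rfl⟩ : ∃ j, k = j + 1 := ⟨k - 1, by omega⟩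
    have h3 : min j (m + 1) = m + 1 := min_eq_right (by omega)
    have h4 : min (m + 1) (m + 1) = m + 1 := min_self _
    have h5 := gridR_last u m
    simp only [gridR, h4] at h5
    simp only [gridR, h3]
    exact h5.le

theorem gridR_pos {u : ℝ} (hu : 0 < u ∧ u ≤ 1) (m k : ℕ) : u ≤ gridR u m (k + 1) := by
  have h1 := gridR_mono hu m (show 1 ≤ k + 1 by omega)
  rwa [gridR_one] at h1

theorem gridR_diff {u : ℝ} (hu : 0 < u ∧ u ≤ 1) (m k : ℕ) :
    gridR u m (k + 2) - gridR u m (k + 1) ≤ 1 / (m + 1 : ℕ) := by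
  have hm : (0 : ℝ) < (m + 1 : ℕ) := by positivity
  have h2 : 0 ≤ (1 - u) / (m + 1 : ℕ) := div_nonneg (by linarith [hu.2]) (by positivity)
  have h3 : (1 - u) / (m + 1 : ℕ) ≤ 1 / (m + 1 : ℕ) := by
    gcongr; linarith [hu.1]
  have h4 : ((min (k + 1) (m + 1) : ℕ) : ℝ) ≤ (min k (m + 1) : ℕ) + 1 := by
    have : min (k + 1) (m + 1) ≤ min k (m + 1) + 1 := by omega
    exact_mod_cast this
  simp only [gridR]
  nlinarith

/-- The subdivision, in `[0,1]`. -/
noncomputable def grid {u : ℝ} (hu : 0 < u ∧ u ≤ 1) (m k : ℕ) : unitInterval :=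
  ⟨gridR u m k, gridR_mem hu m k⟩

theorem grid_mono {u : ℝ} (hu : 0 < u ∧ u ≤ 1) (m : ℕ) : Monotone (grid hu m) :=
  fun _ _ h => gridR_mono hu m h

/-- Multiplication by a complex number. -/
noncomputable def mulL (a : ℂ) : ℂ →L[ℝ] ℂ := ContinuousLinearMap.mul ℝ ℂ a

@[simp]
theorem mulL_apply (a z : ℂ) : mulL a z = a * z := rfl

theorem norm_mulL_le (a : ℂ) : ‖mulL a‖ ≤ ‖a‖ :=
  ContinuousLinearMap.opNorm_le_bound _ (norm_nonneg _) fun z => by simp

theorem mulL_sub (a b : ℂ) : mulL a - mulL b = mulL (a - b) := by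
  ext z; simp [sub_mul]

/-- Stopping a raw path. -/
def stop {V : Type} (u : unitInterval) (x : unitInterval → V) : unitInterval → V :=
  fun t => x (min t u)

theorem measurable_past {V : Type} [TopologicalSpace V] [MeasurableSpace V]
    {u s : unitInterval} (h : s ≤ u) : Measurable[past V u] fun ω : Path V => ω s := by
  have h1 : MeasurableSpace.comap (fun ω : Path V => ω s) inferInstance ≤ past V u :=
    le_iSup (fun s : Set.Iic u => MeasurableSpace.comap (fun ω : Path V => ω s) inferInstance) ⟨s, h⟩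
  exact (measurable_iff_comap_le.2 h1)

theorem DepTo.measurable_past {E : Type} [MeasurableSpace E] {u : unitInterval}
    {f : (unitInterval → ℂ) → E} (hf : DepTo u f) (hm : Measurable f) :
    Measurable[past ℂ u] fun ω : Path ℂ => f ω.toFun := by
  have h1 : (fun ω : Path ℂ => f ω.toFun) = f ∘ fun ω : Path ℂ => stop u ω.toFun := by
    funext ω
    refine hf _ _ fun s hs => ?_
    simp [stop, min_eq_left hs]
  rw [h1]
  refine hm.comp ?_
  refine @measurable_pi_lambda _ _ _ (past ℂ u) _ _ fun t => ?_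
  exact UdB.measurable_past (min_le_right t u)

namespace AProc

variable (A : AProc)

/-- Values on the subdivision. -/
noncomputable def vals {u : ℝ} (hu : 0 < u ∧ u ≤ 1) (m : ℕ) : ℕ → (unitInterval → ℂ) → ℂ
  | 0, _ => 1
  | k + 1, x => A.F (grid hu m (k + 1)) x

theorem norm_vals {u : ℝ} (hu : 0 < u ∧ u ≤ 1) (m k : ℕ) (x : unitInterval → ℂ) :
    ‖A.vals hu m k x‖ = 1 := by
  rcases k with _ | k
  · simp [vals]
  · exact A.norm_F _ _

theorem measurable_F (r : ℝ) : Measurable (A.F r) :=
  A.measF.comp (measurable_const.prodMk measurable_id)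

theorem measurable_vals {u : ℝ} (hu : 0 < u ∧ u ≤ 1) (m k : ℕ) : Measurable (A.vals hu m k) := by
  rcases k with _ | k
  · exact measurable_const
  · exact A.measurable_F _

theorem dep_vals {u : ℝ} (hu : 0 < u ∧ u ≤ 1) (m k : ℕ) :
    DepTo (grid hu m k) (A.vals hu m k) := by
  rcases k with _ | k
  · intro x y _; rfl
  · exact A.dep _

/-- The simple process approximating `F`. -/
noncomputable def simple {u : ℝ} (hu : 0 < u ∧ u ≤ 1) (m : ℕ) : Simple ℂ where
  n := m + 2
  τ := grid hu m
  mono := grid_mono hu m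
  ξ k ω := mulL (A.vals hu m k ω.toFun)
  meas k v := by
    have h := (A.dep_vals hu m k).measurable_past (A.measurable_vals hu m k)
    simp only [mulL_apply]
    exact h.mul_const v
  bdd := ⟨1, fun k ω => (norm_mulL_le _).trans (A.norm_vals hu m k _).le⟩

theorem continuousOn_F (x : unitInterval → ℂ) :
    ContinuousOn (fun r => A.F r x) (Set.Ioi 0) := fun r hr =>
  (A.hasDeriv x r hr).continuousAt.continuousWithinAt

/-- Fundamental theorem of calculus. -/
theorem integral_F' (x : unitInterval → ℂ) {a b : ℝ} (ha : 0 < a) (hab : a ≤ b) :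
    ∫ r in a..b, A.F' r x = A.F b x - A.F a x := by
  refine intervalIntegral.integral_eq_sub_of_hasDerivAt (f := fun r => A.F r x) ?_ ?_
  · intro r hr
    rw [uIcc_of_le hab] at hr
    exact A.hasDeriv x r (ha.trans_le hr.1)
  · refine ContinuousOn.intervalIntegrable ?_
    rw [uIcc_of_le hab]
    exact (A.cont x).mono fun r hr => ha.trans_le hr.1

theorem intervalIntegrable_mul (ω : Path ℂ) {a b : ℝ} (ha : 0 < a) (hab : a ≤ b) :
    IntervalIntegrable (fun r => ext ω r * A.F' r ω.toFun) volume a b := by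
  refine ContinuousOn.intervalIntegrable ?_
  rw [uIcc_of_le hab]
  exact (continuous_ext ω).continuousOn.mul ((A.cont _).mono fun r hr => ha.trans_le hr.1)

theorem intervalIntegrable_mul_sub (ω : Path ℂ) (z : ℂ) {a b : ℝ} (ha : 0 < a) (hab : a ≤ b) :
    IntervalIntegrable (fun r => (ext ω r - z) * A.F' r ω.toFun) volume a b := by
  refine ContinuousOn.intervalIntegrable ?_
  rw [uIcc_of_le hab]
  exact ((continuous_ext ω).continuousOn.sub continuousOn_const).mul
    ((A.cont _).mono fun r hr => ha.trans_le hr.1)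

/-- The error on one cell. -/
noncomputable def cellErr (ω : Path ℂ) (a b : ℝ) : ℂ :=
  ∫ r in a..b, (ext ω r - ext ω b) * A.F' r ω.toFun

/-- Summation by parts on one cell. -/
theorem cell_eq (ω : Path ℂ) {g g' t : ℝ} (hg : 0 < g) (hgg : g ≤ g') (_ht : 0 < t) :
    A.F g ω.toFun * (ext ω (min g' t) - ext ω (min g t)) =
      (A.F (min g' t) ω.toFun * ext ω (min g' t) - A.F (min g t) ω.toFun * ext ω (min g t)) -
      (∫ r in (min g t)..(min g' t), ext ω r * A.F' r ω.toFun) +
      A.cellErr ω (min g t) (min g' t) := by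
  rcases le_total t g with h | h
  · have h1 : min g t = t := min_eq_right h
    have h2 : min g' t = t := min_eq_right (h.trans hgg)
    simp [h1, h2, cellErr]
  · have h1 : min g t = g := min_eq_left h
    rw [h1]
    have hb : g ≤ min g' t := le_min hgg h
    set b := min g' t
    have h3 : A.cellErr ω g b = (∫ r in g..b, ext ω r * A.F' r ω.toFun) -
        ext ω b * (A.F b ω.toFun - A.F g ω.toFun) := by
      unfold cellErr
      rw [← A.integral_F' ω.toFun hg hb, ← intervalIntegral.integral_const_mul,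
        ← intervalIntegral.integral_sub (A.intervalIntegrable_mul ω hg hb)]
      · refine intervalIntegral.integral_congr fun r _ => ?_
        ring
      · refine ContinuousOn.intervalIntegrable ?_
        rw [uIcc_of_le hb]
        exact continuousOn_const.mul ((A.cont _).mono fun r hr => hg.trans_le hr.1)
    rw [h3]
    ring

theorem intervalIntegrable_zero {ω : Path ℂ} (hω : A.good ω) {a b : ℝ} (ha : 0 ≤ a)
    (hb : 0 ≤ b) (ha1 : a ≤ 1) (hb1 : b ≤ 1) :
    IntervalIntegrable (fun r => ext ω r * A.F' r ω.toFun) volume a b := by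
  have h := A.integrableOn ω hω
  rw [intervalIntegrable_iff]
  refine h.mono_set ?_
  intro r hr
  rw [uIoc, mem_Ioc] at hr
  exact ⟨(le_min ha hb).trans_lt hr.1, hr.2.trans (max_le ha1 hb1)⟩

/-- The integral of the simple process. -/
theorem simple_integral {u : ℝ} (hu : 0 < u ∧ u ≤ 1) (m : ℕ) {ω : Path ℂ} (hω : A.good ω)
    (h1 : A.F u ω.toFun = 1) (t : unitInterval) (ht : u ≤ t) :
    (A.simple hu m).integral t ω = A.flowFun ω t +
      (∫ r in (0 : ℝ)..u, ext ω r * A.F' r ω.toFun) +
      ∑ k ∈ Finset.range (m + 1),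
        A.cellErr ω (min (gridR u m (k + 1)) t) (min (gridR u m (k + 2)) t) := by
  have ht0 : (0 : ℝ) < t := hu.1.trans_le ht
  unfold Simple.integral
  change ∑ k ∈ Finset.range (m + 2), mulL (A.vals hu m k ω.toFun)
    (ω (min (grid hu m (k + 1)) t) - ω (min (grid hu m k) t)) = _
  rw [Finset.sum_range_succ']
  have hterm : ∀ k : ℕ, mulL (A.vals hu m (k + 1) ω.toFun)
      (ω (min (grid hu m (k + 1 + 1)) t) - ω (min (grid hu m (k + 1)) t)) =
      ((A.F (min (gridR u m (k + 1 + 1)) t) ω.toFun * ext ω (min (gridR u m (k + 1 + 1)) t) -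
        A.F (min (gridR u m (k + 1)) t) ω.toFun * ext ω (min (gridR u m (k + 1)) t)) -
      (∫ r in (min (gridR u m (k + 1)) t)..(min (gridR u m (k + 1 + 1)) t),
        ext ω r * A.F' r ω.toFun)) +
      A.cellErr ω (min (gridR u m (k + 1)) t) (min (gridR u m (k + 2)) t) := by
    intro k
    have h2 := A.cell_eq ω (g := gridR u m (k + 1)) (g' := gridR u m (k + 2)) (t := t)
      (hu.1.trans_le (gridR_pos hu m k)) (gridR_mono hu m (by omega)) ht0
    rw [← h2, mulL_apply, ← ext_coe ω (min (grid hu m (k + 1 + 1)) t),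
      ← ext_coe ω (min (grid hu m (k + 1)) t)]
    rfl
  simp only [hterm]
  rw [Finset.sum_add_distrib, Finset.sum_sub_distrib,
    Finset.sum_range_sub (fun k => A.F (min (gridR u m (k + 1)) t) ω.toFun *
      ext ω (min (gridR u m (k + 1)) t))]
  have hadj : ∑ k ∈ Finset.range (m + 1),
      (∫ r in (min (gridR u m (k + 1)) (t : ℝ))..(min (gridR u m (k + 1 + 1)) (t : ℝ)),
        ext ω r * A.F' r ω.toFun) =
      ∫ r in (min (gridR u m (0 + 1)) (t : ℝ))..(min (gridR u m (m + 1 + 1)) (t : ℝ)),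
        ext ω r * A.F' r ω.toFun := by
    refine intervalIntegral.sum_integral_adjacent_intervals
      (a := fun k => min (gridR u m (k + 1)) (t : ℝ)) fun k _ => ?_
    refine A.intervalIntegrable_mul ω ?_ ?_
    · exact lt_min (hu.1.trans_le (gridR_pos hu m k)) ht0
    · exact min_le_min_right _ (gridR_mono hu m (by omega))
  rw [hadj]
  have e1 : gridR u m (m + 1 + 1) = 1 := gridR_last u m
  have e2 : gridR u m (0 + 1) = u := gridR_one u m
  have e3 : min (1 : ℝ) (t : ℝ) = t := min_eq_right t.2.2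
  have e4 : min u (t : ℝ) = u := min_eq_left ht
  rw [e1, e2, e3, e4]
  have e5 : mulL (A.vals hu m 0 ω.toFun) (ω (min (grid hu m (0 + 1)) t) -
      ω (min (grid hu m 0) t)) = ext ω u := by
    have e6 : ω (min (grid hu m (0 + 1)) t) = ext ω u := by
      rw [← ext_coe ω (min (grid hu m (0 + 1)) t)]
      congr 1
      change min (gridR u m (0 + 1)) (t : ℝ) = u
      rw [e2, e4]
    have e7 : min (grid hu m 0) t = 0 := by
      have : grid hu m 0 = 0 := by
        apply Subtype.ext; rfl
      rw [this]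
      exact min_eq_left t.2.1
    rw [e6, e7, hω.1, mulL_apply]
    simp [vals]
  rw [e5, h1]
  unfold flowFun
  rw [← intervalIntegral.integral_add_adjacent_intervals
    (A.intervalIntegrable_zero hω le_rfl hu.1.le zero_le_one hu.2)
    (A.intervalIntegrable_zero hω hu.1.le t.2.1 hu.2 t.2.2)]
  ring

end AProc

end Pool.Agent.Lib.UdB
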