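import Pool.Agent.Lib.UdB.Ito

/-!
# The pathwise integral is the Ito integral: estimates
-/

set_option autoImplicit false
set_option linter.unusedSectionVars false

open MeasureTheory Set Filter
open scoped ENNReal Topology InnerProductSpace

namespace Pool.Agent.Lib.UdB

theorem ennreal_add_sq_le (a b : ℝ≥0∞) : (a + b) ^ 2 ≤ 2 * (a ^ 2 + b ^ 2) := by
  have h := ENNReal.rpow_add_le_mul_rpow_add_rpow a b (p := 2) (by norm_num)
  norm_num at h
  exact_mod_cast h

theorem enorm_add_sq_le_c {E : Type} [NormedAddCommGroup E] (a b : E) :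
    ‖a + b‖ₑ ^ 2 ≤ 2 * (‖a‖ₑ ^ 2 + ‖b‖ₑ ^ 2) :=
  (pow_le_pow_left' (enorm_add_le a b) 2).trans (ennreal_add_sq_le _ _)

theorem ennreal_sum_sq_le {ι : Type} (s : Finset ι) (f : ι → ℝ≥0∞) :
    (∑ i ∈ s, f i) ^ 2 ≤ s.card * ∑ i ∈ s, f i ^ 2 := by
  have h := ENNReal.rpow_sum_le_const_mul_sum_rpow s f (p := 2) (by norm_num)
  norm_num at h
  exact_mod_cast h

theorem enorm_sum_sq_le {ι E : Type} [NormedAddCommGroup E] (s : Finset ι) (f : ι → E) :
    ‖∑ i ∈ s, f i‖ₑ ^ 2 ≤ s.card * ∑ i ∈ s, ‖f i‖ₑ ^ 2 :=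
  (pow_le_pow_left' (enorm_sum_le s f) 2).trans (ennreal_sum_sq_le s _)

theorem measurable_ext_path (r : ℝ) : Measurable fun ω : Path ℂ => ext ω r :=
  measurable_ext.comp (measurable_const.prodMk measurable_id)

namespace AProc

variable (A : AProc)

/-- The error on one cell is small in `L²`. -/
theorem lintegral_cellErr {P : Measure (Path ℂ)} (hP : IsWiener P) {u C a b δ : ℝ}
    (hu : 0 < u) (hC : ∀ r, u ≤ r → A.h r ≤ C) (ha : u ≤ a) (hab : a ≤ b) (hb : b ≤ 1)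
    (hδ : b - a ≤ δ) :
    ∫⁻ ω, ‖A.cellErr ω a b‖ₑ ^ 2 ∂P ≤ ENNReal.ofReal (2 * C ^ 2 * δ ^ 3) := by
  have := hP.1
  have hC0 : 0 ≤ C := (A.h_nonneg hu).trans (hC u le_rfl)
  have hδ0 : 0 ≤ δ := by linarith
  have hme : Measurable fun p : Path ℂ × ℝ => ext p.1 p.2 := measurable_ext.comp measurable_swap
  have h1 : ∀ ω : Path ℂ, ‖A.cellErr ω a b‖ₑ ^ 2 ≤
      ENNReal.ofReal (δ * C ^ 2) * ∫⁻ r in Set.Ioc a b, ‖ext ω r - ext ω b‖ₑ ^ 2 := by
    intro ω
    have hme' : Measurable fun r => ext ω r := (continuous_ext ω).measurable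
    have h2 : ‖A.cellErr ω a b‖ₑ ≤
        ENNReal.ofReal C * ∫⁻ r in Set.Ioc a b, ‖ext ω r - ext ω b‖ₑ := by
      unfold cellErr
      rw [intervalIntegral.integral_of_le hab]
      refine (enorm_integral_le_lintegral_enorm _).trans ?_
      rw [← lintegral_const_mul _ (by fun_prop)]
      refine setLIntegral_mono' measurableSet_Ioc fun r hr => ?_
      rw [enorm_mul, mul_comm]
      gcongr
      rw [← ofReal_norm]
      exact ENNReal.ofReal_le_ofReal ((A.bound _ r (hu.trans_le (ha.trans hr.1.le))).trans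
        (hC r (ha.trans hr.1.le)))
    refine (pow_le_pow_left' h2 2).trans ?_
    rw [mul_pow]
    have h3 : (∫⁻ r in Set.Ioc a b, ‖ext ω r - ext ω b‖ₑ) ^ 2 ≤
        ENNReal.ofReal δ * ∫⁻ r in Set.Ioc a b, ‖ext ω r - ext ω b‖ₑ ^ 2 := by
      refine (lintegral_sq_le (by fun_prop)).trans ?_
      gcongr
      rw [Measure.restrict_apply_univ, Real.volume_Ioc]
      exact ENNReal.ofReal_le_ofReal hδ
    calc ENNReal.ofReal C ^ 2 * (∫⁻ r in Set.Ioc a b, ‖ext ω r - ext ω b‖ₑ) ^ 2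
        ≤ ENNReal.ofReal C ^ 2 * (ENNReal.ofReal δ *
          ∫⁻ r in Set.Ioc a b, ‖ext ω r - ext ω b‖ₑ ^ 2) := by gcongr
      _ = _ := by
        rw [← ENNReal.ofReal_pow hC0, ← mul_assoc, ← ENNReal.ofReal_mul (by positivity),
          mul_comm (C ^ 2) δ]
  refine (lintegral_mono h1).trans ?_
  have hm : Measurable fun p : Path ℂ × ℝ => ‖ext p.1 p.2 - ext p.1 b‖ₑ ^ 2 := by
    have h4 : Measurable fun p : Path ℂ × ℝ => ext p.1 b :=
      (measurable_ext_path b).comp measurable_fst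
    fun_prop
  rw [lintegral_const_mul _ (hm.lintegral_prod_right'), lintegral_lintegral_swap hm.aemeasurable]
  have h5 : ∫⁻ r in Set.Ioc a b, ∫⁻ ω, ‖ext ω r - ext ω b‖ₑ ^ 2 ∂P ≤
      ENNReal.ofReal (2 * δ) * ENNReal.ofReal δ := by
    calc ∫⁻ r in Set.Ioc a b, ∫⁻ ω, ‖ext ω r - ext ω b‖ₑ ^ 2 ∂P
        ≤ ∫⁻ r in Set.Ioc a b, ENNReal.ofReal (2 * δ) := by
          refine setLIntegral_mono' measurableSet_Ioc fun r hr => ?_
          rw [hP.lintegral_ext_sub ⟨(hu.le.trans ha).trans hr.1.le, hr.2.trans hb⟩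
            ⟨(hu.le.trans ha).trans hab, hb⟩]
          refine ENNReal.ofReal_le_ofReal ?_
          rw [abs_sub_comm, abs_of_nonneg (by linarith [hr.2])]
          linarith [hr.1]
      _ ≤ _ := by
          rw [lintegral_const, Measure.restrict_apply_univ, Real.volume_Ioc]
          gcongr
  refine (mul_le_mul_right h5 _).trans ?_
  rw [← ENNReal.ofReal_mul (by positivity), ← ENNReal.ofReal_mul (by positivity)]
  refine ENNReal.ofReal_le_ofReal (le_of_eq ?_)
  ring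

theorem measurable_cellErr (a b : ℝ) (hab : a ≤ b) :
    Measurable fun ω : Path ℂ => A.cellErr ω a b := by
  unfold cellErr
  simp only [intervalIntegral.integral_of_le hab]
  have h1 : Measurable fun p : Path ℂ × ℝ => (ext p.1 p.2 - ext p.1 b) * A.F' p.2 p.1.toFun := by
    have h2 : Measurable fun p : Path ℂ × ℝ => ext p.1 p.2 := measurable_ext.comp measurable_swap
    have h3 : Measurable fun p : Path ℂ × ℝ => ext p.1 b :=
      (measurable_ext_path b).comp measurable_fst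
    have h4 : Measurable fun p : Path ℂ × ℝ => A.F' p.2 p.1.toFun :=
      A.measF'_path.comp measurable_swap
    exact (h2.sub h3).mul h4
  exact (h1.stronglyMeasurable.integral_prod_right' (ν := volume.restrict (Set.Ioc a b))).measurable

/-- The simple integrals are close to the pathwise integral in `L²`. -/
theorem lintegral_err {P : Measure (Path ℂ)} (hP : IsWiener P) {u C : ℝ}
    (hu : 0 < u ∧ u ≤ 1) (hC : ∀ r, u ≤ r → A.h r ≤ C) (hF : ∀ x, A.F u x = 1) (m : ℕ)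
    (t : unitInterval) (ht : u ≤ t) :
    ∫⁻ ω, ‖(A.simple hu m).integral t ω - A.flow ω t‖ₑ ^ 2 ∂P ≤
      4 * A.wt u ^ 2 + ENNReal.ofReal (4 * C ^ 2 / (m + 1 : ℕ)) := by
  have := hP.1
  have hC0 : 0 ≤ C := (A.h_nonneg hu.1).trans (hC u le_rfl)
  have ht0 : (0 : ℝ) < t := hu.1.trans_le ht
  have hm0 : (0 : ℝ) < (m + 1 : ℕ) := by positivity
  set a : ℕ → ℝ := fun k => min (gridR u m (k + 1)) t with ha
  have ha1 : ∀ k, u ≤ a k := fun k => le_min (gridR_pos hu m k) ht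
  have ha2 : ∀ k, a k ≤ a (k + 1) := fun k => min_le_min_right _ (gridR_mono hu m (by omega))
  have ha3 : ∀ k, a k ≤ 1 := fun k => (min_le_right _ _).trans t.2.2
  have ha4 : ∀ k, a (k + 1) - a k ≤ 1 / (m + 1 : ℕ) := by
    intro k
    have h1 := gridR_diff hu m k
    have h2 : gridR u m (k + 1) ≤ gridR u m (k + 2) := gridR_mono hu m (by omega)
    have h3 : (0 : ℝ) ≤ 1 / (m + 1 : ℕ) := by positivity
    simp only [ha]
    change min (gridR u m (k + 2)) (t : ℝ) - min (gridR u m (k + 1)) (t : ℝ) ≤ _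
    rcases le_total (t : ℝ) (gridR u m (k + 1)) with h | h
    · rw [min_eq_right h, min_eq_right (h.trans h2)]
      linarith
    · rw [min_eq_left h]
      have := min_le_left (gridR u m (k + 2)) (t : ℝ)
      linarith
  have key : ∀ᵐ ω ∂P, ‖(A.simple hu m).integral t ω - A.flow ω t‖ₑ ^ 2 ≤
      2 * ((∫⁻ r in Set.Ioc (0 : ℝ) u, ‖ext ω r‖ₑ * ENNReal.ofReal (A.h r)) ^ 2 +
        (m + 1 : ℕ) * ∑ k ∈ Finset.range (m + 1), ‖A.cellErr ω (a k) (a (k + 1))‖ₑ ^ 2) := by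
    filter_upwards [A.ae_good hP] with ω hω
    rw [A.simple_integral hu m hω (hF _) t ht, A.flow_apply hω]
    have e1 : A.flowFun ω t + (∫ r in (0 : ℝ)..u, ext ω r * A.F' r ω.toFun) +
      (∑ k ∈ Finset.range (m + 1),
        A.cellErr ω (min (gridR u m (k + 1)) t) (min (gridR u m (k + 2)) t)) - A.flowFun ω t =
        (∫ r in (0 : ℝ)..u, ext ω r * A.F' r ω.toFun) +
        ∑ k ∈ Finset.range (m + 1), A.cellErr ω (a k) (a (k + 1)) := by
      simp only [ha]
      ring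
    rw [e1]
    refine (enorm_add_sq_le_c _ _).trans ?_
    gcongr
    · rw [intervalIntegral.integral_of_le hu.1.le]
      refine (enorm_integral_le_lintegral_enorm _).trans ?_
      refine setLIntegral_mono' measurableSet_Ioc fun r hr => ?_
      rw [enorm_mul]
      gcongr
      rw [← ofReal_norm]
      exact ENNReal.ofReal_le_ofReal (A.bound _ r hr.1)
    · refine (enorm_sum_sq_le _ _).trans ?_
      rw [Finset.card_range]
  refine (lintegral_mono_ae key).trans ?_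
  have hmeas : ∀ k, Measurable fun ω : Path ℂ => ‖A.cellErr ω (a k) (a (k + 1))‖ₑ ^ 2 := fun k =>
    ((A.measurable_cellErr _ _ (ha2 k)).enorm).pow_const 2
  have hme : Measurable fun p : Path ℂ × ℝ => ext p.1 p.2 := measurable_ext.comp measurable_swap
  have hh := A.hmeas
  have hm1 : Measurable fun ω : Path ℂ =>
      (∫⁻ r in Set.Ioc (0 : ℝ) u, ‖ext ω r‖ₑ * ENNReal.ofReal (A.h r)) ^ 2 :=
    Measurable.pow_const (Measurable.lintegral_prod_right' (f := fun p : Path ℂ × ℝ =>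
        ‖ext p.1 p.2‖ₑ * ENNReal.ofReal (A.h p.2)) (by fun_prop)) 2
  rw [lintegral_const_mul' _ _ (by simp), lintegral_add_left hm1,
    lintegral_const_mul' _ _ (by simp), lintegral_finsetSum _ fun k _ => hmeas k]
  have h1 := A.lintegral_near_zero hP hu.2
  have h2 : ∑ k ∈ Finset.range (m + 1), ∫⁻ ω, ‖A.cellErr ω (a k) (a (k + 1))‖ₑ ^ 2 ∂P ≤
      (m + 1 : ℕ) * ENNReal.ofReal (2 * C ^ 2 * (1 / (m + 1 : ℕ)) ^ 3) := by
    refine (Finset.sum_le_card_nsmul _ _ _ fun k _ => A.lintegral_cellErr hP hu.1 hC (ha1 k)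
      (ha2 k) (ha3 (k + 1)) (ha4 k)).trans ?_
    rw [Finset.card_range, nsmul_eq_mul]
  calc 2 * (∫⁻ ω, (∫⁻ r in Set.Ioc (0 : ℝ) u, ‖ext ω r‖ₑ * ENNReal.ofReal (A.h r)) ^ 2 ∂P +
        (m + 1 : ℕ) * ∑ k ∈ Finset.range (m + 1), ∫⁻ ω, ‖A.cellErr ω (a k) (a (k + 1))‖ₑ ^ 2 ∂P)
      ≤ 2 * (2 * A.wt u ^ 2 + (m + 1 : ℕ) * ((m + 1 : ℕ) *
        ENNReal.ofReal (2 * C ^ 2 * (1 / (m + 1 : ℕ)) ^ 3))) := by gcongr
    _ = _ := by
      rw [mul_add, ← mul_assoc, ← mul_assoc (2 : ℝ≥0∞)]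
      congr 1
      · norm_num
      · have e1 : ((m + 1 : ℕ) : ℝ≥0∞) = ENNReal.ofReal (m + 1 : ℕ) := by
          rw [ENNReal.ofReal_natCast]
        have e2 : (2 : ℝ≥0∞) = ENNReal.ofReal 2 := by simp
        rw [e1, e2, ← ENNReal.ofReal_mul (by norm_num), ← ENNReal.ofReal_mul (by positivity),
          ← ENNReal.ofReal_mul (by positivity)]
        congr 1
        field_simp
        ring

end AProc

end Pool.Agent.Lib.UdB
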