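import Pool.Agent.Lib.UdB.Ito2

/-!
# The pathwise integral is the Ito integral and preserves the Wiener measure
-/

set_option autoImplicit false
set_option linter.unusedSectionVars false

open MeasureTheory Set Filter
open scoped ENNReal Topology InnerProductSpace

namespace Pool.Agent.Lib.UdB

theorem Simple.val_of_mem (Φ : Simple ℂ) {k : ℕ} (hk : k < Φ.n) {s : unitInterval}
    (hs : s ∈ Set.Ioc (Φ.τ k) (Φ.τ (k + 1))) (ω : Path ℂ) : Φ.val s ω = Φ.ξ k ω := by
  unfold Simple.val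
  rw [Finset.sum_eq_single k]
  · rw [indicator_of_mem hs]
  · intro j _ hj
    rw [indicator_of_notMem]
    rintro ⟨h1, h2⟩
    rcases lt_or_gt_of_ne hj with h | h
    · exact absurd (h2.trans (Φ.mono (show j + 1 ≤ k by omega))) (not_le.2 hs.1)
    · exact absurd (hs.2.trans (Φ.mono (show k + 1 ≤ j by omega))) (not_le.2 h1)
  · intro h; exact absurd (Finset.mem_range.2 hk) h

theorem exists_cell {τ : ℕ → unitInterval} {s : unitInterval} (h0 : τ 0 < s) :
    ∀ n : ℕ, s ≤ τ n → ∃ k < n, s ∈ Set.Ioc (τ k) (τ (k + 1)) := by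
  intro n
  induction n with
  | zero => intro h; exact absurd h (not_le.2 h0)
  | succ n ih =>
    intro h
    rcases le_or_gt s (τ n) with h1 | h1
    · obtain ⟨k, hk, h2⟩ := ih h1
      exact ⟨k, by omega, h2⟩
    · exact ⟨n, by omega, h1, h⟩

theorem path_measure_ext {P Q : Measure (Path ℂ)} (h : P.map Path.toFun = Q.map Path.toFun) :
    P = Q := by
  ext s hs
  obtain ⟨t, ht, rfl⟩ := hs
  rw [← Measure.map_apply measurable_toFun ht, ← Measure.map_apply measurable_toFun ht, h]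

namespace AProc

variable (A : AProc)

theorem norm_F_sub (x : unitInterval → ℂ) {u C a b : ℝ} (hu : 0 < u)
    (hC : ∀ r, u ≤ r → A.h r ≤ C) (ha : u ≤ a) (hab : a ≤ b) :
    ‖A.F a x - A.F b x‖ ≤ C * (b - a) := by
  have h1 := A.integral_F' x (hu.trans_le ha) hab
  rw [norm_sub_rev, ← h1]
  have h2 := intervalIntegral.norm_integral_le_of_norm_le_const (a := a) (b := b)
    (f := fun r => A.F' r x) (C := C) fun r hr => by
      rw [uIoc_of_le hab] at hr
      exact (A.bound x r (hu.trans_le (ha.trans hr.1.le))).trans (hC r (ha.trans hr.1.le))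
  rwa [abs_of_nonneg (by linarith)] at h2

theorem grid_zero {u : ℝ} (hu : 0 < u ∧ u ≤ 1) (m : ℕ) : grid hu m 0 = 0 := by
  apply Subtype.ext; rfl

theorem grid_last {u : ℝ} (hu : 0 < u ∧ u ≤ 1) (m : ℕ) : grid hu m (m + 2) = 1 := by
  apply Subtype.ext
  exact gridR_last u m

theorem val_err {u C : ℝ} (hu : 0 < u ∧ u ≤ 1) (hC : ∀ r, u ≤ r → A.h r ≤ C) (m : ℕ)
    {s : unitInterval} (hs : 0 < s) (ω : Path ℂ) :
    ‖(A.simple hu m).val s ω - mulL (A.F s ω.toFun)‖ₑ ^ 2 ≤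
      (Set.Iic (⟨u, hu.1.le, hu.2⟩ : unitInterval)).indicator (fun _ => (4 : ℝ≥0∞)) s +
        ENNReal.ofReal (C ^ 2 / (m + 1 : ℕ)) := by
  have hC0 : 0 ≤ C := (A.h_nonneg hu.1).trans (hC u le_rfl)
  have hm0 : (0 : ℝ) < (m + 1 : ℕ) := by positivity
  obtain ⟨k, hk, hks⟩ := exists_cell (τ := grid hu m) (s := s) (by rw [grid_zero]; exact hs) (m + 2)
    (by rw [grid_last]; exact s.2.2)
  rw [(A.simple hu m).val_of_mem (k := k) hk hks]
  change ‖mulL (A.vals hu m k ω.toFun) - mulL (A.F s ω.toFun)‖ₑ ^ 2 ≤ _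
  rw [mulL_sub]
  rcases k with _ | k
  · have h1 : s ∈ Set.Iic (⟨u, hu.1.le, hu.2⟩ : unitInterval) := by
      have := hks.2
      change (s : ℝ) ≤ gridR u m (0 + 1) at this
      rw [gridR_one] at this
      exact this
    rw [indicator_of_mem h1]
    refine le_add_right ?_
    have h2 : ‖mulL (A.vals hu m 0 ω.toFun - A.F s ω.toFun)‖ ≤ 2 := by
      refine (norm_mulL_le _).trans ((norm_sub_le _ _).trans ?_)
      rw [A.norm_vals, A.norm_F]
      norm_num
    rw [← ofReal_norm, ← ENNReal.ofReal_pow (norm_nonneg _)]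
    calc ENNReal.ofReal (‖mulL (A.vals hu m 0 ω.toFun - A.F s ω.toFun)‖ ^ 2)
        ≤ ENNReal.ofReal (2 ^ 2) := by gcongr
      _ = 4 := by norm_num
  · refine le_add_left ?_
    have h1 : gridR u m (k + 1) ≤ s := hks.1.le
    have h1' : (s : ℝ) ≤ gridR u m (k + 2) := hks.2
    have h2 : ‖mulL (A.vals hu m (k + 1) ω.toFun - A.F s ω.toFun)‖ ≤ C * (1 / (m + 1 : ℕ)) := by
      refine (norm_mulL_le _).trans ?_
      refine (A.norm_F_sub ω.toFun hu.1 hC (gridR_pos hu m k) h1).trans ?_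
      have := gridR_diff hu m k
      gcongr
      linarith
    rw [← ofReal_norm, ← ENNReal.ofReal_pow (norm_nonneg _)]
    refine ENNReal.ofReal_le_ofReal ?_
    calc ‖mulL (A.vals hu m (k + 1) ω.toFun - A.F s ω.toFun)‖ ^ 2
        ≤ (C * (1 / (m + 1 : ℕ))) ^ 2 := by gcongr
      _ = C ^ 2 / (m + 1 : ℕ) * (1 / (m + 1 : ℕ)) := by field_simp
      _ ≤ C ^ 2 / (m + 1 : ℕ) * 1 := by
          gcongr
          rw [div_le_one hm0]
          push_cast
          linarith [Nat.cast_nonneg (α := ℝ) m]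
      _ = _ := mul_one _

/-- Choice of parameters. -/
theorem exists_param : ∃ (u : ℕ → ℝ) (_ : ∀ n, 0 < u n ∧ u n ≤ 1) (m : ℕ → ℕ) (C : ℕ → ℝ),
    Tendsto u atTop (𝓝 0) ∧ (∀ n x, A.F (u n) x = 1) ∧
    (∀ n r, u n ≤ r → A.h r ≤ C n) ∧ ∀ n, 4 * C n ^ 2 / (m n + 1 : ℕ) ≤ 1 / (n + 1 : ℝ) := by
  obtain ⟨u, hu, h1, h2⟩ := A.one
  choose C hC using fun n => A.hloc (u n) (hu n).1
  refine ⟨u, hu, fun n => ⌈4 * C n ^ 2 * (n + 1)⌉₊, C, h1, h2, hC, fun n => ?_⟩
  have h3 := Nat.le_ceil (4 * C n ^ 2 * (n + 1 : ℝ))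
  have h4 : (0 : ℝ) < n + 1 := by positivity
  have h5 : (0 : ℝ) < ((⌈4 * C n ^ 2 * (n + 1 : ℝ)⌉₊ + 1 : ℕ) : ℝ) := by positivity
  rw [div_le_div_iff₀ h5 h4]
  push_cast
  linarith

theorem tendsto_wt {u : ℕ → ℝ} (hu : Tendsto u atTop (𝓝 0)) (hu1 : ∀ n, u n ≤ 1) :
    Tendsto (fun n => A.wt (u n)) atTop (𝓝 0) := by
  have h1 : ∀ n, A.wt (u n) = ∫⁻ r in Set.Ioc (0 : ℝ) (u n), ENNReal.ofReal (√r * A.h r)
      ∂(volume.restrict (Set.Ioc (0 : ℝ) 1)) := by
    intro n
    unfold wt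
    rw [Measure.restrict_restrict measurableSet_Ioc]
    congr 2
    ext r
    simp only [mem_Ioc, mem_inter_iff]
    constructor
    · intro h; exact ⟨h, h.1, h.2.trans (hu1 n)⟩
    · intro h; exact h.1
  simp only [h1]
  refine tendsto_setLIntegral_zero A.hint ?_
  have h2 : Tendsto (fun n => ENNReal.ofReal (u n)) atTop (𝓝 0) := by
    have := ENNReal.tendsto_ofReal hu
    simpa using this
  refine tendsto_of_tendsto_of_tendsto_of_le_of_le tendsto_const_nhds h2 (fun _ => zero_le)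
    fun n => ?_
  simp only [Function.comp_apply]
  refine (Measure.restrict_apply_le _ _).trans ?_
  rw [Real.volume_Ioc, sub_zero]

theorem tendsto_err {P : Measure (Path ℂ)} (hP : IsWiener P) {u : ℕ → ℝ}
    (hu : ∀ n, 0 < u n ∧ u n ≤ 1) {m : ℕ → ℕ} {C : ℕ → ℝ} (h1 : Tendsto u atTop (𝓝 0))
    (h2 : ∀ n x, A.F (u n) x = 1) (h3 : ∀ n r, u n ≤ r → A.h r ≤ C n)
    (h4 : ∀ n, 4 * C n ^ 2 / (m n + 1 : ℕ) ≤ 1 / (n + 1 : ℝ)) (t : unitInterval) :
    Tendsto (fun n => ∫⁻ ω, ‖(A.simple (hu n) (m n)).integral t ω - A.flow ω t‖ₑ ^ 2 ∂P)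
      atTop (𝓝 0) := by
  rcases t.2.1.eq_or_lt with h0 | h0
  · have ht : t = 0 := Subtype.ext h0.symm
    subst ht
    have h5 : ∀ n, ∫⁻ ω, ‖(A.simple (hu n) (m n)).integral 0 ω - A.flow ω 0‖ₑ ^ 2 ∂P = 0 := by
      intro n
      rw [← lintegral_zero (μ := P)]
      refine lintegral_congr_ae ?_
      filter_upwards [A.ae_good hP] with ω hω
      have e1 : (A.simple (hu n) (m n)).integral 0 ω = 0 := by
        unfold Simple.integral
        refine Finset.sum_eq_zero fun k _ => ?_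
        simp
      have e2 : A.flow ω 0 = 0 := by
        rw [A.flow_apply hω, flowFun]
        have : ext ω ((0 : unitInterval) : ℝ) = 0 := by rw [ext_coe, hω.1]
        rw [this]
        simp
      rw [e1, e2]
      simp
    simp only [h5]
    exact tendsto_const_nhds
  · have h5 : Tendsto (fun n : ℕ => 4 * A.wt (u n) ^ 2 + ENNReal.ofReal (1 / (n + 1 : ℝ)))
        atTop (𝓝 0) := by
      have e1 := A.tendsto_wt h1 fun n => (hu n).2
      have e2 : Tendsto (fun n => 4 * A.wt (u n) ^ 2) atTop (𝓝 (4 * 0 ^ 2)) :=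
        ENNReal.Tendsto.const_mul (ENNReal.Tendsto.pow e1) (Or.inr (by simp))
      have e3 : Tendsto (fun n : ℕ => ENNReal.ofReal (1 / (n + 1 : ℝ))) atTop (𝓝 0) := by
        have := ENNReal.tendsto_ofReal (tendsto_one_div_add_atTop_nhds_zero_nat (𝕜 := ℝ))
        simpa using this
      simpa using e2.add e3
    refine tendsto_of_tendsto_of_tendsto_of_le_of_le' tendsto_const_nhds h5
      (Eventually.of_forall fun _ => zero_le) ?_
    have h6 : ∀ᶠ n in atTop, u n ≤ t := (h1.eventually_lt_const h0).mono fun _ h => h.le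
    filter_upwards [h6] with n hn
    refine (A.lintegral_err hP (hu n) (h3 n) (h2 n) (m n) t hn).trans ?_
    exact add_le_add le_rfl (ENNReal.ofReal_le_ofReal (h4 n))

/-- The pathwise integral is the Ito integral. -/
theorem isIto {P : Measure (Path ℂ)} (hP : IsWiener P) (t : unitInterval) :
    IsIto P (fun s ω => mulL (A.F s ω.toFun)) t (fun ω => A.flow ω t) := by
  have := hP.1
  obtain ⟨u, hu, m, C, h1, h2, h3, h4⟩ := A.exists_param
  refine ⟨fun n => A.simple (hu n) (m n), ?_, A.tendsto_err hP hu h1 h2 h3 h4 t⟩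
  have h5 : Tendsto (fun n : ℕ => 4 * ENNReal.ofReal (u n) + ENNReal.ofReal (1 / (n + 1 : ℝ)))
      atTop (𝓝 0) := by
    have e1 : Tendsto (fun n => ENNReal.ofReal (u n)) atTop (𝓝 0) := by
      have := ENNReal.tendsto_ofReal h1
      simpa using this
    have e2 : Tendsto (fun n => 4 * ENNReal.ofReal (u n)) atTop (𝓝 (4 * 0)) :=
      ENNReal.Tendsto.const_mul e1 (Or.inr (by simp))
    have e3 : Tendsto (fun n : ℕ => ENNReal.ofReal (1 / (n + 1 : ℝ))) atTop (𝓝 0) := by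
      have := ENNReal.tendsto_ofReal (tendsto_one_div_add_atTop_nhds_zero_nat (𝕜 := ℝ))
      simpa using this
    simpa using e2.add e3
  refine tendsto_of_tendsto_of_tendsto_of_le_of_le tendsto_const_nhds h5
    (fun _ => zero_le) fun n => ?_
  have hC : C n ^ 2 / (m n + 1 : ℕ) ≤ 1 / (n + 1 : ℝ) := by
    refine le_trans ?_ (h4 n)
    have : (0 : ℝ) ≤ C n ^ 2 := sq_nonneg _
    gcongr
    linarith
  have h6 : ∀ ω : Path ℂ, ∫⁻ s in Set.Iic t,
      ‖(A.simple (hu n) (m n)).val s ω - mulL (A.F s ω.toFun)‖ₑ ^ 2 ≤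
      4 * ENNReal.ofReal (u n) + ENNReal.ofReal (1 / (n + 1 : ℝ)) := by
    intro ω
    have hz : ∀ᵐ s : unitInterval ∂(volume.restrict (Set.Iic t)), 0 < s := by
      refine ae_restrict_of_ae ?_
      have : ∀ᵐ s : unitInterval, s ∈ Set.Ioi (0 : unitInterval) := by
        rw [ae_iff]
        have e1 : {s : unitInterval | ¬ s ∈ Set.Ioi (0 : unitInterval)} = Set.Iic 0 := by
          ext s; simp
        rw [e1, unitInterval.volume_Iic]
        simp
      exact this
    calc ∫⁻ s in Set.Iic t, ‖(A.simple (hu n) (m n)).val s ω - mulL (A.F s ω.toFun)‖ₑ ^ 2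
        ≤ ∫⁻ s in Set.Iic t, ((Set.Iic (⟨u n, (hu n).1.le, (hu n).2⟩ : unitInterval)).indicator
            (fun _ => (4 : ℝ≥0∞)) s + ENNReal.ofReal (C n ^ 2 / (m n + 1 : ℕ))) := by
          refine lintegral_mono_ae ?_
          filter_upwards [hz] with s hs
          exact A.val_err (hu n) (h3 n) (m n) hs ω
      _ ≤ ∫⁻ s : unitInterval, ((Set.Iic (⟨u n, (hu n).1.le, (hu n).2⟩ : unitInterval)).indicator
            (fun _ => (4 : ℝ≥0∞)) s + ENNReal.ofReal (C n ^ 2 / (m n + 1 : ℕ))) :=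
          setLIntegral_le_lintegral _ _
      _ = 4 * ENNReal.ofReal (u n) + ENNReal.ofReal (C n ^ 2 / (m n + 1 : ℕ)) := by
          rw [lintegral_add_right _ measurable_const, lintegral_indicator measurableSet_Iic,
            setLIntegral_const, unitInterval.volume_Iic, lintegral_const, measure_univ, mul_one]
      _ ≤ _ := by gcongr
  calc ∫⁻ ω, (∫⁻ s in Set.Iic t,
      ‖(A.simple (hu n) (m n)).val s ω - mulL (A.F s ω.toFun)‖ₑ ^ 2) ∂P
      ≤ ∫⁻ _, (4 * ENNReal.ofReal (u n) + ENNReal.ofReal (1 / (n + 1 : ℝ))) ∂P :=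
        lintegral_mono h6
    _ = _ := by rw [lintegral_const, measure_univ, mul_one]

end AProc

end Pool.Agent.Lib.UdB
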