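import Pool.Agent.Lib.UdB.Ito3

/-!
# The pathwise integral preserves the Wiener measure; composition
-/

set_option autoImplicit false
set_option linter.unusedSectionVars false

open MeasureTheory Set Filter
open scoped ENNReal Topology InnerProductSpace

namespace Pool.Agent.Lib.UdB

theorem norm_exp_sub_le (a b : ℝ) :
    ‖Complex.exp ((a : ℝ) * Complex.I) - Complex.exp ((b : ℝ) * Complex.I)‖ ≤ |a - b| := by
  have h1 : Complex.exp ((a : ℝ) * Complex.I) - Complex.exp ((b : ℝ) * Complex.I) =
      Complex.exp ((b : ℝ) * Complex.I) * (Complex.exp (((a - b : ℝ) : ℂ) * Complex.I) - 1) := by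
    rw [mul_sub, ← Complex.exp_add, mul_one]
    congr 2
    push_cast
    ring
  rw [h1, norm_mul, Complex.norm_exp_ofReal_mul_I, one_mul, mul_comm]
  exact Real.norm_exp_I_mul_ofReal_sub_one_le

theorem abs_pair_le (c : unitInterval →₀ ℂ) (x : unitInterval → ℂ) :
    ‖pair c x‖ₑ ≤ ∑ t ∈ c.support, ‖c t‖ₑ * ‖x t‖ₑ := by
  unfold pair Finsupp.sum
  refine (enorm_sum_le _ _).trans (Finset.sum_le_sum fun t _ => ?_)
  rw [← ofReal_norm, ← ofReal_norm, ← ofReal_norm, ← ENNReal.ofReal_mul (norm_nonneg _)]
  exact ENNReal.ofReal_le_ofReal (norm_inner_le_norm _ _)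

theorem lintegral_le_sqrt {α : Type} [MeasurableSpace α] {μ : Measure α} [IsProbabilityMeasure μ]
    {f : α → ℝ≥0∞} (hf : AEMeasurable f μ) :
    ∫⁻ a, f a ∂μ ≤ (∫⁻ a, f a ^ 2 ∂μ) ^ (1 / 2 : ℝ) := by
  have h := lintegral_sq_le hf
  rw [measure_univ, one_mul] at h
  calc ∫⁻ a, f a ∂μ = ((∫⁻ a, f a ∂μ) ^ (2 : ℝ)) ^ (1 / 2 : ℝ) := by
        rw [← ENNReal.rpow_mul]; norm_num
    _ ≤ _ := by
        refine ENNReal.rpow_le_rpow ?_ (by norm_num)
        exact_mod_cast h

namespace AProc

variable (A : AProc)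

/-- The simple integral as a rotated path. -/
theorem stepRot_eq {u : ℝ} (hu : 0 < u ∧ u ≤ 1) (m : ℕ) (ω : Path ℂ) (t : unitInterval) :
    stepRot (grid hu m) (A.vals hu m) (m + 2) ω.toFun t =
      ω 0 + (A.simple hu m).integral t ω := by
  unfold stepRot
  have e1 : min t (grid hu m 0) = 0 := by
    rw [grid_zero]; exact min_eq_right t.2.1
  have e2 : max t (grid hu m (m + 2)) = grid hu m (m + 2) := by
    rw [grid_last]; exact max_eq_right t.2.2
  rw [e1, e2, sub_self, add_zero]
  congr 1
  unfold Simple.integral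
  change _ = ∑ k ∈ Finset.range (m + 2), mulL (A.vals hu m k ω.toFun)
    (ω (min (grid hu m (k + 1)) t) - ω (min (grid hu m k) t))
  refine Finset.sum_congr rfl fun k _ => ?_
  rw [mulL_apply]
  congr 1
  have hk := grid_mono hu m (Nat.le_succ k)
  rcases le_total t (grid hu m k) with h | h
  · rw [max_eq_right h, min_eq_left hk, min_eq_right (h.trans hk), min_eq_right h]
    simp
  · rw [max_eq_left h, min_comm t, min_eq_left h]

/-- The map `flow` preserves the Wiener measure. -/
theorem measurePreserving {P : Measure (Path ℂ)} (hP : IsWiener P) :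
    MeasurePreserving A.flow P P := by
  have := hP.1
  have hν := hP.isWR
  refine ⟨A.measurable_flow, ?_⟩
  apply path_measure_ext
  have h0 : Measurable fun ω => (A.flow ω).toFun := measurable_toFun.comp A.measurable_flow
  rw [Measure.map_map measurable_toFun A.measurable_flow]
  change P.map (fun ω => (A.flow ω).toFun) = _
  have := Measure.isProbabilityMeasure_map (μ := P) h0.aemeasurable
  refine hν.ext fun c => ?_
  rw [integral_map h0.aemeasurable (measurable_char c).aestronglyMeasurable]
  obtain ⟨u, hu, m, C, h1, h2, h3, h4⟩ := A.exists_param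
  have herr := A.tendsto_err hP hu h1 h2 h3 h4
  set R : ℕ → Path ℂ → (unitInterval → ℂ) := fun n ω =>
    stepRot (grid (hu n) (m n)) (A.vals (hu n) (m n)) (m n + 2) ω.toFun with hR
  have hRm : ∀ n, Measurable (R n) := fun n =>
    (hν.stepRot (grid_mono (hu n) (m n)) (A.dep_vals (hu n) (m n))
      (A.measurable_vals (hu n) (m n)) (A.norm_vals (hu n) (m n)) (m n + 2)).measurable.comp
      measurable_toFun
  have hRc : ∀ n, ∫ ω, Complex.exp ((pair c (R n ω) : ℝ) * Complex.I) ∂P =
      Complex.exp (-(Qf c : ℝ) / 2) := by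
    intro n
    have hmp := hν.stepRot (grid_mono (hu n) (m n)) (A.dep_vals (hu n) (m n))
      (A.measurable_vals (hu n) (m n)) (A.norm_vals (hu n) (m n)) (m n + 2)
    rw [← hν.char c]
    conv_rhs => rw [← hmp.map_eq]
    rw [integral_map hmp.measurable.aemeasurable (measurable_char c).aestronglyMeasurable]
    exact (integral_map measurable_toFun.aemeasurable
        ((measurable_char c).comp hmp.measurable).aestronglyMeasurable).symm
  -- the difference of the characteristic functions tends to zero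
  have hdiff : ∀ n, ‖(∫ ω, Complex.exp ((pair c (A.flow ω).toFun : ℝ) * Complex.I) ∂P) -
      Complex.exp (-(Qf c : ℝ) / 2)‖ₑ ≤
      ∑ t ∈ c.support, ‖c t‖ₑ *
        (∫⁻ ω, ‖(A.simple (hu n) (m n)).integral t ω - A.flow ω t‖ₑ ^ 2 ∂P) ^ (1 / 2 : ℝ) := by
    intro n
    rw [← hRc n, ← integral_sub]
    · refine (enorm_integral_le_lintegral_enorm _).trans ?_
      calc ∫⁻ ω, ‖Complex.exp ((pair c (A.flow ω).toFun : ℝ) * Complex.I) -
            Complex.exp ((pair c (R n ω) : ℝ) * Complex.I)‖ₑ ∂P
          ≤ ∫⁻ ω, ∑ t ∈ c.support, ‖c t‖ₑ *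
            ‖(A.simple (hu n) (m n)).integral t ω - A.flow ω t‖ₑ ∂P := by
            refine lintegral_mono_ae ?_
            filter_upwards [hP.ae_zero] with ω hω
            have e1 : ‖Complex.exp ((pair c (A.flow ω).toFun : ℝ) * Complex.I) -
                Complex.exp ((pair c (R n ω) : ℝ) * Complex.I)‖ₑ ≤
                ‖pair c (A.flow ω).toFun - pair c (R n ω)‖ₑ := by
              rw [← ofReal_norm, ← ofReal_norm]
              exact ENNReal.ofReal_le_ofReal (norm_exp_sub_le _ _)
            refine e1.trans ?_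
            rw [← pair_apply_sub]
            refine (abs_pair_le _ _).trans (Finset.sum_le_sum fun t _ => ?_)
            gcongr
            rw [Pi.sub_apply, hR]
            simp only
            rw [A.stepRot_eq (hu n) (m n) ω t, hω, zero_add, ← enorm_neg, neg_sub]
        _ = ∑ t ∈ c.support, ‖c t‖ₑ * ∫⁻ ω,
            ‖(A.simple (hu n) (m n)).integral t ω - A.flow ω t‖ₑ ∂P := by
            have hmm : ∀ t : unitInterval, Measurable fun ω : Path ℂ =>
                ‖(A.simple (hu n) (m n)).integral t ω - A.flow ω t‖ₑ := by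
              intro t
              have e3 : Measurable fun ω : Path ℂ => (A.simple (hu n) (m n)).integral t ω := by
                unfold Simple.integral
                refine Finset.measurable_fun_sum _ fun k _ => ?_
                have e4 := (A.measurable_vals (hu n) (m n) k).comp (measurable_toFun (V := ℂ))
                exact e4.mul ((measurable_eval _).sub (measurable_eval _))
              exact (e3.sub ((measurable_eval t).comp A.measurable_flow)).enorm
            rw [lintegral_finsetSum _ fun t _ => (hmm t).const_mul _]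
            refine Finset.sum_congr rfl fun t _ => ?_
            rw [lintegral_const_mul _ (hmm t)]
        _ ≤ _ := by
            refine Finset.sum_le_sum fun t _ => ?_
            gcongr
            refine lintegral_le_sqrt ?_
            have e3 : Measurable fun ω : Path ℂ => (A.simple (hu n) (m n)).integral t ω := by
              unfold Simple.integral
              refine Finset.measurable_fun_sum _ fun k _ => ?_
              have e4 := (A.measurable_vals (hu n) (m n) k).comp (measurable_toFun (V := ℂ))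
              exact e4.mul ((measurable_eval _).sub (measurable_eval _))
            exact (e3.sub ((measurable_eval t).comp A.measurable_flow)).enorm.aemeasurable
    · refine Integrable.of_bound ((measurable_char c).comp h0).aestronglyMeasurable 1
        (Eventually.of_forall fun ω => (norm_char c _).le)
    · refine Integrable.of_bound ((measurable_char c).comp (hRm n)).aestronglyMeasurable 1
        (Eventually.of_forall fun ω => (norm_char c _).le)
  have hlim : Tendsto (fun n => ∑ t ∈ c.support, ‖c t‖ₑ *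
        (∫⁻ ω, ‖(A.simple (hu n) (m n)).integral t ω - A.flow ω t‖ₑ ^ 2 ∂P) ^ (1 / 2 : ℝ))
      atTop (𝓝 (∑ t ∈ c.support, ‖c t‖ₑ * 0 ^ (1 / 2 : ℝ))) := by
    refine tendsto_finsetSum _ fun t _ => ?_
    refine ENNReal.Tendsto.const_mul ?_ (Or.inr enorm_ne_top)
    exact (ENNReal.continuous_rpow_const.tendsto 0).comp (herr t)
  have hz : ∑ t ∈ c.support, ‖c t‖ₑ * (0 : ℝ≥0∞) ^ (1 / 2 : ℝ) = 0 := by
    refine Finset.sum_eq_zero fun t _ => ?_
    rw [ENNReal.zero_rpow_of_pos (by norm_num), mul_zero]
  rw [hz] at hlim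
  have hle := ge_of_tendsto' hlim hdiff
  have h5 := le_antisymm hle (zero_le)
  rw [enorm_eq_zero, sub_eq_zero] at h5
  exact h5

/-- Derivative of the primitive of `ω F'`. -/
theorem hasDerivAt_prim (ω : Path ℂ) {u r : ℝ} (hu : 0 < u) (hr : u ≤ r) :
    HasDerivAt (fun r => ∫ s in u..r, ext ω s * A.F' s ω.toFun) (ext ω r * A.F' r ω.toFun) r := by
  have hr0 : 0 < r := hu.trans_le hr
  have hc : ContinuousOn (fun s => ext ω s * A.F' s ω.toFun) (Set.Ioi 0) :=
    (continuous_ext ω).continuousOn.mul (A.cont _)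
  refine intervalIntegral.integral_hasDerivAt_right (A.intervalIntegrable_mul ω hu hr) ?_ ?_
  · exact hc.stronglyMeasurableAtFilter isOpen_Ioi r hr0
  · exact hc.continuousAt (Ioi_mem_nhds hr0)

theorem flowFun_sub (ω : Path ℂ) (hω : A.good ω) {u t : ℝ} (hu : 0 < u) (hut : u ≤ t)
    (ht : t ≤ 1) : A.flowFun ω t - A.flowFun ω u =
      A.F t ω.toFun * ext ω t - A.F u ω.toFun * ext ω u -
        ∫ r in u..t, ext ω r * A.F' r ω.toFun := by
  unfold flowFun
  rw [← intervalIntegral.integral_add_adjacent_intervals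
    (A.intervalIntegrable_zero hω le_rfl hu.le zero_le_one (hut.trans ht))
    (A.intervalIntegrable_zero hω hu.le (hu.le.trans hut) (hut.trans ht) ht)]
  ring

theorem flowFun_zero (ω : Path ℂ) (hω : A.good ω) : A.flowFun ω 0 = 0 := by
  have : ext ω 0 = 0 := by rw [← hω.1]; exact ext_coe ω 0
  simp [flowFun, this]

theorem ext_flow {ω : Path ℂ} (hω : A.good ω) {r : ℝ} (hr : r ∈ Set.Icc (0 : ℝ) 1) :
    ext (A.flow ω) r = A.flowFun ω r := by
  rw [ext_of_mem _ hr, A.flow_apply hω]

/-- Composition of two pathwise integrals. -/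
theorem flow_comp (A₁ A₂ A₃ : AProc) {ω : Path ℂ} (h1 : A₁.good ω) (h2 : A₂.good (A₁.flow ω))
    (h3 : A₃.good ω)
    (hF : ∀ r, 0 < r → A₂.F r (A₁.flow ω).toFun * A₁.F r ω.toFun = A₃.F r ω.toFun) :
    A₂.flow (A₁.flow ω) = A₃.flow ω := by
  have hF' : ∀ r, 0 < r → A₃.F' r ω.toFun =
      A₂.F' r (A₁.flow ω).toFun * A₁.F r ω.toFun + A₂.F r (A₁.flow ω).toFun * A₁.F' r ω.toFun := by
    intro r hr
    have e1 := (A₂.hasDeriv (A₁.flow ω).toFun r hr).mul (A₁.hasDeriv ω.toFun r hr)
    have e2 := A₃.hasDeriv ω.toFun r hr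
    refine e2.unique (e1.congr_of_eventuallyEq ?_)
    filter_upwards [Ioi_mem_nhds hr] with s hs
    exact (hF s hs).symm
  -- equality of increments
  have hinc : ∀ u t : ℝ, 0 < u → u ≤ t → t ≤ 1 →
      A₂.flowFun (A₁.flow ω) t - A₂.flowFun (A₁.flow ω) u =
        A₃.flowFun ω t - A₃.flowFun ω u := by
    intro u t hu hut ht
    rw [A₂.flowFun_sub _ h2 hu hut ht, A₃.flowFun_sub _ h3 hu hut ht]
    have ht0 : 0 < t := hu.trans_le hut
    rw [A₁.ext_flow h1 ⟨ht0.le, ht⟩, A₁.ext_flow h1 ⟨hu.le, hut.trans ht⟩]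
    -- the path of the first flow
    have e1 : ∀ r ∈ Set.uIcc u t, ext (A₁.flow ω) r = A₁.flowFun ω u +
        (A₁.F r ω.toFun * ext ω r - A₁.F u ω.toFun * ext ω u -
          ∫ s in u..r, ext ω s * A₁.F' s ω.toFun) := by
      intro r hr
      rw [uIcc_of_le hut] at hr
      rw [A₁.ext_flow h1 ⟨hu.le.trans hr.1, hr.2.trans ht⟩,
        ← A₁.flowFun_sub ω h1 hu hr.1 (hr.2.trans ht)]
      ring
    set J : ℝ → ℂ := fun r => ∫ s in u..r, ext ω s * A₁.F' s ω.toFun with hJ
    set G : ℝ → ℂ := fun r => A₂.F r (A₁.flow ω).toFun with hG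
    set G' : ℝ → ℂ := fun r => A₂.F' r (A₁.flow ω).toFun with hG'
    have hcG' : ContinuousOn G' (Set.uIcc u t) := by
      rw [uIcc_of_le hut]
      exact (A₂.cont _).mono fun r hr => hu.trans_le hr.1
    have hcG : ContinuousOn G (Set.uIcc u t) := by
      rw [uIcc_of_le hut]
      exact (A₂.continuousOn_F _).mono fun r hr => hu.trans_le hr.1
    have hcF : ContinuousOn (fun r => A₁.F r ω.toFun) (Set.uIcc u t) := by
      rw [uIcc_of_le hut]
      exact (A₁.continuousOn_F _).mono fun r hr => hu.trans_le hr.1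
    have hcF' : ContinuousOn (fun r => A₁.F' r ω.toFun) (Set.uIcc u t) := by
      rw [uIcc_of_le hut]
      exact (A₁.cont _).mono fun r hr => hu.trans_le hr.1
    have hcJ : ContinuousOn J (Set.uIcc u t) := by
      rw [uIcc_of_le hut]
      intro r hr
      exact (A₁.hasDerivAt_prim ω hu hr.1).continuousAt.continuousWithinAt
    have hce : ContinuousOn (ext ω) (Set.uIcc u t) := (continuous_ext ω).continuousOn
    -- integration by parts
    have hibp : ∫ r in u..t, J r * G' r = J t * G t - J u * G u -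
        ∫ r in u..t, (ext ω r * A₁.F' r ω.toFun) * G r := by
      refine intervalIntegral.integral_mul_deriv_eq_deriv_mul ?_ ?_ ?_ ?_
      · intro r hr
        rw [uIcc_of_le hut] at hr
        exact A₁.hasDerivAt_prim ω hu hr.1
      · intro r hr
        rw [uIcc_of_le hut] at hr
        exact A₂.hasDeriv _ r (hu.trans_le hr.1)
      · exact (hce.mul hcF').intervalIntegrable
      · exact hcG'.intervalIntegrable
    have hJu : J u = 0 := by simp [hJ]
    have hG0 : ∫ r in u..t, G' r = G t - G u := A₂.integral_F' _ hu hut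
    have e2 : ∫ r in u..t, ext (A₁.flow ω) r * A₂.F' r (A₁.flow ω).toFun =
        (A₁.flowFun ω u - A₁.F u ω.toFun * ext ω u) * (G t - G u) +
        (∫ r in u..t, (A₁.F r ω.toFun * ext ω r) * G' r) - ∫ r in u..t, J r * G' r := by
      rw [← hG0, ← intervalIntegral.integral_const_mul, ← intervalIntegral.integral_add,
        ← intervalIntegral.integral_sub]
      · refine intervalIntegral.integral_congr fun r hr => ?_
        rw [e1 r hr]
        simp only [hJ, hG']
        ring
      · exact ((continuousOn_const.mul hcG').add ((hcF.mul hce).mul hcG')).intervalIntegrable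
      · exact (hcJ.mul hcG').intervalIntegrable
      · exact (continuousOn_const.mul hcG').intervalIntegrable
      · exact ((hcF.mul hce).mul hcG').intervalIntegrable
    have e3 : ∫ r in u..t, ext ω r * A₃.F' r ω.toFun =
        (∫ r in u..t, (A₁.F r ω.toFun * ext ω r) * G' r) +
        ∫ r in u..t, (ext ω r * A₁.F' r ω.toFun) * G r := by
      rw [← intervalIntegral.integral_add]
      · refine intervalIntegral.integral_congr fun r hr => ?_
        rw [uIcc_of_le hut] at hr
        rw [hF' r (hu.trans_le hr.1)]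
        simp only [hG, hG']
        ring
      · exact ((hcF.mul hce).mul hcG').intervalIntegrable
      · exact ((hce.mul hcF').mul hcG).intervalIntegrable
    rw [e2, e3, hibp, hJu, ← hF t ht0, ← hF u hu]
    have e4 : A₁.flowFun ω t = A₁.flowFun ω u +
        (A₁.F t ω.toFun * ext ω t - A₁.F u ω.toFun * ext ω u - J t) := by
      rw [hJ]
      simp only
      rw [← A₁.flowFun_sub ω h1 hu hut ht]
      ring
    rw [e4]
    simp only [hG]
    ring
  have hlim : ∀ t : ℝ, 0 < t → t ≤ 1 → A₂.flowFun (A₁.flow ω) t = A₃.flowFun ω t := by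
    intro t ht0 ht
    have c2 := (A₂.continuousOn_flowFun _ h2) 0 ⟨le_rfl, zero_le_one⟩
    have c3 := (A₃.continuousOn_flowFun _ h3) 0 ⟨le_rfl, zero_le_one⟩
    have c4 : Tendsto (fun u => A₂.flowFun (A₁.flow ω) u - A₃.flowFun ω u) (𝓝[Set.Ioc 0 t] 0)
        (𝓝 (A₂.flowFun (A₁.flow ω) 0 - A₃.flowFun ω 0)) := by
      have hsub : Set.Ioc 0 t ⊆ Set.Icc (0 : ℝ) 1 := fun r hr => ⟨hr.1.le, hr.2.trans ht⟩
      exact (c2.tendsto.mono_left (nhdsWithin_mono _ hsub)).sub
        (c3.tendsto.mono_left (nhdsWithin_mono _ hsub))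
    rw [A₂.flowFun_zero _ h2, A₃.flowFun_zero _ h3, sub_zero] at c4
    have c5 : Tendsto (fun u => A₂.flowFun (A₁.flow ω) u - A₃.flowFun ω u) (𝓝[Set.Ioc 0 t] 0)
        (𝓝 (A₂.flowFun (A₁.flow ω) t - A₃.flowFun ω t)) := by
      refine tendsto_const_nhds.congr' ?_
      filter_upwards [self_mem_nhdsWithin] with u hu
      have := hinc u t hu.1 hu.2 ht
      linear_combination this
    have hne : (𝓝[Set.Ioc 0 t] (0 : ℝ)).NeBot := by
      rw [← mem_closure_iff_nhdsWithin_neBot, closure_Ioc ht0.ne]
      exact ⟨le_rfl, ht0.le⟩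
    have := tendsto_nhds_unique c5 c4
    exact sub_eq_zero.1 this
  have hall : ∀ t : unitInterval, (A₂.flow (A₁.flow ω)).toFun t = (A₃.flow ω).toFun t := by
    intro t
    rw [A₂.flow_apply h2, A₃.flow_apply h3]
    rcases t.2.1.eq_or_lt with h0 | h0
    · rw [← h0, A₂.flowFun_zero _ h2, A₃.flowFun_zero _ h3]
    · exact hlim t h0 t.2.2
  have key : ∀ p q : Path ℂ, (∀ t, p.toFun t = q.toFun t) → p = q := by
    rintro ⟨p, hp⟩ ⟨q, hq⟩ h
    have : p = q := funext h
    subst this
    rfl
  exact key _ _ hall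

end AProc

end Pool.Agent.Lib.UdB
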