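import Pool.Agent.Lib.UdB.Ito3

/-!
# Uniqueness of the Ito integral: the integration by parts formula
-/

set_option autoImplicit false
set_option linter.unusedSectionVars false

open MeasureTheory Set Filter
open scoped ENNReal NNReal Topology InnerProductSpace

namespace Pool.Agent.Lib.UdB

section kpath

variable {V : Type} [NormedAddCommGroup V] [InnerProductSpace ℝ V] [FiniteDimensional ℝ V]
  [MeasurableSpace V] [BorelSpace V]

theorem kpath_apply (d : unitInterval →₀ V) (t : unitInterval) :
    kpath d t = d.sum fun s w => min (t : ℝ) (s : ℝ) • w := by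
  unfold kpath
  induction d using Finsupp.induction_linear with
  | zero => simp [theta]
  | add d d' h h' =>
    rw [Finsupp.sum_add_index']
    · rw [← h, ← h', ← integral_add (integrable_theta d).integrableOn
        (integrable_theta d').integrableOn]
      simp only [theta_add]
    · intro s; simp
    · intro s v w; simp
  | single s w =>
    rw [Finsupp.sum_single_index (by simp)]
    have h : (fun r => theta (Finsupp.single s w) r) = (Iic s).indicator fun _ => w := by
      funext r
      simp only [theta_single, indicator, mem_Iic]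
    rw [h, integral_indicator measurableSet_Iic, Measure.restrict_restrict measurableSet_Iic,
      Iic_inter_Iic, setIntegral_const, Measure.real, unitInterval.volume_Iic]
    congr 1
    rw [ENNReal.toReal_ofReal (min s t).2.1, min_comm s t]
    exact Monotone.map_min (fun _ _ h => h)

theorem continuous_kpath (d : unitInterval →₀ V) : Continuous (kpath d) := by
  have : kpath d = fun t : unitInterval => ∑ s ∈ d.support, min (t : ℝ) (s : ℝ) • d s := by
    funext t; rw [kpath_apply]; rfl
  rw [this]
  fun_prop

end kpath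

/-- Resampling of the Gaussian variable `pair d`, on path space. -/
noncomputable def Rs (d : unitInterval →₀ ℂ) (z : Path ℂ × ℝ) : Path ℂ where
  toFun := resample d (z.1.toFun, z.2)
  cont := by
    have h1 := continuous_kpath d
    have h2 := z.1.cont
    unfold resample
    exact h2.add (continuous_const.smul h1)

theorem Rs_toFun (d : unitInterval →₀ ℂ) (z : Path ℂ × ℝ) :
    (Rs d z).toFun = resample d (z.1.toFun, z.2) := rfl

theorem measurable_Rs (d : unitInterval →₀ ℂ) : Measurable (Rs d) := by
  refine measurable_to_path fun t => ?_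
  have h1 := measurable_resample d
  have h2 : Measurable fun z : Path ℂ × ℝ => (z.1.toFun, z.2) :=
    (measurable_toFun.comp measurable_fst).prodMk measurable_snd
  exact (measurable_pi_apply t).comp (h1.comp h2)

theorem measurePreserving_Rs {P : Measure (Path ℂ)} (hP : IsWiener P) {d : unitInterval →₀ ℂ}
    (hd : Qf d = 1) :
    MeasurePreserving (Rs d) (P.prod (ProbabilityTheory.gaussianReal 0 1)) P := by
  have := hP.1
  have hν := hP.isWR
  have := hν.prob
  refine ⟨measurable_Rs d, path_measure_ext ?_⟩
  rw [Measure.map_map measurable_toFun (measurable_Rs d)]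
  have h1 : (Path.toFun ∘ Rs d) = resample d ∘ Prod.map Path.toFun id := by
    funext z; rfl
  rw [h1, ← Measure.map_map (measurable_resample d) (measurable_toFun.prodMap measurable_id),
    ← Measure.map_prod_map _ _ measurable_toFun measurable_id, Measure.map_id]
  exact (hν.resample hd).map_eq

/-- Functions measurable with respect to the past only depend on the past. -/
theorem past_dep {V : Type} [TopologicalSpace V] [MeasurableSpace V] {E : Type} [MeasurableSpace E]
    [MeasurableSingletonClass E] {u : unitInterval} {a : Path V → E}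
    (ha : Measurable[past V u] a) {ω ω' : Path V} (h : ∀ s ≤ u, ω s = ω' s) : a ω = a ω' := by
  have key : ∀ S : Set (Path V), MeasurableSet[past V u] S → (ω ∈ S ↔ ω' ∈ S) := by
    let m' : MeasurableSpace (Path V) :=
      { MeasurableSet' := fun S => (ω ∈ S ↔ ω' ∈ S)
        measurableSet_empty := by simp
        measurableSet_compl := fun S hS => by simp [hS]
        measurableSet_iUnion := fun f hf => by simp [hf] }
    have h1 : past V u ≤ m' := by
      refine iSup_le fun s => ?_
      rintro S ⟨B, _, rfl⟩
      change (ω s ∈ B ↔ ω' s ∈ B)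
      rw [h s s.2]
    exact fun S hS => h1 S hS
  have h2 := (key _ (ha (measurableSet_singleton (a ω')))).2 rfl
  exact h2

theorem integral_mul_exp (β : ℝ) :
    ∫ y : ℝ, (y : ℂ) * Complex.exp ((y * β : ℝ) * Complex.I) ∂(ProbabilityTheory.gaussianReal 0 1) =
      Complex.I * β * ∫ y : ℝ, Complex.exp ((y * β : ℝ) * Complex.I)
        ∂(ProbabilityTheory.gaussianReal 0 1) := by
  have hint : Integrable (fun y : ℝ => y) (ProbabilityTheory.gaussianReal 0 1) :=
    memLp_one_iff_integrable.1 (ProbabilityTheory.memLp_id_gaussianReal 1)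
  have hm : ∀ β : ℝ, Measurable fun y : ℝ => Complex.exp ((y * β : ℝ) * Complex.I) := by
    intro β; fun_prop
  have h1 : HasDerivAt (fun β : ℝ => ∫ y : ℝ, Complex.exp ((y * β : ℝ) * Complex.I)
      ∂(ProbabilityTheory.gaussianReal 0 1))
      (∫ y : ℝ, Complex.exp ((y * β : ℝ) * Complex.I) * ((y : ℂ) * Complex.I)
        ∂(ProbabilityTheory.gaussianReal 0 1)) β := by
    refine (hasDerivAt_integral_of_dominated_loc_of_deriv_le
      (μ := ProbabilityTheory.gaussianReal 0 1) (x₀ := β)
      (F := fun (β : ℝ) (y : ℝ) => Complex.exp ((y * β : ℝ) * Complex.I))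
      (F' := fun (β : ℝ) (y : ℝ) => Complex.exp ((y * β : ℝ) * Complex.I) * ((y : ℂ) * Complex.I))
      (s := univ) (bound := fun y => |y|)
      Filter.univ_mem (Eventually.of_forall fun β => (hm β).aestronglyMeasurable) ?_ ?_ ?_ ?_ ?_).2
    · refine Integrable.of_bound (hm β).aestronglyMeasurable 1 (Eventually.of_forall fun y => ?_)
      rw [Complex.norm_exp_ofReal_mul_I]
    · refine Measurable.aestronglyMeasurable ?_
      fun_prop
    · refine Eventually.of_forall fun y β _ => ?_
      rw [norm_mul, Complex.norm_exp_ofReal_mul_I, one_mul, norm_mul, Complex.norm_I, mul_one,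
        Complex.norm_real, Real.norm_eq_abs]
    · exact hint.abs
    · refine Eventually.of_forall fun y β _ => ?_
      have h2 : HasDerivAt (fun β : ℝ => ((y * β : ℝ) : ℂ) * Complex.I) ((y : ℂ) * Complex.I) β := by
        have h3 : HasDerivAt (fun β : ℝ => y * β) y β := by
          simpa using (hasDerivAt_id β).const_mul y
        exact h3.ofReal_comp.mul_const Complex.I
      exact h2.cexp
  have h2 : HasDerivAt (fun β : ℝ => ∫ y : ℝ, Complex.exp ((y * β : ℝ) * Complex.I)
      ∂(ProbabilityTheory.gaussianReal 0 1)) (Complex.exp (-((β ^ 2 : ℝ) : ℂ) / 2) * (-β)) β := by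
    have h3 : (fun β : ℝ => ∫ y : ℝ, Complex.exp ((y * β : ℝ) * Complex.I)
      ∂(ProbabilityTheory.gaussianReal 0 1)) = fun β : ℝ => Complex.exp (-((β ^ 2 : ℝ) : ℂ) / 2) := by
      funext β; exact integral_exp_gaussian β
    rw [h3]
    have h4 : HasDerivAt (fun β : ℝ => (-((β ^ 2 : ℝ) : ℂ) / 2)) (-β : ℂ) β := by
      have h5 : HasDerivAt (fun β : ℝ => β ^ 2) (2 * β) β := by
        simpa using hasDerivAt_pow 2 β
      have h6 := (h5.ofReal_comp.neg).div_const (2 : ℂ)
      refine h6.congr_deriv ?_
      push_cast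
      ring
    exact h4.cexp
  have h3 := h1.unique h2
  have h4 : ∫ y : ℝ, Complex.exp ((y * β : ℝ) * Complex.I) * ((y : ℂ) * Complex.I)
      ∂(ProbabilityTheory.gaussianReal 0 1) = (∫ y : ℝ, (y : ℂ) *
        Complex.exp ((y * β : ℝ) * Complex.I) ∂(ProbabilityTheory.gaussianReal 0 1)) *
          Complex.I := by
    rw [← integral_mul_const]
    refine integral_congr_ae (Eventually.of_forall fun y => ?_)
    simp only
    ring
  rw [h4] at h3
  have h5 := integral_exp_gaussian β
  rw [h5]
  have h6 : ∀ z w : ℂ, z * Complex.I = w → z = -(w * Complex.I) := by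
    intro z w h
    rw [← h, mul_assoc, Complex.I_mul_I]
    ring
  rw [h6 _ _ h3]
  ring

/-- The integration by parts formula, for a normalized variable. -/
theorem ibp_norm {P : Measure (Path ℂ)} (hP : IsWiener P) {d : unitInterval →₀ ℂ}
    (hd : Qf d = 1) (c : unitInterval →₀ ℂ) {a : Path ℂ → ℝ} (ham : Measurable a) {C : ℝ}
    (hC : ∀ ω, |a ω| ≤ C) (ha : ∀ ω y, a (Rs d (ω, y)) = a ω) :
    ∫ ω, Complex.exp ((pair c ω.toFun : ℝ) * Complex.I) * (a ω * pair d ω.toFun : ℝ) ∂P =
      Complex.I * (Bf c d : ℝ) *
        ∫ ω, Complex.exp ((pair c ω.toFun : ℝ) * Complex.I) * (a ω : ℝ) ∂P := by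
  have := hP.1
  have hν := hP.isWR
  have hmp := measurePreserving_Rs hP hd
  have hpm : ∀ c : unitInterval →₀ ℂ, Measurable fun ω : Path ℂ => pair c ω.toFun := fun c =>
    (measurable_pair c).comp measurable_toFun
  have hpc := hpm c
  have hpd := hpm d
  set β := Bf c d with hβ
  set c' := c - β • d with hc'
  have hpc' := hpm c'
  have hmlp : MemLp (fun ω : Path ℂ => pair d ω.toFun) 1 P := by
    have h1 : MemLp id 1 (P.map fun ω : Path ℂ => pair d ω.toFun) := by
      have h2 : P.map (fun ω : Path ℂ => pair d ω.toFun) = (P.map Path.toFun).map (pair d) := by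
        rw [Measure.map_map (measurable_pair d) measurable_toFun]; rfl
      rw [h2, hν.map_pair]
      exact ProbabilityTheory.memLp_id_gaussianReal 1
    exact (memLp_map_measure_iff (by fun_prop) hpd.aemeasurable).1 h1
  have hpint : Integrable (fun ω : Path ℂ => pair d ω.toFun) P := memLp_one_iff_integrable.1 hmlp
  have hbd : ∀ ω : Path ℂ, ‖Complex.exp ((pair c ω.toFun : ℝ) * Complex.I) * (a ω : ℝ)‖ ≤ C := by
    intro ω
    rw [norm_mul, Complex.norm_exp_ofReal_mul_I, one_mul, Complex.norm_real]
    exact hC ω
  -- resampled functions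
  have e1 : ∀ (ω : Path ℂ) (y : ℝ), pair c (Rs d (ω, y)).toFun = pair c' ω.toFun + y * β := by
    intro ω y
    rw [Rs_toFun, resample, pair_apply_add, pair_apply_smul, pair_kpath, hc', pair_sub, pair_smul]
    ring
  have e2 : ∀ (ω : Path ℂ) (y : ℝ), pair d (Rs d (ω, y)).toFun = y := by
    intro ω y
    rw [Rs_toFun, resample, pair_apply_add, pair_apply_smul, pair_kpath]
    have : Bf d d = 1 := hd
    rw [this]
    ring
  have hadd : ∀ (u v : ℝ), Complex.exp ((u + v : ℝ) * Complex.I) =
      Complex.exp ((u : ℝ) * Complex.I) * Complex.exp ((v : ℝ) * Complex.I) := by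
    intro u v; rw [← Complex.exp_add]; push_cast; congr 1; ring
  have i1 : Integrable (fun ω : Path ℂ => Complex.exp ((pair c ω.toFun : ℝ) * Complex.I) *
      (a ω * pair d ω.toFun : ℝ)) P := by
    have h2 : Measurable fun ω : Path ℂ => Complex.exp ((pair c ω.toFun : ℝ) * Complex.I) * (a ω : ℝ) := by
      fun_prop
    have h0 : Integrable (fun ω : Path ℂ => ((pair d ω.toFun : ℝ) : ℂ)) P := hpint.ofReal
    have h3 := h0.bdd_mul (c := C) h2.aestronglyMeasurable
      (Eventually.of_forall hbd)
    refine h3.congr (Eventually.of_forall fun ω => ?_)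
    simp only
    push_cast
    ring
  have i2 : Integrable (fun ω : Path ℂ => Complex.exp ((pair c ω.toFun : ℝ) * Complex.I) *
      (a ω : ℝ)) P := by
    refine Integrable.of_bound ?_ C (Eventually.of_forall hbd)
    exact (by fun_prop : Measurable _).aestronglyMeasurable
  have r1 : ∫ ω, Complex.exp ((pair c ω.toFun : ℝ) * Complex.I) * (a ω * pair d ω.toFun : ℝ) ∂P =
      (∫ ω, Complex.exp ((pair c' ω.toFun : ℝ) * Complex.I) * (a ω : ℝ) ∂P) *
        ∫ y : ℝ, (y : ℂ) * Complex.exp ((y * β : ℝ) * Complex.I)
          ∂(ProbabilityTheory.gaussianReal 0 1) := by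
    rw [← integral_prod_mul]
    conv_lhs => rw [← hmp.map_eq]
    rw [integral_map hmp.measurable.aemeasurable (by rw [hmp.map_eq]; exact i1.1)]
    refine integral_congr_ae (Eventually.of_forall ?_)
    rintro ⟨ω, y⟩
    simp only [e1, e2, ha, hadd]
    push_cast
    ring
  have r2 : ∫ ω, Complex.exp ((pair c ω.toFun : ℝ) * Complex.I) * (a ω : ℝ) ∂P =
      (∫ ω, Complex.exp ((pair c' ω.toFun : ℝ) * Complex.I) * (a ω : ℝ) ∂P) *
        ∫ y : ℝ, Complex.exp ((y * β : ℝ) * Complex.I)
          ∂(ProbabilityTheory.gaussianReal 0 1) := by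
    rw [← integral_prod_mul]
    conv_lhs => rw [← hmp.map_eq]
    rw [integral_map hmp.measurable.aemeasurable (by rw [hmp.map_eq]; exact i2.1)]
    refine integral_congr_ae (Eventually.of_forall ?_)
    rintro ⟨ω, y⟩
    simp only [e1, ha, hadd]
    ring
  rw [r1, r2, integral_mul_exp]
  ring

end Pool.Agent.Lib.UdB
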