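import Pool.Agent.Lib.UdB.ItoUniq

/-!
# Uniqueness of the Ito integral: simple processes
-/

set_option autoImplicit false
set_option linter.unusedSectionVars false

open MeasureTheory Set Filter
open scoped ENNReal NNReal Topology InnerProductSpace

namespace Pool.Agent.Lib.UdB

/-- The character of the functional `pair c`. -/
noncomputable def ec (c : unitInterval →₀ ℂ) (ω : Path ℂ) : ℂ :=
  Complex.exp ((pair c ω.toFun : ℝ) * Complex.I)

theorem norm_ec (c : unitInterval →₀ ℂ) (ω : Path ℂ) : ‖ec c ω‖ = 1 :=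
  Complex.norm_exp_ofReal_mul_I _

theorem measurable_ec (c : unitInterval →₀ ℂ) : Measurable (ec c) := by
  have h : Measurable fun ω : Path ℂ => pair c ω.toFun := (measurable_pair c).comp measurable_toFun
  unfold ec
  fun_prop

theorem measurable_of_past {V : Type} [TopologicalSpace V] [MeasurableSpace V] {E : Type}
    [MeasurableSpace E] {u : unitInterval} {a : Path V → E} (ha : Measurable[past V u] a) :
    Measurable a := by
  have h1 : past V u ≤ (inferInstance : MeasurableSpace (Path V)) := by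
    refine iSup_le fun s => ?_
    have h0 : Measurable (Path.toFun : Path V → unitInterval → V) := comap_measurable _
    have h2 : Measurable fun ω : Path V => ω s := (measurable_pi_apply s.1).comp h0
    exact measurable_iff_comap_le.1 h2
  exact fun S hS => h1 _ (ha hS)

theorem integrable_incr {P : Measure (Path ℂ)} (hP : IsWiener P) (u v : unitInterval) :
    Integrable (fun ω : Path ℂ => ω v - ω u) P := by
  have := hP.1
  have h1 := hP.lintegral_sub v u
  have hm : Measurable fun ω : Path ℂ => ω v - ω u := (measurable_eval v).sub (measurable_eval u)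
  refine ⟨hm.aestronglyMeasurable, ?_⟩
  rw [hasFiniteIntegral_iff_enorm]
  have h2 := lintegral_sq_le (μ := P) (f := fun ω : Path ℂ => ‖ω v - ω u‖ₑ) hm.enorm.aemeasurable
  rw [measure_univ, one_mul, h1] at h2
  have h3 : (∫⁻ ω : Path ℂ, ‖ω v - ω u‖ₑ ∂P) ^ 2 < ∞ := h2.trans_lt ENNReal.ofReal_lt_top
  by_contra hcon
  rw [not_lt, top_le_iff] at hcon
  rw [hcon] at h3
  simp at h3

theorem theta_incr {u v : unitInterval} (huv : u ≤ v) (e : ℂ) (s : unitInterval) :
    theta (Finsupp.single v e - Finsupp.single u e) s = (Ioc u v).indicator (fun _ => e) s := by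
  rw [theta_sub, theta_single, theta_single]
  by_cases h1 : s ≤ u
  · have h2 : s ≤ v := h1.trans huv
    have h3 : s ∉ Ioc u v := fun h => absurd h.1 (not_lt.2 h1)
    rw [if_pos h1, if_pos h2, indicator_of_notMem h3, sub_self]
  · by_cases h2 : s ≤ v
    · have h3 : s ∈ Ioc u v := ⟨not_le.1 h1, h2⟩
      rw [if_neg h1, if_pos h2, indicator_of_mem h3, sub_zero]
    · have h3 : s ∉ Ioc u v := fun h => h2 h.2
      rw [if_neg h1, if_neg h2, indicator_of_notMem h3, sub_self]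

theorem Bf_incr (c : unitInterval →₀ ℂ) {u v : unitInterval} (huv : u ≤ v) (e : ℂ) :
    Bf c (Finsupp.single v e - Finsupp.single u e) = ∫ s in Ioc u v, ⟪e, theta c s⟫_ℝ := by
  unfold Bf
  rw [← integral_indicator measurableSet_Ioc]
  refine integral_congr_ae (Eventually.of_forall fun s => ?_)
  simp only [theta_incr huv]
  by_cases h : s ∈ Ioc u v
  · rw [indicator_of_mem h, indicator_of_mem h, real_inner_comm]
  · rw [indicator_of_notMem h, indicator_of_notMem h, inner_zero_right]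

/-- Integration by parts for an increment. -/
theorem ibp_incr {P : Measure (Path ℂ)} (hP : IsWiener P) (c : unitInterval →₀ ℂ)
    {u v : unitInterval} (huv : u ≤ v) {e : ℂ} (he : ‖e‖ = 1) {a : Path ℂ → ℝ}
    (ha : Measurable[past ℂ u] a) {C : ℝ} (hC : ∀ ω, |a ω| ≤ C) :
    ∫ ω, ec c ω * (a ω * ⟪e, ω v - ω u⟫_ℝ : ℝ) ∂P =
      Complex.I * (∫ s in Ioc u v, ⟪e, theta c s⟫_ℝ : ℝ) * ∫ ω, ec c ω * (a ω : ℝ) ∂P := by
  rw [← Bf_incr c huv e]
  rcases huv.eq_or_lt with h | h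
  · subst h
    have h1 : Bf c (Finsupp.single u e - Finsupp.single u e) = 0 := by
      rw [Bf_sub_right, sub_self]
    rw [h1]
    simp
  · set q : ℝ := (v : ℝ) - u with hq
    have hq0 : 0 < q := by
      have h0 : (u : ℝ) < v := h
      rw [hq]; linarith
    set D : unitInterval →₀ ℂ := Finsupp.single v e - Finsupp.single u e with hD
    set d : unitInterval →₀ ℂ := (√q)⁻¹ • D with hd
    have hsq : 0 < √q := Real.sqrt_pos.2 hq0
    have hQ : Qf d = 1 := by
      unfold Qf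
      rw [hd, Bf_smul_left, Bf_smul_right]
      have h2 : Bf D D = q := by
        have := Qf_single_sub he v u
        unfold Qf at this
        rw [hD, this, abs_of_pos hq0]
      rw [h2]
      have h3 : √q * √q = q := Real.mul_self_sqrt hq0.le
      field_simp
      rw [pow_two, h3]
    have hDd : D = √q • d := by
      rw [hd, smul_smul, mul_inv_cancel₀ hsq.ne', one_smul]
    have hk : ∀ s ≤ u, kpath d s = 0 := by
      intro s hs
      have h1 : (s : ℝ) ≤ u := hs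
      have h2 : (s : ℝ) ≤ v := hs.trans huv
      have e1 : kpath D s = 0 := by
        rw [hD, sub_eq_add_neg, ← Finsupp.single_neg, kpath_apply, Finsupp.sum_add_index',
          Finsupp.sum_single_index, Finsupp.sum_single_index, min_eq_left h1, min_eq_left h2]
        · simp
        · simp
        · simp
        · intro t; simp
        · intro t x y; simp
      have e2 : kpath d s = (√q)⁻¹ • kpath D s := by
        unfold kpath
        rw [← integral_smul]
        simp only [hd, theta_smul]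
      rw [e2, e1, smul_zero]
    have hinv : ∀ ω y, a (Rs d (ω, y)) = a ω := by
      intro ω y
      refine past_dep ha fun s hs => ?_
      rw [Rs_toFun]
      simp only [resample, Pi.add_apply, Pi.smul_apply, hk s hs, smul_zero, add_zero]
    have h4 := ibp_norm hP hQ c (measurable_of_past ha) hC hinv
    have h5 : ∀ ω : Path ℂ, ⟪e, ω v - ω u⟫_ℝ = √q * pair d ω.toFun := by
      intro ω
      rw [← pair_smul, ← hDd, hD, pair_sub, pair_single, pair_single, inner_sub_right]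
    have h6 : Bf c D = √q * Bf c d := by
      rw [hDd, Bf_smul_right]
    simp only [h5, h6]
    have h7 : ∀ ω : Path ℂ, ec c ω * ((a ω * (√q * pair d ω.toFun) : ℝ) : ℂ) =
        (√q : ℂ) * (Complex.exp ((pair c ω.toFun : ℝ) * Complex.I) * (a ω * pair d ω.toFun : ℝ)) := by
      intro ω
      unfold ec
      push_cast
      ring
    simp only [h7]
    rw [integral_const_mul, h4]
    push_cast
    unfold ec
    ring

theorem clm_decomp (e : ℂ) (L : ℂ →L[ℝ] ℂ) (z : ℂ) :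
    ⟪e, L z⟫_ℝ = ⟪e, L 1⟫_ℝ * ⟪(1 : ℂ), z⟫_ℝ + ⟪e, L Complex.I⟫_ℝ * ⟪Complex.I, z⟫_ℝ := by
  have h1 : z = z.re • (1 : ℂ) + z.im • Complex.I := by
    rw [Complex.real_smul, Complex.real_smul, mul_one]
    exact (Complex.re_add_im z).symm
  have h2 : ⟪(1 : ℂ), z⟫_ℝ = z.re := by simp [Complex.inner]
  have h3 : ⟪Complex.I, z⟫_ℝ = z.im := by simp [Complex.inner]
  rw [h2, h3]
  conv_lhs => rw [h1, map_add, map_smul, map_smul, inner_add_right, inner_smul_right,
    inner_smul_right]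
  ring

theorem integrable_inner_theta_Ioc (c : unitInterval →₀ ℂ) (e : ℂ) (S : Set unitInterval) :
    Integrable (fun s => ⟪e, theta c s⟫_ℝ) (volume.restrict S) := by
  have h1 : Integrable (fun s => ⟪e, theta c s⟫_ℝ) (volume : Measure unitInterval) :=
    (integrable_theta c).const_inner e
  exact h1.restrict

/-- The derivative term of an operator valued coefficient. -/
noncomputable def rr (c : unitInterval →₀ ℂ) (e : ℂ) (L : ℂ →L[ℝ] ℂ) (S : Set unitInterval) : ℝ :=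
  ⟪e, L 1⟫_ℝ * (∫ s in S, ⟪(1 : ℂ), theta c s⟫_ℝ) +
    ⟪e, L Complex.I⟫_ℝ * ∫ s in S, ⟪Complex.I, theta c s⟫_ℝ

theorem rr_eq (c : unitInterval →₀ ℂ) (e : ℂ) (L : ℂ →L[ℝ] ℂ) (S : Set unitInterval) :
    rr c e L S = ∫ s in S, ⟪e, L (theta c s)⟫_ℝ := by
  unfold rr
  have h : ∀ s, ⟪e, L (theta c s)⟫_ℝ = ⟪e, L 1⟫_ℝ * ⟪(1 : ℂ), theta c s⟫_ℝ +
      ⟪e, L Complex.I⟫_ℝ * ⟪Complex.I, theta c s⟫_ℝ := fun s => clm_decomp e L _
  simp only [h]
  rw [integral_add, integral_const_mul, integral_const_mul]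
  · exact (integrable_inner_theta_Ioc c 1 S).const_mul _
  · exact (integrable_inner_theta_Ioc c Complex.I S).const_mul _

/-- Integration by parts with an operator valued coefficient. -/
theorem ibp_op {P : Measure (Path ℂ)} (hP : IsWiener P) (c : unitInterval →₀ ℂ) (e : ℂ)
    {u v : unitInterval} (huv : u ≤ v) {ξ : Path ℂ → (ℂ →L[ℝ] ℂ)}
    (hξ : ∀ z, Measurable[past ℂ u] fun ω => ξ ω z) {C : ℝ} (hC : ∀ ω, ‖ξ ω‖ ≤ C) :
    ∫ ω, ec c ω * (⟪e, ξ ω (ω v - ω u)⟫_ℝ : ℝ) ∂P =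
      Complex.I * ∫ ω, ec c ω * (rr c e (ξ ω) (Ioc u v) : ℝ) ∂P ∧
    Integrable (fun ω => ec c ω * (⟪e, ξ ω (ω v - ω u)⟫_ℝ : ℝ)) P := by
  have := hP.1
  have ha : ∀ z : ℂ, Measurable[past ℂ u] fun ω => ⟪e, ξ ω z⟫_ℝ := by
    intro z
    have h1 : Measurable fun y : ℂ => ⟪e, y⟫_ℝ := by fun_prop
    exact h1.comp (hξ z)
  have hb : ∀ z : ℂ, ‖z‖ = 1 → ∀ ω, |⟪e, ξ ω z⟫_ℝ| ≤ ‖e‖ * C := by
    intro z hz ω
    refine (abs_real_inner_le_norm _ _).trans ?_
    have h1 := (ξ ω).le_opNorm z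
    rw [hz, mul_one] at h1
    gcongr
    exact h1.trans (hC ω)
  have h1 := ibp_incr hP c huv (e := 1) (by simp) (ha 1) (hb 1 (by simp))
  have h2 := ibp_incr hP c huv (e := Complex.I) (by simp) (ha Complex.I) (hb Complex.I (by simp))
  have hinc := integrable_incr hP u v
  have hint : ∀ z w : ℂ, ‖z‖ = 1 → Integrable (fun ω : Path ℂ =>
      ec c ω * (⟪e, ξ ω z⟫_ℝ * ⟪w, ω v - ω u⟫_ℝ : ℝ)) P := by
    intro z w hz
    have e1 : Integrable (fun ω : Path ℂ => ((⟪w, ω v - ω u⟫_ℝ : ℝ) : ℂ)) P :=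
      (hinc.const_inner w).ofReal
    have e2 : Measurable fun ω : Path ℂ => ec c ω * (⟪e, ξ ω z⟫_ℝ : ℝ) := by
      have e3 := measurable_ec c
      have e4 := measurable_of_past (ha z)
      fun_prop
    have e3 := e1.bdd_mul (c := ‖e‖ * C) e2.aestronglyMeasurable (Eventually.of_forall fun ω => by
      rw [norm_mul, norm_ec, one_mul, Complex.norm_real]; exact hb z hz ω)
    refine e3.congr (Eventually.of_forall fun ω => ?_)
    simp only
    push_cast
    ring
  have hbi : ∀ z : ℂ, ‖z‖ = 1 → Integrable (fun ω : Path ℂ => ec c ω * (⟪e, ξ ω z⟫_ℝ : ℝ)) P := by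
    intro z hz
    have e3 := measurable_ec c
    have e4 := measurable_of_past (ha z)
    refine Integrable.of_bound (by fun_prop : Measurable _).aestronglyMeasurable (‖e‖ * C)
      (Eventually.of_forall fun ω => ?_)
    rw [norm_mul, norm_ec, one_mul, Complex.norm_real]; exact hb z hz ω
  have hdec : ∀ ω : Path ℂ, ec c ω * ((⟪e, ξ ω (ω v - ω u)⟫_ℝ : ℝ) : ℂ) =
      ec c ω * (⟪e, ξ ω 1⟫_ℝ * ⟪(1 : ℂ), ω v - ω u⟫_ℝ : ℝ) +
      ec c ω * (⟪e, ξ ω Complex.I⟫_ℝ * ⟪Complex.I, ω v - ω u⟫_ℝ : ℝ) := by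
    intro ω
    rw [clm_decomp]
    push_cast
    ring
  have i1 := hint 1 1 (by simp)
  have i2 := hint Complex.I Complex.I (by simp)
  constructor
  · simp only [hdec]
    rw [integral_add i1 i2, h1, h2]
    unfold rr
    set B1 := ∫ s in Ioc u v, ⟪(1 : ℂ), theta c s⟫_ℝ
    set B2 := ∫ s in Ioc u v, ⟪Complex.I, theta c s⟫_ℝ
    have h3 : ∀ ω : Path ℂ, ec c ω * ((⟪e, ξ ω 1⟫_ℝ * B1 + ⟪e, ξ ω Complex.I⟫_ℝ * B2 : ℝ) : ℂ) =
        (B1 : ℂ) * (ec c ω * (⟪e, ξ ω 1⟫_ℝ : ℝ)) +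
          (B2 : ℂ) * (ec c ω * (⟪e, ξ ω Complex.I⟫_ℝ : ℝ)) := by
      intro ω
      push_cast
      ring
    simp only [h3]
    rw [integral_add ((hbi 1 (by simp)).const_mul _) ((hbi Complex.I (by simp)).const_mul _),
      integral_const_mul, integral_const_mul]
    ring
  · simp only [hdec]
    exact i1.add i2

/-- The derivative term of a simple process. -/
noncomputable def rS (c : unitInterval →₀ ℂ) (e : ℂ) (Φ : Simple ℂ) (t : unitInterval)
    (ω : Path ℂ) : ℝ :=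
  ∑ k ∈ Finset.range Φ.n, rr c e (Φ.ξ k ω) (Ioc (min (Φ.τ k) t) (min (Φ.τ (k + 1)) t))

theorem Ioc_inter_Iic' (a b t : unitInterval) : Ioc a b ∩ Iic t = Ioc (min a t) (min b t) := by
  ext s
  simp only [mem_inter_iff, mem_Ioc, mem_Iic, min_lt_iff, le_min_iff]
  constructor
  · rintro ⟨⟨h1, h2⟩, h3⟩
    exact ⟨Or.inl h1, h2, h3⟩
  · rintro ⟨h1 | h1, h2, h3⟩
    · exact ⟨⟨h1, h2⟩, h3⟩
    · exact absurd h3 (not_le.2 h1)

theorem rS_eq (c : unitInterval →₀ ℂ) (e : ℂ) (Φ : Simple ℂ) (t : unitInterval)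
    (ω : Path ℂ) : rS c e Φ t ω = ∫ s in Iic t, ⟪e, Φ.val s ω (theta c s)⟫_ℝ := by
  unfold rS Simple.val
  have h1 : ∀ s : unitInterval, ⟪e, (∑ k ∈ Finset.range Φ.n,
      (Ioc (Φ.τ k) (Φ.τ (k + 1))).indicator (fun _ => Φ.ξ k ω) s) (theta c s)⟫_ℝ =
      ∑ k ∈ Finset.range Φ.n, (Ioc (Φ.τ k) (Φ.τ (k + 1))).indicator
        (fun s => ⟪e, Φ.ξ k ω (theta c s)⟫_ℝ) s := by
    intro s
    rw [sum_apply, inner_sum]
    refine Finset.sum_congr rfl fun k _ => ?_
    by_cases h : s ∈ Ioc (Φ.τ k) (Φ.τ (k + 1))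
    · rw [indicator_of_mem h, indicator_of_mem h]
    · rw [indicator_of_notMem h, indicator_of_notMem h]
      simp
  simp only [h1]
  have hi : ∀ k, Integrable (fun s => ⟪e, Φ.ξ k ω (theta c s)⟫_ℝ)
      (volume : Measure unitInterval) := by
    intro k
    have := (Φ.ξ k ω).integrable_comp (integrable_theta c)
    exact this.const_inner e
  rw [integral_finsetSum]
  · refine Finset.sum_congr rfl fun k _ => ?_
    rw [rr_eq, integral_indicator measurableSet_Ioc, Measure.restrict_restrict measurableSet_Ioc,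
      Ioc_inter_Iic']
  · intro k _
    exact ((hi k).indicator measurableSet_Ioc).restrict

/-- Integration by parts for simple processes. -/
theorem ibp_simple {P : Measure (Path ℂ)} (hP : IsWiener P) (c : unitInterval →₀ ℂ) (e : ℂ)
    (Φ : Simple ℂ) (t : unitInterval) :
    ∫ ω, ec c ω * (⟪e, Φ.integral t ω⟫_ℝ : ℝ) ∂P =
      Complex.I * ∫ ω, ec c ω * (rS c e Φ t ω : ℝ) ∂P := by
  have := hP.1
  obtain ⟨C, hC⟩ := Φ.bdd
  have hξm : ∀ k (z : ℂ), Measurable fun ω => Φ.ξ k ω z := fun k z =>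
    measurable_of_past (Φ.meas k z)
  have hrm : ∀ k S, Measurable fun ω => rr c e (Φ.ξ k ω) S := by
    intro k S
    have h1 := hξm k 1
    have h2 := hξm k Complex.I
    unfold rr
    fun_prop
  have hrb : ∀ k S, ∃ B : ℝ, ∀ ω, |rr c e (Φ.ξ k ω) S| ≤ B := by
    intro k S
    refine ⟨‖e‖ * C * |∫ s in S, ⟪(1 : ℂ), theta c s⟫_ℝ| +
      ‖e‖ * C * |∫ s in S, ⟪Complex.I, theta c s⟫_ℝ|, fun ω => ?_⟩
    unfold rr
    refine (abs_add_le _ _).trans ?_
    rw [abs_mul, abs_mul]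
    have hb : ∀ z : ℂ, ‖z‖ = 1 → |⟪e, Φ.ξ k ω z⟫_ℝ| ≤ ‖e‖ * C := by
      intro z hz
      refine (abs_real_inner_le_norm _ _).trans ?_
      have h1 := (Φ.ξ k ω).le_opNorm z
      rw [hz, mul_one] at h1
      gcongr
      exact h1.trans (hC k ω)
    have h1 := hb 1 (by simp)
    have h2 := hb Complex.I (by simp)
    gcongr
  have key : ∀ k, ∫ ω, ec c ω * (⟪e, Φ.ξ k ω (ω (min (Φ.τ (k + 1)) t) -
      ω (min (Φ.τ k) t))⟫_ℝ : ℝ) ∂P = Complex.I * ∫ ω, ec c ω *
        (rr c e (Φ.ξ k ω) (Ioc (min (Φ.τ k) t) (min (Φ.τ (k + 1)) t)) : ℝ) ∂P ∧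
      Integrable (fun ω => ec c ω * (⟪e, Φ.ξ k ω (ω (min (Φ.τ (k + 1)) t) -
        ω (min (Φ.τ k) t))⟫_ℝ : ℝ)) P := by
    intro k
    have hk : Φ.τ k ≤ Φ.τ (k + 1) := Φ.mono (Nat.le_succ k)
    rcases le_total (Φ.τ k) t with h | h
    · have h1 : min (Φ.τ k) t = Φ.τ k := min_eq_left h
      rw [h1]
      exact ibp_op hP c e (le_min hk h) (Φ.meas k) (hC k)
    · have h1 : min (Φ.τ k) t = t := min_eq_right h
      have h2 : min (Φ.τ (k + 1)) t = t := min_eq_right (h.trans hk)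
      rw [h1, h2]
      simp [rr]
  have hsum : ∀ ω, ec c ω * ((⟪e, Φ.integral t ω⟫_ℝ : ℝ) : ℂ) = ∑ k ∈ Finset.range Φ.n,
      ec c ω * (⟪e, Φ.ξ k ω (ω (min (Φ.τ (k + 1)) t) - ω (min (Φ.τ k) t))⟫_ℝ : ℝ) := by
    intro ω
    unfold Simple.integral
    rw [inner_sum, ← Finset.mul_sum]
    push_cast
    rfl
  have hsum2 : ∀ ω, ec c ω * ((rS c e Φ t ω : ℝ) : ℂ) = ∑ k ∈ Finset.range Φ.n,
      ec c ω * (rr c e (Φ.ξ k ω) (Ioc (min (Φ.τ k) t) (min (Φ.τ (k + 1)) t)) : ℝ) := by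
    intro ω
    unfold rS
    rw [← Finset.mul_sum]
    push_cast
    rfl
  simp only [hsum, hsum2]
  rw [integral_finsetSum _ fun k _ => (key k).2, integral_finsetSum, Finset.mul_sum]
  · exact Finset.sum_congr rfl fun k _ => (key k).1
  · intro k _
    obtain ⟨B, hB⟩ := hrb k (Ioc (min (Φ.τ k) t) (min (Φ.τ (k + 1)) t))
    have h1 := measurable_ec c
    have h2 := hrm k (Ioc (min (Φ.τ k) t) (min (Φ.τ (k + 1)) t))
    refine Integrable.of_bound (by fun_prop : Measurable _).aestronglyMeasurable B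
      (Eventually.of_forall fun ω => ?_)
    rw [norm_mul, norm_ec, one_mul, Complex.norm_real]
    exact hB ω

end Pool.Agent.Lib.UdB
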