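import Pool.Agent.Lib.UdB.ItoUniq2
import Pool.Agent.Lib.UdB.Ito4

/-!
# Uniqueness of the Ito integral
-/

set_option autoImplicit false
set_option linter.unusedSectionVars false

open MeasureTheory Set Filter
open scoped ENNReal NNReal Topology InnerProductSpace

namespace Pool.Agent.Lib.UdB

/-- Two finite measures on raw paths with the same finite dimensional characteristic functions
are equal. -/
theorem ext_raw_finite {V : Type} [NormedAddCommGroup V] [InnerProductSpace ℝ V]
    [FiniteDimensional ℝ V] [MeasurableSpace V] [BorelSpace V]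
    {μ₁ μ₂ : Measure (unitInterval → V)} [IsFiniteMeasure μ₁]
    [IsFiniteMeasure μ₂]
    (h : ∀ c : unitInterval →₀ V, ∫ x, Complex.exp ((pair c x : ℝ) * Complex.I) ∂μ₁ =
      ∫ x, Complex.exp ((pair c x : ℝ) * Complex.I) ∂μ₂) : μ₁ = μ₂ := by
  have hm : ∀ I : Finset unitInterval,
      Measurable (I.restrict : (unitInterval → V) → (I → V)) := fun I =>
    Finset.measurable_restrict I
  have hfin : ∀ I : Finset unitInterval, μ₂.map I.restrict = μ₁.map I.restrict := by
    intro I
    apply Measure.ext_of_charFunDual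
    ext L
    rw [charFunDual_apply, charFunDual_apply, integral_map (hm I).aemeasurable,
      integral_map (hm I).aemeasurable]
    · let v : I → V := fun t => (InnerProductSpace.toDual ℝ V).symm
        (L.comp (ContinuousLinearMap.single ℝ (fun _ : I => V) t))
      let c : unitInterval →₀ V := ∑ t : I, Finsupp.single (t : unitInterval) (v t)
      have hc : ∀ x : unitInterval → V, L (I.restrict x) = pair c x := by
        intro x
        have h1 : pair c x = ∑ t : I, ⟪v t, x t⟫_ℝ := by
          have h2 : ∀ S : Finset I, pair (∑ t ∈ S, Finsupp.single (t : unitInterval) (v t)) x =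
              ∑ t ∈ S, ⟪v t, x t⟫_ℝ := by
            intro S
            induction S using Finset.induction_on with
            | empty => simp
            | insert a S ha ih => rw [Finset.sum_insert ha, pair_add, ih, Finset.sum_insert ha,
                pair_single]
          exact h2 Finset.univ
        rw [h1]
        have h3 : (I.restrict x) = ∑ t : I, Pi.single t (x t) := by
          rw [Finset.univ_sum_single (fun t : I => x t)]
          rfl
        rw [h3, map_sum]
        refine Finset.sum_congr rfl fun t _ => ?_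
        simp only [v, InnerProductSpace.toDual_symm_apply]
        rfl
      simp only [hc]
      exact (h c).symm
    · exact (Continuous.measurable (by fun_prop)).aestronglyMeasurable
    · exact (Continuous.measurable (by fun_prop)).aestronglyMeasurable
  exact IsProjectiveLimit.unique (P := fun I : Finset unitInterval => μ₁.map I.restrict)
    (fun I => rfl) hfin

theorem integral_withDensity_char {P : Measure (Path ℂ)} {W : Path ℂ → ℝ} (hW : Measurable W)
    (c : unitInterval →₀ ℂ) :
    ∫ ω, ec c ω ∂(P.withDensity fun ω => ENNReal.ofReal (W ω)) =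
      ∫ ω, ec c ω * ((max (W ω) 0 : ℝ) : ℂ) ∂P := by
  have h1 : (fun ω => ENNReal.ofReal (W ω)) = fun ω => ((W ω).toNNReal : ℝ≥0∞) := rfl
  rw [h1, integral_withDensity_eq_integral_smul hW.real_toNNReal]
  refine integral_congr_ae (Eventually.of_forall fun ω => ?_)
  simp only
  rw [NNReal.smul_def, Complex.real_smul, Real.coe_toNNReal', mul_comm]

/-- A function whose product with all characters has zero integral vanishes. -/
theorem ae_zero_of_char {P : Measure (Path ℂ)} [IsProbabilityMeasure P] {W : Path ℂ → ℝ}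
    (hW : Measurable W) (hi : Integrable W P)
    (h : ∀ c : unitInterval →₀ ℂ, ∫ ω, ec c ω * (W ω : ℝ) ∂P = 0) : ∀ᵐ ω ∂P, W ω = 0 := by
  set μ₁ := P.withDensity fun ω => ENNReal.ofReal (W ω) with hμ₁
  set μ₂ := P.withDensity fun ω => ENNReal.ofReal (-W ω) with hμ₂
  have f1 : IsFiniteMeasure μ₁ := isFiniteMeasure_withDensity_ofReal hi.2
  have f2 : IsFiniteMeasure μ₂ := isFiniteMeasure_withDensity_ofReal hi.neg.2
  have key : μ₁.map Path.toFun = μ₂.map Path.toFun := by
    apply ext_raw_finite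
    intro c
    have hm : AEStronglyMeasurable (fun x : unitInterval → ℂ =>
        Complex.exp ((pair c x : ℝ) * Complex.I)) (μ₁.map Path.toFun) :=
      (measurable_char c).aestronglyMeasurable
    have hm' : AEStronglyMeasurable (fun x : unitInterval → ℂ =>
        Complex.exp ((pair c x : ℝ) * Complex.I)) (μ₂.map Path.toFun) :=
      (measurable_char c).aestronglyMeasurable
    rw [integral_map measurable_toFun.aemeasurable hm, integral_map measurable_toFun.aemeasurable hm']
    change ∫ ω, ec c ω ∂μ₁ = ∫ ω, ec c ω ∂μ₂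
    have hWn : Measurable fun ω => -W ω := hW.neg
    rw [hμ₁, hμ₂, integral_withDensity_char hW, integral_withDensity_char hWn]
    have e1 : Integrable (fun ω => ec c ω * ((max (W ω) 0 : ℝ) : ℂ)) P := by
      have e2 : Integrable (fun ω => ((max (W ω) 0 : ℝ) : ℂ)) P := hi.pos_part.ofReal
      exact e2.bdd_mul (c := 1) (measurable_ec c).aestronglyMeasurable
        (Eventually.of_forall fun ω => (norm_ec c ω).le)
    have e2 : Integrable (fun ω => ec c ω * ((max (-W ω) 0 : ℝ) : ℂ)) P := by
      have e2 : Integrable (fun ω => ((max (-W ω) 0 : ℝ) : ℂ)) P := hi.neg.pos_part.ofReal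
      exact e2.bdd_mul (c := 1) (measurable_ec c).aestronglyMeasurable
        (Eventually.of_forall fun ω => (norm_ec c ω).le)
    rw [← sub_eq_zero, ← integral_sub e1 e2, ← h c]
    refine integral_congr_ae (Eventually.of_forall fun ω => ?_)
    simp only
    rw [← mul_sub, ← Complex.ofReal_sub]
    congr 2
    rcases le_total 0 (W ω) with h0 | h0
    · rw [max_eq_left h0, max_eq_right (by linarith)]; ring
    · rw [max_eq_right h0, max_eq_left (by linarith)]; ring
  have key2 := path_measure_ext key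
  have hW' : Measurable fun ω => ENNReal.ofReal (W ω) := hW.ennreal_ofReal
  have hW'' : Measurable fun ω => ENNReal.ofReal (-W ω) := hW.neg.ennreal_ofReal
  have h3 := (withDensity_eq_iff hW'.aemeasurable hW''.aemeasurable ?_).1 key2
  · filter_upwards [h3] with ω hω
    rcases le_total 0 (W ω) with h0 | h0
    · rw [ENNReal.ofReal_of_nonpos (by linarith : -W ω ≤ 0), ENNReal.ofReal_eq_zero] at hω
      linarith
    · rw [ENNReal.ofReal_of_nonpos h0, eq_comm, ENNReal.ofReal_eq_zero] at hω
      linarith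
  · exact hi.lintegral_lt_top.ne

/-- Difference of the derivative terms of two simple processes. -/
theorem rS_sub_le (c : unitInterval →₀ ℂ) (e : ℂ) (Φ Φ' : Simple ℂ) (t : unitInterval)
    (ω : Path ℂ) : ‖rS c e Φ t ω - rS c e Φ' t ω‖ₑ ≤
      ENNReal.ofReal (‖e‖ * (c.sum fun _ v => ‖v‖)) * ∫⁻ s in Iic t, ‖Φ.val s ω - Φ'.val s ω‖ₑ := by
  have hval : ∀ Φ : Simple ℂ, Integrable (fun s => ⟪e, Φ.val s ω (theta c s)⟫_ℝ)
      (volume.restrict (Iic t)) := by
    intro Φ
    refine Integrable.restrict ?_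
    have h1 : (fun s : unitInterval => ⟪e, Φ.val s ω (theta c s)⟫_ℝ) = fun s =>
        ∑ k ∈ Finset.range Φ.n, (Ioc (Φ.τ k) (Φ.τ (k + 1))).indicator
        (fun s => ⟪e, Φ.ξ k ω (theta c s)⟫_ℝ) s := by
      funext s
      unfold Simple.val
      rw [sum_apply, inner_sum]
      refine Finset.sum_congr rfl fun k _ => ?_
      by_cases h : s ∈ Ioc (Φ.τ k) (Φ.τ (k + 1))
      · rw [indicator_of_mem h, indicator_of_mem h]
      · rw [indicator_of_notMem h, indicator_of_notMem h]
        simp
    rw [h1]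
    refine integrable_finsetSum _ fun k _ => ?_
    have := (Φ.ξ k ω).integrable_comp (integrable_theta c)
    exact (this.const_inner e).indicator measurableSet_Ioc
  rw [rS_eq, rS_eq, ← integral_sub (hval Φ) (hval Φ')]
  refine (enorm_integral_le_lintegral_enorm _).trans ?_
  rw [← lintegral_const_mul' _ _ ENNReal.ofReal_ne_top]
  refine lintegral_mono fun s => ?_
  rw [← inner_sub_right, ← sub_apply, ← ofReal_norm, ← ofReal_norm,
    ← ENNReal.ofReal_mul (by
      have : 0 ≤ c.sum fun _ v => ‖v‖ := Finset.sum_nonneg fun _ _ => norm_nonneg _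
      positivity)]
  apply ENNReal.ofReal_le_ofReal
  have h1 := norm_theta_le c s
  calc ‖⟪e, (Φ.val s ω - Φ'.val s ω) (theta c s)⟫_ℝ‖
      ≤ ‖e‖ * ‖(Φ.val s ω - Φ'.val s ω) (theta c s)‖ := norm_inner_le_norm _ _
    _ ≤ ‖e‖ * (‖Φ.val s ω - Φ'.val s ω‖ * ‖theta c s‖) := by
      gcongr; exact ContinuousLinearMap.le_opNorm _ _
    _ ≤ ‖e‖ * (‖Φ.val s ω - Φ'.val s ω‖ * (c.sum fun _ v => ‖v‖)) := by gcongr
    _ = _ := by ring

theorem clm_measurable {Ω : Type} [MeasurableSpace Ω] {ξ : Ω → (ℂ →L[ℝ] ℂ)}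
    (h : ∀ z, Measurable fun ω => ξ ω z) : Measurable ξ := by
  have h1 : ξ = fun ω => Complex.reCLM.smulRight (ξ ω 1) + Complex.imCLM.smulRight (ξ ω Complex.I) := by
    funext ω
    refine ContinuousLinearMap.ext fun z => ?_
    have h1 : z = z.re • (1 : ℂ) + z.im • Complex.I := by
      rw [Complex.real_smul, Complex.real_smul, mul_one]
      exact (Complex.re_add_im z).symm
    conv_lhs => rw [h1, map_add, map_smul, map_smul]
    simp
  have h2 : Continuous fun p : ℂ × ℂ =>
      Complex.reCLM.smulRight p.1 + Complex.imCLM.smulRight p.2 := by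
    have e1 : Continuous fun z : ℂ => Complex.reCLM.smulRight z :=
      (ContinuousLinearMap.smulRightL ℝ ℂ ℂ Complex.reCLM).continuous
    have e2 : Continuous fun z : ℂ => Complex.imCLM.smulRight z :=
      (ContinuousLinearMap.smulRightL ℝ ℂ ℂ Complex.imCLM).continuous
    exact (e1.comp continuous_fst).add (e2.comp continuous_snd)
  rw [h1]
  exact h2.measurable.comp ((h 1).prodMk (h Complex.I))

theorem measurable_val (Φ : Simple ℂ) : Measurable fun p : Path ℂ × unitInterval =>
    Φ.val p.2 p.1 := by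
  unfold Simple.val
  refine Finset.measurable_fun_sum _ fun k _ => ?_
  have h1 : Measurable (Φ.ξ k) := clm_measurable fun z => measurable_of_past (Φ.meas k z)
  have h2 : (fun p : Path ℂ × unitInterval => (Ioc (Φ.τ k) (Φ.τ (k + 1))).indicator
      (fun _ => Φ.ξ k p.1) p.2) = (Prod.snd ⁻¹' (Ioc (Φ.τ k) (Φ.τ (k + 1)))).indicator
        fun p : Path ℂ × unitInterval => Φ.ξ k p.1 := by
    funext p
    by_cases h : p.2 ∈ Ioc (Φ.τ k) (Φ.τ (k + 1))
    · rw [indicator_of_mem h, indicator_of_mem (by exact h)]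
    · rw [indicator_of_notMem h, indicator_of_notMem (by exact h)]
  rw [h2]
  exact (h1.comp measurable_fst).indicator (measurable_snd measurableSet_Ioc)

theorem measurable_integral (Φ : Simple ℂ) (t : unitInterval) : Measurable (Φ.integral t) := by
  unfold Simple.integral
  refine Finset.measurable_fun_sum _ fun k _ => ?_
  have h1 : Measurable (Φ.ξ k) := clm_measurable fun z => measurable_of_past (Φ.meas k z)
  have h2 : Measurable fun ω : Path ℂ => ω (min (Φ.τ (k + 1)) t) - ω (min (Φ.τ k) t) :=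
    (measurable_eval _).sub (measurable_eval _)
  have h3 : Continuous fun p : (ℂ →L[ℝ] ℂ) × ℂ => p.1 p.2 := by fun_prop
  exact h3.measurable.comp (h1.prodMk h2)

theorem integrable_integral {P : Measure (Path ℂ)} (hP : IsWiener P) (Φ : Simple ℂ)
    (t : unitInterval) : Integrable (Φ.integral t) P := by
  obtain ⟨C, hC⟩ := Φ.bdd
  have h0 : Φ.integral t = fun ω => ∑ k ∈ Finset.range Φ.n,
      Φ.ξ k ω (ω (min (Φ.τ (k + 1)) t) - ω (min (Φ.τ k) t)) := rfl
  rw [h0]
  refine integrable_finsetSum _ fun k _ => ?_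
  have h1 : Measurable (Φ.ξ k) := clm_measurable fun z => measurable_of_past (Φ.meas k z)
  have h2 : Measurable fun ω : Path ℂ => ω (min (Φ.τ (k + 1)) t) - ω (min (Φ.τ k) t) :=
    (measurable_eval _).sub (measurable_eval _)
  have h3 : Continuous fun p : (ℂ →L[ℝ] ℂ) × ℂ => p.1 p.2 := by fun_prop
  refine ((integrable_incr hP (min (Φ.τ k) t) (min (Φ.τ (k + 1)) t)).norm.const_mul C).mono'
    (h3.measurable.comp (h1.prodMk h2)).aestronglyMeasurable (Eventually.of_forall fun ω => ?_)
  refine ((Φ.ξ k ω).le_opNorm _).trans ?_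
  gcongr
  exact hC k ω

theorem tendsto_sqrt_zero {f : ℕ → ℝ≥0∞} (hf : Tendsto f atTop (𝓝 0)) :
    Tendsto (fun n => f n ^ (1 / 2 : ℝ)) atTop (𝓝 0) := by
  have := (ENNReal.continuous_rpow_const (y := (1 / 2 : ℝ))).tendsto 0
  rw [ENNReal.zero_rpow_of_pos (by norm_num)] at this
  exact this.comp hf

/-- Functional characterization of the Ito integral. -/
theorem ito_tendsto {P : Measure (Path ℂ)} (hP : IsWiener P) {t : unitInterval}
    {Z : Path ℂ → ℂ} (hZ : Measurable Z) {Φ : ℕ → Simple ℂ}
    (h : Tendsto (fun m => ∫⁻ ω, ‖(Φ m).integral t ω - Z ω‖ₑ ^ 2 ∂P) atTop (𝓝 0))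
    (c : unitInterval →₀ ℂ) (e : ℂ) :
    Integrable Z P ∧ Tendsto (fun m => Complex.I * ∫ ω, ec c ω * (rS c e (Φ m) t ω : ℝ) ∂P) atTop
      (𝓝 (∫ ω, ec c ω * (⟪e, Z ω⟫_ℝ : ℝ) ∂P)) := by
  have := hP.1
  have hd : ∀ m, Measurable fun ω => ‖(Φ m).integral t ω - Z ω‖ₑ := fun m =>
    ((measurable_integral (Φ m) t).sub hZ).enorm
  have hZi : Integrable Z P := by
    obtain ⟨m, hm⟩ := (h.eventually_lt_const (show (0 : ℝ≥0∞) < 1 by norm_num)).exists
    have h1 := lintegral_sq_le (μ := P) (hd m).aemeasurable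
    rw [measure_univ, one_mul] at h1
    have h2 : ∫⁻ ω, ‖(Φ m).integral t ω - Z ω‖ₑ ∂P < ∞ := by
      by_contra hcon
      rw [not_lt, top_le_iff] at hcon
      rw [hcon] at h1
      have h3 := h1.trans_lt hm
      simp at h3
    have h3 : Integrable (fun ω => (Φ m).integral t ω - Z ω) P :=
      ⟨((measurable_integral (Φ m) t).sub hZ).aestronglyMeasurable, h2⟩
    have h4 := (integrable_integral hP (Φ m) t).sub h3
    refine h4.congr (Eventually.of_forall fun ω => ?_)
    simp
  refine ⟨hZi, ?_⟩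
  simp only [← ibp_simple hP]
  rw [tendsto_iff_edist_tendsto_0]
  have hlim : Tendsto (fun m => ‖e‖ₑ * (∫⁻ ω, ‖(Φ m).integral t ω - Z ω‖ₑ ^ 2 ∂P) ^ (1 / 2 : ℝ))
      atTop (𝓝 0) := by
    have := ENNReal.Tendsto.const_mul (a := ‖e‖ₑ) (tendsto_sqrt_zero h) (Or.inr (by simp))
    simpa using this
  refine tendsto_of_tendsto_of_tendsto_of_le_of_le tendsto_const_nhds hlim (fun _ => zero_le)
    fun m => ?_
  simp only
  rw [edist_eq_enorm_sub]
  have hint : ∀ Y : Path ℂ → ℂ, Integrable Y P →
      Integrable (fun ω => ec c ω * ((⟪e, Y ω⟫_ℝ : ℝ) : ℂ)) P := by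
    intro Y hY
    have e2 : Integrable (fun ω => ((⟪e, Y ω⟫_ℝ : ℝ) : ℂ)) P := (hY.const_inner e).ofReal
    exact e2.bdd_mul (c := 1) (measurable_ec c).aestronglyMeasurable
      (Eventually.of_forall fun ω => (norm_ec c ω).le)
  rw [← integral_sub (hint _ (integrable_integral hP (Φ m) t)) (hint _ hZi)]
  refine (enorm_integral_le_lintegral_enorm _).trans ?_
  calc ∫⁻ ω, ‖ec c ω * ((⟪e, (Φ m).integral t ω⟫_ℝ : ℝ) : ℂ) -
        ec c ω * ((⟪e, Z ω⟫_ℝ : ℝ) : ℂ)‖ₑ ∂P
      ≤ ∫⁻ ω, ‖e‖ₑ * ‖(Φ m).integral t ω - Z ω‖ₑ ∂P := by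
        refine lintegral_mono fun ω => ?_
        rw [← mul_sub, ← Complex.ofReal_sub, ← inner_sub_right, ← ofReal_norm, ← ofReal_norm,
          ← ofReal_norm, ← ENNReal.ofReal_mul (norm_nonneg _), norm_mul, norm_ec, one_mul,
          Complex.norm_real]
        exact ENNReal.ofReal_le_ofReal (norm_inner_le_norm _ _)
    _ = ‖e‖ₑ * ∫⁻ ω, ‖(Φ m).integral t ω - Z ω‖ₑ ∂P := by
        rw [lintegral_const_mul _ (hd m)]
    _ ≤ _ := by
        gcongr
        exact lintegral_le_sqrt (hd m).aemeasurable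

end Pool.Agent.Lib.UdB
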