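import Pool.Agent.Lib.UdB.Flip

/-!
# The multiplicator
-/

set_option autoImplicit false
set_option linter.unusedSectionVars false

open MeasureTheory Set Filter
open scoped ENNReal NNReal Topology

namespace Pool.Agent.Lib.UdB

namespace TimeData

variable (D : TimeData)
variable {c : ℕ → ℕ → (unitInterval → ℂ) → ℝ}

theorem tot_neg (r : ℝ) (x : unitInterval → ℂ) :
    D.tot (fun i m x => -c i m x) r x = -D.tot c r x := by
  unfold tot ang
  rw [← tsum_neg]
  refine tsum_congr fun i => ?_
  rw [← Finset.sum_neg_distrib]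
  exact Finset.sum_congr rfl fun m _ => by ring

theorem tot_nc (r : ℝ) (x : unitInterval → ℂ) : D.tot D.nc r x = -D.tot D.cc r x :=
  D.tot_neg r x

theorem abs_tot_le {i : ℕ} {r : ℝ} (h : r ≤ D.t i) (x : unitInterval → ℂ) :
    |D.tot D.cc r x| ≤ 4 / (i + 1) := by
  rcases le_or_gt r 0 with h0 | h0
  · rw [(D.tot_nonpos (c := D.cc) h0 x).1, abs_zero]
    positivity
  · obtain ⟨j, m, hm, h2, h3⟩ := D.exists_cell h0 (h.trans (D.t_le_one i))
    rw [(D.tot_cell (c := D.cc) hm h2 h3 x).1, abs_mul, abs_of_nonneg (tent_nonneg _ _ _)]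
    have h4 : i ≤ j := by
      by_contra hcon
      have h5 : j + 1 ≤ i := by omega
      have h6 := D.t_anti.antitone h5
      have h7 := D.a_ge j m
      linarith
    have h5 : (i : ℝ) ≤ j := by exact_mod_cast h4
    calc tent (D.a j m) (D.q j) r * |D.cc j m x| ≤ 1 * (4 / (j + 1)) := by
          refine mul_le_mul (tent_le_one _ _ _) (D.abs_cc_le j m x) (abs_nonneg _) zero_le_one
      _ ≤ 4 / (i + 1) := by
          rw [one_mul]
          gcongr

theorem continuous_tot (x : unitInterval → ℂ) :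
    Continuous fun t : unitInterval => D.tot D.cc t x := by
  rw [continuous_iff_continuousAt]
  intro t
  rcases t.2.1.eq_or_lt with h0 | h0
  · have ht : t = 0 := Subtype.ext h0.symm
    subst ht
    have hz : D.tot D.cc ((0 : unitInterval) : ℝ) x = 0 := (D.tot_nonpos (c := D.cc) le_rfl x).1
    change Tendsto (fun t : unitInterval => D.tot D.cc t x) (𝓝 0)
      (𝓝 (D.tot D.cc ((0 : unitInterval) : ℝ) x))
    rw [hz, Metric.tendsto_nhds]
    intro ε hε
    obtain ⟨i, hi⟩ := exists_nat_gt (4 / ε)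
    have h1 : 4 / ((i : ℝ) + 1) < ε := by
      rw [div_lt_iff₀ (by positivity)]
      rw [div_lt_iff₀ hε] at hi
      nlinarith
    have h2 : ∀ᶠ t : unitInterval in 𝓝 0, (t : ℝ) < D.t i := by
      refine (continuous_subtype_val.tendsto (0 : unitInterval)).eventually_lt_const ?_
      exact D.t_pos i
    filter_upwards [h2] with t ht
    rw [Real.dist_eq, sub_zero]
    exact (D.abs_tot_le ht.le x).trans_lt h1
  · exact ((D.hasDerivAt_tot (c := D.cc) x h0).continuousAt).comp
      continuous_subtype_val.continuousAt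

/-- The process `U`. -/
noncomputable def uP : AProc :=
  D.mkAProc D.cc (fun i m => (D.isCyl_cc i m).measurable) D.abs_cc_le_four
    fun i m _ => D.depTo_cc i m

theorem depTo_exp (t : unitInterval) : DepTo t (fun x : unitInterval → ℂ =>
    Complex.exp ((D.tot D.cc t x : ℝ) * Complex.I)) := D.uP.dep t

theorem measurable_exp (t : unitInterval) : Measurable (fun x : unitInterval → ℂ =>
    Complex.exp ((D.tot D.cc t x : ℝ) * Complex.I)) := by
  have h1 := (D.measurable_tot (c := D.cc) fun i m => (D.isCyl_cc i m).measurable).1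
  have h2 : Measurable fun x : unitInterval → ℂ => ((t : ℝ), x) :=
    measurable_const.prodMk measurable_id
  have h3 := h1.comp h2
  have h4 : Measurable fun x : unitInterval → ℂ => D.tot D.cc t x := h3
  clear h1 h2 h3
  fun_prop

theorem invP_F (r : ℝ) (x : unitInterval → ℂ) :
    D.invP.F r x = Complex.exp ((D.tot D.nc r x : ℝ) * Complex.I) := rfl

end TimeData

/-- The multiplicator. -/
noncomputable def U₀ (t : unitInterval) (ω : Path ℂ) : ℂ ≃ₗᵢ[ℝ] ℂ :=
  rotation (Circle.exp (D₀.tot D₀.cc t ω.toFun))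

theorem U₀_apply (t : unitInterval) (ω : Path ℂ) (z : ℂ) :
    U₀ t ω z = Complex.exp ((D₀.tot D₀.cc t ω.toFun : ℝ) * Complex.I) * z := by
  unfold U₀
  rw [rotation_apply, Circle.coe_exp]

theorem U₀_symm_apply (t : unitInterval) (ω : Path ℂ) (z : ℂ) :
    (U₀ t ω).symm z = Complex.exp ((D₀.tot D₀.nc t ω.toFun : ℝ) * Complex.I) * z := by
  rw [D₀.tot_nc]
  apply (U₀ t ω).injective
  rw [LinearIsometryEquiv.apply_symm_apply, U₀_apply, ← mul_assoc, ← Complex.exp_add]
  simp

theorem continuous_U₀ (ω : Path ℂ) (z : ℂ) : Continuous fun t => U₀ t ω z := by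
  simp only [U₀_apply]
  have := D₀.continuous_tot ω.toFun
  fun_prop

theorem adapted_U₀ (t : unitInterval) (z : ℂ) : Measurable[past ℂ t] fun ω => U₀ t ω z := by
  simp only [U₀_apply]
  exact ((D₀.depTo_exp t).measurable_past (D₀.measurable_exp t)).mul_const z

theorem symm_eq_mulL (s : unitInterval) (ω : Path ℂ) :
    ((U₀ s ω).symm : ℂ →L[ℝ] ℂ) = mulL (D₀.invP.F s ω.toFun) := by
  refine ContinuousLinearMap.ext fun z => ?_
  change (U₀ s ω).symm z = _
  rw [U₀_symm_apply, mulL_apply, D₀.invP_F]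

theorem isBeta_beta₀ {P : Measure (Path ℂ)} (hP : IsWiener P) : IsBeta P U₀ beta₀ := by
  refine ⟨D₀.invP.measurable_flow, fun t => ?_⟩
  have h := D₀.invP.isIto hP t
  simp only [symm_eq_mulL]
  exact h

end Pool.Agent.Lib.UdB
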