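import Pool.Agent.Lib.UdB.ItoUniq3
import Pool.Agent.Lib.UdB.Uproc

/-!
# Uniqueness of the Ito integral: conclusion
-/

set_option autoImplicit false
set_option linter.unusedSectionVars false

open MeasureTheory Set Filter
open scoped ENNReal NNReal Topology InnerProductSpace

namespace Pool.Agent.Lib.UdB

theorem integrable_rS {P : Measure (Path ℂ)} (hP : IsWiener P) (c : unitInterval →₀ ℂ) (e : ℂ)
    (Φ : Simple ℂ) (t : unitInterval) : Integrable (fun ω => ec c ω * (rS c e Φ t ω : ℝ)) P := by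
  have := hP.1
  obtain ⟨C, hC⟩ := Φ.bdd
  have hξm : ∀ k (z : ℂ), Measurable fun ω => Φ.ξ k ω z := fun k z =>
    measurable_of_past (Φ.meas k z)
  have hsum2 : ∀ ω, ec c ω * ((rS c e Φ t ω : ℝ) : ℂ) = ∑ k ∈ Finset.range Φ.n,
      ec c ω * (rr c e (Φ.ξ k ω) (Ioc (min (Φ.τ k) t) (min (Φ.τ (k + 1)) t)) : ℝ) := by
    intro ω
    unfold rS
    rw [← Finset.mul_sum]
    push_cast
    rfl
  simp only [hsum2]
  refine integrable_finsetSum _ fun k _ => ?_
  set S := Ioc (min (Φ.τ k) t) (min (Φ.τ (k + 1)) t)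
  have hrm : Measurable fun ω => rr c e (Φ.ξ k ω) S := by
    have h1 := hξm k 1
    have h2 := hξm k Complex.I
    unfold rr
    fun_prop
  have h1 := measurable_ec c
  refine Integrable.of_bound (by fun_prop : Measurable _).aestronglyMeasurable
    (‖e‖ * C * |∫ s in S, ⟪(1 : ℂ), theta c s⟫_ℝ| +
      ‖e‖ * C * |∫ s in S, ⟪Complex.I, theta c s⟫_ℝ|)
    (Eventually.of_forall fun ω => ?_)
  rw [norm_mul, norm_ec, one_mul, Complex.norm_real, Real.norm_eq_abs]
  unfold rr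
  refine (abs_add_le _ _).trans ?_
  rw [abs_mul, abs_mul]
  have hb : ∀ z : ℂ, ‖z‖ = 1 → |⟪e, Φ.ξ k ω z⟫_ℝ| ≤ ‖e‖ * C := by
    intro z hz
    refine (abs_real_inner_le_norm _ _).trans ?_
    have h1 := (Φ.ξ k ω).le_opNorm z
    rw [hz, mul_one] at h1
    gcongr
    exact h1.trans (hC k ω)
  have h1 := hb 1 (by simp)
  have h2 := hb Complex.I (by simp)
  gcongr

theorem lintegral_lintegral_le_sqrt {P : Measure (Path ℂ)} [IsProbabilityMeasure P]
    {t : unitInterval} {f : Path ℂ × unitInterval → ℝ≥0∞} (hf : Measurable f) :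
    ∫⁻ ω, (∫⁻ s in Iic t, f (ω, s)) ∂P ≤
      (∫⁻ ω, (∫⁻ s in Iic t, f (ω, s) ^ 2) ∂P) ^ (1 / 2 : ℝ) := by
  have hm1 : Measurable fun ω => ∫⁻ s in Iic t, f (ω, s) := hf.lintegral_prod_right'
  refine (lintegral_le_sqrt hm1.aemeasurable).trans ?_
  gcongr with ω
  have h1 := lintegral_sq_le (μ := (volume : Measure unitInterval).restrict (Iic t))
    (f := fun s => f (ω, s)) (hf.comp (measurable_const.prodMk measurable_id)).aemeasurable
  refine h1.trans ?_
  calc _ ≤ 1 * ∫⁻ s in Iic t, f (ω, s) ^ 2 := by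
        gcongr
        rw [Measure.restrict_apply MeasurableSet.univ]
        exact prob_le_one
    _ = _ := one_mul _

/-- **Uniqueness of the Ito integral.** -/
theorem IsIto.unique {P : Measure (Path ℂ)} (hP : IsWiener P)
    {A : unitInterval → Path ℂ → (ℂ →L[ℝ] ℂ)}
    (hA : Measurable fun p : Path ℂ × unitInterval => A p.2 p.1) {t : unitInterval}
    {Z Z' : Path ℂ → ℂ} (hZ : Measurable Z) (hZ' : Measurable Z') (h : IsIto P A t Z)
    (h' : IsIto P A t Z') : Z =ᵐ[P] Z' := by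
  have := hP.1
  obtain ⟨Φ, h1, h2⟩ := h
  obtain ⟨Φ', h1', h2'⟩ := h'
  have hval : ∀ Ψ : Simple ℂ, Measurable fun p : Path ℂ × unitInterval =>
      ‖Ψ.val p.2 p.1 - A p.2 p.1‖ₑ := fun Ψ => ((measurable_val Ψ).sub hA).enorm
  have hval1 : ∀ (Ψ : Simple ℂ) (ω : Path ℂ), Measurable fun s : unitInterval =>
      ‖Ψ.val s ω - A s ω‖ₑ := fun Ψ ω => by
    have h0 := (hval Ψ).comp (measurable_prodMk_left (x := ω))
    exact h0
  have key : ∀ c e, ∫ ω, ec c ω * (⟪e, Z ω⟫_ℝ : ℝ) ∂P = ∫ ω, ec c ω * (⟪e, Z' ω⟫_ℝ : ℝ) ∂P := by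
    intro c e
    have t1 := (ito_tendsto hP hZ h2 c e).2
    have t2 := (ito_tendsto hP hZ' h2' c e).2
    have t3 := t1.sub t2
    set K := ENNReal.ofReal (‖e‖ * (c.sum fun _ v => ‖v‖)) with hK
    have t4 : Tendsto (fun m => Complex.I * ∫ ω, ec c ω * (rS c e (Φ m) t ω : ℝ) ∂P -
        Complex.I * ∫ ω, ec c ω * (rS c e (Φ' m) t ω : ℝ) ∂P) atTop (𝓝 0) := by
      rw [tendsto_iff_edist_tendsto_0]
      have hlim : Tendsto (fun m => K * ((∫⁻ ω, (∫⁻ s in Iic t,
          ‖(Φ m).val s ω - A s ω‖ₑ ^ 2) ∂P) ^ (1 / 2 : ℝ) + (∫⁻ ω, (∫⁻ s in Iic t,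
          ‖(Φ' m).val s ω - A s ω‖ₑ ^ 2) ∂P) ^ (1 / 2 : ℝ))) atTop (𝓝 0) := by
        have e1 := (tendsto_sqrt_zero h1).add (tendsto_sqrt_zero h1')
        have e2 := ENNReal.Tendsto.const_mul (a := K) e1
          (Or.inr (by rw [hK]; exact ENNReal.ofReal_ne_top))
        simpa using e2
      refine tendsto_of_tendsto_of_tendsto_of_le_of_le tendsto_const_nhds hlim
        (fun _ => zero_le) fun m => ?_
      simp only
      rw [edist_eq_enorm_sub, sub_zero, ← mul_sub,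
        ← integral_sub (integrable_rS hP c e (Φ m) t) (integrable_rS hP c e (Φ' m) t)]
      have e0 : ∀ z : ℂ, ‖Complex.I * z‖ₑ = ‖z‖ₑ := by
        intro z
        rw [← ofReal_norm, ← ofReal_norm, norm_mul, Complex.norm_I, one_mul]
      rw [e0]
      refine (enorm_integral_le_lintegral_enorm _).trans ?_
      calc ∫⁻ ω, ‖ec c ω * ((rS c e (Φ m) t ω : ℝ) : ℂ) -
            ec c ω * ((rS c e (Φ' m) t ω : ℝ) : ℂ)‖ₑ ∂P
          ≤ ∫⁻ ω, K * ((∫⁻ s in Iic t, ‖(Φ m).val s ω - A s ω‖ₑ) +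
              ∫⁻ s in Iic t, ‖(Φ' m).val s ω - A s ω‖ₑ) ∂P := by
            refine lintegral_mono fun ω => ?_
            have e1 : ‖ec c ω * ((rS c e (Φ m) t ω : ℝ) : ℂ) -
                ec c ω * ((rS c e (Φ' m) t ω : ℝ) : ℂ)‖ₑ =
                ‖rS c e (Φ m) t ω - rS c e (Φ' m) t ω‖ₑ := by
              rw [← mul_sub, ← Complex.ofReal_sub, ← ofReal_norm, ← ofReal_norm, norm_mul,
                norm_ec, one_mul, Complex.norm_real]
            rw [e1]
            refine (rS_sub_le c e (Φ m) (Φ' m) t ω).trans ?_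
            rw [← hK, ← lintegral_add_left (hval1 (Φ m) ω)]
            gcongr with s
            have e2 : (Φ m).val s ω - (Φ' m).val s ω = ((Φ m).val s ω - A s ω) -
                ((Φ' m).val s ω - A s ω) := by abel
            rw [e2]
            exact enorm_sub_le
        _ = K * ((∫⁻ ω, (∫⁻ s in Iic t, ‖(Φ m).val s ω - A s ω‖ₑ) ∂P) +
              ∫⁻ ω, (∫⁻ s in Iic t, ‖(Φ' m).val s ω - A s ω‖ₑ) ∂P) := by
            have e1 : ∀ Ψ : Simple ℂ, Measurable fun ω => ∫⁻ s in Iic t,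
                ‖Ψ.val s ω - A s ω‖ₑ := fun Ψ => (hval Ψ).lintegral_prod_right'
            have e2 : Measurable fun ω => (∫⁻ s in Iic t, ‖(Φ m).val s ω - A s ω‖ₑ) +
                ∫⁻ s in Iic t, ‖(Φ' m).val s ω - A s ω‖ₑ := (e1 _).add (e1 _)
            rw [lintegral_const_mul _ e2, lintegral_add_left (e1 _)]
        _ ≤ _ := by
            gcongr
            · exact lintegral_lintegral_le_sqrt (hval (Φ m))
            · exact lintegral_lintegral_le_sqrt (hval (Φ' m))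
    exact sub_eq_zero.1 (tendsto_nhds_unique t3 t4)
  have hZi := (ito_tendsto hP hZ h2 0 0).1
  have hZi' := (ito_tendsto hP hZ' h2' 0 0).1
  have hint : ∀ c e (Y : Path ℂ → ℂ), Integrable Y P →
      Integrable (fun ω => ec c ω * ((⟪e, Y ω⟫_ℝ : ℝ) : ℂ)) P := by
    intro c e Y hY
    have e2 : Integrable (fun ω => ((⟪e, Y ω⟫_ℝ : ℝ) : ℂ)) P := (hY.const_inner e).ofReal
    exact e2.bdd_mul (c := 1) (measurable_ec c).aestronglyMeasurable
      (Eventually.of_forall fun ω => (norm_ec c ω).le)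
  have comp : ∀ e : ℂ, ∀ᵐ ω ∂P, ⟪e, Z ω - Z' ω⟫_ℝ = 0 := by
    intro e
    refine ae_zero_of_char ?_ ((hZi.sub hZi').const_inner e) fun c => ?_
    · exact measurable_const.inner (hZ.sub hZ')
    · have e1 : ∀ ω, ec c ω * ((⟪e, Z ω - Z' ω⟫_ℝ : ℝ) : ℂ) =
          ec c ω * ((⟪e, Z ω⟫_ℝ : ℝ) : ℂ) - ec c ω * ((⟪e, Z' ω⟫_ℝ : ℝ) : ℂ) := by
        intro ω
        rw [inner_sub_right, Complex.ofReal_sub, mul_sub]
      simp only [e1]
      rw [integral_sub (hint c e Z hZi) (hint c e Z' hZi'), key c e, sub_self]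
  filter_upwards [comp 1, comp Complex.I] with ω e1 e2
  have h3 : ⟪(1 : ℂ), Z ω - Z' ω⟫_ℝ = (Z ω - Z' ω).re := by simp [Complex.inner]
  have h4 : ⟪Complex.I, Z ω - Z' ω⟫_ℝ = (Z ω - Z' ω).im := by simp [Complex.inner]
  rw [h3] at e1
  rw [h4] at e2
  exact sub_eq_zero.1 (Complex.ext e1 e2)

theorem measurable_mulL_F (A : AProc) : Measurable fun p : Path ℂ × unitInterval =>
    mulL (A.F (p.2 : ℝ) p.1.toFun) := by
  have h2 := A.measF
  have h3 : Measurable fun p : Path ℂ × unitInterval => ((p.2 : ℝ), p.1.toFun) :=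
    (measurable_subtype_coe.comp measurable_snd).prodMk (measurable_toFun.comp measurable_fst)
  have h1 := h2.comp h3
  have h4 : Continuous mulL := (ContinuousLinearMap.mul ℝ ℂ).continuous
  have h5 := h4.measurable.comp h1
  exact h5

theorem measurable_U₀_symm : Measurable fun p : Path ℂ × unitInterval =>
    ((U₀ p.2 p.1).symm : ℂ →L[ℝ] ℂ) := by
  simp only [symm_eq_mulL]
  exact measurable_mulL_F D₀.invP

/-- All versions of `β` are almost surely equal. -/
theorem isBeta_unique {P : Measure (Path ℂ)} (hP : IsWiener P) {β β' : Path ℂ → Path ℂ}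
    (h : IsBeta P U₀ β) (h' : IsBeta P U₀ β') : β =ᵐ[P] β' := by
  have h1 : ∀ t : unitInterval, ∀ᵐ ω ∂P, β ω t = β' ω t := fun t =>
    IsIto.unique hP measurable_U₀_symm ((measurable_eval t).comp h.1)
      ((measurable_eval t).comp h'.1) (h.2 t) (h'.2 t)
  obtain ⟨S, hS, hd⟩ := TopologicalSpace.exists_countable_dense unitInterval
  have h2 : ∀ᵐ ω ∂P, ∀ t ∈ S, β ω t = β' ω t := (ae_ball_iff hS).2 fun t _ => h1 t
  filter_upwards [h2] with ω hω
  have h3 : (β ω).toFun = (β' ω).toFun := (β ω).cont.ext_on hd (β' ω).cont hω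
  cases hb : β ω with
  | mk f hf =>
    cases hb' : β' ω with
    | mk g hg =>
      rw [hb, hb'] at h3
      simp only at h3
      subst h3
      rfl

end Pool.Agent.Lib.UdB
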