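import Pool.Agent.Lib.UdB.Flow

/-!
# Second moments of the Brownian path
-/

set_option autoImplicit false
set_option linter.unusedSectionVars false

open MeasureTheory Set Filter
open scoped ENNReal Topology InnerProductSpace

namespace Pool.Agent.Lib.UdB

theorem enorm_sq_complex (z : ℂ) : ‖z‖ₑ ^ 2 = ‖⟪(1 : ℂ), z⟫_ℝ‖ₑ ^ 2 + ‖⟪Complex.I, z⟫_ℝ‖ₑ ^ 2 := by
  have h1 : ⟪(1 : ℂ), z⟫_ℝ = z.re := by simp [Complex.inner]
  have h2 : ⟪Complex.I, z⟫_ℝ = z.im := by simp [Complex.inner]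
  rw [h1, h2, ← ofReal_norm, ← ofReal_norm, ← ofReal_norm, ← ENNReal.ofReal_pow (norm_nonneg _),
    ← ENNReal.ofReal_pow (norm_nonneg _), ← ENNReal.ofReal_pow (norm_nonneg _),
    ← ENNReal.ofReal_add (by positivity) (by positivity)]
  congr 1
  rw [Real.norm_eq_abs, Real.norm_eq_abs, sq_abs, sq_abs, ← Complex.normSq_eq_norm_sq,
    Complex.normSq_apply]
  ring

theorem Qf_single_sub {e : ℂ} (he : ‖e‖ = 1) (s t : unitInterval) :
    Qf (Finsupp.single s e - Finsupp.single t e) = |(s : ℝ) - t| := by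
  unfold Qf
  rw [Bf_sub_left, Bf_sub_right, Bf_sub_right, Bf_single_single, Bf_single_single,
    Bf_single_single, Bf_single_single, real_inner_self_eq_norm_sq, he, min_self, min_self,
    min_comm (t : ℝ) s]
  rcases le_total (s : ℝ) t with h | h
  · rw [min_eq_left h, abs_of_nonpos (by linarith)]; ring
  · rw [min_eq_right h, abs_of_nonneg (by linarith)]; ring

theorem IsWiener.lintegral_sub {P : Measure (Path ℂ)} (hP : IsWiener P) (s t : unitInterval) :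
    ∫⁻ ω, ‖ω s - ω t‖ₑ ^ 2 ∂P = ENNReal.ofReal (2 * |(s : ℝ) - t|) := by
  have hν := hP.isWR
  have key : ∀ e : ℂ, ‖e‖ = 1 → ∫⁻ ω : Path ℂ, ‖⟪e, ω s - ω t⟫_ℝ‖ₑ ^ 2 ∂P =
      ENNReal.ofReal |(s : ℝ) - t| := by
    intro e he
    have h1 := hν.lintegral_pair_sq (Finsupp.single s e - Finsupp.single t e)
    rw [Qf_single_sub he, lintegral_map (by have := measurable_pair (V := ℂ); fun_prop)
      measurable_toFun] at h1
    rw [← h1]
    refine lintegral_congr fun ω => ?_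
    rw [pair_sub, pair_single, pair_single, inner_sub_right]
  have h2 : ∀ ω : Path ℂ, ‖ω s - ω t‖ₑ ^ 2 =
      ‖⟪(1 : ℂ), ω s - ω t⟫_ℝ‖ₑ ^ 2 + ‖⟪Complex.I, ω s - ω t⟫_ℝ‖ₑ ^ 2 :=
    fun ω => enorm_sq_complex _
  simp only [h2]
  have hm : Measurable fun ω : Path ℂ => ‖⟪(1 : ℂ), ω s - ω t⟫_ℝ‖ₑ ^ 2 := by
    have h3 := (measurable_eval s).sub (measurable_eval t)
    exact ((measurable_const.inner h3).enorm).pow_const 2
  rw [lintegral_add_left hm, key 1 (by simp), key Complex.I (by simp),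
    ← ENNReal.ofReal_add (abs_nonneg _) (abs_nonneg _)]
  congr 1
  ring

theorem IsWiener.ae_zero {P : Measure (Path ℂ)} (hP : IsWiener P) : ∀ᵐ ω ∂P, ω 0 = 0 := by
  have hν := hP.isWR
  have key : ∀ e : ℂ, ∀ᵐ ω : Path ℂ ∂P, ⟪e, ω 0⟫_ℝ = 0 := by
    intro e
    have h1 := hν.lintegral_pair_sq (Finsupp.single 0 e)
    have h2 : Qf (Finsupp.single (0 : unitInterval) e) = 0 := by
      unfold Qf; rw [Bf_single_single]; simp
    rw [h2, lintegral_map (by have := measurable_pair (V := ℂ); fun_prop) measurable_toFun,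
      ENNReal.ofReal_zero, lintegral_eq_zero_iff] at h1
    · filter_upwards [h1] with ω hω
      simpa using hω
    · have := measurable_pair (V := ℂ) (Finsupp.single 0 e)
      have h3 := this.comp (measurable_toFun (V := ℂ))
      exact (h3.enorm).pow_const 2
  filter_upwards [key 1, key Complex.I] with ω h1 h2
  have h3 := enorm_sq_complex (ω 0)
  rw [h1, h2] at h3
  simpa using h3

theorem ext_of_mem (ω : Path ℂ) {r : ℝ} (hr : r ∈ Set.Icc (0 : ℝ) 1) : ext ω r = ω ⟨r, hr⟩ := by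
  rw [ext, Set.projIcc_of_mem zero_le_one hr]

theorem IsWiener.lintegral_ext_sub {P : Measure (Path ℂ)} (hP : IsWiener P) {r s : ℝ}
    (hr : r ∈ Set.Icc (0 : ℝ) 1) (hs : s ∈ Set.Icc (0 : ℝ) 1) :
    ∫⁻ ω, ‖ext ω r - ext ω s‖ₑ ^ 2 ∂P = ENNReal.ofReal (2 * |r - s|) := by
  simp only [ext_of_mem _ hr, ext_of_mem _ hs]
  exact hP.lintegral_sub ⟨r, hr⟩ ⟨s, hs⟩

theorem IsWiener.lintegral_ext {P : Measure (Path ℂ)} (hP : IsWiener P) {r : ℝ}
    (hr : r ∈ Set.Icc (0 : ℝ) 1) :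
    ∫⁻ ω, ‖ext ω r‖ₑ ^ 2 ∂P = ENNReal.ofReal (2 * r) := by
  have h1 := hP.lintegral_ext_sub hr (s := 0) ⟨le_rfl, zero_le_one⟩
  rw [sub_zero, abs_of_nonneg hr.1] at h1
  rw [← h1]
  refine lintegral_congr_ae ?_
  filter_upwards [hP.ae_zero] with ω hω
  have h2 : ext ω 0 = 0 := by
    rw [← hω]; exact ext_coe ω 0
  simp only [h2, sub_zero]

/-- Cauchy-Schwarz. -/
theorem lintegral_mul_sq_le {α : Type} [MeasurableSpace α] {μ : Measure α} {f g : α → ℝ≥0∞}
    (hf : AEMeasurable f μ) (hg : AEMeasurable g μ) :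
    (∫⁻ a, f a * g a ∂μ) ^ 2 ≤ (∫⁻ a, f a ^ 2 ∂μ) * ∫⁻ a, g a ^ 2 ∂μ := by
  have h := ENNReal.lintegral_mul_le_Lp_mul_Lq μ
    (Real.HolderConjugate.two_two) hf hg
  have h2 := pow_le_pow_left' h 2
  simp only [Pi.mul_apply] at h2
  refine h2.trans (le_of_eq ?_)
  rw [mul_pow, ← ENNReal.rpow_natCast, ← ENNReal.rpow_natCast, ← ENNReal.rpow_mul,
    ← ENNReal.rpow_mul]
  norm_num

theorem lintegral_sq_le {α : Type} [MeasurableSpace α] {μ : Measure α} {f : α → ℝ≥0∞}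
    (hf : AEMeasurable f μ) :
    (∫⁻ a, f a ∂μ) ^ 2 ≤ μ Set.univ * ∫⁻ a, f a ^ 2 ∂μ := by
  have := lintegral_mul_sq_le (f := fun _ => 1) (μ := μ) aemeasurable_const hf
  simpa using this

namespace AProc

variable (A : AProc)

theorem h_nonneg {r : ℝ} (hr : 0 < r) : 0 ≤ A.h r :=
  (norm_nonneg _).trans (A.bound (fun _ => 0) r hr)

/-- The weighted integral near `0`. -/
noncomputable def wt (u : ℝ) : ℝ≥0∞ := ∫⁻ r in Set.Ioc (0 : ℝ) u, ENNReal.ofReal (√r * A.h r)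

/-- Second moment of the pathwise integral near `0`. -/
theorem lintegral_near_zero {P : Measure (Path ℂ)} (hP : IsWiener P) {u : ℝ} (hu : u ≤ 1) :
    ∫⁻ ω, (∫⁻ r in Set.Ioc (0 : ℝ) u, ‖ext ω r‖ₑ * ENNReal.ofReal (A.h r)) ^ 2 ∂P ≤
      2 * A.wt u ^ 2 := by
  have := hP.1
  have hh := A.hmeas
  have hme : Measurable fun p : Path ℂ × ℝ => ext p.1 p.2 := measurable_ext.comp measurable_swap
  have step : ∀ ω : Path ℂ,
      (∫⁻ r in Set.Ioc (0 : ℝ) u, ‖ext ω r‖ₑ * ENNReal.ofReal (A.h r)) ^ 2 ≤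
      (∫⁻ r in Set.Ioc (0 : ℝ) u, ‖ext ω r‖ₑ ^ 2 * ENNReal.ofReal (A.h r / √r)) * A.wt u := by
    intro ω
    have h1 : ∫⁻ r in Set.Ioc (0 : ℝ) u, ‖ext ω r‖ₑ * ENNReal.ofReal (A.h r) =
        ∫⁻ r in Set.Ioc (0 : ℝ) u, (‖ext ω r‖ₑ * ENNReal.ofReal (√(A.h r / √r))) *
          ENNReal.ofReal (√(√r * A.h r)) := by
      refine setLIntegral_congr_fun measurableSet_Ioc fun r hr => ?_
      have h2 := A.h_nonneg hr.1
      have h3 : 0 < √r := Real.sqrt_pos.2 hr.1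
      rw [mul_assoc, ← ENNReal.ofReal_mul (Real.sqrt_nonneg _), ← Real.sqrt_mul (by positivity)]
      congr 2
      rw [show A.h r / √r * (√r * A.h r) = A.h r ^ 2 by field_simp, Real.sqrt_sq h2]
    rw [h1]
    refine (lintegral_mul_sq_le ?_ ?_).trans (le_of_eq ?_)
    · have : Measurable fun r => ext ω r := (continuous_ext ω).measurable
      fun_prop
    · fun_prop
    · unfold wt
      congr 1
      · refine setLIntegral_congr_fun measurableSet_Ioc fun r hr => ?_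
        have h2 := A.h_nonneg hr.1
        have h3 : 0 < √r := Real.sqrt_pos.2 hr.1
        rw [mul_pow, ← ENNReal.ofReal_pow (Real.sqrt_nonneg _), Real.sq_sqrt (by positivity)]
      · refine setLIntegral_congr_fun measurableSet_Ioc fun r hr => ?_
        have h2 := A.h_nonneg hr.1
        rw [← ENNReal.ofReal_pow (Real.sqrt_nonneg _), Real.sq_sqrt (by positivity)]
  refine (lintegral_mono step).trans ?_
  have hm1 : Measurable fun p : Path ℂ × ℝ =>
      ‖ext p.1 p.2‖ₑ ^ 2 * ENNReal.ofReal (A.h p.2 / √p.2) := by fun_prop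
  rw [lintegral_mul_const _ (hm1.lintegral_prod_right'),
    lintegral_lintegral_swap hm1.aemeasurable]
  have h4 : ∫⁻ r in Set.Ioc (0 : ℝ) u, ∫⁻ ω, ‖ext ω r‖ₑ ^ 2 * ENNReal.ofReal (A.h r / √r) ∂P =
      2 * A.wt u := by
    unfold wt
    rw [← lintegral_const_mul _ (by fun_prop)]
    refine setLIntegral_congr_fun measurableSet_Ioc fun r hr => ?_
    have h2 := A.h_nonneg hr.1
    have h3 : 0 < √r := Real.sqrt_pos.2 hr.1
    have hme' : Measurable fun ω : Path ℂ => ext ω r :=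
      measurable_ext.comp (measurable_const.prodMk measurable_id)
    rw [lintegral_mul_const _ (by fun_prop), hP.lintegral_ext ⟨hr.1.le, hr.2.trans hu⟩,
      ← ENNReal.ofReal_mul (by linarith [hr.1]), show (2 : ℝ≥0∞) = ENNReal.ofReal 2 by simp,
      ← ENNReal.ofReal_mul (by norm_num)]
    congr 1
    have h5 : r = √r * √r := (Real.mul_self_sqrt hr.1.le).symm
    field_simp
    nth_rewrite 1 [h5]
    ring
  rw [h4, mul_assoc, sq]

theorem ae_good {P : Measure (Path ℂ)} (hP : IsWiener P) : ∀ᵐ ω ∂P, A.good ω := by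
  have h1 := A.lintegral_near_zero hP (u := 1) le_rfl
  have h2 : 2 * A.wt 1 ^ 2 < ∞ := by
    have := A.hint
    exact ENNReal.mul_lt_top (by simp) (ENNReal.pow_lt_top (lt_top_iff_ne_top.2 this))
  have hme : Measurable fun p : Path ℂ × ℝ => ext p.1 p.2 := measurable_ext.comp measurable_swap
  have hh := A.hmeas
  have hm : Measurable fun ω : Path ℂ =>
      (∫⁻ r in Set.Ioc (0 : ℝ) 1, ‖ext ω r‖ₑ * ENNReal.ofReal (A.h r)) ^ 2 := by
    refine Measurable.pow_const (Measurable.lintegral_prod_right' (f := fun p : Path ℂ × ℝ =>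
        ‖ext p.1 p.2‖ₑ * ENNReal.ofReal (A.h p.2)) (by fun_prop)) 2
  have h3 := ae_lt_top hm (h1.trans_lt h2).ne
  filter_upwards [hP.ae_zero, h3] with ω h4 h5
  refine ⟨h4, ?_⟩
  intro h6
  rw [h6] at h5
  simp at h5

end AProc

end Pool.Agent.Lib.UdB
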