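import Pool.Agent.Lib.UdB.PolyK

/-!
# Gaussian tails
-/

set_option autoImplicit false
set_option linter.unusedSectionVars false

open MeasureTheory Set ProbabilityTheory
open scoped ENNReal NNReal

namespace Pool.Agent.Lib.UdB

/-- The standard Gaussian. -/
noncomputable abbrev γ : Measure ℝ := gaussianReal 0 1

/-- Transition window. -/
noncomputable def setT (i : ℕ) : Set ℝ := Ioo (KK i) (KK i + (KK i ^ 8)⁻¹)

/-- Full activation. -/
noncomputable def setF (i : ℕ) : Set ℝ := Ici (KK i + (KK i ^ 8)⁻¹)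

/-- The normalization of the density. -/
noncomputable def gc : ℝ := (√(2 * Real.pi * ((1 : ℝ≥0) : ℝ)))⁻¹

theorem gc_pos : 0 < gc := by unfold gc; positivity

theorem pdf_eq (x : ℝ) : gaussianPDF 0 1 x = ENNReal.ofReal (gc * Real.exp (-x ^ 2 / 2)) := by
  unfold gaussianPDF gaussianPDFReal gc
  congr 3
  simp

theorem measure_le_of_bound {a b B : ℝ} (h : ∀ x ∈ Ioo a b, gc * Real.exp (-x ^ 2 / 2) ≤ B)
    (hB : 0 ≤ B) : γ (Ioo a b) ≤ ENNReal.ofReal ((b - a) * B) := by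
  rw [gaussianReal_apply 0 (by norm_num)]
  calc ∫⁻ x in Ioo a b, gaussianPDF 0 1 x ≤ ∫⁻ _ in Ioo a b, ENNReal.ofReal B := by
        refine setLIntegral_mono' measurableSet_Ioo fun x hx => ?_
        rw [pdf_eq]
        exact ENNReal.ofReal_le_ofReal (h x hx)
    _ = _ := by
        rw [setLIntegral_const, Real.volume_Ioo, mul_comm, ENNReal.ofReal_mul' hB]

theorem le_measure_of_bound {a b B : ℝ} (h : ∀ x ∈ Icc a b, B ≤ gc * Real.exp (-x ^ 2 / 2))
    (hB : 0 ≤ B) : ENNReal.ofReal ((b - a) * B) ≤ γ (Icc a b) := by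
  rw [gaussianReal_apply 0 (by norm_num)]
  calc _ = ∫⁻ _ in Icc a b, ENNReal.ofReal B := by
        rw [setLIntegral_const, Real.volume_Icc, ENNReal.ofReal_mul' hB, mul_comm]
    _ ≤ _ := by
        refine setLIntegral_mono' measurableSet_Icc fun x hx => ?_
        rw [pdf_eq]
        exact ENNReal.ofReal_le_ofReal (h x hx)

theorem exp_neg_two_ge : (1 : ℝ) / 8 ≤ Real.exp (-2) := by
  have h1 : Real.exp 2 ≤ 8 := by
    have h := Real.exp_one_lt_d9
    have h2 : Real.exp 2 = Real.exp 1 * Real.exp 1 := by rw [← Real.exp_add]; norm_num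
    rw [h2]
    have h3 := Real.exp_pos 1
    nlinarith
  rw [Real.exp_neg, one_div]
  exact inv_anti₀ (Real.exp_pos 2) h1

theorem key_ineq {K w : ℝ} (hK : 2 ≤ K) (hw0 : 0 < w) (hw : w * K ≤ 1 / 8) :
    Real.exp (-K ^ 2 / 2) / 8 ≤ Real.exp (-(K + w + K⁻¹) ^ 2 / 2) := by
  have hK0 : 0 < K := by linarith
  have h1 : K⁻¹ ≤ 1 / 2 := by
    rw [inv_eq_one_div]
    exact one_div_le_one_div_of_le (by norm_num) hK
  have h2 : 0 < K⁻¹ := inv_pos.2 hK0
  have h3 : K * K⁻¹ = 1 := mul_inv_cancel₀ hK0.ne'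
  have hw2 : w ≤ 1 / 8 := by nlinarith
  have h4 : -2 + -K ^ 2 / 2 ≤ -(K + w + K⁻¹) ^ 2 / 2 := by
    nlinarith [sq_nonneg (w + K⁻¹)]
  calc Real.exp (-K ^ 2 / 2) / 8 = (1 / 8) * Real.exp (-K ^ 2 / 2) := by ring
    _ ≤ Real.exp (-2) * Real.exp (-K ^ 2 / 2) := by
      gcongr; exact exp_neg_two_ge
    _ = Real.exp (-2 + -K ^ 2 / 2) := by rw [← Real.exp_add]
    _ ≤ _ := Real.exp_le_exp.2 h4

/-- `κ_i`. -/
noncomputable def kap (i : ℕ) : ℝ := (1 / 2) ^ (i + 3)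

theorem kap_pos (i : ℕ) : 0 < kap i := by unfold kap; positivity

theorem KK_pow_seven (i : ℕ) : 8 ≤ kap i * KK i ^ 7 := by
  unfold kap KK
  rw [← pow_mul, one_div, inv_pow, inv_mul_eq_div, le_div_iff₀ (by positivity)]
  have : (8 : ℝ) * 2 ^ (i + 3) = 2 ^ (3 + (i + 3)) := by
    rw [pow_add 2 3 (i + 3)]; norm_num
  rw [this]
  exact pow_le_pow_right₀ (by norm_num) (by nlinarith)

theorem lower_F (i : ℕ) : ENNReal.ofReal ((KK i)⁻¹ * (gc * (Real.exp (-(KK i) ^ 2 / 2) / 8))) ≤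
    γ (setF i) := by
  set K := KK i with hKdef
  have hK : 2 ≤ K := KK_ge_two i
  have hK0 : 0 < K := by linarith
  set w := (K ^ 8)⁻¹ with hw
  have hw0 : 0 < w := by rw [hw]; positivity
  have hwK : w * K ≤ 1 / 8 := by
    have h1 : w * K = (K ^ 7)⁻¹ := by rw [hw]; field_simp
    rw [h1, one_div]
    apply inv_anti₀ (by norm_num)
    calc (8 : ℝ) ≤ 2 ^ 7 := by norm_num
      _ ≤ K ^ 7 := pow_le_pow_left₀ (by norm_num) hK 7
  have h1 := le_measure_of_bound (a := K + w) (b := K + w + K⁻¹)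
    (B := gc * (Real.exp (-K ^ 2 / 2) / 8)) ?_ (by have := gc_pos; positivity)
  · have h2 : K + w + K⁻¹ - (K + w) = K⁻¹ := by ring
    rw [h2] at h1
    refine h1.trans (measure_mono ?_)
    intro x hx
    exact hx.1
  · intro x hx
    have h3 := gc_pos
    refine mul_le_mul_of_nonneg_left ?_ h3.le
    refine (key_ineq hK hw0 hwK).trans (Real.exp_le_exp.2 ?_)
    have h4 : 0 ≤ x := by linarith [hx.1]
    have h5 : x ^ 2 ≤ (K + w + K⁻¹) ^ 2 := pow_le_pow_left₀ h4 hx.2 2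
    linarith

theorem upper_T (i : ℕ) : γ (setT i) ≤
    ENNReal.ofReal ((KK i ^ 8)⁻¹ * (gc * Real.exp (-(KK i) ^ 2 / 2))) := by
  have hK0 := KK_pos i
  have hc := gc_pos
  have h1 := measure_le_of_bound (a := KK i) (b := KK i + (KK i ^ 8)⁻¹)
    (B := gc * Real.exp (-(KK i) ^ 2 / 2)) ?_ (by positivity)
  · have h2 : KK i + (KK i ^ 8)⁻¹ - KK i = (KK i ^ 8)⁻¹ := by ring
    rw [h2] at h1
    exact h1
  · intro x hx
    refine mul_le_mul_of_nonneg_left (Real.exp_le_exp.2 ?_) hc.le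
    have : KK i ^ 2 ≤ x ^ 2 := pow_le_pow_left₀ hK0.le hx.1.le 2
    linarith

/-- The transition window is much less likely than the full activation. -/
theorem measure_T_le (i : ℕ) : γ (setT i) ≤ ENNReal.ofReal (kap i) * γ (setF i) := by
  refine (upper_T i).trans ?_
  refine le_trans ?_ (mul_le_mul' le_rfl (lower_F i))
  rw [← ENNReal.ofReal_mul (kap_pos i).le]
  apply ENNReal.ofReal_le_ofReal
  have hK0 := KK_pos i
  have hc := gc_pos
  have h1 := KK_pow_seven i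
  have h2 : (KK i ^ 8)⁻¹ ≤ kap i * ((KK i)⁻¹ / 8) := by
    have h3 : (KK i ^ 8)⁻¹ = (KK i ^ 7)⁻¹ * (KK i)⁻¹ := by
      rw [← mul_inv, ← pow_succ]
    have h4 : (KK i ^ 7)⁻¹ ≤ kap i / 8 := by
      rw [inv_le_iff_one_le_mul₀ (pow_pos hK0 7)]
      linarith
    rw [h3]
    calc (KK i ^ 7)⁻¹ * (KK i)⁻¹ ≤ kap i / 8 * (KK i)⁻¹ := by gcongr
      _ = _ := by ring
  calc (KK i ^ 8)⁻¹ * (gc * Real.exp (-(KK i) ^ 2 / 2))
      ≤ kap i * ((KK i)⁻¹ / 8) * (gc * Real.exp (-(KK i) ^ 2 / 2)) := by gcongr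
    _ = _ := by ring

theorem measure_F_pos (i : ℕ) : 0 < γ (setF i) := by
  refine lt_of_lt_of_le ?_ (lower_F i)
  rw [ENNReal.ofReal_pos]
  have hK0 := KK_pos i
  have hc := gc_pos
  positivity

theorem kap_le_half (i : ℕ) : kap i ≤ 1 / 8 := by
  unfold kap
  calc (1 / 2 : ℝ) ^ (i + 3) ≤ (1 / 2) ^ 3 :=
        pow_le_pow_of_le_one (by norm_num) (by norm_num) (by omega)
    _ = 1 / 8 := by norm_num

/-- `P(τ ≤ K) + 2 P(K < τ < K + w) + P(τ ≥ K + w)/2 ≤ 1`. -/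
theorem prob_sum_le (i : ℕ) : γ (Iic (KK i)) + 2 * γ (setT i) + γ (setF i) / 2 ≤ 1 := by
  have h1 : γ (Iic (KK i)) + γ (setT i) + γ (setF i) = 1 := by
    have hw0 : 0 < (KK i ^ 8)⁻¹ := by have := KK_pos i; positivity
    have hu : Iic (KK i) ∪ setT i ∪ setF i = univ := by
      ext x
      simp only [setT, setF, mem_union, mem_Iic, mem_Ioo, mem_Ici, mem_univ, iff_true]
      rcases le_or_gt x (KK i) with h | h
      · exact Or.inl (Or.inl h)
      · rcases lt_or_ge x (KK i + (KK i ^ 8)⁻¹) with h' | h'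
        · exact Or.inl (Or.inr ⟨h, h'⟩)
        · exact Or.inr h'
    have hd1 : Disjoint (Iic (KK i)) (setT i) := by
      rw [Set.disjoint_left]; intro x hx hx'; exact absurd hx'.1 (not_lt.2 hx)
    have hd2 : Disjoint (Iic (KK i) ∪ setT i) (setF i) := by
      rw [Set.disjoint_left]
      rintro x (hx | hx) hx'
      · have h3 : KK i + (KK i ^ 8)⁻¹ ≤ x := hx'
        have h4 : x ≤ KK i := hx
        linarith
      · exact absurd hx.2 (not_lt.2 hx')
    rw [← measure_union hd1 measurableSet_Ioo, ← measure_union hd2 measurableSet_Ici, hu,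
      measure_univ]
  have h2 : γ (setT i) ≤ γ (setF i) / 2 := by
    refine (measure_T_le i).trans ?_
    rw [div_eq_mul_inv, mul_comm]
    gcongr
    have h3 : kap i ≤ 1 / 2 := (kap_le_half i).trans (by norm_num)
    calc ENNReal.ofReal (kap i) ≤ ENNReal.ofReal (1 / 2) := ENNReal.ofReal_le_ofReal h3
      _ = 2⁻¹ := by
        rw [one_div, ENNReal.ofReal_inv_of_pos (by norm_num)]
        simp
  calc γ (Iic (KK i)) + 2 * γ (setT i) + γ (setF i) / 2
      = γ (Iic (KK i)) + γ (setT i) + (γ (setT i) + γ (setF i) / 2) := by ring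
    _ ≤ γ (Iic (KK i)) + γ (setT i) + (γ (setF i) / 2 + γ (setF i) / 2) := by gcongr
    _ = 1 := by rw [ENNReal.add_halves, h1]

end Pool.Agent.Lib.UdB
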