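import Pool.Agent.Lib.UdB.GateMom
import Pool.Agent.Lib.UdB.Tail

/-!
# Moments of the Sobolev norms of the messages
-/

set_option autoImplicit false
set_option linter.unusedSectionVars false

open MeasureTheory Set
open scoped ENNReal NNReal InnerProductSpace

namespace Pool.Agent.Lib.UdB

/-- Indicator function with extended nonnegative values. -/
noncomputable def ind (S : Set ℝ) : ℝ → ℝ≥0∞ := S.indicator fun _ => 1

theorem measurable_ind {S : Set ℝ} (hS : MeasurableSet S) : Measurable (ind S) :=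
  measurable_const.indicator hS

theorem ind_mem {S : Set ℝ} {y : ℝ} (h : y ∈ S) : ind S y = 1 := indicator_of_mem h _

theorem ind_notMem {S : Set ℝ} {y : ℝ} (h : y ∉ S) : ind S y = 0 := indicator_of_notMem h _

theorem IsWR.lintegral_ind {V : Type} [NormedAddCommGroup V] [InnerProductSpace ℝ V]
    [FiniteDimensional ℝ V] [MeasurableSpace V] [BorelSpace V]
    {ν : Measure (unitInterval → V)} (hν : IsWR ν)
    {c : unitInterval →₀ V} (hc : Qf c = 1) {S : Set ℝ} (hS : MeasurableSet S) :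
    ∫⁻ x, ind S (pair c x) ∂ν = γ S := by
  rw [hν.lintegral_pair hc (measurable_ind hS)]
  unfold ind
  rw [lintegral_indicator hS, setLIntegral_const, one_mul]

theorem measurableSet_setT (i : ℕ) : MeasurableSet (setT i) := measurableSet_Ioo

theorem measurableSet_setF (i : ℕ) : MeasurableSet (setF i) := measurableSet_Ici

theorem trichotomy (i : ℕ) (y : ℝ) : (y ≤ KK i ∧ y ∈ Iic (KK i) ∧ y ∉ setT i ∧ y ∉ setF i) ∨
    (y ∈ setT i ∧ y ∉ Iic (KK i) ∧ y ∉ setF i) ∨
    (KK i + (KK i ^ 8)⁻¹ ≤ y ∧ y ∉ Iic (KK i) ∧ y ∉ setT i ∧ y ∈ setF i) := by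
  have hw0 : 0 < (KK i ^ 8)⁻¹ := by have := KK_pos i; positivity
  simp only [setT, setF, mem_Iic, mem_Ioo, mem_Ici]
  rcases le_or_gt y (KK i) with h | h
  · left
    exact ⟨h, h, fun h' => absurd h'.1 (not_lt.2 h), by linarith⟩
  · right
    rcases lt_or_ge y (KK i + (KK i ^ 8)⁻¹) with h' | h'
    · left
      exact ⟨⟨h, h'⟩, not_le.2 h, not_le.2 h'⟩
    · right
      exact ⟨h', not_le.2 h, fun h'' => absurd h''.2 (not_lt.2 h'), h'⟩

namespace TimeData

variable (D : TimeData)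
variable {ι : Type} (b : HilbertBasis ι ℝ (H ℂ))

/-- The activation variable. -/
noncomputable abbrev tau (i m : ℕ) : (unitInterval → ℂ) → ℝ := pair (D.inc i m 0 1)

theorem msg_succ (i m : ℕ) : D.msg i (m + 1) =
    fun x => (1 - D.chi i m x) * D.msg i m x + D.chi i m x * D.gate i m x := rfl

theorem en_chi_gate_le {i m : ℕ} (hm : m < D.M i) (r : ℕ) (x : unitInterval → ℂ) :
    en b r (fun x => D.chi i m x * D.gate i m x) x ≤
      cR r * ((chiC r i + 1) * NN b r (D.gate i m) x) := by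
  refine (en_le_NN b le_rfl _ x).trans ?_
  refine (NN_mul_le b r (D.isCyl_chi i m) (D.isCyl_gate i m) x).trans ?_
  change cR r * _ ≤ _
  gcongr
  exact D.NN_chi_le b hm r x

theorem en_chi_gate_left {i m : ℕ} (hm : m < D.M i) (r : ℕ) (x : unitInterval → ℂ)
    (h : D.tau i m x ≤ KK i) :
    en b r (fun x => D.chi i m x * D.gate i m x) x = 0 := by
  refine le_antisymm ?_ zero_le
  refine (en_le_NN b le_rfl _ x).trans ?_
  refine (NN_mul_le b r (D.isCyl_chi i m) (D.isCyl_gate i m) x).trans ?_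
  rw [D.NN_chi_left b hm r x h]
  simp

/-- One step of the recursion, pointwise. -/
theorem en_msg_succ_le (r p : ℕ) : ∃ C : ℝ≥0, ∀ {i m : ℕ}, m < D.M i → ∀ x : unitInterval → ℂ,
    en b (r + 1) (D.msg i (m + 1)) x ^ (p + 1) ≤
      en b (r + 1) (D.msg i m) x ^ (p + 1) * (ind (Iic (KK i)) (D.tau i m x) +
        2 * ind (setT i) (D.tau i m x)) +
      (C * (2 * 4 ^ (r + 1) * chiC (r + 1) i) ^ (p + 1)) *
        (NN b r (D.msg i m) x ^ (p + 1) * ind (setT i) (D.tau i m x)) +
      (C * (2 * (cR (r + 1) * (chiC (r + 1) i + 1))) ^ (p + 1)) *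
        ((ind (setT i) (D.tau i m x) + ind (setF i) (D.tau i m x)) *
          NN b (r + 1) (D.gate i m) x ^ (p + 1)) := by
  obtain ⟨C, hC⟩ := en_mul_add_pow b (p + 1)
  refine ⟨C * 2 ^ (p + 1), fun {i m} hm x => ?_⟩
  have hcyl := D.isCyl_one_sub_chi i m
  have h1 := hC hcyl (D.isCyl_msg i m) ((D.isCyl_chi i m).mul (D.isCyl_gate i m)) r x
  rw [N1_one_sub b _ (D.isCyl_chi i m)] at h1
  have hH := D.en_chi_gate_le b hm (r + 1) x
  have hF1 : ‖1 - D.chi i m x‖ₑ ^ 2 ≤ 1 := enorm_sq_le_one (sub_nonneg.2 (D.chi_le_one i m x))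
    (by linarith [D.chi_nonneg i m x])
  rw [msg_succ]
  rcases trichotomy i (D.tau i m x) with ⟨h, hZ, hT, hF⟩ | ⟨hT, hZ, hF⟩ | ⟨h, hZ, hT, hF⟩
  · rw [ind_mem hZ, ind_notMem hT, ind_notMem hF]
    have h2 := en_mul_add_zero b hcyl (D.isCyl_msg i m)
      ((D.isCyl_chi i m).mul (D.isCyl_gate i m)) r x
      (by rw [N1_one_sub b _ (D.isCyl_chi i m)]; exact D.N1_chi_left b hm (r + 1) x h)
      (D.en_chi_gate_left b hm (r + 1) x h)
    have h3 : en b (r + 1) (fun x => (1 - D.chi i m x) * D.msg i m x +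
        D.chi i m x * D.gate i m x) x ≤ en b (r + 1) (D.msg i m) x := by
      refine h2.trans ?_
      calc _ ≤ 1 * en b (r + 1) (D.msg i m) x := by gcongr
        _ = _ := one_mul _
    simp only [mul_zero, add_zero, mul_one, zero_mul]
    exact pow_le_pow_left' h3 _
  · rw [ind_notMem hZ, ind_mem hT, ind_notMem hF]
    refine h1.trans ?_
    have h4 := D.N1_chi_le b hm (r + 1) x
    calc 2 * (‖1 - D.chi i m x‖ₑ ^ 2 * en b (r + 1) (D.msg i m) x) ^ (p + 1) +
          C * (2 * (4 ^ (r + 1) * (N1 b (r + 1) (D.chi i m) x * NN b r (D.msg i m) x)) +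
            2 * en b (r + 1) (fun x => D.chi i m x * D.gate i m x) x) ^ (p + 1)
        ≤ 2 * (1 * en b (r + 1) (D.msg i m) x) ^ (p + 1) +
          C * (2 * (4 ^ (r + 1) * (chiC (r + 1) i * NN b r (D.msg i m) x)) +
            2 * (cR (r + 1) * ((chiC (r + 1) i + 1) * NN b (r + 1) (D.gate i m) x))) ^ (p + 1) := by
          gcongr
      _ ≤ 2 * (1 * en b (r + 1) (D.msg i m) x) ^ (p + 1) +
          C * (2 ^ (p + 1) * ((2 * (4 ^ (r + 1) * (chiC (r + 1) i * NN b r (D.msg i m) x))) ^ (p + 1)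
            + (2 * (cR (r + 1) * ((chiC (r + 1) i + 1) *
              NN b (r + 1) (D.gate i m) x))) ^ (p + 1))) := by
          gcongr
          exact add_pow_le_two_pow _ _ _
      _ = _ := by
          push_cast
          generalize chiC (r + 1) i + 1 = c'
          generalize (4 : ℝ≥0∞) ^ (r + 1) = f4
          generalize p + 1 = q
          ring
  · rw [ind_notMem hZ, ind_notMem hT, ind_mem hF]
    refine h1.trans ?_
    have h5 : D.chi i m x = 1 := chif_one h
    rw [D.N1_chi_right b hm (r + 1) x h, h5]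
    have h6 : ‖(1 : ℝ) - 1‖ₑ = 0 := by simp
    rw [h6]
    have h7 : (0 : ℝ≥0∞) ^ 2 * en b (r + 1) (D.msg i m) x = 0 := by simp
    rw [h7]
    simp only [mul_zero, add_zero, zero_add, zero_mul, one_mul]
    rw [zero_pow (Nat.succ_ne_zero p), mul_zero, zero_add]
    have h8 : (1 : ℝ≥0∞) ≤ 2 ^ (p + 1) := one_le_pow₀ (by norm_num)
    calc C * (2 * en b (r + 1) (fun x => D.chi i m x * D.gate i m x) x) ^ (p + 1)
        ≤ C * (2 * (cR (r + 1) * ((chiC (r + 1) i + 1) *
            NN b (r + 1) (D.gate i m) x))) ^ (p + 1) := by gcongr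
      _ = (C * 1) * (2 * (cR (r + 1) * (chiC (r + 1) i + 1))) ^ (p + 1) *
            NN b (r + 1) (D.gate i m) x ^ (p + 1) := by
          generalize chiC (r + 1) i + 1 = c'
          generalize p + 1 = q
          ring
      _ ≤ (C * 2 ^ (p + 1)) * (2 * (cR (r + 1) * (chiC (r + 1) i + 1))) ^ (p + 1) *
            NN b (r + 1) (D.gate i m) x ^ (p + 1) := by gcongr
      _ = _ := by push_cast; ring

end TimeData

end Pool.Agent.Lib.UdB
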