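import Pool.Agent.Lib.UdB.MsgMom

/-!
# Moments of the Sobolev norms of the messages: the recursion
-/

set_option autoImplicit false
set_option linter.unusedSectionVars false

open MeasureTheory Set
open scoped ENNReal NNReal InnerProductSpace

namespace Pool.Agent.Lib.UdB

namespace TimeData

variable (D : TimeData)
variable {ι : Type} [Countable ι] (b : HilbertBasis ι ℝ (H ℂ))

theorem measurable_tau (i m : ℕ) : Measurable (D.tau i m) := measurable_pair _

theorem en_recursion {ν : Measure (unitInterval → ℂ)} (hν : IsWR ν) (r p : ℕ) {sY : ℕ → ℝ≥0∞}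
    (hY : ∀ i m, m ≤ D.M i → ∫⁻ x, NN b r (D.msg i m) x ^ (p + 1) ∂ν ≤ sY i) {sW : ℕ → ℝ≥0∞}
    (hW : ∀ i m, m < D.M i → ∫⁻ x, NN b (r + 1) (D.gate i m) x ^ (p + 1) ∂ν ≤ sW i) :
    ∃ C : ℝ≥0, ∀ i m, m ≤ D.M i → ∫⁻ x, en b (r + 1) (D.msg i m) x ^ (p + 1) ∂ν ≤
      2 * ((C * (2 * 4 ^ (r + 1) * chiC (r + 1) i) ^ (p + 1)) * sY i +
        2 * ((C * (2 * (cR (r + 1) * (chiC (r + 1) i + 1))) ^ (p + 1)) * sW i)) := by
  obtain ⟨C, hC⟩ := D.en_msg_succ_le b r p
  refine ⟨C, fun i m => ?_⟩
  set c1 : ℝ≥0∞ := C * (2 * 4 ^ (r + 1) * chiC (r + 1) i) ^ (p + 1) with hc1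
  set c2 : ℝ≥0∞ := C * (2 * (cR (r + 1) * (chiC (r + 1) i + 1))) ^ (p + 1) with hc2
  induction m with
  | zero =>
    intro _
    have h0 : ∀ x, en b (r + 1) (D.msg i 0) x = 0 := fun x => en_const_succ b r (0 : ℝ) x
    simp [h0]
  | succ m ih =>
    intro hm
    have hm' : m < D.M i := by omega
    have hQ : Qf (D.inc i m 0 1) = 1 := D.Qf_inc hm' (by norm_num) (by simp)
    have mE : Measurable fun x => en b (r + 1) (D.msg i m) x ^ (p + 1) :=
      (measurable_en b (r + 1) (D.isCyl_msg i m)).pow_const _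
    have mY : Measurable fun x => NN b r (D.msg i m) x ^ (p + 1) :=
      (measurable_NN b r (D.isCyl_msg i m)).pow_const _
    have mG : Measurable fun x => NN b (r + 1) (D.gate i m) x ^ (p + 1) :=
      (measurable_NN b (r + 1) (D.isCyl_gate i m)).pow_const _
    have mZ : Measurable fun x => ind (Iic (KK i)) (D.tau i m x) :=
      (measurable_ind measurableSet_Iic).comp (D.measurable_tau i m)
    have mT : Measurable fun x => ind (setT i) (D.tau i m x) :=
      (measurable_ind (measurableSet_setT i)).comp (D.measurable_tau i m)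
    have mF : Measurable fun x => ind (setF i) (D.tau i m x) :=
      (measurable_ind (measurableSet_setF i)).comp (D.measurable_tau i m)
    have dE : DepTo (D.tm i m 0) fun x => en b (r + 1) (D.msg i m) x ^ (p + 1) :=
      ((D.depTo_msg i m).en b (r + 1)).comp (· ^ (p + 1))
    have dY : DepTo (D.tm i m 0) fun x => NN b r (D.msg i m) x ^ (p + 1) :=
      ((D.depTo_msg i m).NN b r).comp (· ^ (p + 1))
    have pG : PostTo (D.tm i m 1) fun x => NN b (r + 1) (D.gate i m) x ^ (p + 1) :=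
      ((D.postTo_gate (D.tm_mono (by omega))).NN b (r + 1)).comp (· ^ (p + 1))
    have pt : PostTo (D.tm i m 0) (D.tau i m) := D.postTo_pair_inc le_rfl 1
    have dt : DepTo (D.tm i m 1) (D.tau i m) := D.depTo_pair_inc i m 0 1
    have iZ : ∫⁻ x, ind (Iic (KK i)) (D.tau i m x) ∂ν = γ (Iic (KK i)) :=
      hν.lintegral_ind hQ measurableSet_Iic
    have iT : ∫⁻ x, ind (setT i) (D.tau i m x) ∂ν = γ (setT i) :=
      hν.lintegral_ind hQ (measurableSet_setT i)
    have iF : ∫⁻ x, ind (setF i) (D.tau i m x) ∂ν = γ (setF i) :=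
      hν.lintegral_ind hQ (measurableSet_setF i)
    have e1 : ∫⁻ x, en b (r + 1) (D.msg i m) x ^ (p + 1) * (ind (Iic (KK i)) (D.tau i m x) +
        2 * ind (setT i) (D.tau i m x)) ∂ν = (∫⁻ x, en b (r + 1) (D.msg i m) x ^ (p + 1) ∂ν) *
          (γ (Iic (KK i)) + 2 * γ (setT i)) := by
      have m1 : Measurable fun x => ind (Iic (KK i)) (D.tau i m x) +
          2 * ind (setT i) (D.tau i m x) := mZ.add (mT.const_mul 2)
      rw [hν.lintegral_mul mE m1 dE
        (pt.comp fun y => ind (Iic (KK i)) y + 2 * ind (setT i) y),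
        lintegral_add_left mZ, lintegral_const_mul _ mT, iZ, iT]
    have e2 : ∫⁻ x, NN b r (D.msg i m) x ^ (p + 1) * ind (setT i) (D.tau i m x) ∂ν =
        (∫⁻ x, NN b r (D.msg i m) x ^ (p + 1) ∂ν) * γ (setT i) := by
      rw [hν.lintegral_mul mY mT dY (pt.comp fun y => ind (setT i) y), iT]
    have e3 : ∫⁻ x, (ind (setT i) (D.tau i m x) + ind (setF i) (D.tau i m x)) *
        NN b (r + 1) (D.gate i m) x ^ (p + 1) ∂ν = (γ (setT i) + γ (setF i)) *
          ∫⁻ x, NN b (r + 1) (D.gate i m) x ^ (p + 1) ∂ν := by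
      have m1 : Measurable fun x => ind (setT i) (D.tau i m x) + ind (setF i) (D.tau i m x) :=
        mT.add mF
      rw [hν.lintegral_mul m1 mG (dt.comp fun y => ind (setT i) y + ind (setF i) y) pG,
        lintegral_add_left mT, iT, iF]
    have hTF : γ (setT i) ≤ γ (setF i) := by
      refine (measure_T_le i).trans ?_
      calc ENNReal.ofReal (kap i) * γ (setF i) ≤ 1 * γ (setF i) := by
            gcongr
            exact ENNReal.ofReal_le_one.2 ((kap_le_half i).trans (by norm_num))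
        _ = _ := one_mul _
    calc ∫⁻ x, en b (r + 1) (D.msg i (m + 1)) x ^ (p + 1) ∂ν
        ≤ ∫⁻ x, (en b (r + 1) (D.msg i m) x ^ (p + 1) * (ind (Iic (KK i)) (D.tau i m x) +
          2 * ind (setT i) (D.tau i m x)) +
          c1 * (NN b r (D.msg i m) x ^ (p + 1) * ind (setT i) (D.tau i m x)) +
          c2 * ((ind (setT i) (D.tau i m x) + ind (setF i) (D.tau i m x)) *
            NN b (r + 1) (D.gate i m) x ^ (p + 1))) ∂ν := lintegral_mono fun x => hC hm' x
      _ = (∫⁻ x, en b (r + 1) (D.msg i m) x ^ (p + 1) ∂ν) *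
          (γ (Iic (KK i)) + 2 * γ (setT i)) +
          c1 * ((∫⁻ x, NN b r (D.msg i m) x ^ (p + 1) ∂ν) * γ (setT i)) +
          c2 * ((γ (setT i) + γ (setF i)) *
            ∫⁻ x, NN b (r + 1) (D.gate i m) x ^ (p + 1) ∂ν) := by
          rw [lintegral_add_left (by fun_prop), lintegral_add_left (by fun_prop),
            lintegral_const_mul _ (by fun_prop), lintegral_const_mul _ (by fun_prop), e1, e2, e3]
      _ ≤ (2 * (c1 * sY i + 2 * (c2 * sW i))) * (γ (Iic (KK i)) + 2 * γ (setT i)) +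
          c1 * (sY i * γ (setF i)) + c2 * ((γ (setF i) + γ (setF i)) * sW i) := by
          have h1 := ih hm'.le
          have h2 := hY i m hm'.le
          have h3 := hW i m hm'
          gcongr
      _ = (2 * (c1 * sY i + 2 * (c2 * sW i))) * (γ (Iic (KK i)) + 2 * γ (setT i) +
            γ (setF i) / 2) := by
          have h4 : γ (setF i) = 2 * (γ (setF i) / 2) := by
            rw [two_mul, ENNReal.add_halves]
          set G := γ (setF i) / 2
          rw [h4]
          ring
      _ ≤ (2 * (c1 * sY i + 2 * (c2 * sW i))) * 1 := by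
          gcongr
          exact prob_sum_le i
      _ = _ := mul_one _

theorem msg_moment {ν : Measure (unitInterval → ℂ)} (hν : IsWR ν) (r : ℕ) : ∀ p : ℕ,
    ∃ s : ℕ → ℝ≥0∞, PolyK s ∧ ∀ i m, m ≤ D.M i →
      ∫⁻ x, NN b r (D.msg i m) x ^ p ∂ν ≤ s i := by
  have := hν.prob
  induction r with
  | zero =>
    intro p
    refine ⟨fun _ => 1, PolyK.const (by simp), fun i m _ => ?_⟩
    calc ∫⁻ x, NN b 0 (D.msg i m) x ^ p ∂ν ≤ ∫⁻ _, 1 ∂ν := by
          refine lintegral_mono fun x => pow_le_one' ?_ p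
          unfold NN
          simp only [zero_add, Finset.range_one, Finset.sum_singleton, en_zero]
          exact enorm_sq_le_one (D.msg_mem i m x).1 (D.msg_mem i m x).2
      _ = 1 := by simp
  | succ r ihr =>
    intro p
    rcases p with _ | p
    · exact ⟨fun _ => 1, PolyK.const (by simp), fun i m _ => by simp⟩
    obtain ⟨sY, hsY, hY⟩ := ihr (p + 1)
    obtain ⟨sW, hsW, hW⟩ := D.gate_moment b hν (r + 1) (p + 1)
    obtain ⟨C, hC⟩ := D.en_recursion b hν r p hY hW
    refine ⟨fun i => 2 ^ (p + 1) * (sY i +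
      2 * ((C * (2 * 4 ^ (r + 1) * chiC (r + 1) i) ^ (p + 1)) * sY i +
        2 * ((C * (2 * (cR (r + 1) * (chiC (r + 1) i + 1))) ^ (p + 1)) * sW i))), ?_, ?_⟩
    · have hC' : PolyK fun _ => (C : ℝ≥0∞) := PolyK.const (by simp)
      have h2 : PolyK fun _ => (2 : ℝ≥0∞) := PolyK.const (by simp)
      have h4 : PolyK fun _ => (2 * 4 ^ (r + 1) : ℝ≥0∞) :=
        PolyK.const (ENNReal.mul_ne_top (by simp) (by simp))
      have hc := polyK_chiC (r + 1)
      have hR : PolyK fun _ => cR (r + 1) := PolyK.const (cR_ne_top _)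
      have h1 : PolyK fun _ => (1 : ℝ≥0∞) := PolyK.const (by simp)
      have e1 : PolyK fun i => (C * (2 * 4 ^ (r + 1) * chiC (r + 1) i) ^ (p + 1)) * sY i :=
        (hC'.mul ((h4.mul hc).pow _)).mul hsY
      have e2 : PolyK fun i => 2 * ((C * (2 * (cR (r + 1) * (chiC (r + 1) i + 1))) ^ (p + 1)) *
          sW i) := h2.mul ((hC'.mul ((h2.mul (hR.mul (hc.add h1))).pow _)).mul hsW)
      exact (PolyK.const (c := 2 ^ (p + 1)) (by simp)).mul (hsY.add (h2.mul (e1.add e2)))
    · intro i m hm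
      have h1 : ∀ x, NN b (r + 1) (D.msg i m) x ^ (p + 1) ≤ 2 ^ (p + 1) *
          (NN b r (D.msg i m) x ^ (p + 1) + en b (r + 1) (D.msg i m) x ^ (p + 1)) := by
        intro x
        have h2 : NN b (r + 1) (D.msg i m) x = NN b r (D.msg i m) x + en b (r + 1) (D.msg i m) x := by
          unfold NN
          rw [Finset.sum_range_succ _ (r + 1)]
        rw [h2]
        exact add_pow_le_two_pow _ _ _
      refine (lintegral_mono h1).trans ?_
      have mE : Measurable fun x => en b (r + 1) (D.msg i m) x ^ (p + 1) :=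
        (measurable_en b (r + 1) (D.isCyl_msg i m)).pow_const _
      have mY : Measurable fun x => NN b r (D.msg i m) x ^ (p + 1) :=
        (measurable_NN b r (D.isCyl_msg i m)).pow_const _
      rw [lintegral_const_mul _ (by fun_prop), lintegral_add_left mY]
      exact mul_le_mul' le_rfl (add_le_add (hY i m hm) (hC i m hm))

/-- The bound for the Sobolev norms of the angles. -/
noncomputable def ccB (r i : ℕ) (x : unitInterval → ℂ) : ℝ≥0∞ :=
  16 * (cR r * ((chiC r i + 1) * NN b r (D.A (i + 1)) x))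

theorem NN_cc_le {i m : ℕ} (hm : m < D.M i) (r : ℕ) (x : unitInterval → ℂ) :
    NN b r (D.cc i m) x ≤ if KK i < D.tau i m x then D.ccB b r i x else 0 := by
  have h0 : D.cc i m = fun x => ((Real.pi / (i + 1) : ℝ) • ContinuousLinearMap.id ℝ ℝ)
      ((fun x => D.chi i m x * D.A (i + 1) x) x) := rfl
  have hcyl := (D.isCyl_chi i m).mul (D.isCyl_A (i + 1))
  have h1 : NN b r (D.cc i m) x ≤ 16 * NN b r (fun x => D.chi i m x * D.A (i + 1) x) x := by
    unfold NN
    rw [Finset.mul_sum]
    refine Finset.sum_le_sum fun k _ => ?_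
    rw [h0]
    refine (en_clm_le b _ k hcyl x).trans ?_
    gcongr
    rw [← ofReal_norm, norm_smul, ContinuousLinearMap.norm_id, mul_one, Real.norm_eq_abs,
      abs_of_nonneg (by positivity)]
    have h2 : Real.pi / (i + 1) ≤ 4 := by
      rw [div_le_iff₀ (by positivity)]
      have := Real.pi_le_four
      nlinarith [Nat.cast_nonneg (α := ℝ) i]
    calc ENNReal.ofReal (Real.pi / (i + 1)) ^ 2 ≤ ENNReal.ofReal 4 ^ 2 := by gcongr
      _ = 16 := by
        rw [← ENNReal.ofReal_pow (by norm_num)]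
        norm_num
  have h2 := NN_mul_le b r (D.isCyl_chi i m) (D.isCyl_A (i + 1)) x
  refine h1.trans ?_
  split_ifs with h
  · unfold ccB
    refine mul_le_mul' le_rfl (h2.trans ?_)
    change cR r * _ ≤ _
    gcongr
    exact D.NN_chi_le b hm r x
  · rw [D.NN_chi_left b hm r x (not_lt.1 h)] at h2
    rw [zero_mul, mul_zero] at h2
    have h3 := le_antisymm h2 zero_le
    rw [h3, mul_zero]

theorem measurable_ccB (r i : ℕ) : Measurable (D.ccB b r i) := by
  have := measurable_NN b r (D.isCyl_A (i + 1))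
  unfold ccB
  fun_prop

theorem ccB_moment {ν : Measure (unitInterval → ℂ)} (hν : IsWR ν) (r q : ℕ) :
    ∃ s : ℕ → ℝ≥0∞, PolyK s ∧ ∀ i, ∫⁻ x, D.ccB b r i x ^ q ∂ν ≤ s i := by
  obtain ⟨s, hs, h1⟩ := D.msg_moment b hν r q
  refine ⟨fun i => (16 * (cR r * (chiC r i + 1))) ^ q * s (i + 1), ?_, fun i => ?_⟩
  · have h16 : PolyK fun _ => (16 : ℝ≥0∞) := PolyK.const (by simp)
    have hR : PolyK fun _ => cR r := PolyK.const (cR_ne_top _)
    have h1 : PolyK fun _ => (1 : ℝ≥0∞) := PolyK.const (by simp)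
    exact ((h16.mul (hR.mul ((polyK_chiC r).add h1))).pow q).mul hs.shift
  · have h2 : ∀ x, D.ccB b r i x ^ q = (16 * (cR r * (chiC r i + 1))) ^ q *
        NN b r (D.A (i + 1)) x ^ q := by
      intro x
      rw [← mul_pow]
      unfold ccB
      congr 1
      ring
    simp only [h2]
    have h3 := measurable_NN b r (D.isCyl_A (i + 1))
    rw [lintegral_const_mul _ (by fun_prop)]
    exact mul_le_mul' le_rfl (h1 (i + 1) (D.M (i + 1)) le_rfl)

end TimeData

end Pool.Agent.Lib.UdB
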