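import Pool.Agent.Lib.UdB.Energy

/-!
# Multiplicator estimates, part 1: inequalities for the Sobolev norms
-/

set_option autoImplicit false
set_option linter.unusedSectionVars false
set_option linter.style.haveILetI false

open MeasureTheory
open scoped ENNReal NNReal InnerProductSpace

namespace Pool.Agent.Lib.UdB

/-! ### elementary inequalities -/

theorem add_rpow_le' (a b : ℝ≥0∞) {q : ℝ} (hq : 0 ≤ q) : (a + b) ^ q ≤ 2 ^ q * (a ^ q + b ^ q) := by
  rcases le_total a b with h | h
  · calc (a + b) ^ q ≤ (2 * b) ^ q := by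
          apply ENNReal.rpow_le_rpow _ hq
          rw [two_mul]; gcongr
      _ = 2 ^ q * b ^ q := ENNReal.mul_rpow_of_nonneg _ _ hq
      _ ≤ _ := by gcongr; exact le_add_self
  · calc (a + b) ^ q ≤ (2 * a) ^ q := by
          apply ENNReal.rpow_le_rpow _ hq
          rw [two_mul]; gcongr
      _ = 2 ^ q * a ^ q := ENNReal.mul_rpow_of_nonneg _ _ hq
      _ ≤ _ := by gcongr; exact le_self_add

theorem sum_rpow_le' {κ : Type} (s : Finset κ) (x : κ → ℝ≥0∞) {q : ℝ} (hq : 0 < q) :
    (∑ i ∈ s, x i) ^ q ≤ (s.card : ℝ≥0∞) ^ q * ∑ i ∈ s, x i ^ q := by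
  rcases s.eq_empty_or_nonempty with h | h
  · subst h; simp [hq]
  · obtain ⟨m, hm, hmax⟩ := Finset.exists_max_image s x h
    calc (∑ i ∈ s, x i) ^ q ≤ ((s.card : ℝ≥0∞) * x m) ^ q := by
          apply ENNReal.rpow_le_rpow _ hq.le
          calc ∑ i ∈ s, x i ≤ ∑ i ∈ s, x m := Finset.sum_le_sum hmax
            _ = _ := by rw [Finset.sum_const, nsmul_eq_mul]
      _ = (s.card : ℝ≥0∞) ^ q * x m ^ q := ENNReal.mul_rpow_of_nonneg _ _ hq.le
      _ ≤ _ := by
          gcongr
          exact Finset.single_le_sum (f := fun i => x i ^ q) (fun _ _ => zero_le) hm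

theorem tsum_two_inv : ∑' i : ℕ, ((2 : ℝ≥0∞) ^ (i + 1))⁻¹ = 1 := by
  have h := ENNReal.tsum_geometric_add_one (2 : ℝ≥0∞)⁻¹
  rw [ENNReal.one_sub_inv_two, inv_inv, ENNReal.inv_mul_cancel (by norm_num) (by norm_num)] at h
  rw [← h]
  congr 1
  ext i
  rw [ENNReal.inv_pow]

theorem tsum_rpow_le' (x : ℕ → ℝ≥0∞) {q : ℝ} (hq : 0 < q) :
    (∑' i, x i) ^ q ≤ ∑' i, (2 ^ (i + 1) * x i) ^ q := by
  have h1 : ∑' i, x i ≤ ⨆ i, 2 ^ (i + 1) * x i := by
    calc ∑' i, x i = ∑' i : ℕ, ((2 : ℝ≥0∞) ^ (i + 1))⁻¹ * (2 ^ (i + 1) * x i) := by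
          congr 1; ext i
          rw [← mul_assoc, ENNReal.inv_mul_cancel (by positivity) (by finiteness), one_mul]
      _ ≤ ∑' i : ℕ, ((2 : ℝ≥0∞) ^ (i + 1))⁻¹ * ⨆ i, 2 ^ (i + 1) * x i :=
          ENNReal.tsum_le_tsum fun i => by
            gcongr; exact le_iSup (fun i => 2 ^ (i + 1) * x i) i
      _ = _ := by rw [ENNReal.tsum_mul_right, tsum_two_inv, one_mul]
  calc (∑' i, x i) ^ q ≤ (⨆ i, 2 ^ (i + 1) * x i) ^ q := ENNReal.rpow_le_rpow h1 hq.le
    _ = ⨆ i, (2 ^ (i + 1) * x i) ^ q := by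
        have h := (ENNReal.orderIsoRpow q hq).map_iSup (fun i => 2 ^ (i + 1) * x i)
        simpa only [ENNReal.orderIsoRpow_apply] using h
    _ ≤ _ := iSup_le fun i => ENNReal.le_tsum i

/-- Cauchy-Schwarz for the lower integral. -/
theorem lintegral_mul_le_sqrt {α : Type} [MeasurableSpace α] (μ : Measure α) {f g : α → ℝ≥0∞}
    (hf : AEMeasurable f μ) (hg : AEMeasurable g μ) :
    ∫⁻ a, f a * g a ∂μ ≤ (∫⁻ a, f a ^ (2 : ℝ) ∂μ) ^ (1 / 2 : ℝ) *
      (∫⁻ a, g a ^ (2 : ℝ) ∂μ) ^ (1 / 2 : ℝ) :=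
  ENNReal.lintegral_mul_le_Lp_mul_Lq μ Real.HolderConjugate.two_two hf hg

/-- Moments are monotone on a probability space. -/
theorem rpow_lintegral_mono {α : Type} [MeasurableSpace α] (μ : Measure α) [IsProbabilityMeasure μ]
    {f : α → ℝ≥0∞} (hf : Measurable f) {p q : ℝ} (hp : 0 < p) (hpq : p ≤ q) :
    (∫⁻ a, f a ^ p ∂μ) ^ (1 / p) ≤ (∫⁻ a, f a ^ q ∂μ) ^ (1 / q) := by
  have hq : 0 < q := lt_of_lt_of_le hp hpq
  rcases hpq.lt_or_eq with h | h
  · have hr : 1 < q / p := by rw [one_lt_div hp]; exact h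
    have hc : (q / p).HolderConjugate (q / p).conjExponent := Real.HolderConjugate.conjExponent hr
    have h1 := ENNReal.lintegral_mul_le_Lp_mul_Lq μ hc (f := fun a => f a ^ p) (g := fun _ => 1)
      (hf.pow_const p).aemeasurable aemeasurable_const
    simp only [Pi.mul_apply, mul_one, ENNReal.one_rpow, lintegral_const, measure_univ] at h1
    have h2 : ∀ a, (f a ^ p) ^ (q / p) = f a ^ q := by
      intro a
      rw [← ENNReal.rpow_mul]
      congr 1
      field_simp
    simp only [h2] at h1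
    calc (∫⁻ a, f a ^ p ∂μ) ^ (1 / p) ≤ ((∫⁻ a, f a ^ q ∂μ) ^ (1 / (q / p))) ^ (1 / p) :=
          ENNReal.rpow_le_rpow h1 (by positivity)
      _ = _ := by
          rw [← ENNReal.rpow_mul]
          congr 1
          field_simp
  · rw [h]

section fields

variable {V : Type} [NormedAddCommGroup V] [InnerProductSpace ℝ V] [FiniteDimensional ℝ V]
  [MeasurableSpace V] [BorelSpace V]
variable {ι : Type} [Countable ι] (b : HilbertBasis ι ℝ (H V)) (P : Measure (Path V))

/-- measurable fields -/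
def MF (G : List ι → unitInterval → Path V → V) : Prop :=
  ∀ l, Measurable fun p : unitInterval × Path V => G l p.1 p.2

/-- The energy of a field integrated in time. -/
noncomputable def Aen (j : ℕ) (G : List ι → unitInterval → Path V → V) (ω : Path V) : ℝ≥0∞ :=
  ∫⁻ t, energy j (fun l => G l t ω)

variable {P} {G G' : List ι → unitInterval → Path V → V}

theorem MF.measurable_energy (hG : MF G) (j : ℕ) :
    Measurable fun p : unitInterval × Path V => energy j (fun l => G l p.1 p.2) :=
  UdB.measurable_energy j fun l => hG l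

theorem MF.measurable_Aen (hG : MF G) (j : ℕ) : Measurable (Aen j G) := by
  unfold Aen
  exact (hG.measurable_energy j).lintegral_prod_left'

theorem MF.add (hG : MF G) (hG' : MF G') : MF (fun l t ω => G l t ω + G' l t ω) := by
  haveI : ProperSpace V := FiniteDimensional.proper ℝ V
  haveI : SecondCountableTopology V := inferInstance
  exact fun l => (hG l).add (hG' l)

theorem MF.sub (hG : MF G) (hG' : MF G') : MF (fun l t ω => G l t ω - G' l t ω) := by
  haveI : ProperSpace V := FiniteDimensional.proper ℝ V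
  haveI : SecondCountableTopology V := inferInstance
  exact fun l => (hG l).sub (hG' l)

theorem sobNorm_eq (p : ℝ) (r : ℕ) (G : List ι → unitInterval → Path V → V) :
    sobNorm P p r G = (∫⁻ ω, Aen r G ω ^ (p / 2) ∂P) ^ (1 / p) := rfl

theorem sobNorm_pow {p : ℝ} (hp : 0 < p) (r : ℕ) (G : List ι → unitInterval → Path V → V) :
    sobNorm P p r G ^ p = ∫⁻ ω, Aen r G ω ^ (p / 2) ∂P := by
  rw [sobNorm_eq, ← ENNReal.rpow_mul, one_div, inv_mul_cancel₀ hp.ne', ENNReal.rpow_one]

theorem sobNorm_mono_p [IsProbabilityMeasure P] (hG : MF G) {p p' : ℝ} (hp : 0 < p) (h : p ≤ p')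
    (r : ℕ) : sobNorm P p r G ≤ sobNorm P p' r G := by
  have h1 := rpow_lintegral_mono P ((hG.measurable_Aen r).pow_const (1 / 2 : ℝ)) hp h
  have h2 : ∀ (p : ℝ) ω, (Aen r G ω ^ (1 / 2 : ℝ)) ^ p = Aen r G ω ^ (p / 2) := by
    intro p ω; rw [← ENNReal.rpow_mul]; congr 1; ring
  simp only [h2] at h1
  exact h1

theorem lintegral_Aen_eq (j : ℕ) (G : List ι → unitInterval → Path V → V) :
    ∫⁻ ω, Aen j G ω ∂P = sobNorm P 2 j G ^ (2 : ℝ) := by
  rw [sobNorm_pow (by norm_num)]
  norm_num

theorem sobNorm_add_le [IsProbabilityMeasure P] (hG : MF G) (hG' : MF G') {p : ℝ} (hp : 1 ≤ p)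
    (r : ℕ) : sobNorm P p r (fun l t ω => G l t ω + G' l t ω) ≤
      2 * (sobNorm P p r G + sobNorm P p r G') := by
  have hp0 : 0 < p := by linarith
  have h1 : ∀ ω, Aen r (fun l t ω => G l t ω + G' l t ω) ω ≤ 2 * Aen r G ω + 2 * Aen r G' ω := by
    intro ω
    have hm : Measurable fun t => energy r (fun l => G l t ω) :=
      (hG.measurable_energy r).comp (measurable_id.prodMk measurable_const)
    have hm' : Measurable fun t => energy r (fun l => G' l t ω) :=
      (hG'.measurable_energy r).comp (measurable_id.prodMk measurable_const)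
    unfold Aen
    rw [← lintegral_const_mul _ hm, ← lintegral_const_mul _ hm',
      ← lintegral_add_left (hm.const_mul _)]
    exact lintegral_mono fun t => energy_add_le r _ _
  have h2 : ∫⁻ ω, Aen r (fun l t ω => G l t ω + G' l t ω) ω ^ (p / 2) ∂P ≤
      2 ^ p * (∫⁻ ω, Aen r G ω ^ (p / 2) ∂P + ∫⁻ ω, Aen r G' ω ^ (p / 2) ∂P) := by
    have hms : Measurable fun ω => Aen r G ω ^ (p / 2) + Aen r G' ω ^ (p / 2) :=
      ((hG.measurable_Aen r).pow_const _).add ((hG'.measurable_Aen r).pow_const _)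
    rw [← lintegral_add_left ((hG.measurable_Aen r).pow_const _), ← lintegral_const_mul _ hms]
    apply lintegral_mono
    intro ω
    calc Aen r (fun l t ω => G l t ω + G' l t ω) ω ^ (p / 2) ≤
        (2 * Aen r G ω + 2 * Aen r G' ω) ^ (p / 2) := ENNReal.rpow_le_rpow (h1 ω) (by positivity)
      _ = 2 ^ (p / 2) * (Aen r G ω + Aen r G' ω) ^ (p / 2) := by
          rw [← mul_add, ENNReal.mul_rpow_of_nonneg _ _ (by positivity)]
      _ ≤ 2 ^ (p / 2) * (2 ^ (p / 2) * (Aen r G ω ^ (p / 2) + Aen r G' ω ^ (p / 2))) := by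
          gcongr
          exact add_rpow_le' _ _ (by positivity)
      _ = _ := by
          rw [← mul_assoc, ← ENNReal.rpow_add _ _ (by norm_num) (by norm_num)]
          congr 2
          ring
  rw [sobNorm_eq, sobNorm_eq, sobNorm_eq]
  calc _ ≤ (2 ^ p * (∫⁻ ω, Aen r G ω ^ (p / 2) ∂P + ∫⁻ ω, Aen r G' ω ^ (p / 2) ∂P)) ^ (1 / p) :=
        ENNReal.rpow_le_rpow h2 (by positivity)
    _ = 2 * (∫⁻ ω, Aen r G ω ^ (p / 2) ∂P + ∫⁻ ω, Aen r G' ω ^ (p / 2) ∂P) ^ (1 / p) := by
        rw [ENNReal.mul_rpow_of_nonneg _ _ (by positivity), ← ENNReal.rpow_mul, one_div,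
          mul_inv_cancel₀ hp0.ne', ENNReal.rpow_one]
    _ ≤ _ := by
        gcongr
        exact ENNReal.rpow_add_le_add_rpow _ _ (by positivity) (by rw [div_le_one hp0]; exact hp)

/-- The fields of the elements of `𝔻^∞`. -/
def IsD (P : Measure (Path V)) (G : List ι → unitInterval → Path V → V) : Prop :=
  MF G ∧ ∀ (p : ℝ), 1 ≤ p → ∀ (R : ℕ) (ε : ℝ≥0∞), 0 < ε →
    ∃ X : unitInterval → (unitInterval → V) → V, IsSmoothProc X ∧
      ∀ r ≤ R, sobNorm P p r (fun l t ω => iterD b l (X t) ω.toFun - G l t ω) ≤ ε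

theorem DInf.isD (Z : DInf P b) : IsD b P Z.fld := ⟨Z.meas, Z.approx⟩

end fields

/-! ### smooth processes -/

section smooth

variable {V : Type} [NormedAddCommGroup V] [InnerProductSpace ℝ V] [FiniteDimensional ℝ V]
  [MeasurableSpace V] [BorelSpace V]

theorem measurable_dirD_family {α E : Type} [MeasurableSpace α] [NormedAddCommGroup E]
    [NormedSpace ℝ E] [MeasurableSpace E] [BorelSpace E] [SecondCountableTopology E]
    {g : α → (unitInterval → V) → E} (hg : ∀ a, IsCyl (g a))
    (hm : Measurable fun p : α × (unitInterval → V) => g p.1 p.2) (v : unitInterval → V) :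
    Measurable fun p : α × (unitInterval → V) => dirD v (g p.1) p.2 := by
  haveI : ProperSpace V := FiniteDimensional.proper ℝ V
  haveI : SecondCountableTopology V := inferInstance
  have h1 : ∀ n : ℕ, Measurable fun p : α × (unitInterval → V) =>
      ((n : ℝ) + 1) • (g p.1 (p.2 + ((n : ℝ) + 1)⁻¹ • v) - g p.1 p.2) := by
    intro n
    have h0 : Measurable fun p : α × (unitInterval → V) =>
        g p.1 (p.2 + ((n : ℝ) + 1)⁻¹ • v) := by
      refine hm.comp (g := fun p : α × (unitInterval → V) => g p.1 p.2)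
        (f := fun p : α × (unitInterval → V) => (p.1, p.2 + ((n : ℝ) + 1)⁻¹ • v))
        (measurable_fst.prodMk ?_)
      refine measurable_pi_lambda _ fun t => ?_
      exact ((measurable_pi_apply t).comp measurable_snd).add_const _
    have h1 : Measurable fun p : α × (unitInterval → V) =>
        g p.1 (p.2 + ((n : ℝ) + 1)⁻¹ • v) - g p.1 p.2 := h0.sub hm
    exact h1.const_smul ((n : ℝ) + 1)
  refine measurable_of_tendsto_metrizable (f := fun (n : ℕ) (p : α × (unitInterval → V)) =>
      ((n : ℝ) + 1) • (g p.1 (p.2 + ((n : ℝ) + 1)⁻¹ • v) - g p.1 p.2)) h1 ?_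
  rw [tendsto_pi_nhds]
  intro p
  have h2 := (hg p.1).hasDerivAt v p.2
  rw [hasDerivAt_iff_tendsto_slope_zero] at h2
  have h3 : Filter.Tendsto (fun n : ℕ => ((n : ℝ) + 1)⁻¹) Filter.atTop (nhdsWithin 0 {0}ᶜ) := by
    rw [tendsto_nhdsWithin_iff]
    constructor
    · have := tendsto_one_div_add_atTop_nhds_zero_nat (𝕜 := ℝ)
      simpa using this
    · refine Filter.Eventually.of_forall fun n => ?_
      simp only [Set.mem_compl_iff, Set.mem_singleton_iff]
      positivity
  have h4 := h2.comp h3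
  refine h4.congr fun n => ?_
  simp

theorem measurable_iterD_family {α E : Type} [MeasurableSpace α] [NormedAddCommGroup E]
    [NormedSpace ℝ E] [MeasurableSpace E] [BorelSpace E] [SecondCountableTopology E] {ι : Type}
    (b : HilbertBasis ι ℝ (H V)) (l : List ι) :
    ∀ {g : α → (unitInterval → V) → E}, (∀ a, IsCyl (g a)) →
    (Measurable fun p : α × (unitInterval → V) => g p.1 p.2) →
    Measurable fun p : α × (unitInterval → V) => iterD b l (g p.1) p.2 := by
  induction l with
  | nil => intro g hg hm; exact hm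
  | cons j l ih =>
    intro g hg hm
    exact ih (fun a => (hg a).dirD _) (measurable_dirD_family hg hm _)

theorem IsSmoothProc.isCyl {X : unitInterval → (unitInterval → V) → V} (hX : IsSmoothProc X)
    (t : unitInterval) : IsCyl (X t) := by
  obtain ⟨m, F, h, hF, -, hX⟩ := hX
  have : X t = fun x => ∑ k, F k x • h k t := funext fun x => hX t x
  rw [this]
  exact IsCyl.sum _ fun k _ => (hF k).smul (IsCyl.const _)

theorem IsSmoothProc.measurable {X : unitInterval → (unitInterval → V) → V}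
    (hX : IsSmoothProc X) : Measurable fun p : unitInterval × (unitInterval → V) => X p.1 p.2 := by
  haveI : ProperSpace V := FiniteDimensional.proper ℝ V
  haveI : SecondCountableTopology V := inferInstance
  obtain ⟨m, F, h, hF, hh, hX⟩ := hX
  simp only [hX]
  exact Finset.measurable_fun_sum _ fun k _ =>
    ((hF k).measurable.comp measurable_snd).smul ((hh k).1.comp measurable_fst)

theorem IsSmoothProc.measurable_iterD {ι : Type} (b : HilbertBasis ι ℝ (H V))
    {X : unitInterval → (unitInterval → V) → V} (hX : IsSmoothProc X) (l : List ι) :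
    Measurable fun p : unitInterval × (unitInterval → V) => iterD b l (X p.1) p.2 := by
  haveI : ProperSpace V := FiniteDimensional.proper ℝ V
  haveI : SecondCountableTopology V := inferInstance
  exact measurable_iterD_family b l hX.isCyl hX.measurable

/-- The field of a smooth process. -/
noncomputable def sfld {ι : Type} (b : HilbertBasis ι ℝ (H V))
    (X : unitInterval → (unitInterval → V) → V) (l : List ι) (t : unitInterval) (ω : Path V) : V :=
  iterD b l (X t) ω.toFun

theorem IsSmoothProc.MF {ι : Type} (b : HilbertBasis ι ℝ (H V))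
    {X : unitInterval → (unitInterval → V) → V} (hX : IsSmoothProc X) : MF (sfld b X) := fun l =>
  (hX.measurable_iterD b l).comp (measurable_fst.prodMk (measurable_toFun.comp measurable_snd))

end smooth

end Pool.Agent.Lib.UdB
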