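import Pool.Agent.Lib.UdB.Mult1
import Pool.Agent.Lib.UdB.Step

/-!
# Multiplicator estimates, part 2: closure properties and finite moments of smooth processes
-/

set_option autoImplicit false
set_option linter.unusedSectionVars false
set_option linter.style.haveILetI false

open MeasureTheory
open scoped ENNReal NNReal InnerProductSpace

namespace Pool.Agent.Lib.UdB

/-! ### closure properties -/

section closure

variable {V : Type} [NormedAddCommGroup V] [InnerProductSpace ℝ V] [FiniteDimensional ℝ V]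
  [MeasurableSpace V] [BorelSpace V]

theorem IsSmoothProc.of_fintype {κ : Type} [Fintype κ] {F : κ → (unitInterval → V) → ℝ}
    {h : κ → unitInterval → V} (hF : ∀ k, IsCyl (F k))
    (hh : ∀ k, Measurable (h k) ∧ MemLp (h k) 2 volume)
    {X : unitInterval → (unitInterval → V) → V} (hX : ∀ t x, X t x = ∑ k, F k x • h k t) :
    IsSmoothProc X := by
  let e := Fintype.equivFin κ
  refine ⟨Fintype.card κ, fun k => F (e.symm k), fun k => h (e.symm k), fun k => hF _,
    fun k => hh _, fun t x => ?_⟩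
  rw [hX]
  exact (Equiv.sum_comp e.symm (fun k => F k x • h k t)).symm

theorem IsSmoothProc.zero : IsSmoothProc (fun (_ : unitInterval) (_ : unitInterval → V) => (0 : V)) :=
  IsSmoothProc.of_fintype (κ := Fin 0) (F := fun k => k.elim0) (h := fun k => k.elim0)
    (fun k => k.elim0) (fun k => k.elim0) (fun t x => by simp)

theorem IsSmoothProc.add {X Y : unitInterval → (unitInterval → V) → V} (hX : IsSmoothProc X)
    (hY : IsSmoothProc Y) : IsSmoothProc (fun t x => X t x + Y t x) := by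
  obtain ⟨m, F, h, hF, hh, hX⟩ := hX
  obtain ⟨m', F', h', hF', hh', hY⟩ := hY
  refine IsSmoothProc.of_fintype (κ := Fin m ⊕ Fin m') (F := Sum.elim F F') (h := Sum.elim h h')
    (fun k => ?_) (fun k => ?_) (fun t x => ?_)
  · rcases k with k | k
    · exact hF k
    · exact hF' k
  · rcases k with k | k
    · exact hh k
    · exact hh' k
  · rw [Fintype.sum_sum_type, hX, hY]
    rfl

theorem IsSmoothProc.sum {κ : Type} (s : Finset κ)
    {X : κ → unitInterval → (unitInterval → V) → V} (hX : ∀ i ∈ s, IsSmoothProc (X i)) :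
    IsSmoothProc (fun t x => ∑ i ∈ s, X i t x) := by
  classical
  induction s using Finset.induction_on with
  | empty => simpa using IsSmoothProc.zero
  | insert a s ha ih =>
    simp only [Finset.sum_insert ha]
    exact (hX a (Finset.mem_insert_self a s)).add
      (ih fun i hi => hX i (Finset.mem_insert_of_mem hi))

theorem IsSmoothProc.cyl_smul {g : (unitInterval → V) → ℝ} (hg : IsCyl g)
    {X : unitInterval → (unitInterval → V) → V} (hX : IsSmoothProc X) :
    IsSmoothProc (fun t x => g x • X t x) := by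
  obtain ⟨m, F, h, hF, hh, hX⟩ := hX
  refine ⟨m, fun k x => g x * F k x, h, fun k => hg.mul (hF k), hh, fun t x => ?_⟩
  simp only [hX, Finset.smul_sum]
  refine Finset.sum_congr rfl fun k _ => ?_
  rw [smul_smul]

theorem IsSmoothProc.fun_mul {a : unitInterval → ℂ} (ha : Measurable a) {C : ℝ}
    (hC : ∀ t, ‖a t‖ ≤ C) {X : unitInterval → (unitInterval → ℂ) → ℂ} (hX : IsSmoothProc X) :
    IsSmoothProc (fun t x => a t * X t x) := by
  obtain ⟨m, F, h, hF, hh, hX⟩ := hX
  refine ⟨m, F, fun k t => a t * h k t, hF, fun k => ⟨ha.mul (hh k).1, ?_⟩, fun t x => ?_⟩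
  · refine MemLp.of_le_mul (c := C) (hh k).2 (ha.mul (hh k).1).aestronglyMeasurable
      (Filter.Eventually.of_forall fun t => ?_)
    rw [norm_mul]
    exact mul_le_mul_of_nonneg_right (hC t) (norm_nonneg _)
  · simp only [hX, Finset.mul_sum]
    refine Finset.sum_congr rfl fun k _ => ?_
    rw [mul_smul_comm]

theorem IsSmoothProc.cyl_mul {g : (unitInterval → ℂ) → ℂ} (hg : IsCyl g)
    {X : unitInterval → (unitInterval → ℂ) → ℂ} (hX : IsSmoothProc X) :
    IsSmoothProc (fun t x => g x * X t x) := by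
  have h1 : (fun t x => g x * X t x) = fun t x => (Complex.reCLM (g x)) • X t x +
      (Complex.imCLM (g x)) • (Complex.I * X t x) := by
    ext t x
    have h := Complex.re_add_im (g x)
    conv_lhs => rw [← h]
    simp only [Complex.reCLM_apply, Complex.imCLM_apply, Complex.real_smul]
    ring
  rw [h1]
  exact (IsSmoothProc.cyl_smul (hg.clm Complex.reCLM) hX).add
    (IsSmoothProc.cyl_smul (hg.clm Complex.imCLM)
      (IsSmoothProc.fun_mul (a := fun _ => Complex.I) measurable_const (C := 1)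
        (fun _ => by simp) hX))

end closure

/-! ### moments -/

section moments

variable {V : Type} [NormedAddCommGroup V] [InnerProductSpace ℝ V] [FiniteDimensional ℝ V]
  [MeasurableSpace V] [BorelSpace V]
variable {E : Type} [NormedAddCommGroup E] [NormedSpace ℝ E]
variable {ι : Type} (b : HilbertBasis ι ℝ (H V))

theorem en_le_iteratedFDeriv {T : Finset unitInterval} (r : ℕ) :
    ∀ {Φ : (T → V) → E} (_ : Φ.HasTemperateGrowth) {F : (unitInterval → V) → E}
    (_ : ∀ x, F x = Φ (rs T x)) (x : unitInterval → V),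
    en b r F x ≤ ‖iteratedFDeriv ℝ r Φ (rs T x)‖ₑ ^ 2 *
      (∑' j, ‖rs T (primitive (b j))‖ₑ ^ 2) ^ r := by
  induction r with
  | zero =>
    intro Φ hΦ F hF x
    rw [en_zero, pow_zero, mul_one, hF, ← ofReal_norm (iteratedFDeriv ℝ 0 Φ (rs T x)),
      norm_iteratedFDeriv_zero, ofReal_norm]
  | succ r ih =>
    intro Φ hΦ F hF x
    rw [en_succ]
    have h1 : ∀ j, en b r (dirD (primitive (b j)) F) x ≤
        (‖iteratedFDeriv ℝ (r + 1) Φ (rs T x)‖ₑ ^ 2 * (∑' j, ‖rs T (primitive (b j))‖ₑ ^ 2) ^ r) *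
          ‖rs T (primitive (b j))‖ₑ ^ 2 := by
      intro j
      refine (ih (tg_fderiv_apply hΦ (rs T (primitive (b j)))) (dirD_eq hΦ hF _) x).trans ?_
      have h2 : ‖iteratedFDeriv ℝ r (fun y => fderiv ℝ Φ y (rs T (primitive (b j)))) (rs T x)‖ ≤
          ‖rs T (primitive (b j))‖ * ‖iteratedFDeriv ℝ (r + 1) Φ (rs T x)‖ := by
        rw [← norm_iteratedFDeriv_fderiv]
        exact norm_iteratedFDeriv_clm_apply_const ((tg_fderiv hΦ).1.contDiffAt) (by exact_mod_cast le_top)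
      have h3 : ‖iteratedFDeriv ℝ r (fun y => fderiv ℝ Φ y (rs T (primitive (b j)))) (rs T x)‖ₑ ≤
          ‖rs T (primitive (b j))‖ₑ * ‖iteratedFDeriv ℝ (r + 1) Φ (rs T x)‖ₑ := by
        rw [← ofReal_norm, ← ofReal_norm, ← ofReal_norm, ← ENNReal.ofReal_mul (norm_nonneg _)]
        exact ENNReal.ofReal_le_ofReal h2
      calc _ ≤ (‖rs T (primitive (b j))‖ₑ * ‖iteratedFDeriv ℝ (r + 1) Φ (rs T x)‖ₑ) ^ 2 *
            (∑' j, ‖rs T (primitive (b j))‖ₑ ^ 2) ^ r := by gcongr
        _ = _ := by ring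
    refine (ENNReal.tsum_le_tsum h1).trans (le_of_eq ?_)
    rw [ENNReal.tsum_mul_left, pow_succ]
    ring

theorem enorm_sq_eq_sum (v : V) :
    ‖v‖ₑ ^ 2 = ∑ α, ‖⟪(stdOrthonormalBasis ℝ V) α, v⟫_ℝ‖ₑ ^ 2 := by
  have h := (stdOrthonormalBasis ℝ V).sum_sq_norm_inner_right v
  rw [← ofReal_norm, ← ENNReal.ofReal_pow (norm_nonneg _), ← h,
    ENNReal.ofReal_sum_of_nonneg fun α _ => sq_nonneg _]
  refine Finset.sum_congr rfl fun α _ => ?_
  rw [← ofReal_norm, ← ENNReal.ofReal_pow (norm_nonneg _)]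

theorem enorm_rs_sq_le (T : Finset unitInterval) (x : unitInterval → V) :
    ‖rs T x‖ₑ ^ 2 ≤ ∑ t ∈ T, ∑ α, ‖pair (Finsupp.single t ((stdOrthonormalBasis ℝ V) α)) x‖ₑ ^ 2 := by
  have h1 : ‖rs T x‖ₑ ^ 2 ≤ ∑ t ∈ T, ‖x t‖ₑ ^ 2 := by
    rcases T.eq_empty_or_nonempty with h | h
    · subst h
      have : rs (∅ : Finset unitInterval) x = 0 := by
        ext ⟨t, ht⟩; simp at ht
      rw [this]; simp
    · haveI : Nonempty T := h.to_subtype
      obtain ⟨t, ht⟩ := exists_eq_ciSup_of_finite (f := fun t : T => ‖rs T x t‖₊)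
      have h2 : ‖rs T x‖ₑ = ‖x t.1‖ₑ := by
        have h3 : ‖rs T x‖₊ = ‖rs T x t‖₊ := by
          apply le_antisymm
          · rw [pi_nnnorm_le_iff]
            intro i
            rw [ht]
            exact le_ciSup (f := fun t : T => ‖rs T x t‖₊) (Set.finite_range _).bddAbove i
          · exact nnnorm_le_pi_nnnorm _ t
        rw [enorm_eq_nnnorm, enorm_eq_nnnorm, h3]
        rfl
      rw [h2]
      exact Finset.single_le_sum (f := fun t => ‖x t‖ₑ ^ 2) (fun _ _ => zero_le) t.2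
  refine h1.trans (le_of_eq ?_)
  refine Finset.sum_congr rfl fun t _ => ?_
  rw [enorm_sq_eq_sum]
  simp only [pair_single]

theorem tsum_rs_ne_top (T : Finset unitInterval) :
    ∑' j, ‖rs T (primitive (b j))‖ₑ ^ 2 ≠ ∞ := by
  have h : ∑' j, ‖rs T (primitive (b j))‖ₑ ^ 2 ≤ ∑ t ∈ T, ∑ α, ENNReal.ofReal
      (‖thetaL (Finsupp.single t ((stdOrthonormalBasis ℝ V) α))‖ ^ 2) := by
    refine (ENNReal.tsum_le_tsum fun j => enorm_rs_sq_le T _).trans (le_of_eq ?_)
    rw [Summable.tsum_finsetSum fun i _ => ENNReal.summable]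
    refine Finset.sum_congr rfl fun t _ => ?_
    rw [Summable.tsum_finsetSum fun i _ => ENNReal.summable]
    refine Finset.sum_congr rfl fun α _ => ?_
    simp only [pair_primitive]
    exact tsum_inner_sq b _
  refine ne_top_of_le_ne_top ?_ h
  refine ENNReal.sum_ne_top.2 fun t _ => ENNReal.sum_ne_top.2 fun α _ => ENNReal.ofReal_ne_top

variable {ν : Measure (unitInterval → V)}

theorem IsWR.lintegral_pair_rpow (hν : IsWR ν) (c : unitInterval →₀ V) {q : ℝ} (hq : 0 < q) :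
    ∫⁻ x, ‖pair c x‖ₑ ^ q ∂ν ≠ ∞ := by
  have hm := measurable_pair c
  have h1 : ∫⁻ x, ‖pair c x‖ₑ ^ q ∂ν = ∫⁻ y, ‖y‖ₑ ^ q ∂(ν.map (pair c)) := by
    rw [lintegral_map (by fun_prop) hm]
  rw [h1, hν.map_pair]
  have h4 : MemLp (id : ℝ → ℝ) (ENNReal.ofReal q)
      (ProbabilityTheory.gaussianReal 0 (Real.toNNReal (Qf c))) :=
    ProbabilityTheory.memLp_id_gaussianReal _
  have h5 := lintegral_rpow_enorm_lt_top_of_eLpNorm_lt_top (p := ENNReal.ofReal q)
    (by simpa using hq) ENNReal.ofReal_ne_top h4.2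
  rw [ENNReal.toReal_ofReal hq.le] at h5
  exact h5.ne

theorem IsWR.lintegral_rs_rpow (hν : IsWR ν) (T : Finset unitInterval) {q : ℝ} (hq : 0 < q) :
    ∫⁻ x, (1 + ‖rs T x‖ₑ ^ 2) ^ q ∂ν ≠ ∞ := by
  have hp := hν.prob
  have hm : ∀ t (α : Fin (Module.finrank ℝ V)), Measurable fun x : unitInterval → V =>
      (‖pair (Finsupp.single t ((stdOrthonormalBasis ℝ V) α)) x‖ₑ ^ 2) ^ q := fun t α =>
    ((measurable_pair _).enorm.pow_const 2).pow_const q
  have h1 : ∀ x : unitInterval → V, (1 + ‖rs T x‖ₑ ^ 2) ^ q ≤ 2 ^ q * (1 + (T.card : ℝ≥0∞) ^ q *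
      ∑ t ∈ T, ((Finset.univ : Finset (Fin (Module.finrank ℝ V))).card : ℝ≥0∞) ^ q * ∑ α,
      (‖pair (Finsupp.single t ((stdOrthonormalBasis ℝ V) α)) x‖ₑ ^ 2) ^ q) := by
    intro x
    refine (add_rpow_le' _ _ hq.le).trans ?_
    rw [ENNReal.one_rpow]
    gcongr
    calc (‖rs T x‖ₑ ^ 2) ^ q ≤ (∑ t ∈ T, ∑ α,
        ‖pair (Finsupp.single t ((stdOrthonormalBasis ℝ V) α)) x‖ₑ ^ 2) ^ q :=
          ENNReal.rpow_le_rpow (enorm_rs_sq_le T x) hq.le
      _ ≤ _ := sum_rpow_le' _ _ hq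
      _ ≤ _ := by
        gcongr
        exact sum_rpow_le' _ _ hq
  refine ne_top_of_le_ne_top ?_ (lintegral_mono h1)
  have hm2 : ∀ t, Measurable fun x : unitInterval → V =>
      ((Finset.univ : Finset (Fin (Module.finrank ℝ V))).card : ℝ≥0∞) ^ q * ∑ α,
      (‖pair (Finsupp.single t ((stdOrthonormalBasis ℝ V) α)) x‖ₑ ^ 2) ^ q := fun t =>
    (Finset.measurable_fun_sum _ fun α _ => hm t α).const_mul _
  have hm3 : Measurable fun x : unitInterval → V => (1 + (T.card : ℝ≥0∞) ^ q *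
      ∑ t ∈ T, ((Finset.univ : Finset (Fin (Module.finrank ℝ V))).card : ℝ≥0∞) ^ q * ∑ α,
      (‖pair (Finsupp.single t ((stdOrthonormalBasis ℝ V) α)) x‖ₑ ^ 2) ^ q) :=
    measurable_const.add ((Finset.measurable_fun_sum _ fun t _ => hm2 t).const_mul _)
  rw [lintegral_const_mul _ hm3, lintegral_add_left measurable_const,
    lintegral_const_mul _ (Finset.measurable_fun_sum _ fun t _ => hm2 t),
    lintegral_finsetSum _ fun t _ => hm2 t]
  refine ENNReal.mul_ne_top (by finiteness) (ENNReal.add_ne_top.2 ⟨by simp, ?_⟩)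
  refine ENNReal.mul_ne_top (by finiteness) (ENNReal.sum_ne_top.2 fun t _ => ?_)
  rw [lintegral_const_mul _ (Finset.measurable_fun_sum _ fun α _ => hm t α),
    lintegral_finsetSum _ fun α _ => hm t α]
  refine ENNReal.mul_ne_top (by finiteness) (ENNReal.sum_ne_top.2 fun α _ => ?_)
  have h2 : ∀ x : unitInterval → V, (‖pair (Finsupp.single t ((stdOrthonormalBasis ℝ V) α)) x‖ₑ ^ 2) ^ q =
      ‖pair (Finsupp.single t ((stdOrthonormalBasis ℝ V) α)) x‖ₑ ^ (2 * q) := by
    intro x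
    rw [ENNReal.rpow_mul]
    norm_num
  simp only [h2]
  exact hν.lintegral_pair_rpow _ (by positivity)

/-- All moments of the derivatives of cylindrical functionals are finite. -/
theorem IsWR.lintegral_en_rpow (hν : IsWR ν) (r : ℕ) {F : (unitInterval → V) → E} (hF : IsCyl F)
    {q : ℝ} (hq : 0 < q) : ∫⁻ x, en b r F x ^ q ∂ν ≠ ∞ := by
  obtain ⟨T, Φ, hΦ, hF⟩ := hF
  have h1 := en_le_iteratedFDeriv b r hΦ hF
  obtain ⟨k, C, h2⟩ := hΦ.2 r
  have h3 : ∀ x, ‖iteratedFDeriv ℝ r Φ (rs T x)‖ₑ ^ 2 ≤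
      ENNReal.ofReal (C * 2 ^ k) ^ 2 * (1 + ‖rs T x‖ₑ ^ 2) ^ (k + 1) := by
    intro x
    have h4 := h2 (rs T x)
    have hn := norm_nonneg (rs T x)
    have hC : 0 ≤ C := by
      by_contra hC
      have : C * (1 + ‖rs T x‖) ^ k < 0 := mul_neg_of_neg_of_pos (by linarith) (by positivity)
      linarith [norm_nonneg (iteratedFDeriv ℝ r Φ (rs T x))]
    have h5 : ‖iteratedFDeriv ℝ r Φ (rs T x)‖ ^ 2 ≤
        (C * 2 ^ k) ^ 2 * (1 + ‖rs T x‖ ^ 2) ^ (k + 1) := by
      calc ‖iteratedFDeriv ℝ r Φ (rs T x)‖ ^ 2 ≤ (C * (1 + ‖rs T x‖) ^ k) ^ 2 := by gcongr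
        _ = C ^ 2 * ((1 + ‖rs T x‖) ^ 2) ^ k := by
            rw [mul_pow, ← pow_mul, ← pow_mul, mul_comm k 2]
        _ ≤ C ^ 2 * (4 * (1 + ‖rs T x‖ ^ 2)) ^ k := by
            gcongr
            nlinarith [sq_nonneg (1 - ‖rs T x‖)]
        _ = (C * 2 ^ k) ^ 2 * (1 + ‖rs T x‖ ^ 2) ^ k := by
            rw [mul_pow, mul_pow, ← pow_mul, mul_comm k 2, pow_mul]; norm_num; ring
        _ ≤ _ := by
            gcongr
            · nlinarith
            · omega
    rw [← ofReal_norm, ← ofReal_norm, ← ENNReal.ofReal_pow (norm_nonneg _),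
      ← ENNReal.ofReal_pow (norm_nonneg _), ← ENNReal.ofReal_one,
      ← ENNReal.ofReal_add zero_le_one (sq_nonneg _), ← ENNReal.ofReal_pow (by positivity),
      ← ENNReal.ofReal_pow (by positivity), ← ENNReal.ofReal_mul (by positivity)]
    exact ENNReal.ofReal_le_ofReal h5
  have h6 : ∀ x, en b r F x ^ q ≤ (ENNReal.ofReal (C * 2 ^ k) ^ 2 *
      (∑' j, ‖rs T (primitive (b j))‖ₑ ^ 2) ^ r) ^ q * (1 + ‖rs T x‖ₑ ^ 2) ^ ((k + 1 : ℕ) * q) := by
    intro x
    rw [ENNReal.rpow_mul, ENNReal.rpow_natCast, ← ENNReal.mul_rpow_of_nonneg _ _ hq.le]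
    apply ENNReal.rpow_le_rpow _ hq.le
    calc en b r F x ≤ _ := h1 x
      _ ≤ (ENNReal.ofReal (C * 2 ^ k) ^ 2 * (1 + ‖rs T x‖ₑ ^ 2) ^ (k + 1)) *
          (∑' j, ‖rs T (primitive (b j))‖ₑ ^ 2) ^ r := by gcongr; exact h3 x
      _ = _ := by ring
  refine ne_top_of_le_ne_top ?_ (lintegral_mono h6)
  have hmr : Measurable fun x : unitInterval → V => (1 + ‖rs T x‖ₑ ^ 2) ^ ((k + 1 : ℕ) * q) := by
    haveI : ProperSpace V := FiniteDimensional.proper ℝ V
    haveI : SecondCountableTopology V := inferInstance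
    have : Measurable fun x : unitInterval → V => rs T x := by
      unfold rs
      exact measurable_pi_lambda _ fun t => measurable_pi_apply _
    exact (measurable_const.add (this.enorm.pow_const 2)).pow_const _
  rw [lintegral_const_mul _ hmr]
  have hS := tsum_rs_ne_top b T
  refine ENNReal.mul_ne_top ?_ (hν.lintegral_rs_rpow T (by positivity))
  refine ENNReal.rpow_ne_top_of_nonneg hq.le ?_
  exact ENNReal.mul_ne_top (by finiteness) (ENNReal.pow_ne_top hS)

end moments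

end Pool.Agent.Lib.UdB
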