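import Pool.Agent.Lib.UdB.Mult2

/-!
# Multiplicator estimates, part 3: the estimate on the rare events
-/

set_option autoImplicit false
set_option linter.unusedSectionVars false
set_option linter.style.haveILetI false

open MeasureTheory
open scoped ENNReal NNReal InnerProductSpace

namespace Pool.Agent.Lib.UdB

/-- The integration by parts estimate. -/
def HasIBP {ι : Type} (ν : Measure (unitInterval → ℂ)) (b : HilbertBasis ι ℝ (H ℂ)) : Prop :=
  ∀ s : ℕ, ∃ Cs : ℝ≥0, ∀ c : unitInterval →₀ ℂ, Qf c = 1 → ∀ F : (unitInterval → ℂ) → ℂ, IsCyl F →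
    ∫⁻ x, ‖pair c x‖ₑ ^ (2 * s) * ‖F x‖ₑ ^ 2 ∂ν ≤
      Cs * ∑ k ∈ Finset.range (s + 1), ∫⁻ x, en b k F x ∂ν

theorem ibp_en {ι : Type} [Countable ι] {b : HilbertBasis ι ℝ (H ℂ)}
    {ν : Measure (unitInterval → ℂ)} {s : ℕ} {Cs : ℝ≥0∞} {c : unitInterval →₀ ℂ}
    (h : ∀ F : (unitInterval → ℂ) → ℂ, IsCyl F → ∫⁻ x, ‖pair c x‖ₑ ^ (2 * s) * ‖F x‖ₑ ^ 2 ∂ν ≤
      Cs * ∑ k ∈ Finset.range (s + 1), ∫⁻ x, en b k F x ∂ν) (j : ℕ) :
    ∀ F : (unitInterval → ℂ) → ℂ, IsCyl F → ∫⁻ x, ‖pair c x‖ₑ ^ (2 * s) * en b j F x ∂ν ≤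
      Cs * ∑ k ∈ Finset.range (s + 1), ∫⁻ x, en b (j + k) F x ∂ν := by
  induction j with
  | zero =>
    intro F hF
    simpa only [en_zero, zero_add] using h F hF
  | succ j ih =>
    intro F hF
    have hpm : Measurable fun x : unitInterval → ℂ => ‖pair c x‖ₑ ^ (2 * s) :=
      (measurable_pair c).enorm.pow_const _
    have e1 : ∫⁻ x, ‖pair c x‖ₑ ^ (2 * s) * en b (j + 1) F x ∂ν =
        ∑' i, ∫⁻ x, ‖pair c x‖ₑ ^ (2 * s) * en b j (dirD (primitive (b i)) F) x ∂ν := by
      have hmm : ∀ i, AEMeasurable (fun x => ‖pair c x‖ₑ ^ (2 * s) *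
          en b j (dirD (primitive (b i)) F) x) ν := fun i =>
        (hpm.mul (measurable_en b j (hF.dirD (primitive (b i))))).aemeasurable
      rw [← lintegral_tsum hmm]
      refine lintegral_congr fun x => ?_
      rw [en_succ, ENNReal.tsum_mul_left]
    rw [e1]
    refine (ENNReal.tsum_le_tsum fun i => ih _ (hF.dirD (primitive (b i)))).trans (le_of_eq ?_)
    rw [ENNReal.tsum_mul_left, Summable.tsum_finsetSum fun i _ => ENNReal.summable]
    congr 1
    refine Finset.sum_congr rfl fun k _ => ?_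
    rw [← lintegral_tsum fun i => (measurable_en b (j + k) (hF.dirD (primitive (b i)))).aemeasurable]
    refine lintegral_congr fun x => ?_
    rw [show j + 1 + k = (j + k) + 1 by ring, en_succ]

/-- The data of the blocks. -/
structure MData where
  /-- the block and cell of a time -/
  blk : unitInterval → ℕ × ℕ
  hblk : Measurable blk
  /-- the profile -/
  s : unitInterval → ℝ
  hs : Measurable s
  hs0 : ∀ t, 0 ≤ s t
  hs1 : ∀ t, s t ≤ 1
  /-- the number of cells -/
  M : ℕ → ℕ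
  hM : ∀ t, (blk t).2 < M (blk t).1
  /-- the Gaussian functionals -/
  ℓ : ℕ → ℕ → unitInterval →₀ ℂ
  hℓ : ∀ i m, m < M i → Qf (ℓ i m) = 1
  /-- the levels -/
  K : ℕ → ℝ
  hK : ∀ i, 2 ^ i ≤ K i

namespace MData

variable (D : MData)

/-- The rare event. -/
noncomputable def ind (i : ℕ) (t : unitInterval) (x : unitInterval → ℂ) : ℝ≥0∞ :=
  if (D.blk t).1 = i ∧ D.K i < pair (D.ℓ i (D.blk t).2) x then 1 else 0

theorem ind_le_one (i : ℕ) (t : unitInterval) (x : unitInterval → ℂ) : D.ind i t x ≤ 1 := by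
  unfold ind; split_ifs <;> simp

theorem measurable_ind (i : ℕ) :
    Measurable fun p : unitInterval × (unitInterval → ℂ) => D.ind i p.1 p.2 := by
  unfold ind
  refine Measurable.ite ?_ measurable_const measurable_const
  have h1 : Measurable fun p : ℕ × (unitInterval → ℂ) => pair (D.ℓ i p.1) p.2 :=
    measurable_from_prod_countable_right fun m => measurable_pair (D.ℓ i m)
  have h2 : Measurable fun p : unitInterval × (unitInterval → ℂ) =>
      pair (D.ℓ i (D.blk p.1).2) p.2 :=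
    h1.comp (f := fun p : unitInterval × (unitInterval → ℂ) => ((D.blk p.1).2, p.2))
      (((D.hblk.comp measurable_fst).snd).prodMk measurable_snd)
  have h3 : MeasurableSet {p : unitInterval × (unitInterval → ℂ) | (D.blk p.1).1 = i} :=
    measurableSet_eq_fun ((D.hblk.comp measurable_fst).fst) measurable_const
  have h4 : MeasurableSet {p : unitInterval × (unitInterval → ℂ) |
      D.K i < pair (D.ℓ i (D.blk p.1).2) p.2} := measurableSet_lt measurable_const h2
  exact h3.inter h4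

theorem K_pos (i : ℕ) : 0 < D.K i := lt_of_lt_of_le (by positivity) (D.hK i)

theorem ind_mul_le (i : ℕ) (t : unitInterval) (x : unitInterval → ℂ) (s : ℕ) (e : ℝ≥0∞) :
    D.ind i t x * e ≤ (ENNReal.ofReal (D.K i) ^ (2 * s))⁻¹ *
      (‖pair (D.ℓ i (D.blk t).2) x‖ₑ ^ (2 * s) * e) := by
  unfold ind
  split_ifs with h
  · rw [one_mul, ← mul_assoc]
    have h1 : (1 : ℝ≥0∞) ≤ (ENNReal.ofReal (D.K i) ^ (2 * s))⁻¹ *
        ‖pair (D.ℓ i (D.blk t).2) x‖ₑ ^ (2 * s) := by
      have hK := D.K_pos i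
      have h2 : ENNReal.ofReal (D.K i) ^ (2 * s) ≤ ‖pair (D.ℓ i (D.blk t).2) x‖ₑ ^ (2 * s) := by
        gcongr
        rw [Real.enorm_eq_ofReal_abs]
        exact ENNReal.ofReal_le_ofReal (h.2.le.trans (le_abs_self _))
      have h3 : ENNReal.ofReal (D.K i) ^ (2 * s) ≠ 0 := by
        apply pow_ne_zero
        simpa using hK
      calc (1 : ℝ≥0∞) = (ENNReal.ofReal (D.K i) ^ (2 * s))⁻¹ * ENNReal.ofReal (D.K i) ^ (2 * s) :=
            (ENNReal.inv_mul_cancel h3 (by finiteness)).symm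
        _ ≤ _ := by gcongr
    calc e = 1 * e := (one_mul e).symm
      _ ≤ _ := by gcongr
  · simp

end MData

variable {ι : Type} [Countable ι] {b : HilbertBasis ι ℝ (H ℂ)} {P : Measure (Path ℂ)}
variable (D : MData)

theorem lintegral_map_toFun {f : (unitInterval → ℂ) → ℝ≥0∞} (hf : Measurable f) :
    ∫⁻ x, f x ∂(P.map Path.toFun) = ∫⁻ ω, f ω.toFun ∂P := lintegral_map hf measurable_toFun

theorem measurable_en_family {X : unitInterval → (unitInterval → ℂ) → ℂ} (hX : IsSmoothProc X)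
    (j : ℕ) : Measurable fun p : unitInterval × (unitInterval → ℂ) => en b j (X p.1) p.2 :=
  measurable_energy j fun l => hX.measurable_iterD b l

theorem rare_smooth [IsProbabilityMeasure P] {s : ℕ} {Cs : ℝ≥0∞}
    (h : ∀ c : unitInterval →₀ ℂ, Qf c = 1 → ∀ F : (unitInterval → ℂ) → ℂ, IsCyl F →
      ∫⁻ x, ‖pair c x‖ₑ ^ (2 * s) * ‖F x‖ₑ ^ 2 ∂(P.map Path.toFun) ≤
      Cs * ∑ k ∈ Finset.range (s + 1), ∫⁻ x, en b k F x ∂(P.map Path.toFun))
    {X : unitInterval → (unitInterval → ℂ) → ℂ} (hX : IsSmoothProc X) (i j : ℕ) :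
    ∫⁻ ω, (∫⁻ t, D.ind i t ω.toFun * en b j (X t) ω.toFun) ∂P ≤
      (ENNReal.ofReal (D.K i) ^ (2 * s))⁻¹ * Cs *
        ∑ k ∈ Finset.range (s + 1), ∫⁻ ω, Aen (j + k) (sfld b X) ω ∂P := by
  have hmt : Measurable fun p : Path ℂ × unitInterval => (p.2, p.1.toFun) :=
    measurable_snd.prodMk (measurable_toFun.comp measurable_fst)
  have hm : ∀ j, Measurable fun p : Path ℂ × unitInterval => en b j (X p.2) p.1.toFun := fun j =>
    (measurable_en_family (b := b) hX j).comp hmt
  have hm1 : Measurable fun p : Path ℂ × unitInterval =>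
      D.ind i p.2 p.1.toFun * en b j (X p.2) p.1.toFun :=
    ((D.measurable_ind i).comp hmt).mul (hm j)
  have e0 : ∀ k, ∫⁻ ω, Aen (j + k) (sfld b X) ω ∂P =
      ∫⁻ t, ∫⁻ ω, en b (j + k) (X t) ω.toFun ∂P := by
    intro k
    unfold Aen sfld
    exact lintegral_lintegral_swap (hm (j + k)).aemeasurable
  simp only [e0]
  rw [lintegral_lintegral_swap hm1.aemeasurable]
  have e1 : ∀ t, ∫⁻ ω, D.ind i t ω.toFun * en b j (X t) ω.toFun ∂P ≤
      (ENNReal.ofReal (D.K i) ^ (2 * s))⁻¹ * Cs *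
      ∑ k ∈ Finset.range (s + 1), ∫⁻ ω, en b (j + k) (X t) ω.toFun ∂P := by
    intro t
    by_cases ht : (D.blk t).1 = i
    · have hpm : Measurable fun x : unitInterval → ℂ =>
          ‖pair (D.ℓ i (D.blk t).2) x‖ₑ ^ (2 * s) * en b j (X t) x :=
        ((measurable_pair _).enorm.pow_const _).mul (measurable_en b j (hX.isCyl t))
      have hQ : Qf (D.ℓ i (D.blk t).2) = 1 := D.hℓ _ _ (by rw [← ht]; exact D.hM t)
      calc ∫⁻ ω, D.ind i t ω.toFun * en b j (X t) ω.toFun ∂P
          ≤ ∫⁻ ω, (ENNReal.ofReal (D.K i) ^ (2 * s))⁻¹ *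
            (‖pair (D.ℓ i (D.blk t).2) ω.toFun‖ₑ ^ (2 * s) * en b j (X t) ω.toFun) ∂P :=
            lintegral_mono fun ω => D.ind_mul_le i t _ s _
        _ = (ENNReal.ofReal (D.K i) ^ (2 * s))⁻¹ *
            ∫⁻ x, ‖pair (D.ℓ i (D.blk t).2) x‖ₑ ^ (2 * s) * en b j (X t) x ∂(P.map Path.toFun) := by
            have hpm' : Measurable fun ω : Path ℂ =>
                ‖pair (D.ℓ i (D.blk t).2) ω.toFun‖ₑ ^ (2 * s) * en b j (X t) ω.toFun :=
              hpm.comp measurable_toFun
            rw [lintegral_map_toFun hpm, lintegral_const_mul _ hpm']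
        _ ≤ (ENNReal.ofReal (D.K i) ^ (2 * s))⁻¹ * (Cs *
            ∑ k ∈ Finset.range (s + 1), ∫⁻ x, en b (j + k) (X t) x ∂(P.map Path.toFun)) := by
            gcongr
            exact ibp_en (h _ hQ) j (X t) (hX.isCyl t)
        _ = _ := by
            rw [← mul_assoc]
            congr 1
            refine Finset.sum_congr rfl fun k _ => ?_
            rw [lintegral_map_toFun (measurable_en b (j + k) (hX.isCyl t))]
    · have : ∀ ω : Path ℂ, D.ind i t ω.toFun * en b j (X t) ω.toFun = 0 := by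
        intro ω
        unfold MData.ind
        rw [if_neg (fun h => ht h.1), zero_mul]
      simp [this]
  refine (lintegral_mono e1).trans (le_of_eq ?_)
  have hm2 : ∀ k, Measurable fun t => ∫⁻ ω, en b (j + k) (X t) ω.toFun ∂P := fun k =>
    (hm (j + k)).lintegral_prod_left'
  rw [lintegral_const_mul _ (Finset.measurable_fun_sum _ fun k _ => hm2 k),
    lintegral_finsetSum _ fun k _ => hm2 k]

/-- The estimate on the rare events. -/
theorem rare_le [IsProbabilityMeasure P] {s : ℕ} {Cs : ℝ≥0}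
    (h : ∀ c : unitInterval →₀ ℂ, Qf c = 1 → ∀ F : (unitInterval → ℂ) → ℂ, IsCyl F →
      ∫⁻ x, ‖pair c x‖ₑ ^ (2 * s) * ‖F x‖ₑ ^ 2 ∂(P.map Path.toFun) ≤
      Cs * ∑ k ∈ Finset.range (s + 1), ∫⁻ x, en b k F x ∂(P.map Path.toFun))
    {G : List ι → unitInterval → Path ℂ → ℂ} (hG : IsD b P G) (i j : ℕ) :
    ∫⁻ ω, (∫⁻ t, D.ind i t ω.toFun * energy j (fun l => G l t ω)) ∂P ≤
      (ENNReal.ofReal (D.K i) ^ (2 * s))⁻¹ * (4 * Cs) *
        ∑ k ∈ Finset.range (s + 1), ∫⁻ ω, Aen (j + k) G ω ∂P := by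
  set L : ℝ≥0∞ := (ENNReal.ofReal (D.K i) ^ (2 * s))⁻¹ * Cs with hL
  have hLtop : L ≠ ∞ := by
    rw [hL]
    refine ENNReal.mul_ne_top ?_ ENNReal.coe_ne_top
    rw [ENNReal.inv_ne_top]
    apply pow_ne_zero
    simpa using D.K_pos i
  have hmt : Measurable fun p : unitInterval × Path ℂ => (p.1, p.2.toFun) :=
    measurable_fst.prodMk (measurable_toFun.comp measurable_snd)
  have key : ∀ ε : ℝ≥0∞, 0 < ε → ε ≤ 1 →
      ∫⁻ ω, (∫⁻ t, D.ind i t ω.toFun * energy j (fun l => G l t ω)) ∂P ≤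
      4 * L * ∑ k ∈ Finset.range (s + 1), ∫⁻ ω, Aen (j + k) G ω ∂P +
        (2 + 4 * L * (s + 1 : ℕ)) * ε := by
    intro ε hε hε1
    obtain ⟨X, hX, hXG⟩ := hG.2 2 (by norm_num) (j + s) ε hε
    have hXF : MF (sfld b X) := hX.MF b
    have hDF : MF (fun l t ω => sfld b X l t ω - G l t ω) := hXF.sub hG.1
    have hd : ∀ k ≤ s, ∫⁻ ω, Aen (j + k) (fun l t ω => sfld b X l t ω - G l t ω) ω ∂P ≤ ε := by
      intro k hk
      rw [lintegral_Aen_eq]
      calc sobNorm P 2 (j + k) (fun l t ω => sfld b X l t ω - G l t ω) ^ (2 : ℝ) ≤ ε ^ (2 : ℝ) :=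
            ENNReal.rpow_le_rpow (hXG (j + k) (by omega)) (by norm_num)
        _ ≤ ε := by
            rw [show (2 : ℝ) = ((2 : ℕ) : ℝ) by norm_num, ENNReal.rpow_natCast, pow_two]
            calc ε * ε ≤ ε * 1 := by gcongr
              _ = ε := mul_one _
    -- the energy of `G` is bounded by the energies of `X` and `X - G`
    have h1 : ∀ t ω, D.ind i t ω.toFun * energy j (fun l => G l t ω) ≤
        2 * energy j (fun l => sfld b X l t ω - G l t ω) +
        2 * (D.ind i t ω.toFun * en b j (X t) ω.toFun) := by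
      intro t ω
      have h2 : energy j (fun l => G l t ω) ≤
          2 * energy j (fun l => sfld b X l t ω - G l t ω) + 2 * en b j (X t) ω.toFun := by
        have h3 := energy_sub_le j (fun l => sfld b X l t ω)
          (fun l => sfld b X l t ω - G l t ω)
        simp only [sub_sub_cancel] at h3
        rw [add_comm]
        exact h3
      calc D.ind i t ω.toFun * energy j (fun l => G l t ω) ≤ D.ind i t ω.toFun *
          (2 * energy j (fun l => sfld b X l t ω - G l t ω) + 2 * en b j (X t) ω.toFun) := by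
            gcongr
        _ = D.ind i t ω.toFun * (2 * energy j (fun l => sfld b X l t ω - G l t ω)) +
            2 * (D.ind i t ω.toFun * en b j (X t) ω.toFun) := by ring
        _ ≤ 1 * (2 * energy j (fun l => sfld b X l t ω - G l t ω)) +
            2 * (D.ind i t ω.toFun * en b j (X t) ω.toFun) := by
            gcongr
            exact D.ind_le_one i t _
        _ = _ := by rw [one_mul]
    have hmd : ∀ ω : Path ℂ, Measurable fun t =>
        energy j (fun l => sfld b X l t ω - G l t ω) := fun ω =>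
      (hDF.measurable_energy j).comp (measurable_id.prodMk measurable_const)
    have hmX : Measurable fun p : unitInterval × Path ℂ =>
        D.ind i p.1 p.2.toFun * en b j (X p.1) p.2.toFun :=
      ((D.measurable_ind i).comp hmt).mul ((measurable_en_family (b := b) hX j).comp hmt)
    have hmX' : ∀ ω : Path ℂ, Measurable fun t =>
        D.ind i t ω.toFun * en b j (X t) ω.toFun := fun ω =>
      hmX.comp (measurable_id.prodMk measurable_const)
    have h4 : ∫⁻ ω, (∫⁻ t, D.ind i t ω.toFun * energy j (fun l => G l t ω)) ∂P ≤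
        2 * ∫⁻ ω, Aen j (fun l t ω => sfld b X l t ω - G l t ω) ω ∂P +
        2 * ∫⁻ ω, (∫⁻ t, D.ind i t ω.toFun * en b j (X t) ω.toFun) ∂P := by
      have hmi : Measurable fun ω : Path ℂ => ∫⁻ t, D.ind i t ω.toFun * en b j (X t) ω.toFun :=
        hmX.lintegral_prod_left'
      rw [← lintegral_const_mul _ (hDF.measurable_Aen j), ← lintegral_const_mul _ hmi,
        ← lintegral_add_left ((hDF.measurable_Aen j).const_mul _)]
      refine lintegral_mono fun ω => ?_
      unfold Aen
      rw [← lintegral_const_mul _ (hmd ω), ← lintegral_const_mul _ (hmX' ω),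
        ← lintegral_add_left ((hmd ω).const_mul _)]
      exact lintegral_mono fun t => h1 t ω
    have h5 := rare_smooth (b := b) (P := P) D (s := s) (Cs := Cs) h hX i j
    have h6 : ∀ k ∈ Finset.range (s + 1), ∫⁻ ω, Aen (j + k) (sfld b X) ω ∂P ≤
        2 * ∫⁻ ω, Aen (j + k) G ω ∂P + 2 * ε := by
      intro k hk
      rw [Finset.mem_range] at hk
      have h7 : ∀ ω, Aen (j + k) (sfld b X) ω ≤ 2 * Aen (j + k) G ω +
          2 * Aen (j + k) (fun l t ω => sfld b X l t ω - G l t ω) ω := by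
        intro ω
        have hmg : Measurable fun t => energy (j + k) (fun l => G l t ω) :=
          (hG.1.measurable_energy _).comp (measurable_id.prodMk measurable_const)
        have hmd : Measurable fun t => energy (j + k) (fun l => sfld b X l t ω - G l t ω) :=
          (hDF.measurable_energy _).comp (measurable_id.prodMk measurable_const)
        unfold Aen
        rw [← lintegral_const_mul _ hmg, ← lintegral_const_mul _ hmd,
          ← lintegral_add_left (hmg.const_mul _)]
        refine lintegral_mono fun t => ?_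
        have h3 := energy_add_le (j + k) (fun l => G l t ω) (fun l => sfld b X l t ω - G l t ω)
        simp only [add_sub_cancel] at h3
        exact h3
      refine (lintegral_mono h7).trans ?_
      rw [lintegral_add_left ((hG.1.measurable_Aen _).const_mul _),
        lintegral_const_mul _ (hG.1.measurable_Aen _), lintegral_const_mul _ (hDF.measurable_Aen _)]
      gcongr
      exact hd k (by omega)
    have h0 := hd 0 (Nat.zero_le s)
    rw [add_zero] at h0
    calc ∫⁻ ω, (∫⁻ t, D.ind i t ω.toFun * energy j (fun l => G l t ω)) ∂P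
        ≤ 2 * ε + 2 * (L * ∑ k ∈ Finset.range (s + 1),
          (2 * ∫⁻ ω, Aen (j + k) G ω ∂P + 2 * ε)) := by
          refine h4.trans ?_
          gcongr
          exact h5.trans (by gcongr with k hk; exact h6 k hk)
      _ = _ := by
          rw [Finset.sum_add_distrib, ← Finset.mul_sum, Finset.sum_const, Finset.card_range,
            nsmul_eq_mul]
          ring
  have hfin : (2 + 4 * L * (s + 1 : ℕ)) ≠ ∞ := by finiteness
  have hpos : (2 + 4 * L * (s + 1 : ℕ)) ≠ 0 := by
    intro h0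
    rw [add_eq_zero] at h0
    exact absurd h0.1 (by norm_num)
  have hfinal : ∫⁻ ω, (∫⁻ t, D.ind i t ω.toFun * energy j (fun l => G l t ω)) ∂P ≤
      4 * L * ∑ k ∈ Finset.range (s + 1), ∫⁻ ω, Aen (j + k) G ω ∂P := by
    refine ENNReal.le_of_forall_pos_le_add fun δ hδ _ => ?_
    have hδ' : (0 : ℝ≥0∞) < δ := by exact_mod_cast hδ
    refine (key (min 1 (δ / (2 + 4 * L * (s + 1 : ℕ)))) (lt_min (by norm_num)
      (ENNReal.div_pos hδ'.ne' hfin)) (min_le_left _ _)).trans ?_
    gcongr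
    calc (2 + 4 * L * (s + 1 : ℕ)) * min 1 (δ / (2 + 4 * L * (s + 1 : ℕ))) ≤
        (2 + 4 * L * (s + 1 : ℕ)) * (δ / (2 + 4 * L * (s + 1 : ℕ))) := by
          gcongr; exact min_le_right _ _
      _ ≤ δ := ENNReal.mul_div_le
  refine hfinal.trans (le_of_eq ?_)
  rw [hL]
  ring

end Pool.Agent.Lib.UdB
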