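import Pool.Agent.Lib.UdB.Mult3

/-!
# Multiplicator estimates, part 4: the main estimate
-/

set_option autoImplicit false
set_option linter.unusedSectionVars false
set_option linter.style.haveILetI false

open MeasureTheory
open scoped ENNReal NNReal InnerProductSpace

namespace Pool.Agent.Lib.UdB

variable {ι : Type} [Countable ι] {b : HilbertBasis ι ℝ (H ℂ)} {P : Measure (Path ℂ)}

/-- The sum of the energies of orders at most `r`. -/
noncomputable def Esum (r : ℕ) (G : List ι → unitInterval → Path ℂ → ℂ) (t : unitInterval)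
    (ω : Path ℂ) : ℝ≥0∞ := ∑ j ∈ Finset.range (r + 1), energy j (fun l => G l t ω)

/-- The sum of the integrated energies of orders at most `r`. -/
noncomputable def Asum (r : ℕ) (G : List ι → unitInterval → Path ℂ → ℂ)
    (ω : Path ℂ) : ℝ≥0∞ := ∑ j ∈ Finset.range (r + 1), Aen j G ω

/-- The Sobolev norm of order `r`. -/
noncomputable def Nsum (P : Measure (Path ℂ)) (p : ℝ) (r : ℕ)
    (G : List ι → unitInterval → Path ℂ → ℂ) : ℝ≥0∞ :=
  ∑ k ∈ Finset.range (r + 1), sobNorm P p k G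

variable {G : List ι → unitInterval → Path ℂ → ℂ}

theorem MF.measurable_Esum (hG : MF G) (r : ℕ) :
    Measurable fun p : unitInterval × Path ℂ => Esum r G p.1 p.2 :=
  Finset.measurable_fun_sum _ fun j _ => hG.measurable_energy j

theorem MF.measurable_Esum' (hG : MF G) (r : ℕ) (ω : Path ℂ) :
    Measurable fun t : unitInterval => Esum r G t ω :=
  (hG.measurable_Esum r).comp (measurable_id.prodMk measurable_const)

theorem MF.measurable_Asum (hG : MF G) (r : ℕ) : Measurable (Asum r G) :=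
  Finset.measurable_fun_sum _ fun j _ => hG.measurable_Aen j

theorem MF.lintegral_Esum (hG : MF G) (r : ℕ) (ω : Path ℂ) :
    ∫⁻ t, Esum r G t ω = Asum r G ω := by
  unfold Esum Asum Aen
  rw [lintegral_finsetSum]
  intro j _
  exact (hG.measurable_energy j).comp (measurable_id.prodMk measurable_const)

theorem lintegral_Asum_rpow_le [IsProbabilityMeasure P] (hG : MF G) (r : ℕ) {e p' : ℝ}
    (he : 0 < e) (hep : 2 * e ≤ p') {r' : ℕ} (hr : r ≤ r') :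
    ∫⁻ ω, Asum r G ω ^ e ∂P ≤
      ((r + 1 : ℕ) : ℝ≥0∞) ^ e * ((r + 1 : ℕ) * Nsum P p' r' G ^ (2 * e)) := by
  have h1 : ∀ ω, Asum r G ω ^ e ≤ ((r + 1 : ℕ) : ℝ≥0∞) ^ e *
      ∑ j ∈ Finset.range (r + 1), Aen j G ω ^ e := by
    intro ω
    have := sum_rpow_le' (Finset.range (r + 1)) (fun j => Aen j G ω) he
    rwa [Finset.card_range] at this
  have hm : ∀ j, Measurable fun ω => Aen j G ω ^ e := fun j => (hG.measurable_Aen j).pow_const e
  refine (lintegral_mono h1).trans ?_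
  rw [lintegral_const_mul _ (Finset.measurable_fun_sum _ fun j _ => hm j),
    lintegral_finsetSum _ fun j _ => hm j]
  gcongr
  have h2 : ∀ j ∈ Finset.range (r + 1), ∫⁻ ω, Aen j G ω ^ e ∂P ≤ Nsum P p' r' G ^ (2 * e) := by
    intro j hj
    rw [Finset.mem_range] at hj
    have h3 : ∫⁻ ω, Aen j G ω ^ e ∂P = sobNorm P (2 * e) j G ^ (2 * e) := by
      rw [sobNorm_pow (by positivity)]
      congr 1
      ext ω
      congr 1
      ring
    rw [h3]
    apply ENNReal.rpow_le_rpow _ (by positivity)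
    refine (sobNorm_mono_p hG (by positivity) hep j).trans ?_
    exact Finset.single_le_sum (f := fun k => sobNorm P p' k G) (fun _ _ => zero_le)
      (Finset.mem_range.2 (by omega))
  refine (Finset.sum_le_sum h2).trans (le_of_eq ?_)
  rw [Finset.sum_const, Finset.card_range, nsmul_eq_mul]

variable (D : MData)

/-- The part of the energy on the rare event of block `i`. -/
noncomputable def Yen (r : ℕ) (G : List ι → unitInterval → Path ℂ → ℂ) (i : ℕ)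
    (ω : Path ℂ) : ℝ≥0∞ := ∫⁻ t, D.ind i t ω.toFun * Esum r G t ω

theorem measurable_indEsum (hG : MF G) (r i : ℕ) :
    Measurable fun p : unitInterval × Path ℂ => D.ind i p.1 p.2.toFun * Esum r G p.1 p.2 := by
  have hmt : Measurable fun p : unitInterval × Path ℂ => (p.1, p.2.toFun) :=
    measurable_fst.prodMk (measurable_toFun.comp measurable_snd)
  exact ((D.measurable_ind i).comp hmt).mul (hG.measurable_Esum r)

theorem measurable_Yen (hG : MF G) (r i : ℕ) : Measurable (Yen D r G i) :=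
  (measurable_indEsum D hG r i).lintegral_prod_left'

theorem Yen_le_Asum (hG : MF G) (r i : ℕ) (ω : Path ℂ) : Yen D r G i ω ≤ Asum r G ω := by
  rw [← hG.lintegral_Esum]
  unfold Yen
  refine lintegral_mono fun t => ?_
  calc D.ind i t ω.toFun * Esum r G t ω ≤ 1 * Esum r G t ω := by
        gcongr; exact D.ind_le_one i t _
    _ = _ := one_mul _

theorem lintegral_Yen_le [IsProbabilityMeasure P] {s : ℕ} {Cs : ℝ≥0}
    (h : ∀ c : unitInterval →₀ ℂ, Qf c = 1 → ∀ F : (unitInterval → ℂ) → ℂ, IsCyl F →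
      ∫⁻ x, ‖pair c x‖ₑ ^ (2 * s) * ‖F x‖ₑ ^ 2 ∂(P.map Path.toFun) ≤
      Cs * ∑ k ∈ Finset.range (s + 1), ∫⁻ x, en b k F x ∂(P.map Path.toFun))
    (hG : IsD b P G) (r i : ℕ) {p' : ℝ} (hp' : 2 ≤ p') :
    ∫⁻ ω, Yen D r G i ω ∂P ≤ (ENNReal.ofReal (D.K i) ^ (2 * s))⁻¹ *
      ((4 * Cs) * ((r + 1 : ℕ) * (s + 1 : ℕ))) * Nsum P p' (r + s) G ^ (2 : ℝ) := by
  have hm : ∀ j, Measurable fun p : unitInterval × Path ℂ =>
      D.ind i p.1 p.2.toFun * energy j (fun l => G l p.1 p.2) := by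
    intro j
    have hmt : Measurable fun p : unitInterval × Path ℂ => (p.1, p.2.toFun) :=
      measurable_fst.prodMk (measurable_toFun.comp measurable_snd)
    exact ((D.measurable_ind i).comp hmt).mul (hG.1.measurable_energy j)
  have h1 : ∀ ω, Yen D r G i ω = ∑ j ∈ Finset.range (r + 1),
      ∫⁻ t, D.ind i t ω.toFun * energy j (fun l => G l t ω) := by
    intro ω
    unfold Yen Esum
    simp only [Finset.mul_sum]
    rw [lintegral_finsetSum]
    intro j _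
    exact (hm j).comp (measurable_id.prodMk measurable_const)
  simp only [h1]
  rw [lintegral_finsetSum _ fun j _ => (hm j).lintegral_prod_left']
  have h2 : ∀ j ∈ Finset.range (r + 1),
      ∫⁻ ω, (∫⁻ t, D.ind i t ω.toFun * energy j (fun l => G l t ω)) ∂P ≤
      (ENNReal.ofReal (D.K i) ^ (2 * s))⁻¹ * (4 * Cs) *
        ((s + 1 : ℕ) * Nsum P p' (r + s) G ^ (2 : ℝ)) := by
    intro j hj
    rw [Finset.mem_range] at hj
    refine (rare_le D h hG i j).trans ?_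
    gcongr
    have h3 : ∀ k ∈ Finset.range (s + 1), ∫⁻ ω, Aen (j + k) G ω ∂P ≤
        Nsum P p' (r + s) G ^ (2 : ℝ) := by
      intro k hk
      rw [Finset.mem_range] at hk
      rw [lintegral_Aen_eq]
      apply ENNReal.rpow_le_rpow _ (by norm_num)
      refine (sobNorm_mono_p hG.1 (by norm_num) hp' _).trans ?_
      exact Finset.single_le_sum (f := fun k => sobNorm P p' k G) (fun _ _ => zero_le)
        (Finset.mem_range.2 (by omega))
    refine (Finset.sum_le_sum h3).trans (le_of_eq ?_)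
    rw [Finset.sum_const, Finset.card_range, nsmul_eq_mul]
  refine (Finset.sum_le_sum h2).trans (le_of_eq ?_)
  rw [Finset.sum_const, Finset.card_range, nsmul_eq_mul]
  ring

theorem rpow_aux (κ c₁ c₂ N : ℝ≥0∞) {q : ℝ} (hq : 1 / 2 ≤ q) :
    (κ * c₁ * N ^ (2 : ℝ)) ^ (1 / 4 : ℝ) * (c₂ * N ^ (2 * (4 * q - 1))) ^ (1 / 4 : ℝ) =
      c₁ ^ (1 / 4 : ℝ) * c₂ ^ (1 / 4 : ℝ) * κ ^ (1 / 4 : ℝ) * N ^ (2 * q) := by
  rw [ENNReal.mul_rpow_of_nonneg _ _ (by norm_num : (0 : ℝ) ≤ 1 / 4),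
    ENNReal.mul_rpow_of_nonneg _ _ (by norm_num : (0 : ℝ) ≤ 1 / 4),
    ENNReal.mul_rpow_of_nonneg _ _ (by norm_num : (0 : ℝ) ≤ 1 / 4), ← ENNReal.rpow_mul,
    ← ENNReal.rpow_mul]
  have h5 : N ^ (2 * q) = N ^ ((2 : ℝ) * (1 / 4)) * N ^ (2 * (4 * q - 1) * (1 / 4)) := by
    rw [← ENNReal.rpow_add_of_nonneg _ _ (by norm_num) (by linarith)]
    congr 1
    ring
  rw [h5]
  ring

/-- The moments of the rare part. -/
theorem lintegral_Yen_rpow_le [IsProbabilityMeasure P] {s : ℕ} {Cs : ℝ≥0}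
    (h : ∀ c : unitInterval →₀ ℂ, Qf c = 1 → ∀ F : (unitInterval → ℂ) → ℂ, IsCyl F →
      ∫⁻ x, ‖pair c x‖ₑ ^ (2 * s) * ‖F x‖ₑ ^ 2 ∂(P.map Path.toFun) ≤
      Cs * ∑ k ∈ Finset.range (s + 1), ∫⁻ x, en b k F x ∂(P.map Path.toFun))
    {q : ℝ} (hq : 1 / 2 ≤ q) (r : ℕ) : ∃ C : ℝ≥0∞, C ≠ ∞ ∧ ∀ (G : List ι → unitInterval → Path ℂ → ℂ)
      (_ : IsD b P G) (i : ℕ), (∫⁻ ω, Yen D r G i ω ^ (2 * q) ∂P) ^ (1 / 2 : ℝ) ≤
      C * (ENNReal.ofReal (D.K i) ^ (2 * s))⁻¹ ^ (1 / 4 : ℝ) *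
        Nsum P (8 * q - 2) (r + s) G ^ (2 * q) := by
  refine ⟨((4 * Cs) * ((r + 1 : ℕ) * (s + 1 : ℕ))) ^ (1 / 4 : ℝ) *
    (((r + 1 : ℕ) : ℝ≥0∞) ^ (4 * q - 1) * (r + 1 : ℕ)) ^ (1 / 4 : ℝ), ?_, ?_⟩
  · refine ENNReal.mul_ne_top ?_ ?_
    · exact ENNReal.rpow_ne_top_of_nonneg (by norm_num) (by finiteness)
    · refine ENNReal.rpow_ne_top_of_nonneg (by norm_num) (ENNReal.mul_ne_top ?_ (by finiteness))
      exact ENNReal.rpow_ne_top_of_nonneg (by linarith) (by finiteness)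
  intro G hG i
  have hYm := measurable_Yen D hG.1 r i
  have hAm := hG.1.measurable_Asum r
  have h1 : ∀ ω, Yen D r G i ω ^ (2 * q) ≤
      Yen D r G i ω ^ (1 / 2 : ℝ) * Asum r G ω ^ (2 * q - 1 / 2) := by
    intro ω
    calc Yen D r G i ω ^ (2 * q) = Yen D r G i ω ^ (1 / 2 : ℝ) *
          Yen D r G i ω ^ (2 * q - 1 / 2) := by
          rw [← ENNReal.rpow_add_of_nonneg _ _ (by norm_num) (by linarith)]
          congr 1
          ring
      _ ≤ _ := by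
          gcongr
          · linarith
          · exact Yen_le_Asum D hG.1 r i ω
  have h2 : ∫⁻ ω, Yen D r G i ω ^ (2 * q) ∂P ≤ (∫⁻ ω, Yen D r G i ω ∂P) ^ (1 / 2 : ℝ) *
      (∫⁻ ω, Asum r G ω ^ (4 * q - 1) ∂P) ^ (1 / 2 : ℝ) := by
    refine (lintegral_mono h1).trans ?_
    refine (lintegral_mul_le_sqrt P (hYm.pow_const _).aemeasurable
      (hAm.pow_const _).aemeasurable).trans (le_of_eq ?_)
    congr 2
    · refine lintegral_congr fun ω => ?_
      rw [← ENNReal.rpow_mul]; norm_num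
    · refine lintegral_congr fun ω => ?_
      rw [← ENNReal.rpow_mul]; congr 1; ring
  have h3 := lintegral_Yen_le D h hG r i (p' := 8 * q - 2) (by linarith)
  have h4 := lintegral_Asum_rpow_le (P := P) hG.1 r (e := 4 * q - 1) (p' := 8 * q - 2)
    (by linarith) (by linarith) (r' := r + s) (by omega)
  set N := Nsum P (8 * q - 2) (r + s) G with hN
  calc (∫⁻ ω, Yen D r G i ω ^ (2 * q) ∂P) ^ (1 / 2 : ℝ)
      ≤ (((ENNReal.ofReal (D.K i) ^ (2 * s))⁻¹ * ((4 * Cs) * ((r + 1 : ℕ) * (s + 1 : ℕ))) *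
          N ^ (2 : ℝ)) ^ (1 / 2 : ℝ) *
        (((r + 1 : ℕ) : ℝ≥0∞) ^ (4 * q - 1) * ((r + 1 : ℕ) * N ^ (2 * (4 * q - 1)))) ^ (1 / 2 : ℝ))
          ^ (1 / 2 : ℝ) := by
        gcongr
        refine h2.trans ?_
        gcongr
    _ = ((ENNReal.ofReal (D.K i) ^ (2 * s))⁻¹ * ((4 * Cs) * ((r + 1 : ℕ) * (s + 1 : ℕ))) *
          N ^ (2 : ℝ)) ^ (1 / 4 : ℝ) *
        ((((r + 1 : ℕ) : ℝ≥0∞) ^ (4 * q - 1) * (r + 1 : ℕ)) * N ^ (2 * (4 * q - 1))) ^ (1 / 4 : ℝ) := by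
        rw [ENNReal.mul_rpow_of_nonneg _ _ (by norm_num : (0 : ℝ) ≤ 1 / 2), ← ENNReal.rpow_mul,
          ← ENNReal.rpow_mul, ← mul_assoc (((r + 1 : ℕ) : ℝ≥0∞) ^ (4 * q - 1))]
        norm_num
    _ = _ := rpow_aux _ _ _ _ hq

/-- The energy of a product of fields. -/
theorem Aen_spl_le {W : List ι → unitInterval → Path ℂ → ℂ} (hG : MF G)
    {B : ℕ → (unitInterval → ℂ) → ℝ≥0∞} {a : ℝ≥0∞} {w : ℕ → ℝ≥0∞} {r : ℕ}
    (hW : ∀ k ≤ r, ∀ t ω, energy k (fun l => W l t ω) ≤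
      a + ∑' i, w i * (B i ω.toFun * D.ind i t ω.toFun)) (ω : Path ℂ) :
    Aen r (fun l t ω => spl (fun x y => x * y) (fun l => W l t ω) (fun l => G l t ω) l) ω ≤
      (4 ^ r * (r + 1 : ℕ)) * (a * Asum r G ω + ∑' i, w i * (B i ω.toFun * Yen D r G i ω)) := by
  have hm : ∀ i, Measurable fun t => D.ind i t ω.toFun * Esum r G t ω := fun i =>
    (measurable_indEsum D hG r i).comp (measurable_id.prodMk measurable_const)
  have hE := hG.measurable_Esum' r ω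
  have h1 : ∀ t, energy r (fun l => spl (fun x y => x * y) (fun l => W l t ω)
      (fun l => G l t ω) l) ≤ (4 ^ r * (r + 1 : ℕ)) *
      (a * Esum r G t ω + ∑' i, w i * (B i ω.toFun * (D.ind i t ω.toFun * Esum r G t ω))) := by
    intro t
    have hmul : ∀ x y : ℂ, ‖x * y‖ₑ ≤ ‖x‖ₑ * ‖y‖ₑ := fun x y => (enorm_mul x y).le
    refine (energy_spl_le' (B := fun x y : ℂ => x * y) hmul r _ _).trans ?_
    rw [mul_assoc]
    refine mul_le_mul' le_rfl ?_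
    have h2 : ∑ k ∈ Finset.range (r + 1), energy k (fun l => W l t ω) ≤
        (r + 1 : ℕ) * (a + ∑' i, w i * (B i ω.toFun * D.ind i t ω.toFun)) := by
      refine (Finset.sum_le_sum fun k hk => hW k ?_ t ω).trans (le_of_eq ?_)
      · rw [Finset.mem_range] at hk; omega
      · rw [Finset.sum_const, Finset.card_range, nsmul_eq_mul]
    calc (∑ k ∈ Finset.range (r + 1), energy k (fun l => W l t ω)) *
          ∑ k ∈ Finset.range (r + 1), energy k (fun l => G l t ω)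
        ≤ ((r + 1 : ℕ) * (a + ∑' i, w i * (B i ω.toFun * D.ind i t ω.toFun))) *
          Esum r G t ω := by gcongr; exact le_rfl
      _ = _ := by
        rw [mul_assoc, add_mul, ← ENNReal.tsum_mul_right]
        have e : ∀ i, w i * (B i ω.toFun * D.ind i t ω.toFun) * Esum r G t ω =
            w i * (B i ω.toFun * (D.ind i t ω.toFun * Esum r G t ω)) := fun i => by ring
        simp only [e]
  unfold Aen
  refine (lintegral_mono h1).trans (le_of_eq ?_)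
  have hm2 : ∀ i, Measurable fun t => w i * (B i ω.toFun * (D.ind i t ω.toFun * Esum r G t ω)) :=
    fun i => ((hm i).const_mul _).const_mul _
  have hm3 : Measurable fun t => a * Esum r G t ω +
      ∑' i, w i * (B i ω.toFun * (D.ind i t ω.toFun * Esum r G t ω)) :=
    (hE.const_mul _).add (Measurable.tsum hm2)
  rw [lintegral_const_mul _ hm3, lintegral_add_left (hE.const_mul _),
    lintegral_const_mul _ hE, hG.lintegral_Esum, lintegral_tsum fun i => (hm2 i).aemeasurable]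
  congr 3
  ext i
  rw [lintegral_const_mul _ ((hm i).const_mul _), lintegral_const_mul _ (hm i)]
  rfl

theorem two_pow_aux {q : ℝ} (hq : 0 ≤ q) {m : ℕ} (hm : q + 1 ≤ m) (i : ℕ) {κ : ℝ≥0∞}
    (hκ : 2 ^ i ≤ κ) : ((2 : ℝ≥0∞) ^ (i + 1)) ^ q * (κ ^ m)⁻¹ ≤ 2 ^ q * (2⁻¹) ^ i := by
  have h1 : (κ ^ m)⁻¹ ≤ (((2 : ℝ≥0∞) ^ i) ^ m)⁻¹ := by gcongr
  have h2 : (((2 : ℝ≥0∞) ^ i) ^ m)⁻¹ ≤ (((2 : ℝ≥0∞) ^ i) ^ (q + 1))⁻¹ := by
    rw [← ENNReal.rpow_natCast ((2 : ℝ≥0∞) ^ i) m]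
    gcongr
    · exact one_le_pow₀ (by norm_num)
  calc ((2 : ℝ≥0∞) ^ (i + 1)) ^ q * (κ ^ m)⁻¹ ≤
      ((2 : ℝ≥0∞) ^ (i + 1)) ^ q * (((2 : ℝ≥0∞) ^ i) ^ (q + 1))⁻¹ :=
        mul_le_mul' le_rfl (h1.trans h2)
    _ = 2 ^ q * (((2 : ℝ≥0∞) ^ i) ^ q * ((((2 : ℝ≥0∞) ^ i) ^ q)⁻¹ * (2 ^ i)⁻¹)) := by
        rw [pow_succ, mul_comm ((2 : ℝ≥0∞) ^ i) 2, ENNReal.mul_rpow_of_nonneg _ _ hq,
          ENNReal.rpow_add_of_nonneg _ _ hq zero_le_one, ENNReal.rpow_one,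
          ENNReal.mul_inv (Or.inl (by positivity)) (Or.inr (by positivity)), mul_assoc]
    _ = 2 ^ q * (2⁻¹) ^ i := by
        rw [← mul_assoc (((2 : ℝ≥0∞) ^ i) ^ q), ENNReal.mul_inv_cancel, one_mul, ENNReal.inv_pow]
        · have : (0 : ℝ≥0∞) < (2 : ℝ≥0∞) ^ i := by positivity
          exact (ENNReal.rpow_pos this (by finiteness)).ne'
        · exact ENNReal.rpow_ne_top_of_nonneg hq (by finiteness)

/-- The main estimate. -/
theorem mult_est (hP : IsWiener P) (hibp : HasIBP (P.map Path.toFun) b)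
    {B : ℕ → (unitInterval → ℂ) → ℝ≥0∞} (hBm : ∀ i, Measurable (B i))
    (hB : ∀ q : ℝ, 0 < q → ∃ (C : ℝ≥0) (k : ℕ), ∀ i,
      ∫⁻ x, B i x ^ q ∂(P.map Path.toFun) ≤ C * ENNReal.ofReal (D.K i) ^ k)
    {p : ℝ} (hp : 1 ≤ p) (r : ℕ) : ∃ (p' : ℝ) (r' : ℕ) (C : ℝ≥0), 1 ≤ p' ∧ p ≤ p' ∧ r ≤ r' ∧
      ∀ (W : List ι → unitInterval → Path ℂ → ℂ) (a : ℝ≥0∞) (w : ℕ → ℝ≥0∞)
        (_ : ∀ k ≤ r, ∀ t ω, energy k (fun l => W l t ω) ≤
          a + ∑' i, w i * (B i ω.toFun * D.ind i t ω.toFun))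
        (G : List ι → unitInterval → Path ℂ → ℂ) (_ : IsD b P G),
      sobNorm P p r (fun l t ω => spl (fun x y => x * y) (fun l => W l t ω)
        (fun l => G l t ω) l) ≤
        (C * (a ^ (p / 2) + ∑' i, (2⁻¹) ^ i * w i ^ (p / 2))) ^ (1 / p) * Nsum P p' r' G := by
  haveI := hP.1
  have hp0 : 0 < p := by linarith
  set q : ℝ := p / 2 with hq
  have hq0 : 0 < q := by rw [hq]; positivity
  have hq2 : 1 / 2 ≤ q := by rw [hq]; linarith
  obtain ⟨C₁, k, hC₁⟩ := hB (2 * q) (by positivity)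
  set m : ℕ := ⌈q⌉₊ + 1 with hm
  have hqm : q + 1 ≤ m := by
    rw [hm]; push_cast
    have := Nat.le_ceil q
    linarith
  set s : ℕ := k + 2 * m with hs
  obtain ⟨Cs, hCs⟩ := hibp s
  obtain ⟨C₂, hC₂, hY⟩ := lintegral_Yen_rpow_le (ι := ι) (b := b) (P := P) D hCs hq2 r
  -- constants
  set c₀ : ℝ≥0∞ := (4 ^ r * (r + 1 : ℕ)) ^ q * 2 ^ q with hc₀
  have hc₀t : c₀ ≠ ∞ := by
    refine ENNReal.mul_ne_top ?_ ?_ <;>
    exact ENNReal.rpow_ne_top_of_nonneg hq0.le (by finiteness)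
  set c₁ : ℝ≥0∞ := ((r + 1 : ℕ) : ℝ≥0∞) ^ q * (r + 1 : ℕ) with hc₁
  have hc₁t : c₁ ≠ ∞ := by
    refine ENNReal.mul_ne_top ?_ (by finiteness)
    exact ENNReal.rpow_ne_top_of_nonneg hq0.le (by finiteness)
  set c₂ : ℝ≥0∞ := 2 ^ q * ((C₁ : ℝ≥0∞) ^ (1 / 2 : ℝ) * C₂) with hc₂
  have hc₂t : c₂ ≠ ∞ := by
    refine ENNReal.mul_ne_top ?_ (ENNReal.mul_ne_top ?_ hC₂)
    · exact ENNReal.rpow_ne_top_of_nonneg hq0.le (by finiteness)
    · exact ENNReal.rpow_ne_top_of_nonneg (by norm_num) (by finiteness)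
  set C : ℝ≥0 := (c₀ * (c₁ + c₂)).toNNReal with hC
  have hCcoe : (C : ℝ≥0∞) = c₀ * (c₁ + c₂) := ENNReal.coe_toNNReal (by finiteness)
  refine ⟨8 * q - 2, r + s, C, by linarith, by linarith, by omega, ?_⟩
  intro W a w hW G hG
  set N := Nsum P (8 * q - 2) (r + s) G with hN
  have hGm := hG.1
  have hYm := fun i => measurable_Yen D hGm r i
  have hAm := hGm.measurable_Asum r
  -- pointwise
  have h1 : ∀ ω, Aen r (fun l t ω => spl (fun x y => x * y) (fun l => W l t ω)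
      (fun l => G l t ω) l) ω ^ q ≤ c₀ * (a ^ q * Asum r G ω ^ q +
        ∑' i, ((2 ^ (i + 1)) ^ q * w i ^ q) * (B i ω.toFun ^ q * Yen D r G i ω ^ q)) := by
    intro ω
    calc _ ≤ ((4 ^ r * (r + 1 : ℕ)) * (a * Asum r G ω +
          ∑' i, w i * (B i ω.toFun * Yen D r G i ω))) ^ q :=
          ENNReal.rpow_le_rpow (Aen_spl_le D hGm hW ω) hq0.le
      _ = (4 ^ r * (r + 1 : ℕ)) ^ q * (a * Asum r G ω +
          ∑' i, w i * (B i ω.toFun * Yen D r G i ω)) ^ q := ENNReal.mul_rpow_of_nonneg _ _ hq0.le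
      _ ≤ (4 ^ r * (r + 1 : ℕ)) ^ q * (2 ^ q * ((a * Asum r G ω) ^ q +
          (∑' i, w i * (B i ω.toFun * Yen D r G i ω)) ^ q)) := by
          gcongr
          exact add_rpow_le' _ _ hq0.le
      _ ≤ (4 ^ r * (r + 1 : ℕ)) ^ q * (2 ^ q * ((a * Asum r G ω) ^ q +
          ∑' i, (2 ^ (i + 1) * (w i * (B i ω.toFun * Yen D r G i ω))) ^ q)) := by
          gcongr
          exact tsum_rpow_le' _ hq0
      _ = _ := by
          have e : ∀ i, (2 ^ (i + 1) * (w i * (B i ω.toFun * Yen D r G i ω))) ^ q =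
              ((2 ^ (i + 1)) ^ q * w i ^ q) * (B i ω.toFun ^ q * Yen D r G i ω ^ q) := by
            intro i
            rw [ENNReal.mul_rpow_of_nonneg _ _ hq0.le, ENNReal.mul_rpow_of_nonneg _ _ hq0.le,
              ENNReal.mul_rpow_of_nonneg _ _ hq0.le]
            ring
          rw [hc₀, ← mul_assoc, ENNReal.mul_rpow_of_nonneg a (Asum r G ω) hq0.le]
          simp only [e]
  have hBYm : ∀ i, Measurable fun ω : Path ℂ => B i ω.toFun ^ q * Yen D r G i ω ^ q := fun i =>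
    (((hBm i).comp measurable_toFun).pow_const q).mul ((hYm i).pow_const q)
  have hBYm' : ∀ i, Measurable fun ω : Path ℂ =>
      ((2 ^ (i + 1)) ^ q * w i ^ q) * (B i ω.toFun ^ q * Yen D r G i ω ^ q) := fun i =>
    (hBYm i).const_mul _
  have hsm : Measurable fun ω : Path ℂ => a ^ q * Asum r G ω ^ q +
      ∑' i, ((2 ^ (i + 1)) ^ q * w i ^ q) * (B i ω.toFun ^ q * Yen D r G i ω ^ q) :=
    ((hAm.pow_const q).const_mul _).add (Measurable.tsum hBYm')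
  -- the rare parts
  have h2 : ∀ i, ∫⁻ ω, B i ω.toFun ^ q * Yen D r G i ω ^ q ∂P ≤
      ((C₁ : ℝ≥0∞) ^ (1 / 2 : ℝ) * C₂) * (ENNReal.ofReal (D.K i) ^ m)⁻¹ * N ^ (2 * q) := by
    intro i
    have hκ0 : ENNReal.ofReal (D.K i) ≠ 0 := by simpa using D.K_pos i
    have hκt : ENNReal.ofReal (D.K i) ≠ ∞ := ENNReal.ofReal_ne_top
    set κ := ENNReal.ofReal (D.K i) with hκ
    have e1 : (∫⁻ ω, B i ω.toFun ^ (2 * q) ∂P) ≤ C₁ * κ ^ k := by
      have := hC₁ i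
      rwa [lintegral_map_toFun ((hBm i).pow_const _)] at this
    calc ∫⁻ ω, B i ω.toFun ^ q * Yen D r G i ω ^ q ∂P
        ≤ (∫⁻ ω, (B i ω.toFun ^ q) ^ (2 : ℝ) ∂P) ^ (1 / 2 : ℝ) *
          (∫⁻ ω, (Yen D r G i ω ^ q) ^ (2 : ℝ) ∂P) ^ (1 / 2 : ℝ) :=
          lintegral_mul_le_sqrt P
            (((hBm i).comp measurable_toFun).pow_const q).aemeasurable
            ((hYm i).pow_const q).aemeasurable
      _ = (∫⁻ ω, B i ω.toFun ^ (2 * q) ∂P) ^ (1 / 2 : ℝ) *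
          (∫⁻ ω, Yen D r G i ω ^ (2 * q) ∂P) ^ (1 / 2 : ℝ) := by
          congr 2
          · refine lintegral_congr fun ω => ?_
            rw [← ENNReal.rpow_mul, mul_comm q 2]
          · refine lintegral_congr fun ω => ?_
            rw [← ENNReal.rpow_mul, mul_comm q 2]
      _ ≤ (C₁ * κ ^ k) ^ (1 / 2 : ℝ) *
          (C₂ * (κ ^ (2 * s))⁻¹ ^ (1 / 4 : ℝ) * N ^ (2 * q)) := by
          gcongr
          exact hY G hG i
      _ = _ := by
          have e2 : (κ ^ (2 * s))⁻¹ ^ (1 / 4 : ℝ) = (κ ^ k)⁻¹ ^ (1 / 2 : ℝ) * (κ ^ m)⁻¹ := by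
            rw [ENNReal.inv_pow, ENNReal.inv_pow, ENNReal.inv_pow, ← ENNReal.rpow_natCast,
              ← ENNReal.rpow_natCast, ← ENNReal.rpow_natCast, ← ENNReal.rpow_mul,
              ← ENNReal.rpow_mul, ← ENNReal.rpow_add_of_nonneg _ _ (by positivity) (by positivity)]
            congr 1
            rw [hs]
            push_cast
            ring
          have e3 : (κ ^ k) ^ (1 / 2 : ℝ) * (κ ^ k)⁻¹ ^ (1 / 2 : ℝ) = 1 := by
            rw [← ENNReal.mul_rpow_of_nonneg _ _ (by norm_num),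
              ENNReal.mul_inv_cancel (by positivity) (by finiteness), ENNReal.one_rpow]
          rw [ENNReal.mul_rpow_of_nonneg _ _ (by norm_num), e2]
          calc (C₁ : ℝ≥0∞) ^ (1 / 2 : ℝ) * (κ ^ k) ^ (1 / 2 : ℝ) *
                (C₂ * ((κ ^ k)⁻¹ ^ (1 / 2 : ℝ) * (κ ^ m)⁻¹) * N ^ (2 * q))
              = (C₁ : ℝ≥0∞) ^ (1 / 2 : ℝ) * C₂ * (κ ^ m)⁻¹ * N ^ (2 * q) *
                ((κ ^ k) ^ (1 / 2 : ℝ) * (κ ^ k)⁻¹ ^ (1 / 2 : ℝ)) := by ring
            _ = _ := by rw [e3, mul_one]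
  have h3 : ∀ i, ∫⁻ ω, ((2 ^ (i + 1)) ^ q * w i ^ q) * (B i ω.toFun ^ q * Yen D r G i ω ^ q) ∂P ≤
      (c₂ * N ^ (2 * q)) * ((2⁻¹) ^ i * w i ^ q) := by
    intro i
    rw [lintegral_const_mul _ (hBYm i)]
    have hκ : (2 : ℝ≥0∞) ^ i ≤ ENNReal.ofReal (D.K i) := by
      have := ENNReal.ofReal_le_ofReal (D.hK i)
      rwa [ENNReal.ofReal_pow (by norm_num), ENNReal.ofReal_ofNat] at this
    have h4 := two_pow_aux hq0.le hqm i hκ
    calc ((2 ^ (i + 1)) ^ q * w i ^ q) * ∫⁻ ω, B i ω.toFun ^ q * Yen D r G i ω ^ q ∂P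
        ≤ ((2 ^ (i + 1)) ^ q * w i ^ q) * (((C₁ : ℝ≥0∞) ^ (1 / 2 : ℝ) * C₂) *
          (ENNReal.ofReal (D.K i) ^ m)⁻¹ * N ^ (2 * q)) := by gcongr; exact h2 i
      _ = (((2 ^ (i + 1)) ^ q * (ENNReal.ofReal (D.K i) ^ m)⁻¹) *
          (w i ^ q * ((C₁ : ℝ≥0∞) ^ (1 / 2 : ℝ) * C₂) * N ^ (2 * q))) := by ring
      _ ≤ (2 ^ q * (2⁻¹) ^ i) *
          (w i ^ q * ((C₁ : ℝ≥0∞) ^ (1 / 2 : ℝ) * C₂) * N ^ (2 * q)) := by gcongr
      _ = _ := by rw [hc₂]; ring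
  have hNp : N ^ (2 * q) = N ^ p := by congr 1; rw [hq]; ring
  have h5 : ∫⁻ ω, Asum r G ω ^ q ∂P ≤ c₁ * N ^ (2 * q) := by
    refine (lintegral_Asum_rpow_le (P := P) hGm r (e := q) (p' := 8 * q - 2) hq0 (by linarith)
      (r' := r + s) (by omega)).trans (le_of_eq ?_)
    rw [hc₁, mul_assoc]
  have h6 : ∫⁻ ω, Aen r (fun l t ω => spl (fun x y => x * y) (fun l => W l t ω)
      (fun l => G l t ω) l) ω ^ q ∂P ≤
      (C * (a ^ q + ∑' i, (2⁻¹) ^ i * w i ^ q)) * N ^ p := by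
    refine (lintegral_mono h1).trans ?_
    rw [lintegral_const_mul _ hsm, lintegral_add_left ((hAm.pow_const q).const_mul _),
      lintegral_const_mul _ (hAm.pow_const q), lintegral_tsum fun i => (hBYm' i).aemeasurable]
    calc c₀ * (a ^ q * ∫⁻ ω, Asum r G ω ^ q ∂P + ∑' i, ∫⁻ ω,
          ((2 ^ (i + 1)) ^ q * w i ^ q) * (B i ω.toFun ^ q * Yen D r G i ω ^ q) ∂P)
        ≤ c₀ * (a ^ q * (c₁ * N ^ (2 * q)) +
          ∑' i, (c₂ * N ^ (2 * q)) * ((2⁻¹) ^ i * w i ^ q)) := by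
          gcongr with i
          exact h3 i
      _ = c₀ * (c₁ * a ^ q + c₂ * ∑' i, (2⁻¹) ^ i * w i ^ q) * N ^ (2 * q) := by
          rw [ENNReal.tsum_mul_left]; ring
      _ ≤ c₀ * ((c₁ + c₂) * a ^ q + (c₁ + c₂) * ∑' i, (2⁻¹) ^ i * w i ^ q) * N ^ (2 * q) := by
          gcongr
          · exact le_self_add
          · exact le_add_self
      _ = _ := by rw [hCcoe, hNp]; ring
  calc sobNorm P p r (fun l t ω => spl (fun x y => x * y) (fun l => W l t ω)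
        (fun l => G l t ω) l) ≤
        ((C * (a ^ q + ∑' i, (2⁻¹) ^ i * w i ^ q)) * N ^ p) ^ (1 / p) := by
        rw [sobNorm_eq]
        exact ENNReal.rpow_le_rpow h6 (by positivity)
    _ = _ := by
        rw [ENNReal.mul_rpow_of_nonneg _ _ (by positivity), ← ENNReal.rpow_mul,
          mul_one_div_cancel hp0.ne', ENNReal.rpow_one]

end Pool.Agent.Lib.UdB
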