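import Pool.Agent.Lib.UdB.Mult4

/-!
# Multiplicator estimates, part 5: the multiplier and its derivatives
-/

set_option autoImplicit false
set_option linter.unusedSectionVars false
set_option linter.style.haveILetI false

open MeasureTheory
open scoped ENNReal NNReal InnerProductSpace

namespace Pool.Agent.Lib.UdB

/-! ### the function `y ↦ exp(i s y)` -/

/-- `exp(i s y)` -/
noncomputable def ef (s y : ℝ) : ℂ := Complex.exp ((s * y : ℝ) * Complex.I)

theorem ef_zero (y : ℝ) : ef 0 y = 1 := by simp [ef]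

theorem norm_ef (s y : ℝ) : ‖ef s y‖ = 1 := Complex.norm_exp_ofReal_mul_I _

theorem hasDerivAt_ef (s y : ℝ) : HasDerivAt (ef s) ((s * Complex.I) * ef s y) y := by
  have h1 : HasDerivAt (fun y : ℝ => s * y) s y := by
    simpa using (hasDerivAt_id y).const_mul s
  have h2 := (h1.ofReal_comp.mul_const Complex.I).cexp
  refine h2.congr_deriv ?_
  unfold ef
  ring

theorem iteratedDeriv_ef_sub (s s' : ℝ) (k : ℕ) :
    iteratedDeriv k (fun y => ef s y - ef s' y) =
      fun y => (s * Complex.I) ^ k * ef s y - (s' * Complex.I) ^ k * ef s' y := by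
  induction k with
  | zero => simp
  | succ k ih =>
    rw [iteratedDeriv_succ, ih]
    ext y
    have h := ((hasDerivAt_ef s y).const_mul ((s * Complex.I) ^ k)).sub
      ((hasDerivAt_ef s' y).const_mul ((s' * Complex.I) ^ k))
    have h2 := h.deriv
    simp only [pow_succ]
    rw [show (fun y => (s * Complex.I) ^ k * ef s y - (s' * Complex.I) ^ k * ef s' y) =
      ((fun y => (s * Complex.I) ^ k * ef s y) - fun y => (s' * Complex.I) ^ k * ef s' y) from rfl,
      h2]
    ring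

theorem norm_ef_sub_le (s s' y : ℝ) : ‖ef s y - ef s' y‖ ≤ |y| * |s - s'| := by
  have h1 : ef s y - ef s' y = ef s' y * (Complex.exp (Complex.I * ((s - s') * y : ℝ)) - 1) := by
    unfold ef
    rw [mul_sub, mul_one, ← Complex.exp_add]
    congr 2
    push_cast
    ring
  rw [h1, norm_mul, norm_ef, one_mul]
  refine (Real.norm_exp_I_mul_ofReal_sub_one_le).trans ?_
  rw [Real.norm_eq_abs, abs_mul, mul_comm]

theorem norm_iteratedDeriv_ef_sub_le {s s' : ℝ} (hs : 0 ≤ s) (hs1 : s ≤ 1) (hs' : 0 ≤ s')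
    (hs1' : s' ≤ 1) (k : ℕ) (y : ℝ) :
    ‖iteratedDeriv k (fun y => ef s y - ef s' y) y‖ ≤ (k + |y|) * |s - s'| := by
  rw [iteratedDeriv_ef_sub]
  beta_reduce
  have h1 : (s * Complex.I) ^ k * ef s y - (s' * Complex.I) ^ k * ef s' y =
      ((s ^ k - s' ^ k : ℝ) : ℂ) * (Complex.I ^ k * ef s y) +
        ((s' ^ k : ℝ) : ℂ) * (Complex.I ^ k * (ef s y - ef s' y)) := by
    push_cast
    ring
  have h2 : |s ^ k - s' ^ k| ≤ k * |s - s'| := by
    refine (abs_pow_sub_pow_le s s' k).trans ?_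
    have h3 : max |s| |s'| ^ (k - 1) ≤ 1 := by
      apply pow_le_one₀
      · exact le_max_of_le_left (abs_nonneg _)
      · rw [abs_of_nonneg hs, abs_of_nonneg hs']
        exact max_le hs1 hs1'
    calc |s - s'| * k * max |s| |s'| ^ (k - 1) ≤ |s - s'| * k * 1 := by gcongr
      _ = _ := by ring
  rw [h1]
  refine (norm_add_le _ _).trans ?_
  rw [norm_mul, norm_mul, norm_mul, norm_mul, norm_ef, norm_pow, Complex.norm_I, one_pow,
    Complex.norm_real, Complex.norm_real, Real.norm_eq_abs, Real.norm_eq_abs, mul_one, mul_one,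
    one_mul, abs_of_nonneg (pow_nonneg hs' k)]
  have h4 : s' ^ k ≤ 1 := pow_le_one₀ hs' hs1'
  calc |s ^ k - s' ^ k| + s' ^ k * ‖ef s y - ef s' y‖ ≤ k * |s - s'| + 1 * (|y| * |s - s'|) := by
        gcongr
        exact norm_ef_sub_le s s' y
    _ = _ := by ring

theorem contDiff_ef (s : ℝ) : ContDiff ℝ (⊤ : ℕ∞) (ef s) := by
  unfold ef
  have h1 : ContDiff ℝ (⊤ : ℕ∞) (fun y : ℝ => ((s * y : ℝ) : ℂ)) := by
    have := Complex.ofRealCLM.contDiff (n := (⊤ : ℕ∞))
    exact this.comp (contDiff_const.mul contDiff_id)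
  exact (h1.mul contDiff_const).cexp

theorem ef_sub_temperate {s s' : ℝ} (hs : 0 ≤ s) (hs1 : s ≤ 1) (hs' : 0 ≤ s') (hs1' : s' ≤ 1) :
    (fun y => ef s y - ef s' y).HasTemperateGrowth := by
  refine ⟨(contDiff_ef s).sub (contDiff_ef s'), fun n => ⟨1, (n + 1) * |s - s'|, fun y => ?_⟩⟩
  rw [norm_iteratedFDeriv_eq_norm_iteratedDeriv, pow_one, Real.norm_eq_abs]
  refine (norm_iteratedDeriv_ef_sub_le hs hs1 hs' hs1' n y).trans ?_
  have h1 := abs_nonneg y
  have h2 := abs_nonneg (s - s')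
  have h3 : ((n : ℝ) + |y|) ≤ ((n + 1) * (1 + |y|)) := by nlinarith [Nat.cast_nonneg (α := ℝ) n]
  calc ((n : ℝ) + |y|) * |s - s'| ≤ ((n + 1) * (1 + |y|)) * |s - s'| := by gcongr
    _ = _ := by ring

theorem ef_temperate {s : ℝ} (hs : 0 ≤ s) (hs1 : s ≤ 1) : (ef s).HasTemperateGrowth := by
  have h1 := (ef_sub_temperate hs hs1 le_rfl zero_le_one).add (Function.HasTemperateGrowth.const (1 : ℂ))
  have h2 : (fun y => ef s y - ef 0 y) + (fun _ => (1 : ℂ)) = ef s := by
    ext y; simp [ef_zero]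
  rwa [h2] at h1

theorem DD_ef_sub_le {s s' : ℝ} (hs : 0 ≤ s) (hs1 : s ≤ 1) (hs' : 0 ≤ s') (hs1' : s' ≤ 1)
    (r : ℕ) {y : ℝ} (hy : |y| ≤ 4) :
    DD r (fun y => ef s y - ef s' y) y ≤
      ((r + 1 : ℕ) * ((r + 4 : ℕ) : ℝ≥0∞) ^ 2) * ENNReal.ofReal (|s - s'| ^ 2) := by
  unfold DD
  have h1 : ∀ k ∈ Finset.range (r + 1), ‖iteratedDeriv k (fun y => ef s y - ef s' y) y‖ₑ ^ 2 ≤
      ((r + 4 : ℕ) : ℝ≥0∞) ^ 2 * ENNReal.ofReal (|s - s'| ^ 2) := by
    intro k hk
    rw [Finset.mem_range] at hk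
    have h2 : ‖iteratedDeriv k (fun y => ef s y - ef s' y) y‖ ≤ (r + 4 : ℕ) * |s - s'| := by
      refine (norm_iteratedDeriv_ef_sub_le hs hs1 hs' hs1' k y).trans ?_
      have : (k : ℝ) ≤ r := by exact_mod_cast Nat.lt_succ_iff.1 hk
      push_cast
      gcongr
    rw [← ofReal_norm, ← ENNReal.ofReal_pow (norm_nonneg _), ← ENNReal.ofReal_natCast,
      ← ENNReal.ofReal_pow (by positivity), ← ENNReal.ofReal_mul (by positivity)]
    apply ENNReal.ofReal_le_ofReal
    rw [← mul_pow]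
    gcongr
  refine (Finset.sum_le_sum h1).trans (le_of_eq ?_)
  rw [Finset.sum_const, Finset.card_range, nsmul_eq_mul]
  ring

/-! ### the derivatives of the multiplier -/

section est

variable {ι : Type} [Countable ι] {b : HilbertBasis ι ℝ (H ℂ)}

/-- constant -/
noncomputable def cr (r : ℕ) : ℝ≥0∞ := 4 ^ (r * r) * ((r + 1 : ℕ) * ((r + 4 : ℕ) : ℝ≥0∞) ^ 2)

theorem cr_ne_top (r : ℕ) : cr r ≠ ∞ := by unfold cr; finiteness

theorem en_ef_sub_le {s s' : ℝ} (hs : 0 ≤ s) (hs1 : s ≤ 1) (hs' : 0 ≤ s') (hs1' : s' ≤ 1)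
    {c : (unitInterval → ℂ) → ℝ} (hc : IsCyl c) {x : unitInterval → ℂ} (hx : |c x| ≤ 4)
    {k r : ℕ} (hk : k ≤ r) :
    en b k (fun x => ef s (c x) - ef s' (c x)) x ≤ ENNReal.ofReal ((|c x| * |s - s'|) ^ 2) +
      ENNReal.ofReal (|s - s'| ^ 2) * (cr r * (NN b r c x * (1 + NN b r c x) ^ r)) := by
  rcases k with _ | k
  · rw [en_zero, ← ofReal_norm, ← ENNReal.ofReal_pow (norm_nonneg _)]
    refine le_trans (ENNReal.ofReal_le_ofReal ?_) le_self_add
    gcongr
    exact norm_ef_sub_le _ _ _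
  · refine le_trans ?_ le_add_self
    refine (en_comp_le b k hc (ef_sub_temperate hs hs1 hs' hs1') x).trans ?_
    have h1 := DD_ef_sub_le hs hs1 hs' hs1' (k + 1) hx
    have h2 : N1 b (k + 1) c x ≤ NN b r c x :=
      (N1_mono b hk c x).trans (N1_le_NN b r c x)
    have h3 : (1 + N1 b (k + 1) c x) ^ k ≤ (1 + NN b r c x) ^ r :=
      calc (1 + N1 b (k + 1) c x) ^ k ≤ (1 + NN b r c x) ^ k := by gcongr
        _ ≤ (1 + NN b r c x) ^ r := pow_le_pow_right₀ le_self_add (by omega)
    have h4 : (4 : ℝ≥0∞) ^ ((k + 1) * (k + 1)) ≤ 4 ^ (r * r) :=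
      pow_le_pow_right₀ (by norm_num) (Nat.mul_le_mul hk hk)
    have h5 : (((k + 1 + 1 : ℕ) : ℝ≥0∞) * ((k + 1 + 4 : ℕ) : ℝ≥0∞) ^ 2) ≤
        ((r + 1 : ℕ) * ((r + 4 : ℕ) : ℝ≥0∞) ^ 2) := by
      gcongr
    calc (4 : ℝ≥0∞) ^ ((k + 1) * (k + 1)) * (DD (k + 1) (fun y => ef s y - ef s' y) (c x) *
          (N1 b (k + 1) c x * (1 + N1 b (k + 1) c x) ^ k))
        ≤ 4 ^ (r * r) * ((((r + 1 : ℕ) * ((r + 4 : ℕ) : ℝ≥0∞) ^ 2) *
          ENNReal.ofReal (|s - s'| ^ 2)) * (NN b r c x * (1 + NN b r c x) ^ r)) := by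
          refine mul_le_mul' h4 (mul_le_mul' (h1.trans ?_) (mul_le_mul' h2 h3))
          exact mul_le_mul' h5 le_rfl
      _ = _ := by unfold cr; ring

end est

/-! ### bilinearity of `spl` -/

section spl

variable {ι : Type}

theorem spl_sub_left (F F' G : List ι → ℂ) (l : List ι) :
    spl (fun x y => x * y) F G l - spl (fun x y => x * y) F' G l =
      spl (fun x y => x * y) (fun l => F l - F' l) G l := by
  induction l generalizing F F' G with
  | nil => simp only [spl_nil]; ring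
  | cons j l ih =>
    simp only [spl_cons]
    rw [← ih, ← ih]
    ring

theorem spl_sub_right (F G G' : List ι → ℂ) (l : List ι) :
    spl (fun x y => x * y) F G l - spl (fun x y => x * y) F G' l =
      spl (fun x y => x * y) F (fun l => G l - G' l) l := by
  induction l generalizing F G G' with
  | nil => simp only [spl_nil]; ring
  | cons j l ih =>
    simp only [spl_cons]
    rw [← ih, ← ih]
    ring

theorem measurable_spl {α : Type} [MeasurableSpace α] (l : List ι) :
    ∀ {F G : List ι → α → ℂ} (_ : ∀ l, Measurable (F l)) (_ : ∀ l, Measurable (G l)),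
    Measurable fun a => spl (fun x y => x * y) (fun l => F l a) (fun l => G l a) l := by
  induction l with
  | nil =>
    intro F G hF hG
    simp only [spl_nil]
    exact (hF []).mul (hG [])
  | cons j l ih =>
    intro F G hF hG
    simp only [spl_cons]
    exact (ih (fun l => hF (j :: l)) hG).add (ih hF (fun l => hG (j :: l)))

end spl

/-! ### closure properties of `IsD` -/

section IsD

variable {V : Type} [NormedAddCommGroup V] [InnerProductSpace ℝ V] [FiniteDimensional ℝ V]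
  [MeasurableSpace V] [BorelSpace V]
variable {ι : Type} [Countable ι] {b : HilbertBasis ι ℝ (H V)} {P : Measure (Path V)}

theorem sobNorm_zero' {p : ℝ} (hp : 0 < p) (r : ℕ) :
    sobNorm P p r (fun (_ : List ι) (_ : unitInterval) (_ : Path V) => (0 : V)) = 0 := by
  unfold sobNorm
  simp only [energy_fun_zero, lintegral_zero]
  rw [ENNReal.zero_rpow_of_pos (by positivity), lintegral_zero,
    ENNReal.zero_rpow_of_pos (by positivity)]

theorem sobNorm_neg {p : ℝ} (r : ℕ) (G : List ι → unitInterval → Path V → V) :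
    sobNorm P p r (fun l t ω => -G l t ω) = sobNorm P p r G := by
  unfold sobNorm
  simp only [energy_neg]

theorem sobNorm_sub_le [IsProbabilityMeasure P] {G G' : List ι → unitInterval → Path V → V}
    (hG : MF G) (hG' : MF G') {p : ℝ} (hp : 1 ≤ p)
    (r : ℕ) : sobNorm P p r (fun l t ω => G l t ω - G' l t ω) ≤
      2 * (sobNorm P p r G + sobNorm P p r G') := by
  have h : MF (fun l t ω => -G' l t ω) := fun l => (hG' l).neg
  have := sobNorm_add_le (P := P) hG h hp r
  rw [sobNorm_neg] at this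
  simpa only [← sub_eq_add_neg] using this

theorem IsSmoothProc.neg {X : unitInterval → (unitInterval → V) → V} (hX : IsSmoothProc X) :
    IsSmoothProc (fun t x => -X t x) := by
  have := hX.cyl_smul (g := fun _ => (-1 : ℝ)) (IsCyl.const _)
  simpa using this

theorem IsSmoothProc.sub {X Y : unitInterval → (unitInterval → V) → V} (hX : IsSmoothProc X)
    (hY : IsSmoothProc Y) : IsSmoothProc (fun t x => X t x - Y t x) := by
  simpa only [← sub_eq_add_neg] using hX.add hY.neg

theorem sfld_sub {X Y : unitInterval → (unitInterval → V) → V} (hX : IsSmoothProc X)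
    (hY : IsSmoothProc Y) (l : List ι) (t : unitInterval) (ω : Path V) :
    sfld b (fun t x => X t x - Y t x) l t ω = sfld b X l t ω - sfld b Y l t ω := by
  unfold sfld
  rw [iterD_sub b l (hX.isCyl t) (hY.isCyl t)]

theorem IsSmoothProc.isD {X : unitInterval → (unitInterval → V) → V} (hX : IsSmoothProc X) :
    IsD b P (sfld b X) := by
  refine ⟨hX.MF b, fun p hp R ε hε => ⟨X, hX, fun r _ => ?_⟩⟩
  have h : (fun (l : List ι) (t : unitInterval) (ω : Path V) =>
      iterD b l (X t) ω.toFun - sfld b X l t ω) = fun _ _ _ => (0 : V) := by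
    ext l t ω
    exact sub_self _
  rw [h, sobNorm_zero' (by linarith)]
  exact zero_le

theorem IsD.sub [IsProbabilityMeasure P] {G G' : List ι → unitInterval → Path V → V}
    (hG : IsD b P G) (hG' : IsD b P G') : IsD b P (fun l t ω => G l t ω - G' l t ω) := by
  refine ⟨hG.1.sub hG'.1, fun p hp R ε hε => ?_⟩
  have hε4 : 0 < ε / 4 := ENNReal.div_pos hε.ne' (by norm_num)
  obtain ⟨X, hX, h1⟩ := hG.2 p hp R (ε / 4) hε4
  obtain ⟨Y, hY, h2⟩ := hG'.2 p hp R (ε / 4) hε4
  refine ⟨fun t x => X t x - Y t x, hX.sub hY, fun r hr => ?_⟩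
  have h3 : (fun (l : List ι) (t : unitInterval) (ω : Path V) =>
      iterD b l (fun x => X t x - Y t x) ω.toFun - (G l t ω - G' l t ω)) =
      fun l t ω => (sfld b X l t ω - G l t ω) - (sfld b Y l t ω - G' l t ω) := by
    ext l t ω
    have := sfld_sub (b := b) hX hY l t ω
    unfold sfld at this ⊢
    rw [this]
    abel
  rw [h3]
  refine (sobNorm_sub_le ((hX.MF b).sub hG.1) ((hY.MF b).sub hG'.1) hp r).trans ?_
  calc 2 * (sobNorm P p r (fun l t ω => sfld b X l t ω - G l t ω) +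
        sobNorm P p r (fun l t ω => sfld b Y l t ω - G' l t ω)) ≤ 2 * (ε / 4 + ε / 4) := by
        gcongr
        · exact h1 r hr
        · exact h2 r hr
    _ = ε := by
        rw [← two_mul, ← mul_assoc, show (2 : ℝ≥0∞) * 2 = 4 by norm_num, mul_comm,
          ENNReal.div_mul_cancel (by norm_num) (by norm_num)]

end IsD

end Pool.Agent.Lib.UdB
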