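import Pool.Agent.Lib.UdB.Mult5

/-!
# Multiplicator estimates, part 6: the multiplicator theorem
-/

set_option autoImplicit false
set_option linter.unusedSectionVars false
set_option linter.style.haveILetI false

open MeasureTheory Filter
open scoped ENNReal NNReal InnerProductSpace Topology

namespace Pool.Agent.Lib.UdB

/-! ### finiteness of the norms of smooth processes -/

section finite

variable {V : Type} [NormedAddCommGroup V] [InnerProductSpace ℝ V] [FiniteDimensional ℝ V]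
  [MeasurableSpace V] [BorelSpace V]
variable {ι : Type} [Countable ι] {b : HilbertBasis ι ℝ (H V)} {P : Measure (Path V)}

theorem energy_smul_const (r : ℕ) (v : V) : ∀ g : List ι → ℝ,
    energy r (fun l => g l • v) = energy r g * ‖v‖ₑ ^ 2 := by
  induction r with
  | zero => intro g; simp only [energy_zero_left]; rw [enorm_smul, mul_pow]
  | succ r ih =>
    intro g
    simp only [energy_succ]
    rw [← ENNReal.tsum_mul_right]
    exact tsum_congr fun j => ih _

theorem IsSmoothProc.sobNorm_ne_top (hP : IsWiener P)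
    {X : unitInterval → (unitInterval → V) → V} (hX : IsSmoothProc X) {p : ℝ} (hp : 1 ≤ p)
    (r : ℕ) : sobNorm P p r (sfld b X) ≠ ∞ := by
  have hp0 : 0 < p := by linarith
  obtain ⟨m, F, h, hF, hh, hX⟩ := hX
  have hXe : ∀ t, X t = fun x => ∑ k, F k x • h k t := fun t => funext fun x => hX t x
  have h1 : ∀ t (ω : Path V), energy r (fun l => sfld b X l t ω) ≤
      (m : ℝ≥0∞) * ∑ k, en b r (F k) ω.toFun * ‖h k t‖ₑ ^ 2 := by
    intro t ω
    have e1 : (fun l => sfld b X l t ω) = fun l => ∑ k, iterD b l (F k) ω.toFun • h k t := by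
      ext l
      unfold sfld
      rw [hXe t, iterD_sum b _ l fun k _ => (hF k).smul (IsCyl.const _)]
      refine Finset.sum_congr rfl fun k _ => ?_
      have := iterD_clm b (ContinuousLinearMap.smulRight (1 : ℝ →L[ℝ] ℝ) (h k t)) l (hF k)
      have h2 := congrFun this ω.toFun
      simpa using h2
    rw [e1]
    refine (energy_sum_le Finset.univ r _).trans ?_
    rw [Finset.card_univ, Fintype.card_fin]
    gcongr with k _
    rw [energy_smul_const]
    exact le_rfl
  have hH : ∀ k, ∫⁻ t, ‖h k t‖ₑ ^ 2 ≠ ∞ := by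
    intro k
    have := (hh k).2.2
    have h2 := lintegral_rpow_enorm_lt_top_of_eLpNorm_lt_top (p := 2) (by norm_num) (by norm_num)
      this
    simpa using h2.ne
  have h2 : ∀ ω : Path V, Aen r (sfld b X) ω ≤
      (m : ℝ≥0∞) * ∑ k, en b r (F k) ω.toFun * ∫⁻ t, ‖h k t‖ₑ ^ 2 := by
    intro ω
    unfold Aen
    refine (lintegral_mono fun t => h1 t ω).trans (le_of_eq ?_)
    have hm : ∀ k, Measurable fun t => en b r (F k) ω.toFun * ‖h k t‖ₑ ^ 2 := fun k =>
      ((hh k).1.enorm.pow_const 2).const_mul _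
    rw [lintegral_const_mul _ (Finset.measurable_fun_sum _ fun k _ => hm k),
      lintegral_finsetSum _ fun k _ => hm k]
    congr 1
    refine Finset.sum_congr rfl fun k _ => ?_
    rw [lintegral_const_mul _ ((hh k).1.enorm.pow_const 2)]
  have hq : 0 < p / 2 := by positivity
  have h3 : ∀ ω : Path V, Aen r (sfld b X) ω ^ (p / 2) ≤
      ((m : ℝ≥0∞) ^ (p / 2) * (m : ℝ≥0∞) ^ (p / 2)) *
        ∑ k, (∫⁻ t, ‖h k t‖ₑ ^ 2) ^ (p / 2) * en b r (F k) ω.toFun ^ (p / 2) := by
    intro ω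
    calc Aen r (sfld b X) ω ^ (p / 2) ≤ ((m : ℝ≥0∞) * ∑ k, en b r (F k) ω.toFun *
          ∫⁻ t, ‖h k t‖ₑ ^ 2) ^ (p / 2) := ENNReal.rpow_le_rpow (h2 ω) hq.le
      _ = (m : ℝ≥0∞) ^ (p / 2) * (∑ k, en b r (F k) ω.toFun *
          ∫⁻ t, ‖h k t‖ₑ ^ 2) ^ (p / 2) := ENNReal.mul_rpow_of_nonneg _ _ hq.le
      _ ≤ (m : ℝ≥0∞) ^ (p / 2) * ((m : ℝ≥0∞) ^ (p / 2) * ∑ k, (en b r (F k) ω.toFun *
          ∫⁻ t, ‖h k t‖ₑ ^ 2) ^ (p / 2)) := by
          gcongr
          have := sum_rpow_le' Finset.univ (fun k => en b r (F k) ω.toFun *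
            ∫⁻ t, ‖h k t‖ₑ ^ 2) hq
          rwa [Finset.card_univ, Fintype.card_fin] at this
      _ = _ := by
          rw [mul_assoc]
          congr 2
          refine Finset.sum_congr rfl fun k _ => ?_
          rw [ENNReal.mul_rpow_of_nonneg _ _ hq.le, mul_comm]
  rw [sobNorm_eq]
  refine ENNReal.rpow_ne_top_of_nonneg (by positivity) ?_
  refine ne_top_of_le_ne_top ?_ (lintegral_mono h3)
  have hm : ∀ k, Measurable fun ω : Path V => en b r (F k) ω.toFun ^ (p / 2) := fun k =>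
    ((measurable_en b r (hF k)).comp measurable_toFun).pow_const _
  rw [lintegral_const_mul _ (Finset.measurable_fun_sum _ fun k _ => (hm k).const_mul _),
    lintegral_finsetSum _ fun k _ => (hm k).const_mul _]
  refine ENNReal.mul_ne_top ?_ (ENNReal.sum_ne_top.2 fun k _ => ?_)
  · refine ENNReal.mul_ne_top ?_ ?_ <;>
    exact ENNReal.rpow_ne_top_of_nonneg hq.le (by finiteness)
  · rw [lintegral_const_mul _ (hm k)]
    refine ENNReal.mul_ne_top (ENNReal.rpow_ne_top_of_nonneg hq.le (hH k)) ?_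
    have h4 := hP.isWR.lintegral_en_rpow b r (hF k) hq
    have hmk : Measurable fun x => en b r (F k) x ^ (p / 2) :=
      (measurable_en b r (hF k)).pow_const _
    rwa [lintegral_map hmk measurable_toFun] at h4

end finite

/-! ### the multiplier -/

section final

variable {ι : Type} [Countable ι] {b : HilbertBasis ι ℝ (H ℂ)} {P : Measure (Path ℂ)}
variable (D : MData) {c : ℕ → ℕ → (unitInterval → ℂ) → ℝ}

namespace MData

/-- The functional at time `t`. -/
noncomputable def ct (c : ℕ → ℕ → (unitInterval → ℂ) → ℝ) (t : unitInterval)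
    (x : unitInterval → ℂ) : ℝ := c (D.blk t).1 (D.blk t).2 x

/-- The multiplier. -/
noncomputable def Wf (c : ℕ → ℕ → (unitInterval → ℂ) → ℝ) (s : unitInterval → ℝ)
    (t : unitInterval) (x : unitInterval → ℂ) : ℂ := ef (s t) (D.ct c t x)

/-- The derivatives of the multiplier. -/
noncomputable def WF (b : HilbertBasis ι ℝ (H ℂ)) (c : ℕ → ℕ → (unitInterval → ℂ) → ℝ)
    (s : unitInterval → ℝ) (l : List ι) (t : unitInterval) (ω : Path ℂ) : ℂ :=
  iterD b l (D.Wf c s t) ω.toFun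

theorem measurable_ct (hc : ∀ i m, IsCyl (c i m)) :
    Measurable fun p : unitInterval × (unitInterval → ℂ) => D.ct c p.1 p.2 := by
  have h1 : Measurable fun p : (ℕ × ℕ) × (unitInterval → ℂ) => c p.1.1 p.1.2 p.2 :=
    measurable_from_prod_countable_right fun m => (hc m.1 m.2).measurable
  exact h1.comp (f := fun p : unitInterval × (unitInterval → ℂ) => (D.blk p.1, p.2))
    ((D.hblk.comp measurable_fst).prodMk measurable_snd)

theorem isCyl_ct (hc : ∀ i m, IsCyl (c i m)) (t : unitInterval) : IsCyl (D.ct c t) :=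
  hc _ _

theorem measurable_Wf (hc : ∀ i m, IsCyl (c i m)) {s : unitInterval → ℝ} (hs : Measurable s) :
    Measurable fun p : unitInterval × (unitInterval → ℂ) => D.Wf c s p.1 p.2 := by
  have h1 := D.measurable_ct hc
  unfold Wf ef
  have h2 : Measurable fun p : unitInterval × (unitInterval → ℂ) => s p.1 * D.ct c p.1 p.2 :=
    (hs.comp measurable_fst).mul h1
  exact Complex.measurable_exp.comp ((Complex.measurable_ofReal.comp h2).mul_const _)

theorem isCyl_Wf (hc : ∀ i m, IsCyl (c i m)) {s : unitInterval → ℝ} (hs0 : ∀ t, 0 ≤ s t)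
    (hs1 : ∀ t, s t ≤ 1) (t : unitInterval) : IsCyl (D.Wf c s t) :=
  (D.isCyl_ct hc t).comp (ef_temperate (hs0 t) (hs1 t))

theorem MF_WF (hc : ∀ i m, IsCyl (c i m)) {s : unitInterval → ℝ} (hs : Measurable s)
    (hs0 : ∀ t, 0 ≤ s t) (hs1 : ∀ t, s t ≤ 1) : MF (D.WF b c s) := fun l =>
  (measurable_iterD_family b l (D.isCyl_Wf hc hs0 hs1) (D.measurable_Wf hc hs)).comp
    (measurable_fst.prodMk (measurable_toFun.comp measurable_snd))

end MData

/-- The energy of the difference of two multipliers. -/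
theorem energy_WF_sub_le (hc : ∀ i m, IsCyl (c i m)) (hcb : ∀ i m x, |c i m x| ≤ 4 / (i + 1))
    {s s' : unitInterval → ℝ} (hs0 : ∀ t, 0 ≤ s t) (hs1 : ∀ t, s t ≤ 1) (hs0' : ∀ t, 0 ≤ s' t)
    (hs1' : ∀ t, s' t ≤ 1) {R : ℕ} {B : ℕ → (unitInterval → ℂ) → ℝ≥0∞}
    (hB : ∀ i m, m < D.M i → ∀ x, NN b R (c i m) x ≤
      if D.K i < pair (D.ℓ i m) x then B i x else 0)
    {d : ℕ → ℝ} (hd : ∀ t, |s t - s' t| ≤ d (D.blk t).1) {A : ℝ≥0∞}
    (hA : ∀ i : ℕ, ENNReal.ofReal ((4 / ((i : ℝ) + 1) * d i) ^ 2) ≤ A) {k : ℕ} (hk : k ≤ R)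
    (t : unitInterval) (ω : Path ℂ) :
    energy k (fun l => D.WF b c s l t ω - D.WF b c s' l t ω) ≤
      A + ∑' i, ENNReal.ofReal (d i ^ 2) *
        ((cr R * (B i ω.toFun * (1 + B i ω.toFun) ^ R)) * D.ind i t ω.toFun) := by
  have hct := D.isCyl_ct hc t
  have h0 : energy k (fun l => D.WF b c s l t ω - D.WF b c s' l t ω) =
      en b k (fun x => ef (s t) (D.ct c t x) - ef (s' t) (D.ct c t x)) ω.toFun := by
    unfold en
    congr 1
    ext l
    have := iterD_sub b l (D.isCyl_Wf hc hs0 hs1 t) (D.isCyl_Wf hc hs0' hs1' t)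
    exact (congrFun this ω.toFun).symm
  rw [h0]
  set i := (D.blk t).1 with hi
  set x := ω.toFun with hx
  have hcx : |D.ct c t x| ≤ 4 / (i + 1) := hcb _ _ _
  have hi0 : (0 : ℝ) ≤ i := Nat.cast_nonneg i
  have hcx4 : |D.ct c t x| ≤ 4 := hcx.trans (div_le_self (by norm_num) (by linarith))
  refine (en_ef_sub_le (hs0 t) (hs1 t) (hs0' t) (hs1' t) hct hcx4 hk).trans ?_
  gcongr
  · refine le_trans (ENNReal.ofReal_le_ofReal ?_) (hA i)
    gcongr
    exact hd t
  · refine le_trans ?_ (ENNReal.le_tsum i)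
    have h1 : NN b R (D.ct c t) x * (1 + NN b R (D.ct c t) x) ^ R ≤
        (B i x * (1 + B i x) ^ R) * D.ind i t x := by
      have h2 := hB _ _ (D.hM t) x
      change NN b R (D.ct c t) x ≤ _ at h2
      by_cases h : D.K i < pair (D.ℓ i (D.blk t).2) x
      · rw [if_pos h] at h2
        have h3 : D.ind i t x = 1 := if_pos ⟨rfl, h⟩
        rw [h3, mul_one]
        gcongr
      · rw [if_neg h] at h2
        have h4 : NN b R (D.ct c t) x = 0 := le_antisymm h2 zero_le
        rw [h4, zero_mul]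
        exact zero_le
    calc ENNReal.ofReal (|s t - s' t| ^ 2) * (cr R * (NN b R (D.ct c t) x *
          (1 + NN b R (D.ct c t) x) ^ R))
        ≤ ENNReal.ofReal (d i ^ 2) * (cr R * ((B i x * (1 + B i x) ^ R) * D.ind i t x)) := by
          gcongr
          exact hd t
      _ = _ := by ring

theorem energy_WF_le (hc : ∀ i m, IsCyl (c i m)) (hcb : ∀ i m x, |c i m x| ≤ 4 / (i + 1))
    {s : unitInterval → ℝ} (hs0 : ∀ t, 0 ≤ s t) (hs1 : ∀ t, s t ≤ 1)
    {R : ℕ} {B : ℕ → (unitInterval → ℂ) → ℝ≥0∞}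
    (hB : ∀ i m, m < D.M i → ∀ x, NN b R (c i m) x ≤
      if D.K i < pair (D.ℓ i m) x then B i x else 0) {k : ℕ} (hk : k ≤ R)
    (t : unitInterval) (ω : Path ℂ) :
    energy k (fun l => D.WF b c s l t ω) ≤
      34 + ∑' i, 2 *
        ((cr R * (B i ω.toFun * (1 + B i ω.toFun) ^ R)) * D.ind i t ω.toFun) := by
  have h1 := energy_WF_sub_le (b := b) D hc hcb hs0 hs1 (s' := fun _ => 0) (fun _ => le_rfl)
    (fun _ => zero_le_one) hB (d := fun _ => 1)
    (fun t => by rw [sub_zero, abs_of_nonneg (hs0 t)]; exact hs1 t) (A := 16)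
    (fun i => by
      rw [mul_one]
      have h2 : (4 / ((i : ℝ) + 1)) ≤ 4 :=
        div_le_self (by norm_num) (by linarith [Nat.cast_nonneg (α := ℝ) i])
      have h3 : (4 / ((i : ℝ) + 1)) ^ 2 ≤ 16 := by
        have h4 : (0 : ℝ) ≤ 4 / ((i : ℝ) + 1) := by positivity
        nlinarith
      calc ENNReal.ofReal ((4 / ((i : ℝ) + 1)) ^ 2) ≤ ENNReal.ofReal 16 :=
            ENNReal.ofReal_le_ofReal h3
        _ = 16 := by norm_num) hk t ω
  have h5 := energy_add_le k (fun l => D.WF b c s l t ω - D.WF b c (fun _ => 0) l t ω)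
    (fun l => D.WF b c (fun _ => 0) l t ω)
  simp only [sub_add_cancel] at h5
  have h6 : energy k (fun l => D.WF b c (fun _ => 0) l t ω) ≤ 1 := by
    have h7 : D.Wf c (fun _ => 0) t = fun _ => 1 := by
      ext x; exact ef_zero _
    unfold MData.WF
    rw [h7]
    rcases k with _ | k
    · simp [iterD_nil]
    · have := en_const_succ b k (1 : ℂ) ω.toFun
      unfold en at this
      rw [this]
      exact zero_le
  refine h5.trans ?_
  calc _ ≤ 2 * (16 + ∑' i, ENNReal.ofReal ((1 : ℝ) ^ 2) *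
        ((cr R * (B i ω.toFun * (1 + B i ω.toFun) ^ R)) * D.ind i t ω.toFun)) + 2 * 1 := by
        gcongr
    _ = _ := by
        rw [mul_add, ← ENNReal.tsum_mul_left]
        have e : ∀ i, 2 * (ENNReal.ofReal ((1 : ℝ) ^ 2) *
            ((cr R * (B i ω.toFun * (1 + B i ω.toFun) ^ R)) * D.ind i t ω.toFun)) =
            2 * ((cr R * (B i ω.toFun * (1 + B i ω.toFun) ^ R)) * D.ind i t ω.toFun) := by
          intro i; simp
        simp only [e]
        ring

/-- The moments of the bounds. -/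
theorem moment_aux [IsProbabilityMeasure P] {B : ℕ → (unitInterval → ℂ) → ℝ≥0∞}
    (hBm : ∀ i, Measurable (B i))
    (hB : ∀ q : ℝ, 0 < q → ∃ (C : ℝ≥0) (k : ℕ), ∀ i,
      ∫⁻ x, B i x ^ q ∂(P.map Path.toFun) ≤ C * ENNReal.ofReal (D.K i) ^ k) (R : ℕ) :
    ∀ q : ℝ, 0 < q → ∃ (C : ℝ≥0) (k : ℕ), ∀ i,
      ∫⁻ x, (cr R * (B i x * (1 + B i x) ^ R)) ^ q ∂(P.map Path.toFun) ≤
        C * ENNReal.ofReal (D.K i) ^ k := by
  intro q hq
  haveI := Measure.isProbabilityMeasure_map (μ := P) (measurable_toFun (V := ℂ)).aemeasurable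
  obtain ⟨C, k, h⟩ := hB ((R + 1 : ℕ) * q) (by positivity)
  set A : ℝ≥0∞ := cr R ^ q * 2 ^ ((R + 1 : ℕ) * q) with hA
  have hAt : A ≠ ∞ := by
    refine ENNReal.mul_ne_top (ENNReal.rpow_ne_top_of_nonneg hq.le (cr_ne_top R))
      (ENNReal.rpow_ne_top_of_nonneg (by positivity) (by norm_num))
  refine ⟨(A * (1 + C)).toNNReal, k, fun i => ?_⟩
  rw [ENNReal.coe_toNNReal (by finiteness)]
  have h1 : ∀ x, (cr R * (B i x * (1 + B i x) ^ R)) ^ q ≤
      A * (1 + B i x ^ ((R + 1 : ℕ) * q)) := by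
    intro x
    calc (cr R * (B i x * (1 + B i x) ^ R)) ^ q ≤ (cr R * (1 + B i x) ^ (R + 1)) ^ q := by
          gcongr
          rw [pow_succ, mul_comm]
          gcongr
          exact le_add_self
      _ = cr R ^ q * (1 + B i x) ^ ((R + 1 : ℕ) * q) := by
          rw [ENNReal.mul_rpow_of_nonneg _ _ hq.le, ENNReal.rpow_mul, ENNReal.rpow_natCast]
      _ ≤ cr R ^ q * (2 ^ ((R + 1 : ℕ) * q) * (1 ^ ((R + 1 : ℕ) * q) +
          B i x ^ ((R + 1 : ℕ) * q))) := by
          gcongr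
          exact add_rpow_le' _ _ (by positivity)
      _ = _ := by rw [hA, ENNReal.one_rpow, mul_assoc]
  refine (lintegral_mono h1).trans ?_
  have hm := (hBm i).pow_const ((R + 1 : ℕ) * q)
  have hm' : Measurable fun x => 1 + B i x ^ ((R + 1 : ℕ) * q) := measurable_const.add hm
  rw [lintegral_const_mul _ hm', lintegral_add_left measurable_const,
    lintegral_const, measure_univ, mul_one]
  have hK : (1 : ℝ≥0∞) ≤ ENNReal.ofReal (D.K i) ^ k := by
    apply one_le_pow₀
    rw [← ENNReal.ofReal_one]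
    apply ENNReal.ofReal_le_ofReal
    exact (one_le_pow₀ (by norm_num : (1 : ℝ) ≤ 2)).trans (D.hK i)
  calc A * (1 + ∫⁻ x, B i x ^ ((R + 1 : ℕ) * q) ∂(P.map Path.toFun))
      ≤ A * (ENNReal.ofReal (D.K i) ^ k + C * ENNReal.ofReal (D.K i) ^ k) := by
        gcongr
        exact h i
    _ = _ := by ring

/-- The main estimate, for all orders at most `R`. -/
theorem mult_est_unif (hP : IsWiener P) (hibp : HasIBP (P.map Path.toFun) b)
    {B : ℕ → (unitInterval → ℂ) → ℝ≥0∞} (hBm : ∀ i, Measurable (B i))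
    (hB : ∀ q : ℝ, 0 < q → ∃ (C : ℝ≥0) (k : ℕ), ∀ i,
      ∫⁻ x, B i x ^ q ∂(P.map Path.toFun) ≤ C * ENNReal.ofReal (D.K i) ^ k)
    {p : ℝ} (hp : 1 ≤ p) (R : ℕ) : ∃ (p' : ℝ) (r' : ℕ) (C : ℝ≥0), 1 ≤ p' ∧
      ∀ (W : List ι → unitInterval → Path ℂ → ℂ) (a : ℝ≥0∞) (w : ℕ → ℝ≥0∞)
        (_ : ∀ k ≤ R, ∀ t ω, energy k (fun l => W l t ω) ≤
          a + ∑' i, w i * (B i ω.toFun * D.ind i t ω.toFun))
        (G : List ι → unitInterval → Path ℂ → ℂ) (_ : IsD b P G), ∀ r ≤ R,
      sobNorm P p r (fun l t ω => spl (fun x y => x * y) (fun l => W l t ω)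
        (fun l => G l t ω) l) ≤
        (C * (a ^ (p / 2) + ∑' i, (2⁻¹) ^ i * w i ^ (p / 2))) ^ (1 / p) * Nsum P p' r' G := by
  haveI := hP.1
  have h := fun r : ℕ => mult_est (ι := ι) (b := b) D hP hibp hBm hB hp r
  choose p' r' C h1 h2 h3 h4 using h
  refine ⟨∑ r ∈ Finset.range (R + 1), p' r, ∑ r ∈ Finset.range (R + 1), r' r,
    ∑ r ∈ Finset.range (R + 1), C r, ?_, ?_⟩
  · calc 1 ≤ p' 0 := h1 0
      _ ≤ _ := Finset.single_le_sum (f := p') (fun r _ => by linarith [h1 r])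
        (Finset.mem_range.2 (by omega))
  intro W a w hW G hG r hr
  refine (h4 r W a w (fun k hk => hW k (by omega)) G hG).trans ?_
  have hp0 : 0 < p := by linarith
  have e1 : C r ≤ ∑ r ∈ Finset.range (R + 1), C r :=
    Finset.single_le_sum (f := C) (fun _ _ => zero_le) (Finset.mem_range.2 (by omega))
  have e2 : p' r ≤ ∑ r ∈ Finset.range (R + 1), p' r :=
    Finset.single_le_sum (f := p') (fun r _ => by linarith [h1 r]) (Finset.mem_range.2 (by omega))
  have e3 : r' r ≤ ∑ r ∈ Finset.range (R + 1), r' r :=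
    Finset.single_le_sum (f := r') (fun _ _ => Nat.zero_le _) (Finset.mem_range.2 (by omega))
  refine mul_le_mul' ?_ ?_
  · apply ENNReal.rpow_le_rpow _ (by positivity)
    refine mul_le_mul' ?_ le_rfl
    exact_mod_cast e1
  · unfold Nsum
    calc ∑ k ∈ Finset.range (r' r + 1), sobNorm P (p' r) k G ≤
          ∑ k ∈ Finset.range (r' r + 1), sobNorm P (∑ r ∈ Finset.range (R + 1), p' r) k G :=
          Finset.sum_le_sum fun k _ => sobNorm_mono_p hG.1 (by linarith [h1 r]) e2 k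
      _ ≤ _ := Finset.sum_le_sum_of_subset (Finset.range_mono (by omega))

end final

end Pool.Agent.Lib.UdB
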