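import Pool.Agent.Lib.UdB.Mult6

/-!
# Multiplicator estimates, part 7: approximation, and the multiplicator theorem
-/

set_option autoImplicit false
set_option linter.unusedSectionVars false
set_option linter.style.haveILetI false

open MeasureTheory Filter
open scoped ENNReal NNReal InnerProductSpace Topology

namespace Pool.Agent.Lib.UdB

variable {ι : Type} [Countable ι] {b : HilbertBasis ι ℝ (H ℂ)} {P : Measure (Path ℂ)}
variable (D : MData) {c : ℕ → ℕ → (unitInterval → ℂ) → ℝ}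

namespace MData

/-- The approximation of the profile. -/
noncomputable def sn (n : ℕ) (t : unitInterval) : ℝ :=
  if (D.blk t).1 < n + 1 then (⌊((n : ℝ) + 1) * D.s t⌋₊ : ℝ) / ((n : ℝ) + 1) else 0

/-- The error of the approximation. -/
noncomputable def dn (n : ℕ) (i : ℕ) : ℝ := if i < n + 1 then 1 / ((n : ℝ) + 1) else 1

theorem sn_nonneg (n : ℕ) (t : unitInterval) : 0 ≤ D.sn n t := by
  unfold sn; split_ifs <;> positivity

theorem floor_le (n : ℕ) (t : unitInterval) : ⌊((n : ℝ) + 1) * D.s t⌋₊ ≤ n + 1 := by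
  apply Nat.floor_le_of_le
  push_cast
  have := D.hs1 t
  nlinarith [Nat.cast_nonneg (α := ℝ) n]

theorem sn_le_one (n : ℕ) (t : unitInterval) : D.sn n t ≤ 1 := by
  unfold sn
  split_ifs
  · rw [div_le_one (by positivity)]
    have := D.floor_le n t
    exact_mod_cast this
  · exact zero_le_one

theorem measurable_floor (n : ℕ) : Measurable fun t => ⌊((n : ℝ) + 1) * D.s t⌋₊ :=
  Nat.measurable_floor.comp (D.hs.const_mul _)

theorem measurableSet_blk (n : ℕ) : MeasurableSet {t | (D.blk t).1 < n + 1} :=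
  measurableSet_lt D.hblk.fst measurable_const

theorem measurable_sn (n : ℕ) : Measurable (D.sn n) := by
  unfold sn
  refine Measurable.ite (D.measurableSet_blk n) ?_ measurable_const
  have h : Measurable fun t => ((⌊((n : ℝ) + 1) * D.s t⌋₊ : ℕ) : ℝ) :=
    measurable_from_nat.comp (D.measurable_floor n)
  exact h.div_const _

theorem abs_sub_sn_le (n : ℕ) (t : unitInterval) : |D.sn n t - D.s t| ≤ dn n (D.blk t).1 := by
  unfold sn dn
  have h0 := D.hs0 t
  have h1 := D.hs1 t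
  split_ifs with h
  · have hn : (0 : ℝ) < (n : ℝ) + 1 := by positivity
    have h2 := Nat.floor_le (a := ((n : ℝ) + 1) * D.s t) (by positivity)
    have h3 := Nat.lt_floor_add_one (((n : ℝ) + 1) * D.s t)
    have h4 : (⌊((n : ℝ) + 1) * D.s t⌋₊ : ℝ) / ((n : ℝ) + 1) ≤ D.s t := by
      rw [div_le_iff₀ hn]; linarith
    rw [abs_of_nonpos (by linarith), neg_sub, sub_le_iff_le_add, ← add_div, le_div_iff₀ hn]
    linarith
  · rw [zero_sub, abs_neg, abs_of_nonneg h0]
    exact h1

end MData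

theorem dn_bound (n i : ℕ) :
    ENNReal.ofReal ((4 / ((i : ℝ) + 1) * MData.dn n i) ^ 2) ≤
      ENNReal.ofReal ((4 / ((n : ℝ) + 1)) ^ 2) := by
  apply ENNReal.ofReal_le_ofReal
  have h0 : (0 : ℝ) ≤ i := Nat.cast_nonneg i
  have h1 : 0 ≤ MData.dn n i := by unfold MData.dn; split_ifs <;> positivity
  gcongr
  unfold MData.dn
  split_ifs with h
  · rw [mul_one_div]
    gcongr
    exact div_le_self (by norm_num) (by linarith)
  · rw [mul_one]
    have : ((n : ℝ) + 1) ≤ i := by exact_mod_cast not_lt.1 h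
    gcongr
    linarith

/-- The approximation is smooth. -/
theorem isSmoothProc_Wn (hc : ∀ i m, IsCyl (c i m)) (n : ℕ)
    {X : unitInterval → (unitInterval → ℂ) → ℂ} (hX : IsSmoothProc X) :
    IsSmoothProc (fun t x => D.Wf c (D.sn n) t x * X t x) := by
  classical
  set Mx : ℕ := ∑ i ∈ Finset.range (n + 1), D.M i with hMx
  set S : Finset (ℕ × ℕ × ℕ) :=
    Finset.range (n + 1) ×ˢ Finset.range Mx ×ˢ Finset.range (n + 2) with hS
  set ind : ℕ × ℕ × ℕ → unitInterval → ℂ := fun α t =>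
    if (D.blk t).1 = α.1 ∧ (D.blk t).2 = α.2.1 ∧ ⌊((n : ℝ) + 1) * D.s t⌋₊ = α.2.2 then 1 else 0
    with hind
  set e : ℕ × ℕ × ℕ → (unitInterval → ℂ) → ℂ := fun α x =>
    ef ((α.2.2 : ℝ) / ((n : ℝ) + 1)) (c α.1 α.2.1 x) with he
  set ind' : unitInterval → ℂ := fun t => if (D.blk t).1 < n + 1 then 0 else 1 with hind'
  have key : (fun t x => D.Wf c (D.sn n) t x * X t x) = fun t x =>
      (∑ α ∈ S, ind α t * (e α x * X t x)) + ind' t * X t x := by
    ext t x
    by_cases h : (D.blk t).1 < n + 1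
    · have hmem : ((D.blk t).1, (D.blk t).2, ⌊((n : ℝ) + 1) * D.s t⌋₊) ∈ S := by
        rw [hS, Finset.mem_product, Finset.mem_product, Finset.mem_range, Finset.mem_range,
          Finset.mem_range]
        refine ⟨h, ?_, ?_⟩
        · exact (D.hM t).trans_le (Finset.single_le_sum (f := D.M) (fun _ _ => Nat.zero_le _)
            (Finset.mem_range.2 h))
        · exact Nat.lt_succ_of_le (D.floor_le n t)
      rw [Finset.sum_eq_single_of_mem _ hmem]
      · have hi1 : ind ((D.blk t).1, (D.blk t).2, ⌊((n : ℝ) + 1) * D.s t⌋₊) t = 1 := by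
          simp only [hind, and_self, if_true]
        have hi2 : ind' t = 0 := by simp only [hind', if_pos h]
        rw [hi1, hi2, one_mul, zero_mul, add_zero]
        simp only [he]
        unfold MData.Wf MData.sn MData.ct
        rw [if_pos h]
      · intro α _ hα
        have : ind α t = 0 := by
          simp only [hind]
          rw [if_neg]
          rintro ⟨h1, h2, h3⟩
          apply hα
          rw [h1, h2, h3]
        rw [this, zero_mul]
    · have h0 : ∑ α ∈ S, ind α t * (e α x * X t x) = 0 := by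
        refine Finset.sum_eq_zero fun α hα => ?_
        rw [hS, Finset.mem_product, Finset.mem_range] at hα
        have : ind α t = 0 := by
          simp only [hind]
          rw [if_neg]
          rintro ⟨h1, _, _⟩
          rw [h1] at h
          exact h hα.1
        rw [this, zero_mul]
      rw [h0, zero_add]
      simp only [hind', if_neg h]
      unfold MData.Wf MData.sn
      rw [if_neg h, ef_zero]
  rw [key]
  refine IsSmoothProc.add (IsSmoothProc.sum S fun α hα => ?_) ?_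
  · rw [hS, Finset.mem_product, Finset.mem_product, Finset.mem_range, Finset.mem_range,
      Finset.mem_range] at hα
    refine IsSmoothProc.fun_mul (a := ind α) ?_ (C := 1) (fun t => ?_)
      (IsSmoothProc.cyl_mul (g := e α) ?_ hX)
    · have h1 : MeasurableSet {t | (D.blk t).1 = α.1 ∧ (D.blk t).2 = α.2.1 ∧
          ⌊((n : ℝ) + 1) * D.s t⌋₊ = α.2.2} := by
        refine (measurableSet_eq_fun D.hblk.fst measurable_const).inter
          ((measurableSet_eq_fun D.hblk.snd measurable_const).inter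
          (measurableSet_eq_fun (D.measurable_floor n) measurable_const))
      exact Measurable.ite h1 measurable_const measurable_const
    · simp only [hind]
      split_ifs <;> simp
    · refine (hc α.1 α.2.1).comp (ef_temperate (by positivity) ?_)
      rw [div_le_one (by positivity)]
      have : α.2.2 ≤ n + 1 := by omega
      exact_mod_cast this
  · refine IsSmoothProc.fun_mul (a := ind') ?_ (C := 1) (fun t => ?_) hX
    · exact Measurable.ite (D.measurableSet_blk n) measurable_const measurable_const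
    · simp only [hind']
      split_ifs <;> simp

theorem sfld_Wn (hc : ∀ i m, IsCyl (c i m)) {s : unitInterval → ℝ} (hs0 : ∀ t, 0 ≤ s t)
    (hs1 : ∀ t, s t ≤ 1) {X : unitInterval → (unitInterval → ℂ) → ℂ} (hX : IsSmoothProc X)
    (l : List ι) (t : unitInterval) (ω : Path ℂ) :
    sfld b (fun t x => D.Wf c s t x * X t x) l t ω =
      spl (fun x y => x * y) (fun l => D.WF b c s l t ω) (fun l => sfld b X l t ω) l := by
  unfold sfld MData.WF spl
  exact iterD_mul b l (D.isCyl_Wf hc hs0 hs1 t) (hX.isCyl t) ω.toFun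

theorem tendsto_err (q : ℝ) (hq : 0 < q) :
    Tendsto (fun n : ℕ => ENNReal.ofReal ((4 / ((n : ℝ) + 1)) ^ 2) ^ q +
      ∑' i : ℕ, (2⁻¹ : ℝ≥0∞) ^ i * ENNReal.ofReal (MData.dn n i ^ 2) ^ q) atTop (𝓝 0) := by
  have h0 : Tendsto (fun n : ℕ => 1 / ((n : ℝ) + 1)) atTop (𝓝 0) :=
    tendsto_one_div_add_atTop_nhds_zero_nat
  have h4 : Tendsto (fun n : ℕ => ENNReal.ofReal ((4 / ((n : ℝ) + 1)) ^ 2) ^ q) atTop (𝓝 0) := by
    have h1 : Tendsto (fun n : ℕ => (4 / ((n : ℝ) + 1)) ^ 2) atTop (𝓝 0) := by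
      have h2 := ((h0.const_mul 4).pow 2)
      simp only [mul_zero, mul_one_div] at h2
      simpa using h2
    have h2 := ENNReal.tendsto_ofReal h1
    rw [ENNReal.ofReal_zero] at h2
    have h3 := ((ENNReal.continuous_rpow_const (y := q)).tendsto 0).comp h2
    rw [ENNReal.zero_rpow_of_pos hq] at h3
    exact h3
  have h1 : Tendsto (fun n : ℕ => ENNReal.ofReal ((1 / ((n : ℝ) + 1)) ^ 2) ^ q) atTop (𝓝 0) := by
    have h1 : Tendsto (fun n : ℕ => (1 / ((n : ℝ) + 1)) ^ 2) atTop (𝓝 0) := by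
      simpa using h0.pow 2
    have h2 := ENNReal.tendsto_ofReal h1
    rw [ENNReal.ofReal_zero] at h2
    have h3 := ((ENNReal.continuous_rpow_const (y := q)).tendsto 0).comp h2
    rw [ENNReal.zero_rpow_of_pos hq] at h3
    exact h3
  have hgeo : ∑' i : ℕ, (2⁻¹ : ℝ≥0∞) ^ i = 2 := by
    rw [ENNReal.tsum_geometric, ENNReal.one_sub_inv_two, inv_inv]
  have h5 : ∀ n : ℕ, ∑' i : ℕ, (2⁻¹ : ℝ≥0∞) ^ i * ENNReal.ofReal (MData.dn n i ^ 2) ^ q ≤
      2 * ENNReal.ofReal ((1 / ((n : ℝ) + 1)) ^ 2) ^ q + ∑' k : ℕ, (2⁻¹ : ℝ≥0∞) ^ (k + (n + 1)) := by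
    intro n
    have h6 : ∀ i : ℕ, (2⁻¹ : ℝ≥0∞) ^ i * ENNReal.ofReal (MData.dn n i ^ 2) ^ q ≤
        (2⁻¹ : ℝ≥0∞) ^ i * ENNReal.ofReal ((1 / ((n : ℝ) + 1)) ^ 2) ^ q +
          (if i < n + 1 then 0 else (2⁻¹ : ℝ≥0∞) ^ i) := by
      intro i
      unfold MData.dn
      split_ifs with h
      · rw [add_zero]
      · rw [one_pow, ENNReal.ofReal_one, ENNReal.one_rpow, mul_one]
        exact le_add_self
    refine (ENNReal.tsum_le_tsum h6).trans (le_of_eq ?_)
    rw [ENNReal.tsum_add, ENNReal.tsum_mul_right, hgeo]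
    congr 1
    rw [← Summable.sum_add_tsum_nat_add' (k := n + 1) ENNReal.summable]
    have h7 : ∑ i ∈ Finset.range (n + 1), (if i < n + 1 then 0 else (2⁻¹ : ℝ≥0∞) ^ i) = 0 :=
      Finset.sum_eq_zero fun i hi => if_pos (Finset.mem_range.1 hi)
    rw [h7, zero_add]
    refine tsum_congr fun k => ?_
    rw [if_neg (by omega)]
  have h8 : Tendsto (fun n : ℕ => ∑' k : ℕ, (2⁻¹ : ℝ≥0∞) ^ (k + (n + 1))) atTop (𝓝 0) := by
    have := ENNReal.tendsto_sum_nat_add (fun i => (2⁻¹ : ℝ≥0∞) ^ i) (by rw [hgeo]; norm_num)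
    exact (tendsto_add_atTop_iff_nat 1).2 this
  have h9 : Tendsto (fun n : ℕ => 2 * ENNReal.ofReal ((1 / ((n : ℝ) + 1)) ^ 2) ^ q +
      ∑' k : ℕ, (2⁻¹ : ℝ≥0∞) ^ (k + (n + 1))) atTop (𝓝 0) := by
    have h10 := (ENNReal.Tendsto.const_mul h1 (a := 2) (Or.inr (by norm_num))).add h8
    simpa using h10
  have h11 := tendsto_of_tendsto_of_tendsto_of_le_of_le tendsto_const_nhds h9
    (fun n => zero_le) h5
  simpa using h4.add h11

/-- The product of the multiplier and of an element of `𝔻^∞` is in `𝔻^∞`. -/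
theorem isD_mul (hP : IsWiener P) (hibp : HasIBP (P.map Path.toFun) b)
    (hc : ∀ i m, IsCyl (c i m)) (hcb : ∀ i m x, |c i m x| ≤ 4 / (i + 1))
    (hB : ∀ R : ℕ, ∃ B : ℕ → (unitInterval → ℂ) → ℝ≥0∞, (∀ i, Measurable (B i)) ∧
      (∀ i m, m < D.M i → ∀ x, NN b R (c i m) x ≤
        if D.K i < pair (D.ℓ i m) x then B i x else 0) ∧
      ∀ q : ℝ, 0 < q → ∃ (C : ℝ≥0) (k : ℕ), ∀ i,
        ∫⁻ x, B i x ^ q ∂(P.map Path.toFun) ≤ C * ENNReal.ofReal (D.K i) ^ k)
    {G : List ι → unitInterval → Path ℂ → ℂ} (hG : IsD b P G) :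
    IsD b P (fun l t ω => spl (fun x y => x * y) (fun l => D.WF b c D.s l t ω)
      (fun l => G l t ω) l) := by
  haveI := hP.1
  have hWm : MF (D.WF b c D.s) := D.MF_WF hc D.hs D.hs0 D.hs1
  have hmul : ∀ {F F' : List ι → unitInterval → Path ℂ → ℂ}, MF F → MF F' →
      MF (fun l t ω => spl (fun x y => x * y) (fun l => F l t ω) (fun l => F' l t ω) l) :=
    fun hF hF' l => measurable_spl l hF hF'
  refine ⟨hmul hWm hG.1, fun p hp R ε hε => ?_⟩
  have hp0 : 0 < p := by linarith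
  obtain ⟨B, hBm, hBle, hBq⟩ := hB R
  have hBm' : ∀ i, Measurable fun x => cr R * (B i x * (1 + B i x) ^ R) := fun i =>
    ((hBm i).mul ((measurable_const.add (hBm i)).pow_const R)).const_mul _
  obtain ⟨p', r', C, hp', hest⟩ := mult_est_unif (b := b) D hP hibp hBm'
    (moment_aux D hBm hBq R) hp R
  set A : ℝ≥0∞ := (C * (34 ^ (p / 2) + ∑' i : ℕ, (2⁻¹) ^ i * 2 ^ (p / 2))) ^ (1 / p) with hA
  have hAt : A ≠ ∞ := by
    refine ENNReal.rpow_ne_top_of_nonneg (by positivity) (ENNReal.mul_ne_top (by finiteness) ?_)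
    refine ENNReal.add_ne_top.2 ⟨ENNReal.rpow_ne_top_of_nonneg (by positivity) (by norm_num), ?_⟩
    rw [ENNReal.tsum_mul_right, ENNReal.tsum_geometric, ENNReal.one_sub_inv_two, inv_inv]
    exact ENNReal.mul_ne_top (by norm_num)
      (ENNReal.rpow_ne_top_of_nonneg (by positivity) (by norm_num))
  set L : ℝ≥0∞ := A * (r' + 1 : ℕ) + 1 with hL
  have hLt : L ≠ ∞ := by finiteness
  have hL0 : L ≠ 0 := by
    intro h
    rw [hL, add_eq_zero] at h
    exact one_ne_zero h.2
  have hε4 : 0 < ε / 4 := ENNReal.div_pos hε.ne' (by norm_num)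
  obtain ⟨X, hX, hXG⟩ := hG.2 p' hp' r' (ε / 4 / L) (ENNReal.div_pos hε4.ne' hLt)
  -- the second part of the error
  have hD2 : IsD b P (fun l t ω => sfld b X l t ω - G l t ω) := hX.isD.sub hG
  have hpart2 : ∀ r ≤ R, sobNorm P p r (fun l t ω => spl (fun x y => x * y)
      (fun l => D.WF b c D.s l t ω) (fun l => sfld b X l t ω - G l t ω) l) ≤ ε / 4 := by
    intro r hr
    refine (hest (D.WF b c D.s) 34 (fun _ => 2)
      (fun k hk t ω => energy_WF_le D hc hcb D.hs0 D.hs1 hBle hk t ω) _ hD2 r hr).trans ?_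
    have h1 : Nsum P p' r' (fun l t ω => sfld b X l t ω - G l t ω) ≤
        (r' + 1 : ℕ) * (ε / 4 / L) := by
      unfold Nsum
      refine (Finset.sum_le_sum fun k hk => hXG k ?_).trans (le_of_eq ?_)
      · rw [Finset.mem_range] at hk; omega
      · rw [Finset.sum_const, Finset.card_range, nsmul_eq_mul]
    calc A * Nsum P p' r' (fun l t ω => sfld b X l t ω - G l t ω) ≤
          A * ((r' + 1 : ℕ) * (ε / 4 / L)) := by gcongr
      _ = (A * (r' + 1 : ℕ)) * (ε / 4 / L) := by ring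
      _ ≤ L * (ε / 4 / L) := by gcongr; exact le_self_add
      _ ≤ ε / 4 := ENNReal.mul_div_le
  -- the first part of the error
  have hN : Nsum P p' r' (sfld b X) ≠ ∞ :=
    ENNReal.sum_ne_top.2 fun k _ => hX.sobNorm_ne_top hP hp' k
  have hlim : Tendsto (fun n : ℕ => (C * (ENNReal.ofReal ((4 / ((n : ℝ) + 1)) ^ 2) ^ (p / 2) +
      ∑' i : ℕ, (2⁻¹ : ℝ≥0∞) ^ i * ENNReal.ofReal (MData.dn n i ^ 2) ^ (p / 2))) ^ (1 / p) *
      Nsum P p' r' (sfld b X)) atTop (𝓝 0) := by
    have h1 := ENNReal.Tendsto.const_mul (a := (C : ℝ≥0∞)) (tendsto_err (p / 2) (by positivity))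
      (Or.inr ENNReal.coe_ne_top)
    rw [mul_zero] at h1
    have h2 := ((ENNReal.continuous_rpow_const (y := 1 / p)).tendsto 0).comp h1
    rw [ENNReal.zero_rpow_of_pos (by positivity)] at h2
    have h3 := ENNReal.Tendsto.mul_const (b := Nsum P p' r' (sfld b X)) h2 (Or.inr hN)
    rw [zero_mul] at h3
    exact h3
  obtain ⟨n, hn⟩ := (hlim.eventually_lt_const hε4).exists
  have hpart1 : ∀ r ≤ R, sobNorm P p r (fun l t ω => spl (fun x y => x * y)
      (fun l => D.WF b c (D.sn n) l t ω - D.WF b c D.s l t ω) (fun l => sfld b X l t ω) l) ≤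
      ε / 4 := by
    intro r hr
    refine (hest (fun l t ω => D.WF b c (D.sn n) l t ω - D.WF b c D.s l t ω)
      (ENNReal.ofReal ((4 / ((n : ℝ) + 1)) ^ 2)) (fun i => ENNReal.ofReal (MData.dn n i ^ 2))
      (fun k hk t ω => energy_WF_sub_le D hc hcb (D.sn_nonneg n) (D.sn_le_one n) D.hs0 D.hs1 hBle
        (D.abs_sub_sn_le n) (dn_bound n) hk t ω) _ hX.isD r hr).trans hn.le
  refine ⟨fun t x => D.Wf c (D.sn n) t x * X t x, isSmoothProc_Wn D hc n hX, fun r hr => ?_⟩
  have hWnm : MF (D.WF b c (D.sn n)) :=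
    D.MF_WF hc (D.measurable_sn n) (D.sn_nonneg n) (D.sn_le_one n)
  have h3 : (fun (l : List ι) (t : unitInterval) (ω : Path ℂ) =>
      iterD b l (fun x => D.Wf c (D.sn n) t x * X t x) ω.toFun -
        spl (fun x y => x * y) (fun l => D.WF b c D.s l t ω) (fun l => G l t ω) l) =
      fun l t ω => spl (fun x y => x * y)
        (fun l => D.WF b c (D.sn n) l t ω - D.WF b c D.s l t ω) (fun l => sfld b X l t ω) l +
        spl (fun x y => x * y) (fun l => D.WF b c D.s l t ω)
          (fun l => sfld b X l t ω - G l t ω) l := by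
    ext l t ω
    have h4 := sfld_Wn (b := b) D hc (D.sn_nonneg n) (D.sn_le_one n) hX l t ω
    unfold sfld at h4
    rw [h4, ← spl_sub_left, ← spl_sub_right]
    unfold sfld
    ring
  rw [h3]
  refine (sobNorm_add_le (hmul (hWnm.sub hWm) (hX.MF b)) (hmul hWm ((hX.MF b).sub hG.1))
    hp r).trans ?_
  calc _ ≤ 2 * (ε / 4 + ε / 4) := by
        gcongr
        · exact hpart1 r hr
        · exact hpart2 r hr
    _ = ε := by
        rw [← two_mul, ← mul_assoc, show (2 : ℝ≥0∞) * 2 = 4 by norm_num, mul_comm,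
          ENNReal.div_mul_cancel (by norm_num) (by norm_num)]

/-- **The multiplicator theorem.** -/
theorem isMultiplicator_of (hP : IsWiener P) (hibp : HasIBP (P.map Path.toFun) b)
    (hc : ∀ i m, IsCyl (c i m)) (hcb : ∀ i m x, |c i m x| ≤ 4 / (i + 1))
    (hB : ∀ R : ℕ, ∃ B : ℕ → (unitInterval → ℂ) → ℝ≥0∞, (∀ i, Measurable (B i)) ∧
      (∀ i m, m < D.M i → ∀ x, NN b R (c i m) x ≤
        if D.K i < pair (D.ℓ i m) x then B i x else 0) ∧
      ∀ q : ℝ, 0 < q → ∃ (C : ℝ≥0) (k : ℕ), ∀ i,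
        ∫⁻ x, B i x ^ q ∂(P.map Path.toFun) ≤ C * ENNReal.ofReal (D.K i) ^ k)
    {U : unitInterval → Path ℂ → (ℂ ≃ₗᵢ[ℝ] ℂ)}
    (hU : ∀ t ω z, U t ω z = D.Wf c D.s t ω.toFun * z) : IsMultiplicator P b U := by
  haveI := hP.1
  have h := fun Z : DInf P b => isD_mul D hP hibp hc hcb hB Z.isD
  refine ⟨fun Z => ⟨fun l t ω => spl (fun x y => x * y) (fun l => D.WF b c D.s l t ω)
      (fun l => Z.fld l t ω) l, (h Z).1, (h Z).2⟩, fun Z t ω => ?_, fun p hp r => ?_⟩
  · change spl (fun x y => x * y) (fun l => D.WF b c D.s l t ω) (fun l => Z.fld l t ω) [] = _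
    rw [spl_nil, hU]
    rfl
  · have hp0 : 0 < p := by linarith
    obtain ⟨B, hBm, hBle, hBq⟩ := hB r
    have hBm' : ∀ i, Measurable fun x => cr r * (B i x * (1 + B i x) ^ r) := fun i =>
      ((hBm i).mul ((measurable_const.add (hBm i)).pow_const r)).const_mul _
    obtain ⟨p', r', C, hp', hest⟩ := mult_est_unif (b := b) D hP hibp hBm'
      (moment_aux D hBm hBq r) hp r
    set A : ℝ≥0∞ := (C * (34 ^ (p / 2) + ∑' i : ℕ, (2⁻¹) ^ i * 2 ^ (p / 2))) ^ (1 / p) with hA
    have hAt : A ≠ ∞ := by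
      refine ENNReal.rpow_ne_top_of_nonneg (by positivity) (ENNReal.mul_ne_top (by finiteness) ?_)
      refine ENNReal.add_ne_top.2 ⟨ENNReal.rpow_ne_top_of_nonneg (by positivity) (by norm_num), ?_⟩
      rw [ENNReal.tsum_mul_right, ENNReal.tsum_geometric, ENNReal.one_sub_inv_two, inv_inv]
      exact ENNReal.mul_ne_top (by norm_num)
        (ENNReal.rpow_ne_top_of_nonneg (by positivity) (by norm_num))
    refine ⟨p', r', A.toNNReal, hp', fun Z => ?_⟩
    rw [ENNReal.coe_toNNReal hAt]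
    exact hest (D.WF b c D.s) 34 (fun _ => 2)
      (fun k hk t ω => energy_WF_le D hc hcb D.hs0 D.hs1 hBle hk t ω) _ Z.isD r le_rfl

end Pool.Agent.Lib.UdB
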