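import Pool.Agent.Lib.UdB.Mult7
import Pool.Agent.Lib.UdB.MsgMom2
import Pool.Agent.Lib.UdB.IBP
import Pool.Agent.Lib.UdB.Uproc

/-!
# The process `U₀` is a multiplicator
-/

set_option autoImplicit false
set_option linter.unusedSectionVars false

open MeasureTheory Set
open scoped ENNReal NNReal

namespace Pool.Agent.Lib.UdB

namespace TimeData

variable (D : TimeData)

theorem exists_blk (t : unitInterval) : ∃ p : ℕ × ℕ, p.2 < D.M p.1 ∧
    (0 < (t : ℝ) → D.a p.1 p.2 < t ∧ t ≤ D.a p.1 (p.2 + 1)) ∧ (¬ 0 < (t : ℝ) → p = (0, 0)) := by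
  by_cases h : 0 < (t : ℝ)
  · obtain ⟨i, m, h1, h2, h3⟩ := D.exists_cell h t.2.2
    exact ⟨(i, m), h1, fun _ => ⟨h2, h3⟩, fun h' => absurd h h'⟩
  · exact ⟨(0, 0), D.M_pos 0, fun h' => absurd h' h, fun _ => rfl⟩

/-- The block and the cell of a time. -/
noncomputable def blk (t : unitInterval) : ℕ × ℕ := (D.exists_blk t).choose

theorem blk_lt (t : unitInterval) : (D.blk t).2 < D.M (D.blk t).1 :=
  (D.exists_blk t).choose_spec.1

theorem blk_cell {t : unitInterval} (h : 0 < (t : ℝ)) :
    D.a (D.blk t).1 (D.blk t).2 < t ∧ t ≤ D.a (D.blk t).1 ((D.blk t).2 + 1) :=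
  (D.exists_blk t).choose_spec.2.1 h

theorem blk_zero {t : unitInterval} (h : ¬ 0 < (t : ℝ)) : D.blk t = (0, 0) :=
  (D.exists_blk t).choose_spec.2.2 h

theorem blk_eq {t : unitInterval} {i m : ℕ} (hm : m < D.M i) (h1 : D.a i m < t)
    (h2 : t ≤ D.a i (m + 1)) : D.blk t = (i, m) := by
  have h0 : 0 < (t : ℝ) := (D.a_pos i m).trans h1
  obtain ⟨h3, h4⟩ := D.blk_cell h0
  have h5 := D.blk_lt t
  generalize D.blk t = p at h3 h4 h5
  obtain ⟨j, n⟩ := p
  simp only at h3 h4 h5
  have hij : i = j := by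
    rcases lt_trichotomy i j with h | h | h
    · exfalso
      have h6 : (t : ℝ) ≤ D.t j := h4.trans (D.a_le j (by omega))
      have h7 : D.t j ≤ D.t (i + 1) := D.t_anti.antitone (by omega)
      have h8 := D.a_ge i m
      linarith
    · exact h
    · exfalso
      have h6 : (t : ℝ) ≤ D.t i := h2.trans (D.a_le i (by omega))
      have h7 : D.t i ≤ D.t (j + 1) := D.t_anti.antitone (by omega)
      have h8 := D.a_ge j n
      linarith
  subst hij
  have hmn : m = n := by
    rcases lt_trichotomy m n with h | h | h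
    · exfalso
      have := D.a_mono i (show m + 1 ≤ n by omega)
      linarith
    · exact h
    · exfalso
      have := D.a_mono i (show n + 1 ≤ m by omega)
      linarith
  rw [hmn]

theorem measurable_blk : Measurable D.blk := by
  refine measurable_to_countable' fun p => ?_
  obtain ⟨i, m⟩ := p
  by_cases hm : m < D.M i
  · have h1 : D.blk ⁻¹' {(i, m)} = {t : unitInterval | D.a i m < t ∧ (t : ℝ) ≤ D.a i (m + 1)} ∪
        {t : unitInterval | ¬ 0 < (t : ℝ) ∧ (i, m) = (0, 0)} := by
      ext t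
      simp only [mem_preimage, mem_singleton_iff, mem_union, mem_ofPred_eq]
      constructor
      · intro h
        by_cases h0 : 0 < (t : ℝ)
        · left
          have := D.blk_cell h0
          rwa [h] at this
        · right
          exact ⟨h0, h ▸ D.blk_zero h0⟩
      · rintro (⟨h1, h2⟩ | ⟨h1, h2⟩)
        · exact D.blk_eq hm h1 h2
        · rw [h2]; exact D.blk_zero h1
    rw [h1]
    have e1 : MeasurableSet {t : unitInterval | D.a i m < t} :=
      measurableSet_lt measurable_const measurable_subtype_coe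
    have e2 : MeasurableSet {t : unitInterval | (t : ℝ) ≤ D.a i (m + 1)} :=
      measurableSet_le measurable_subtype_coe measurable_const
    have e3 : MeasurableSet {t : unitInterval | ¬ 0 < (t : ℝ)} :=
      (measurableSet_lt measurable_const measurable_subtype_coe).compl
    exact (e1.inter e2).union (e3.inter (MeasurableSet.const _))
  · have h1 : D.blk ⁻¹' {(i, m)} = ∅ := by
      ext t
      simp only [mem_preimage, mem_singleton_iff, mem_empty_iff_false, iff_false]
      intro h
      have := D.blk_lt t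
      rw [h] at this
      exact hm this
    rw [h1]
    exact MeasurableSet.empty

/-- The profile. -/
noncomputable def prof (t : unitInterval) : ℝ :=
  tent (D.a (D.blk t).1 (D.blk t).2) (D.q (D.blk t).1) t

theorem measurable_prof : Measurable D.prof := by
  have h1 : Measurable fun p : (ℕ × ℕ) × ℝ => tent (D.a p.1.1 p.1.2) (D.q p.1.1) p.2 :=
    measurable_from_prod_countable_right fun p => (continuous_tent (D.a p.1 p.2) (D.q p.1)).measurable
  exact h1.comp (D.measurable_blk.prodMk measurable_subtype_coe)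

theorem tot_eq_prof (c : ℕ → ℕ → (unitInterval → ℂ) → ℝ) (t : unitInterval)
    (x : unitInterval → ℂ) : D.tot c t x = D.prof t * c (D.blk t).1 (D.blk t).2 x := by
  by_cases h : 0 < (t : ℝ)
  · exact (D.tot_cell (D.blk_lt t) (D.blk_cell h).1 (D.blk_cell h).2 x).1
  · have h1 : D.prof t = 0 := by
      unfold prof
      apply tent_left (D.q_pos _)
      have := D.a_pos (D.blk t).1 (D.blk t).2
      have := D.q_pos (D.blk t).1
      linarith
    rw [(D.tot_nonpos (c := c) (not_lt.1 h) x).1, h1, zero_mul]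

/-- The data for the multiplicator theorem. -/
noncomputable def mData : MData where
  blk := D.blk
  hblk := D.measurable_blk
  s := D.prof
  hs := D.measurable_prof
  hs0 t := tent_nonneg _ _ _
  hs1 t := tent_le_one _ _ _
  M := D.M
  hM := D.blk_lt
  ℓ i m := D.inc i m 0 1
  hℓ i m hm := D.Qf_inc hm (by norm_num) (by simp)
  K := KK
  hK i := by
    unfold KK
    exact pow_le_pow_right₀ (by norm_num) (by nlinarith)

end TimeData

theorem hasIBP {ι : Type} {P : Measure (Path ℂ)} (hP : IsWiener P)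
    (b : HilbertBasis ι ℝ (H ℂ)) : HasIBP (P.map Path.toFun) b := by
  intro s
  obtain ⟨C, hC⟩ := IsWR.ibp_energy s
  exact ⟨C, fun c hc F hF => hC ℂ ℂ ι b hP.isWR hc hF⟩

theorem isMultiplicator_mData {ι : Type} [Countable ι] {P : Measure (Path ℂ)} (hP : IsWiener P)
    (b : HilbertBasis ι ℝ (H ℂ)) (D : TimeData) {U : unitInterval → Path ℂ → (ℂ ≃ₗᵢ[ℝ] ℂ)}
    (hU : ∀ t ω z, U t ω z = Complex.exp ((D.tot D.cc t ω.toFun : ℝ) * Complex.I) * z) :
    IsMultiplicator P b U := by
  have hB : ∀ R : ℕ, ∃ B : ℕ → (unitInterval → ℂ) → ℝ≥0∞, (∀ i, Measurable (B i)) ∧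
      (∀ i m, m < D.mData.M i → ∀ x, NN b R (D.cc i m) x ≤
        if D.mData.K i < pair (D.mData.ℓ i m) x then B i x else 0) ∧
      ∀ q : ℝ, 0 < q → ∃ (C : ℝ≥0) (k : ℕ), ∀ i,
        ∫⁻ x, B i x ^ q ∂(P.map Path.toFun) ≤ C * ENNReal.ofReal (D.mData.K i) ^ k := by
    intro R
    refine ⟨D.ccB b R, D.measurable_ccB b R, fun i m hm x => D.NN_cc_le b hm R x, ?_⟩
    intro q hq
    have hWR := hP.isWR
    have hprob := hWR.prob
    obtain ⟨s, ⟨C, k, hs⟩, h1⟩ := D.ccB_moment b hWR R ⌈q⌉₊
    refine ⟨1 + C, k, fun i => ?_⟩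
    have h2 : ∀ x, D.ccB b R i x ^ q ≤ 1 + D.ccB b R i x ^ ⌈q⌉₊ := by
      intro x
      generalize D.ccB b R i x = y
      rcases le_total y 1 with h | h
      · calc y ^ q ≤ 1 ^ q := ENNReal.rpow_le_rpow h hq.le
          _ = 1 := ENNReal.one_rpow _
          _ ≤ _ := le_self_add
      · calc y ^ q ≤ y ^ ((⌈q⌉₊ : ℕ) : ℝ) :=
              ENNReal.rpow_le_rpow_of_exponent_le h (Nat.le_ceil q)
          _ = y ^ ⌈q⌉₊ := ENNReal.rpow_natCast _ _
          _ ≤ _ := le_add_self
    refine (lintegral_mono h2).trans ?_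
    rw [lintegral_add_left measurable_const, lintegral_const, measure_univ, mul_one]
    have h3 : (1 : ℝ≥0∞) ≤ kk i ^ k := one_le_pow₀ (one_le_kk i)
    have h4 : ENNReal.ofReal (D.mData.K i) = kk i := (kk_eq i).symm
    rw [h4]
    have h5 : (((1 + C : ℝ≥0) : ℝ≥0∞)) * kk i ^ k = kk i ^ k + C * kk i ^ k := by
      rw [ENNReal.coe_add, ENNReal.coe_one, add_mul, one_mul]
    rw [h5]
    exact add_le_add h3 ((h1 i).trans (hs i))
  refine isMultiplicator_of D.mData hP (hasIBP hP b) D.isCyl_cc D.abs_cc_le hB fun t ω z => ?_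
  rw [hU, D.tot_eq_prof]
  rfl

/-- The process `U₀` is a multiplicator. -/
theorem isMultiplicator_U₀ {ι : Type} [Countable ι] {P : Measure (Path ℂ)} (hP : IsWiener P)
    (b : HilbertBasis ι ℝ (H ℂ)) : IsMultiplicator P b U₀ :=
  isMultiplicator_mData hP b D₀ U₀_apply

end Pool.Agent.Lib.UdB
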