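import Pool.Agent.Lib.UdB.Uniq

/-!
# Adapted rotations of the increments of the plane Brownian motion
-/

set_option autoImplicit false
set_option linter.unusedSectionVars false

open MeasureTheory
open scoped ENNReal InnerProductSpace

namespace Pool.Agent.Lib.UdB

/-- The increments on `[u,v]` are multiplied by `a`. -/
def rot (u v : unitInterval) (a : ℂ) (y : unitInterval → ℂ) : unitInterval → ℂ :=
  fun t => y (min t u) + a * (y (min (max t u) v) - y u) + (y (max t v) - y v)

/-- The effect on linear functionals. -/
noncomputable def rotC (u v : unitInterval) (a : ℂ) (c : unitInterval →₀ ℂ) :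
    unitInterval →₀ ℂ :=
  c.sum fun t w => Finsupp.single (min t u) w +
    (Finsupp.single (min (max t u) v) (starRingEnd ℂ a * w) -
      Finsupp.single u (starRingEnd ℂ a * w)) +
    (Finsupp.single (max t v) w - Finsupp.single v w)

theorem rotC_add (u v : unitInterval) (a : ℂ) (c d : unitInterval →₀ ℂ) :
    rotC u v a (c + d) = rotC u v a c + rotC u v a d := by
  unfold rotC
  rw [Finsupp.sum_add_index']
  · intro t; simp
  · intro t x y
    simp only [mul_add, Finsupp.single_add]
    abel

theorem rotC_single (u v : unitInterval) (a : ℂ) (t : unitInterval) (w : ℂ) :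
    rotC u v a (Finsupp.single t w) = Finsupp.single (min t u) w +
    (Finsupp.single (min (max t u) v) (starRingEnd ℂ a * w) -
      Finsupp.single u (starRingEnd ℂ a * w)) +
    (Finsupp.single (max t v) w - Finsupp.single v w) := by
  unfold rotC
  rw [Finsupp.sum_single_index]
  simp

theorem inner_conj_mul (a w z : ℂ) : ⟪starRingEnd ℂ a * w, z⟫_ℝ = ⟪w, a * z⟫_ℝ := by
  simp only [Complex.inner, map_mul, Complex.conj_conj]
  congr 1
  ring

theorem pair_rot (u v : unitInterval) (a : ℂ) (c : unitInterval →₀ ℂ) (y : unitInterval → ℂ) :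
    pair c (rot u v a y) = pair (rotC u v a c) y := by
  induction c using Finsupp.induction_linear with
  | zero => simp [rotC]
  | add c c' hc hc' => rw [pair_add, hc, hc', rotC_add, pair_add]
  | single t w =>
    rw [rotC_single, pair_single, pair_add, pair_add, pair_sub, pair_sub]
    simp only [pair_single, inner_conj_mul, rot, inner_add_right, inner_sub_right, mul_sub]

theorem theta_rotC {u v : unitInterval} (huv : u ≤ v) (a : ℂ) (c : unitInterval →₀ ℂ)
    (s : unitInterval) :
    theta (rotC u v a c) s =
      if s ≤ u then theta c s else if s ≤ v then starRingEnd ℂ a * theta c s else theta c s := by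
  induction c using Finsupp.induction_linear with
  | zero => simp [theta, rotC]
  | add c c' hc hc' =>
    rw [rotC_add, theta_add, hc, hc', theta_add]
    split_ifs
    · rfl
    · rw [mul_add]
    · rfl
  | single t w =>
    rw [rotC_single, theta_add, theta_add, theta_sub, theta_sub]
    simp only [theta_single, le_min_iff, le_max_iff]
    by_cases h1 : s ≤ u
    · have h2 : s ≤ v := h1.trans huv
      simp [h1, h2]
    · by_cases h2 : s ≤ v <;> by_cases h3 : s ≤ t <;> simp [h1, h2, h3]

theorem IsWR.rot {ν : Measure (unitInterval → ℂ)} (hν : IsWR ν) {u v : unitInterval}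
    (huv : u ≤ v) {a : ℂ} (ha : ‖a‖ = 1) : MeasurePreserving (rot u v a) ν ν := by
  refine hν.mp _ ?_ (rotC u v a) (fun c x => pair_rot u v a c x) ?_
  · unfold UdB.rot
    refine measurable_pi_lambda _ fun t => ?_
    fun_prop
  · intro c
    unfold Qf Bf
    refine integral_congr_ae (Filter.Eventually.of_forall fun s => ?_)
    simp only [theta_rotC huv]
    split_ifs
    · rfl
    · rw [inner_conj_mul, ← mul_assoc, Complex.mul_conj, Complex.normSq_eq_norm_sq, ha]
      simp
    · rfl

theorem rot_conc {u v : unitInterval} (huv : u ≤ v) (a : ℂ) (x y : unitInterval → ℂ) :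
    rot u v a (conc u (x, y)) = conc u (x, rot u v a y) := by
  funext t
  unfold rot conc
  simp only
  have h1 : min (min t u) u = min t u := by simp
  have h2 : min (min (max t u) v) u = u := by
    apply min_eq_right; exact le_min (le_max_right _ _) huv
  have h3 : min (max t v) u = u := min_eq_right (huv.trans (le_max_right _ _))
  have h4 : min v u = u := min_eq_right huv
  have h5 : max (min t u) u = u := max_eq_right (min_le_right _ _)
  have h6 : max (min t u) v = v := max_eq_right ((min_le_right _ _).trans huv)
  have h7 : min u v = u := min_eq_left huv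
  simp only [h1, h2, h3, h4, h5, h6, h7, min_self]
  ring

/-- The increments on `[u,v]` are multiplied by `f x`. -/
def rotF (u v : unitInterval) (f : (unitInterval → ℂ) → ℂ) (x : unitInterval → ℂ) :
    unitInterval → ℂ := rot u v (f x) x

theorem measurable_rotF (u v : unitInterval) {f : (unitInterval → ℂ) → ℂ} (hf : Measurable f) :
    Measurable (rotF u v f) := by
  unfold rotF rot
  refine measurable_pi_lambda _ fun t => ?_
  fun_prop

theorem IsWR.rotF {ν : Measure (unitInterval → ℂ)} (hν : IsWR ν) {u v : unitInterval}
    (huv : u ≤ v) {f : (unitInterval → ℂ) → ℂ} (hf : Measurable f) (hf1 : ∀ x, ‖f x‖ = 1)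
    (hfu : ∀ x y, f (UdB.conc u (x, y)) = f x) : MeasurePreserving (rotF u v f) ν ν := by
  have := hν.prob
  have hc := hν.conc u
  have hsk : MeasurePreserving (fun z : (unitInterval → ℂ) × (unitInterval → ℂ) =>
      (z.1, UdB.rot u v (f z.1) z.2)) (ν.prod ν) (ν.prod ν) := by
    refine (MeasurePreserving.id ν).skew_product (g := fun x y => UdB.rot u v (f x) y) ?_ ?_
    · unfold UdB.rot
      simp only [Function.uncurry_def]
      refine measurable_pi_lambda _ fun t => ?_
      fun_prop
    · exact Filter.Eventually.of_forall fun x => (hν.rot huv (hf1 x)).map_eq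
  refine ⟨measurable_rotF u v hf, ?_⟩
  conv_lhs => rw [← hc.map_eq]
  rw [Measure.map_map (measurable_rotF u v hf) hc.measurable]
  have h1 : UdB.rotF u v f ∘ UdB.conc u = UdB.conc u ∘
      (fun z : (unitInterval → ℂ) × (unitInterval → ℂ) => (z.1, UdB.rot u v (f z.1) z.2)) := by
    funext z
    obtain ⟨x, y⟩ := z
    simp only [Function.comp_apply, UdB.rotF, hfu]
    exact rot_conc huv _ _ _
  rw [h1]
  exact (hc.comp hsk).map_eq

end Pool.Agent.Lib.UdB
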