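import Pool.Agent.Lib.UdB.Ito4
import Pool.Agent.Lib.UdB.Sigma

/-!
# The subdivision of `(0,1]` into blocks and cells, and the angle processes
-/

set_option autoImplicit false
set_option linter.unusedSectionVars false

open MeasureTheory Set Filter
open scoped ENNReal Topology

namespace Pool.Agent.Lib.UdB

/-- Block `i` is `(t (i+1), t i]`, it is divided into `M i` cells. -/
structure TimeData where
  /-- the block times -/
  t : ℕ → ℝ
  /-- the numbers of cells -/
  M : ℕ → ℕ
  M_pos : ∀ i, 0 < M i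
  t_zero : t 0 = 1
  t_pos : ∀ i, 0 < t i
  t_lt : ∀ i, t (i + 1) < t i
  summ : Summable fun i => √(t i) * M i

namespace TimeData

variable (D : TimeData)

/-- A quarter of a cell of block `i`. -/
noncomputable def q (i : ℕ) : ℝ := (D.t i - D.t (i + 1)) / (4 * D.M i)

/-- The left endpoint of cell `m` of block `i`. -/
noncomputable def a (i m : ℕ) : ℝ := D.t (i + 1) + 4 * m * D.q i

theorem M_pos' (i : ℕ) : (0 : ℝ) < D.M i := by exact_mod_cast D.M_pos i

theorem q_pos (i : ℕ) : 0 < D.q i := by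
  have h1 := D.M_pos' i
  have h2 := D.t_lt i
  unfold q
  apply div_pos (by linarith) (by positivity)

theorem a_zero (i : ℕ) : D.a i 0 = D.t (i + 1) := by simp [a]

theorem a_last (i : ℕ) : D.a i (D.M i) = D.t i := by
  have h1 := D.M_pos' i
  unfold a q
  field_simp
  ring

theorem a_succ (i m : ℕ) : D.a i (m + 1) = D.a i m + 4 * D.q i := by
  unfold a; push_cast; ring

theorem a_mono (i : ℕ) : Monotone (D.a i) := by
  refine monotone_nat_of_le_succ fun m => ?_
  rw [a_succ]
  linarith [D.q_pos i]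

theorem t_anti : StrictAnti D.t := strictAnti_nat_of_succ_lt D.t_lt

theorem t_le_one (i : ℕ) : D.t i ≤ 1 := by
  rw [← D.t_zero]; exact D.t_anti.antitone (Nat.zero_le i)

theorem a_pos (i m : ℕ) : 0 < D.a i m := by
  have := D.a_mono i (Nat.zero_le m)
  rw [a_zero] at this
  exact (D.t_pos _).trans_le this

theorem a_le (i : ℕ) {m : ℕ} (hm : m ≤ D.M i) : D.a i m ≤ D.t i := by
  rw [← D.a_last i]; exact D.a_mono i hm

theorem a_ge (i m : ℕ) : D.t (i + 1) ≤ D.a i m := by
  rw [← D.a_zero i]; exact D.a_mono i (Nat.zero_le m)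

theorem tendsto_t : Tendsto D.t atTop (𝓝 0) := by
  have h1 := D.summ.tendsto_atTop_zero
  have h2 : Tendsto (fun i => (√(D.t i) * D.M i) ^ 2) atTop (𝓝 0) := by
    simpa using h1.pow 2
  refine tendsto_of_tendsto_of_tendsto_of_le_of_le tendsto_const_nhds h2
    (fun i => (D.t_pos i).le) fun i => ?_
  have h3 : (1 : ℝ) ≤ D.M i := by exact_mod_cast D.M_pos i
  simp only
  rw [mul_pow, Real.sq_sqrt (D.t_pos i).le]
  have h4 : (1 : ℝ) ≤ (D.M i : ℝ) ^ 2 := one_le_pow₀ h3
  nlinarith [D.t_pos i]

/-- Every positive time is in a block. -/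
theorem exists_block {r : ℝ} (h0 : 0 < r) (h1 : r ≤ 1) : ∃ i, D.t (i + 1) < r ∧ r ≤ D.t i := by
  have h2 : ∃ j, D.t j < r := (D.tendsto_t.eventually_lt_const h0).exists
  classical
  have h3 := Nat.find_spec h2
  have h4 : Nat.find h2 ≠ 0 := by
    intro h
    rw [h, D.t_zero] at h3
    linarith
  obtain ⟨i, hi⟩ := Nat.exists_eq_succ_of_ne_zero h4
  refine ⟨i, ?_, ?_⟩
  · rw [← Nat.succ_eq_add_one, ← hi]; exact h3
  · have := Nat.find_min h2 (m := i) (by omega)
    exact not_lt.1 this

/-- Every positive time is in a cell. -/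
theorem exists_cell {r : ℝ} (h0 : 0 < r) (h1 : r ≤ 1) :
    ∃ i m, m < D.M i ∧ D.a i m < r ∧ r ≤ D.a i (m + 1) := by
  obtain ⟨i, h2, h3⟩ := D.exists_block h0 h1
  have h4 : ∀ n : ℕ, r ≤ D.a i n → ∃ m < n, D.a i m < r ∧ r ≤ D.a i (m + 1) := by
    intro n
    induction n with
    | zero => intro h; rw [a_zero] at h; linarith
    | succ n ih =>
      intro h
      rcases le_or_gt r (D.a i n) with h5 | h5
      · obtain ⟨m, hm, h6⟩ := ih h5
        exact ⟨m, by omega, h6⟩
      · exact ⟨n, by omega, h5, h⟩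
  obtain ⟨m, hm, h5⟩ := h4 (D.M i) (by rw [a_last]; exact h3)
  exact ⟨i, m, hm, h5⟩

/-- The part of the angle coming from block `i`. -/
noncomputable def ang (c : ℕ → ℕ → (unitInterval → ℂ) → ℝ) (i : ℕ) (r : ℝ)
    (x : unitInterval → ℂ) : ℝ :=
  ∑ m ∈ Finset.range (D.M i), tent (D.a i m) (D.q i) r * c i m x

/-- Its time derivative. -/
noncomputable def ang' (c : ℕ → ℕ → (unitInterval → ℂ) → ℝ) (i : ℕ) (r : ℝ)
    (x : unitInterval → ℂ) : ℝ :=
  ∑ m ∈ Finset.range (D.M i), tent' (D.a i m) (D.q i) r * c i m x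

/-- The angle. -/
noncomputable def tot (c : ℕ → ℕ → (unitInterval → ℂ) → ℝ) (r : ℝ) (x : unitInterval → ℂ) : ℝ :=
  ∑' i, D.ang c i r x

/-- Its time derivative. -/
noncomputable def tot' (c : ℕ → ℕ → (unitInterval → ℂ) → ℝ) (r : ℝ) (x : unitInterval → ℂ) : ℝ :=
  ∑' i, D.ang' c i r x

variable {c : ℕ → ℕ → (unitInterval → ℂ) → ℝ}

theorem ang_ge {i : ℕ} {r : ℝ} (h : D.t i ≤ r) (x : unitInterval → ℂ) :
    D.ang c i r x = 0 ∧ D.ang' c i r x = 0 := by
  constructor
  all_goals
    refine Finset.sum_eq_zero fun m hm => ?_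
    have h1 : D.a i m + 4 * D.q i ≤ r := by
      rw [← D.a_succ]
      exact (D.a_le i (Finset.mem_range.1 hm)).trans h
    first
      | rw [tent_right (D.q_pos i) h1, zero_mul]
      | rw [tent'_right (D.q_pos i) h1, zero_mul]

theorem ang_le {i : ℕ} {r : ℝ} (h : r ≤ D.t (i + 1)) (x : unitInterval → ℂ) :
    D.ang c i r x = 0 ∧ D.ang' c i r x = 0 := by
  constructor
  all_goals
    refine Finset.sum_eq_zero fun m hm => ?_
    have h1 : r ≤ D.a i m + D.q i := by
      have := D.a_ge i m
      linarith [D.q_pos i]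
    first
      | rw [tent_left (D.q_pos i) h1, zero_mul]
      | rw [tent'_left (D.q_pos i) h1, zero_mul]

theorem ang_cell {i m : ℕ} (hm : m < D.M i) {r : ℝ} (h1 : D.a i m < r) (h2 : r ≤ D.a i (m + 1))
    (x : unitInterval → ℂ) : D.ang c i r x = tent (D.a i m) (D.q i) r * c i m x ∧
      D.ang' c i r x = tent' (D.a i m) (D.q i) r * c i m x := by
  have key : ∀ j, j ≠ m → (r ≤ D.a i j + D.q i) ∨ (D.a i j + 4 * D.q i ≤ r) := by
    intro j hj
    rcases lt_or_gt_of_ne hj with h | h
    · right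
      rw [← D.a_succ]
      exact (D.a_mono i (show j + 1 ≤ m by omega)).trans h1.le
    · left
      have := D.a_mono i (show m + 1 ≤ j by omega)
      linarith [D.q_pos i]
  constructor
  · unfold ang
    rw [Finset.sum_eq_single m]
    · intro j _ hj
      rcases key j hj with h | h
      · rw [tent_left (D.q_pos i) h, zero_mul]
      · rw [tent_right (D.q_pos i) h, zero_mul]
    · intro h; exact absurd (Finset.mem_range.2 hm) h
  · unfold ang'
    rw [Finset.sum_eq_single m]
    · intro j _ hj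
      rcases key j hj with h | h
      · rw [tent'_left (D.q_pos i) h, zero_mul]
      · rw [tent'_right (D.q_pos i) h, zero_mul]
    · intro h; exact absurd (Finset.mem_range.2 hm) h

theorem tot_eq_sum {J : ℕ} {r : ℝ} (h : D.t J ≤ r) (x : unitInterval → ℂ) :
    D.tot c r x = ∑ i ∈ Finset.range J, D.ang c i r x ∧
    D.tot' c r x = ∑ i ∈ Finset.range J, D.ang' c i r x := by
  constructor
  · refine tsum_eq_sum fun i hi => (D.ang_ge ?_ x).1
    exact (D.t_anti.antitone (not_lt.1 fun h' => hi (Finset.mem_range.2 h'))).trans h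
  · refine tsum_eq_sum fun i hi => (D.ang_ge ?_ x).2
    exact (D.t_anti.antitone (not_lt.1 fun h' => hi (Finset.mem_range.2 h'))).trans h

theorem tot_block {i : ℕ} {r : ℝ} (h1 : D.t (i + 1) < r) (h2 : r ≤ D.t i) (x : unitInterval → ℂ) :
    D.tot c r x = D.ang c i r x ∧ D.tot' c r x = D.ang' c i r x := by
  have key : ∀ j, j ≠ i → D.ang c j r x = 0 ∧ D.ang' c j r x = 0 := by
    intro j hj
    rcases lt_or_gt_of_ne hj with h | h
    · exact D.ang_le (h2.trans (D.t_anti.antitone (show j + 1 ≤ i by omega))) x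
    · exact D.ang_ge ((D.t_anti.antitone (show i + 1 ≤ j by omega)).trans h1.le) x
  exact ⟨tsum_eq_single i fun j hj => (key j hj).1, tsum_eq_single i fun j hj => (key j hj).2⟩

theorem tot_cell {i m : ℕ} (hm : m < D.M i) {r : ℝ} (h1 : D.a i m < r) (h2 : r ≤ D.a i (m + 1))
    (x : unitInterval → ℂ) : D.tot c r x = tent (D.a i m) (D.q i) r * c i m x ∧
      D.tot' c r x = tent' (D.a i m) (D.q i) r * c i m x := by
  have h3 := D.tot_block (c := c) ((D.a_ge i m).trans_lt h1) (h2.trans (D.a_le i hm)) x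
  have h4 := D.ang_cell (c := c) hm h1 h2 x
  exact ⟨h3.1.trans h4.1, h3.2.trans h4.2⟩

theorem tot_nonpos {r : ℝ} (h : r ≤ 0) (x : unitInterval → ℂ) :
    D.tot c r x = 0 ∧ D.tot' c r x = 0 := by
  have key : ∀ i, D.ang c i r x = 0 ∧ D.ang' c i r x = 0 := fun i =>
    D.ang_le (h.trans (D.t_pos _).le) x
  unfold tot tot'
  simp [key]

theorem tot_ge_one {r : ℝ} (h : 1 ≤ r) (x : unitInterval → ℂ) :
    D.tot c r x = 0 ∧ D.tot' c r x = 0 := by
  have := D.tot_eq_sum (c := c) (J := 0) (r := r) (by rw [D.t_zero]; exact h) x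
  simpa using this

theorem tot_t (n : ℕ) (x : unitInterval → ℂ) : D.tot c (D.t n) x = 0 := by
  rw [(D.tot_block (c := c) (D.t_lt n) le_rfl x).1]
  exact (D.ang_ge le_rfl x).1

theorem hasDerivAt_ang (i : ℕ) (x : unitInterval → ℂ) (r : ℝ) :
    HasDerivAt (fun r => D.ang c i r x) (D.ang' c i r x) r := by
  unfold ang ang'
  exact HasDerivAt.fun_sum fun m _ => (hasDerivAt_tent _ _ r).mul_const _

theorem continuous_ang' (i : ℕ) (x : unitInterval → ℂ) :
    Continuous fun r => D.ang' c i r x := by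
  unfold ang'
  exact continuous_finsetSum _ fun m _ => (continuous_tent' _ _).mul continuous_const

theorem exists_lt {r : ℝ} (hr : 0 < r) : ∃ J, D.t J < r :=
  (D.tendsto_t.eventually_lt_const hr).exists

theorem hasDerivAt_tot (x : unitInterval → ℂ) {r : ℝ} (hr : 0 < r) :
    HasDerivAt (fun r => D.tot c r x) (D.tot' c r x) r := by
  obtain ⟨J, hJ⟩ := D.exists_lt hr
  rw [(D.tot_eq_sum (c := c) hJ.le x).2]
  have h1 : HasDerivAt (fun r => ∑ i ∈ Finset.range J, D.ang c i r x)
      (∑ i ∈ Finset.range J, D.ang' c i r x) r :=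
    HasDerivAt.fun_sum fun i _ => D.hasDerivAt_ang i x r
  refine h1.congr_of_eventuallyEq ?_
  filter_upwards [Ioi_mem_nhds hJ] with s hs
  exact (D.tot_eq_sum (c := c) (le_of_lt hs) x).1

theorem continuousOn_tot' (x : unitInterval → ℂ) :
    ContinuousOn (fun r => D.tot' c r x) (Set.Ioi 0) := by
  intro r hr
  obtain ⟨J, hJ⟩ := D.exists_lt hr
  have h1 : Continuous fun r => ∑ i ∈ Finset.range J, D.ang' c i r x :=
    continuous_finsetSum _ fun i _ => D.continuous_ang' i x
  refine (h1.continuousAt.congr ?_).continuousWithinAt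
  filter_upwards [Ioi_mem_nhds hJ] with s hs
  exact (D.tot_eq_sum (c := c) (le_of_lt hs) x).2.symm

theorem measurable_tot (hc : ∀ i m, Measurable (c i m)) :
    Measurable (fun p : ℝ × (unitInterval → ℂ) => D.tot c p.1 p.2) ∧
    Measurable (fun p : ℝ × (unitInterval → ℂ) => D.tot' c p.1 p.2) := by
  constructor
  · refine measurable_of_tendsto_metrizable (f := fun (J : ℕ) (p : ℝ × (unitInterval → ℂ)) =>
      ∑ i ∈ Finset.range J, D.ang c i p.1 p.2) (fun J => ?_) ?_
    · refine Finset.measurable_fun_sum _ fun i _ => Finset.measurable_fun_sum _ fun m _ => ?_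
      exact ((continuous_tent _ _).measurable.comp measurable_fst).mul
        ((hc i m).comp measurable_snd)
    · rw [tendsto_pi_nhds]
      rintro ⟨r, x⟩
      rcases le_or_gt r 0 with h | h
      · simp only [(D.tot_nonpos h x).1]
        have : ∀ J, ∑ i ∈ Finset.range J, D.ang c i r x = 0 := fun J =>
          Finset.sum_eq_zero fun i _ => (D.ang_le (h.trans (D.t_pos _).le) x).1
        simp only [this]
        exact tendsto_const_nhds
      · obtain ⟨J, hJ⟩ := D.exists_lt h
        refine tendsto_const_nhds.congr' ?_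
        filter_upwards [eventually_ge_atTop J] with J' hJ'
        exact (D.tot_eq_sum (c := c) ((D.t_anti.antitone hJ').trans hJ.le) x).1
  · refine measurable_of_tendsto_metrizable (f := fun (J : ℕ) (p : ℝ × (unitInterval → ℂ)) =>
      ∑ i ∈ Finset.range J, D.ang' c i p.1 p.2) (fun J => ?_) ?_
    · refine Finset.measurable_fun_sum _ fun i _ => Finset.measurable_fun_sum _ fun m _ => ?_
      exact ((continuous_tent' _ _).measurable.comp measurable_fst).mul
        ((hc i m).comp measurable_snd)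
    · rw [tendsto_pi_nhds]
      rintro ⟨r, x⟩
      rcases le_or_gt r 0 with h | h
      · simp only [(D.tot_nonpos h x).2]
        have : ∀ J, ∑ i ∈ Finset.range J, D.ang' c i r x = 0 := fun J =>
          Finset.sum_eq_zero fun i _ => (D.ang_le (h.trans (D.t_pos _).le) x).2
        simp only [this]
        exact tendsto_const_nhds
      · obtain ⟨J, hJ⟩ := D.exists_lt h
        refine tendsto_const_nhds.congr' ?_
        filter_upwards [eventually_ge_atTop J] with J' hJ'
        exact (D.tot_eq_sum (c := c) ((D.t_anti.antitone hJ').trans hJ.le) x).2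

/-- The bound for the time derivative, in block `i`. -/
noncomputable def w (i : ℕ) : ℝ := 8 * sgB 1 / D.q i

theorem w_nonneg (i : ℕ) : 0 ≤ D.w i := by
  unfold w
  have := sgB_nonneg 1
  have := D.q_pos i
  positivity

/-- The bound for the time derivative. -/
noncomputable def hE (r : ℝ) : ℝ≥0∞ :=
  ∑' i, (Set.Ioc (D.t (i + 1)) (D.t i)).indicator (fun _ => ENNReal.ofReal (D.w i)) r

theorem measurable_hE : Measurable D.hE :=
  Measurable.tsum fun _ => measurable_const.indicator measurableSet_Ioc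

theorem hE_le {J : ℕ} {r : ℝ} (h : D.t J ≤ r) :
    D.hE r ≤ ∑ i ∈ Finset.range (J + 1), ENNReal.ofReal (D.w i) := by
  unfold hE
  rw [tsum_eq_sum (s := Finset.range (J + 1))]
  · refine Finset.sum_le_sum fun i _ => ?_
    exact Set.indicator_le_self' (fun _ _ => zero_le) r
  · intro i hi
    rw [indicator_of_notMem]
    rintro ⟨_, h2⟩
    have h3 : J + 1 ≤ i := not_lt.1 fun h' => hi (Finset.mem_range.2 h')
    have h4 := D.t_anti (show J < i by omega)
    linarith

theorem hE_ne_top (r : ℝ) : D.hE r ≠ ∞ := by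
  rcases le_or_gt r 0 with h | h
  · have : D.hE r = 0 := by
      unfold hE
      rw [ENNReal.tsum_eq_zero]
      intro i
      rw [indicator_of_notMem]
      rintro ⟨h1, _⟩
      linarith [D.t_pos (i + 1)]
    rw [this]; simp
  · obtain ⟨J, hJ⟩ := D.exists_lt h
    exact ne_top_of_le_ne_top (by simp) (D.hE_le hJ.le)

theorem le_hE {i : ℕ} {r : ℝ} (h1 : D.t (i + 1) < r) (h2 : r ≤ D.t i) :
    ENNReal.ofReal (D.w i) ≤ D.hE r := by
  unfold hE
  refine le_trans ?_ (ENNReal.le_tsum i)
  have h3 : r ∈ Set.Ioc (D.t (i + 1)) (D.t i) := ⟨h1, h2⟩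
  rw [indicator_of_mem h3]

theorem lintegral_hE : ∫⁻ r in Set.Ioc (0 : ℝ) 1, ENNReal.ofReal (√r * (D.hE r).toReal) ≠ ∞ := by
  have hlt : ∑' i, ENNReal.ofReal (32 * sgB 1 * (√(D.t i) * D.M i)) ≠ ∞ :=
    (D.summ.mul_left (32 * sgB 1)).tsum_ofReal_ne_top
  refine ne_top_of_le_ne_top hlt ?_
  calc ∫⁻ r in Set.Ioc (0 : ℝ) 1, ENNReal.ofReal (√r * (D.hE r).toReal)
      = ∫⁻ r in Set.Ioc (0 : ℝ) 1, ∑' i, (Set.Ioc (D.t (i + 1)) (D.t i)).indicator
          (fun r => ENNReal.ofReal (√r) * ENNReal.ofReal (D.w i)) r := by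
        refine lintegral_congr fun r => ?_
        rw [ENNReal.ofReal_mul (Real.sqrt_nonneg _), ENNReal.ofReal_toReal (D.hE_ne_top r), hE,
          ← ENNReal.tsum_mul_left]
        refine tsum_congr fun i => ?_
        by_cases h : r ∈ Set.Ioc (D.t (i + 1)) (D.t i)
        · rw [indicator_of_mem h, indicator_of_mem h]
        · rw [indicator_of_notMem h, indicator_of_notMem h, mul_zero]
    _ = ∑' i, ∫⁻ r in Set.Ioc (0 : ℝ) 1, (Set.Ioc (D.t (i + 1)) (D.t i)).indicator
          (fun r => ENNReal.ofReal (√r) * ENNReal.ofReal (D.w i)) r := by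
        refine lintegral_tsum fun i => ?_
        refine (Measurable.indicator ?_ measurableSet_Ioc).aemeasurable
        fun_prop
    _ ≤ ∑' i, ENNReal.ofReal (32 * sgB 1 * (√(D.t i) * D.M i)) := by
        refine ENNReal.tsum_le_tsum fun i => ?_
        refine (setLIntegral_le_lintegral _ _).trans ?_
        rw [lintegral_indicator measurableSet_Ioc]
        calc ∫⁻ r in Set.Ioc (D.t (i + 1)) (D.t i), ENNReal.ofReal (√r) * ENNReal.ofReal (D.w i)
            ≤ ∫⁻ r in Set.Ioc (D.t (i + 1)) (D.t i),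
              ENNReal.ofReal (√(D.t i)) * ENNReal.ofReal (D.w i) := by
              refine setLIntegral_mono' measurableSet_Ioc fun r hr => ?_
              gcongr
              exact hr.2
          _ = ENNReal.ofReal (√(D.t i) * D.w i * (D.t i - D.t (i + 1))) := by
              rw [setLIntegral_const, Real.volume_Ioc, ← ENNReal.ofReal_mul (Real.sqrt_nonneg _),
                ← ENNReal.ofReal_mul (mul_nonneg (Real.sqrt_nonneg _) (D.w_nonneg i))]
          _ ≤ _ := by
              refine ENNReal.ofReal_le_ofReal (le_of_eq ?_)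
              have h1 := D.M_pos' i
              have h2 : D.t i - D.t (i + 1) = 4 * D.M i * D.q i := by
                unfold q; field_simp
              have h3 := D.q_pos i
              rw [h2]
              unfold w
              field_simp
              ring

/-- The node `a i m + j q i` of cell `m` in block `i`, as an element of `[0,1]`. -/
noncomputable def tm (i m j : ℕ) : unitInterval :=
  Set.projIcc 0 1 zero_le_one (D.a i m + j * D.q i)

theorem tm_coe {i m j : ℕ} (hm : m < D.M i) (hj : j ≤ 4) :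
    (D.tm i m j : ℝ) = D.a i m + j * D.q i := by
  unfold tm
  rw [Set.projIcc_of_mem]
  have h1 := D.a_pos i m
  have h2 := D.q_pos i
  refine ⟨by positivity, ?_⟩
  have h3 := D.a_le i (Nat.succ_le_of_lt hm)
  rw [Nat.succ_eq_add_one, D.a_succ] at h3
  have h4 : (j : ℝ) ≤ 4 := by exact_mod_cast hj
  have h5 := D.t_le_one i
  nlinarith

/-- The unimodular process `exp(i angle)`. -/
noncomputable def mkAProc (c : ℕ → ℕ → (unitInterval → ℂ) → ℝ) (hc : ∀ i m, Measurable (c i m))
    (hb : ∀ i m x, |c i m x| ≤ 4)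
    (hd : ∀ i m, m < D.M i → DepTo (D.tm i m 1) (c i m)) : AProc where
  F r x := Complex.exp ((D.tot c r x : ℝ) * Complex.I)
  F' r x := Complex.exp ((D.tot c r x : ℝ) * Complex.I) * ((D.tot' c r x : ℝ) * Complex.I)
  h r := (D.hE r).toReal
  norm_F r x := Complex.norm_exp_ofReal_mul_I _
  hasDeriv x r hr := by
    have h1 := D.hasDerivAt_tot (c := c) x hr
    exact ((h1.ofReal_comp.mul_const Complex.I)).cexp
  cont x := by
    have h1 : ContinuousOn (fun r => D.tot c r x) (Set.Ioi 0) := fun r hr =>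
      (D.hasDerivAt_tot (c := c) x hr).continuousAt.continuousWithinAt
    have h2 := D.continuousOn_tot' (c := c) x
    fun_prop
  bound x r hr := by
    rw [norm_mul, Complex.norm_exp_ofReal_mul_I, one_mul, norm_mul, Complex.norm_I, mul_one,
      Complex.norm_real, Real.norm_eq_abs]
    rcases le_or_gt r 1 with h1 | h1
    · obtain ⟨i, m, hm, h2, h3⟩ := D.exists_cell hr h1
      rw [(D.tot_cell (c := c) hm h2 h3 x).2, abs_mul]
      have h4 := D.le_hE (i := i) (r := r) ((D.a_ge i m).trans_lt h2) (h3.trans (D.a_le i hm))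
      rw [ENNReal.ofReal_le_iff_le_toReal (D.hE_ne_top r)] at h4
      refine le_trans ?_ h4
      have h5 := abs_tent'_le (a := D.a i m) (D.q_pos i) r
      have h6 := hb i m x
      have h7 := sgB_nonneg 1
      have h8 := D.q_pos i
      calc |tent' (D.a i m) (D.q i) r| * |c i m x| ≤ (2 * sgB 1 / D.q i) * 4 := by gcongr
        _ = _ := by unfold w; ring
    · rw [(D.tot_ge_one (c := c) h1.le x).2, abs_zero]
      exact ENNReal.toReal_nonneg
  hmeas := D.measurable_hE.ennreal_toReal
  hloc u hu := by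
    obtain ⟨J, hJ⟩ := D.exists_lt hu
    refine ⟨(∑ i ∈ Finset.range (J + 1), ENNReal.ofReal (D.w i)).toReal, fun r hr => ?_⟩
    exact ENNReal.toReal_mono (by simp) (D.hE_le (hJ.le.trans hr))
  hint := D.lintegral_hE
  measF := by
    have h1 := (D.measurable_tot hc).1
    fun_prop
  measF' := by
    have h1 := (D.measurable_tot hc).1
    have h2 := (D.measurable_tot hc).2
    fun_prop
  dep r x y hxy := by
    change Complex.exp ((D.tot c r x : ℝ) * Complex.I) =
      Complex.exp ((D.tot c r y : ℝ) * Complex.I)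
    rcases r.2.1.eq_or_lt with h0 | h0
    · rw [← h0, (D.tot_nonpos (c := c) le_rfl x).1, (D.tot_nonpos (c := c) le_rfl y).1]
    · obtain ⟨i, m, hm, h2, h3⟩ := D.exists_cell h0 r.2.2
      rw [(D.tot_cell (c := c) hm h2 h3 x).1, (D.tot_cell (c := c) hm h2 h3 y).1]
      rcases le_or_gt (r : ℝ) (D.a i m + D.q i) with h4 | h4
      · rw [tent_left (D.q_pos i) h4]
        simp
      · have h5 : D.tm i m 1 ≤ r := by
          change (D.tm i m 1 : ℝ) ≤ r
          rw [D.tm_coe hm (by norm_num)]
          push_cast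
          linarith
        rw [(hd i m hm).mono h5 x y hxy]
  one := ⟨D.t, fun n => ⟨D.t_pos n, D.t_le_one n⟩, D.tendsto_t, fun n x => by
    rw [D.tot_t]; simp⟩

end TimeData

end Pool.Agent.Lib.UdB
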