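import Pool.Agent.Lib.UdB.Gauss

/-!
# Uniqueness of the Wiener measure; resampling, concatenation, rotation
-/

set_option autoImplicit false
set_option linter.unusedSectionVars false

open MeasureTheory
open scoped ENNReal InnerProductSpace

namespace Pool.Agent.Lib.UdB

variable {V : Type} [NormedAddCommGroup V] [InnerProductSpace ℝ V] [FiniteDimensional ℝ V]
  [MeasurableSpace V] [BorelSpace V]

theorem measurable_char (c : unitInterval →₀ V) :
    Measurable fun x : unitInterval → V => Complex.exp ((pair c x : ℝ) * Complex.I) := by
  have := measurable_pair c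
  fun_prop

theorem norm_char (c : unitInterval →₀ V) (x : unitInterval → V) :
    ‖Complex.exp ((pair c x : ℝ) * Complex.I)‖ = 1 :=
  Complex.norm_exp_ofReal_mul_I _

/-- Two probability measures on raw paths with the same finite dimensional characteristic functions
are equal. -/
theorem ext_raw {μ₁ μ₂ : Measure (unitInterval → V)} [IsProbabilityMeasure μ₁]
    [IsProbabilityMeasure μ₂]
    (h : ∀ c : unitInterval →₀ V, ∫ x, Complex.exp ((pair c x : ℝ) * Complex.I) ∂μ₁ =
      ∫ x, Complex.exp ((pair c x : ℝ) * Complex.I) ∂μ₂) : μ₁ = μ₂ := by
  have hm : ∀ I : Finset unitInterval,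
      Measurable (I.restrict : (unitInterval → V) → (I → V)) := fun I =>
    Finset.measurable_restrict I
  have hfin : ∀ I : Finset unitInterval, μ₂.map I.restrict = μ₁.map I.restrict := by
    intro I
    have := Measure.isProbabilityMeasure_map (μ := μ₁) (hm I).aemeasurable
    have := Measure.isProbabilityMeasure_map (μ := μ₂) (hm I).aemeasurable
    apply Measure.ext_of_charFunDual
    ext L
    rw [charFunDual_apply, charFunDual_apply, integral_map (hm I).aemeasurable,
      integral_map (hm I).aemeasurable]
    · let v : I → V := fun t => (InnerProductSpace.toDual ℝ V).symm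
        (L.comp (ContinuousLinearMap.single ℝ (fun _ : I => V) t))
      let c : unitInterval →₀ V := ∑ t : I, Finsupp.single (t : unitInterval) (v t)
      have hc : ∀ x : unitInterval → V, L (I.restrict x) = pair c x := by
        intro x
        have h1 : pair c x = ∑ t : I, ⟪v t, x t⟫_ℝ := by
          have h2 : ∀ S : Finset I, pair (∑ t ∈ S, Finsupp.single (t : unitInterval) (v t)) x =
              ∑ t ∈ S, ⟪v t, x t⟫_ℝ := by
            intro S
            induction S using Finset.induction_on with
            | empty => simp
            | insert a S ha ih => rw [Finset.sum_insert ha, pair_add, ih, Finset.sum_insert ha,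
                pair_single]
          exact h2 Finset.univ
        rw [h1]
        have h3 : (I.restrict x) = ∑ t : I, Pi.single t (x t) := by
          rw [Finset.univ_sum_single (fun t : I => x t)]
          rfl
        rw [h3, map_sum]
        refine Finset.sum_congr rfl fun t _ => ?_
        simp only [v, InnerProductSpace.toDual_symm_apply]
        rfl
      simp only [hc]
      exact (h c).symm
    · exact (Continuous.measurable (by fun_prop)).aestronglyMeasurable
    · exact (Continuous.measurable (by fun_prop)).aestronglyMeasurable
  have := fun I : Finset unitInterval =>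
    Measure.isProbabilityMeasure_map (μ := μ₁) (hm I).aemeasurable
  exact IsProjectiveLimit.unique (P := fun I : Finset unitInterval => μ₁.map I.restrict)
    (fun I => rfl) hfin

theorem IsWR.ext {ν : Measure (unitInterval → V)} (hν : IsWR ν) {μ : Measure (unitInterval → V)}
    [IsProbabilityMeasure μ]
    (h : ∀ c : unitInterval →₀ V, ∫ x, Complex.exp ((pair c x : ℝ) * Complex.I) ∂μ =
      Complex.exp (-(Qf c : ℝ) / 2)) : μ = ν := by
  have := hν.prob
  apply ext_raw
  intro c
  rw [h, hν.char]

/-- A criterion for measure preservation. -/
theorem IsWR.mp_prod {ν : Measure (unitInterval → V)} (hν : IsWR ν) {β : Type}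
    [MeasurableSpace β] {μ : Measure β} [IsProbabilityMeasure μ]
    (Φ : (unitInterval → V) × β → (unitInterval → V)) (hΦ : Measurable Φ)
    (A : (unitInterval →₀ V) → (unitInterval →₀ V)) (ψ : (unitInterval →₀ V) → β → ℝ)
    (q : (unitInterval →₀ V) → ℝ)
    (hψ : ∀ c, ∫ y, Complex.exp ((ψ c y : ℝ) * Complex.I) ∂μ = Complex.exp (-(q c : ℝ) / 2))
    (h1 : ∀ c x y, pair c (Φ (x, y)) = pair (A c) x + ψ c y)
    (h2 : ∀ c, Qf (A c) + q c = Qf c) : MeasurePreserving Φ (ν.prod μ) ν := by
  have := hν.prob
  have := Measure.isProbabilityMeasure_map (μ := ν.prod μ) hΦ.aemeasurable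
  refine ⟨hΦ, hν.ext fun c => ?_⟩
  rw [integral_map hΦ.aemeasurable (measurable_char c).aestronglyMeasurable]
  have h3 : ∀ z : (unitInterval → V) × β, Complex.exp ((pair c (Φ z) : ℝ) * Complex.I) =
      Complex.exp ((pair (A c) z.1 : ℝ) * Complex.I) * Complex.exp ((ψ c z.2 : ℝ) * Complex.I) := by
    rintro ⟨x, y⟩
    rw [h1, ← Complex.exp_add]
    congr 1
    push_cast
    ring
  simp only [h3]
  rw [integral_prod_mul (fun x => Complex.exp ((pair (A c) x : ℝ) * Complex.I))
    (fun y => Complex.exp ((ψ c y : ℝ) * Complex.I)), hν.char, hψ, ← Complex.exp_add]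
  congr 1
  rw [← h2 c]
  push_cast
  ring

/-- A criterion for measure preservation. -/
theorem IsWR.mp {ν : Measure (unitInterval → V)} (hν : IsWR ν)
    (Φ : (unitInterval → V) → (unitInterval → V)) (hΦ : Measurable Φ)
    (A : (unitInterval →₀ V) → (unitInterval →₀ V))
    (h1 : ∀ c x, pair c (Φ x) = pair (A c) x)
    (h2 : ∀ c, Qf (A c) = Qf c) : MeasurePreserving Φ ν ν := by
  have := hν.prob
  have := Measure.isProbabilityMeasure_map (μ := ν) hΦ.aemeasurable
  refine ⟨hΦ, hν.ext fun c => ?_⟩
  rw [integral_map hΦ.aemeasurable (measurable_char c).aestronglyMeasurable]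
  simp only [h1]
  rw [hν.char, h2]

/-- The path `t ↦ ∫₀ᵗ theta d`. -/
noncomputable def kpath (d : unitInterval →₀ V) (t : unitInterval) : V :=
  ∫ s in Set.Iic t, theta d s

theorem integrable_theta (d : unitInterval →₀ V) :
    Integrable (theta d) (volume : Measure unitInterval) :=
  (memLp_theta d 1).integrable le_rfl

theorem pair_kpath (c d : unitInterval →₀ V) : pair c (kpath d) = Bf c d := by
  induction c using Finsupp.induction_linear with
  | zero => simp [Bf, theta]
  | add c c' hc hc' => rw [pair_add, hc, hc', Bf_add_left]
  | single t v =>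
    rw [pair_single, kpath, ← integral_inner (integrable_theta d).integrableOn, Bf,
      ← integral_indicator measurableSet_Iic]
    refine integral_congr_ae (Filter.Eventually.of_forall fun s => ?_)
    simp only [Set.indicator, theta_single, Set.mem_Iic]
    split_ifs <;> simp

theorem kpath_eq_theta (d : unitInterval →₀ V) (v : V) (t : unitInterval) :
    ⟪v, kpath d t⟫_ℝ = Bf (Finsupp.single t v) d := by
  rw [← pair_kpath, pair_single]

theorem integral_exp_gaussian (t : ℝ) :
    ∫ y, Complex.exp (((y * t : ℝ) : ℂ) * Complex.I) ∂(ProbabilityTheory.gaussianReal 0 1) =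
      Complex.exp (-((t ^ 2 : ℝ) : ℂ) / 2) := by
  have h := ProbabilityTheory.charFun_gaussianReal (μ := 0) (v := 1) t
  rw [charFun_apply_real] at h
  have h1 : ∀ y : ℝ, Complex.exp (((y * t : ℝ) : ℂ) * Complex.I) =
      Complex.exp ((t : ℂ) * y * Complex.I) := by
    intro y; congr 1; push_cast; ring
  simp only [h1]
  rw [h]
  congr 1
  push_cast
  simp
  ring

/-- Resampling of the standard Gaussian variable `pair d`. -/
noncomputable def resample (d : unitInterval →₀ V) (z : (unitInterval → V) × ℝ) :
    unitInterval → V := z.1 + (z.2 - pair d z.1) • kpath d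

theorem measurable_resample (d : unitInterval →₀ V) : Measurable (resample d) := by
  have := measurable_pair d
  unfold resample
  refine measurable_pi_lambda _ fun t => ?_
  simp only [Pi.add_apply, Pi.smul_apply]
  have h1 : Measurable fun z : (unitInterval → V) × ℝ => z.1 t :=
    (measurable_pi_apply t).comp measurable_fst
  have h2 : Measurable fun z : (unitInterval → V) × ℝ => z.2 - pair d z.1 :=
    measurable_snd.sub (this.comp measurable_fst)
  exact h1.add (h2.smul_const _)

theorem IsWR.resample {ν : Measure (unitInterval → V)} (hν : IsWR ν) {d : unitInterval →₀ V}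
    (hd : Qf d = 1) :
    MeasurePreserving (resample d) (ν.prod (ProbabilityTheory.gaussianReal 0 1)) ν := by
  refine hν.mp_prod _ (measurable_resample d) (fun c => c - (Bf c d) • d)
    (fun c y => y * Bf c d) (fun c => Bf c d ^ 2) (fun c => integral_exp_gaussian _) ?_ ?_
  · intro c x y
    simp only [UdB.resample]
    rw [pair_apply_add, pair_apply_smul, pair_sub, pair_smul, pair_kpath]
    ring
  · intro c
    rw [Qf_sub_smul, hd]
    ring

/-- Concatenation of the path `x` on `[0,u]` and of the increments of `y` after `u`. -/
def conc (u : unitInterval) (z : (unitInterval → V) × (unitInterval → V)) : unitInterval → V :=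
  fun t => z.1 (min t u) + (z.2 t - z.2 (min t u))

theorem measurable_conc (u : unitInterval) :
    Measurable (conc u : (unitInterval → V) × (unitInterval → V) → _) := by
  unfold conc
  refine measurable_pi_lambda _ fun t => ?_
  exact ((measurable_pi_apply _).comp measurable_fst).add
    (((measurable_pi_apply _).comp measurable_snd).sub
      ((measurable_pi_apply _).comp measurable_snd))

theorem theta_mapDomain (u : unitInterval) (c : unitInterval →₀ V) (s : unitInterval) :
    theta (c.mapDomain fun t => min t u) s = if s ≤ u then theta c s else 0 := by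
  induction c using Finsupp.induction_linear with
  | zero => simp [theta]
  | add c c' hc hc' =>
    rw [Finsupp.mapDomain_add, theta_add, hc, hc', theta_add]
    split_ifs <;> simp
  | single t v =>
    rw [Finsupp.mapDomain_single, theta_single, theta_single]
    by_cases h1 : s ≤ u <;> by_cases h2 : s ≤ t <;> simp [h1, h2]

theorem IsWR.conc {ν : Measure (unitInterval → V)} (hν : IsWR ν) (u : unitInterval) :
    MeasurePreserving (conc u) (ν.prod ν) ν := by
  have := hν.prob
  refine hν.mp_prod _ (measurable_conc u) (fun c => c.mapDomain fun t => min t u)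
    (fun c y => pair (c - c.mapDomain fun t => min t u) y)
    (fun c => Qf (c - c.mapDomain fun t => min t u)) (fun c => hν.char _) ?_ ?_
  · intro c x y
    rw [pair_sub]
    induction c using Finsupp.induction_linear with
    | zero => simp
    | add c c' hc hc' =>
      rw [pair_add, hc, hc', Finsupp.mapDomain_add, pair_add, pair_add, pair_add]
      ring
    | single t v =>
      rw [Finsupp.mapDomain_single, pair_single, pair_single, pair_single, pair_single]
      simp only [UdB.conc, inner_add_right, inner_sub_right]
  · intro c
    have h : ∀ s, ⟪theta c s, theta c s⟫_ℝ =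
        ⟪theta (c.mapDomain fun t => min t u) s, theta (c.mapDomain fun t => min t u) s⟫_ℝ +
        ⟪theta (c - c.mapDomain fun t => min t u) s,
          theta (c - c.mapDomain fun t => min t u) s⟫_ℝ := by
      intro s
      rw [theta_sub, theta_mapDomain]
      split_ifs <;> simp
    unfold Qf Bf
    simp only [h]
    rw [integral_add (integrable_inner_theta _ _) (integrable_inner_theta _ _)]

end Pool.Agent.Lib.UdB
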